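import Pool.Agent.GRB.Hen

/-!
# GRB/Cpt2: extension of sparse sets to Laman graphs

PROOF of `sparse_extend`. Choose a sparse family `L ⊇ B` of pairs with the largest number of members. Let `A` be a rigid
set (`Rig L A`) with the largest cardinality (a pair is rigid or can be added). Suppose `z ∉ A`. Choose `a ≠ b` in
`A`. Each of the pairs `{z,a}`, `{z,b}` is in a rigid set: it is a member of `L`, or it is not and
`insert {z,a} L` is not sparse, which gives a rigid set containing it (as in `GRA.maxSparse_cover`). By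
`GRA.Rig.triangle` the union is rigid, contradiction. So `A = univ` and `|L| = 2n - 3`.
-/

namespace Pool.Agent.GRB

open Finset Pool.Agent.GRA

variable {α : Type} [DecidableEq α] [Fintype α]

omit [Fintype α] in
private theorem sIn_card_C2 {I : Finset (Finset α)} (hI : IsG I) (X : Finset α) :
    sIn I X = ((I.filter (fun e => e ⊆ X)).card : ℤ) := by
  unfold sIn
  have h : ∀ e ∈ I.filter (fun e => e ⊆ X), w e = 1 := by
    intro e he
    unfold w
    rw [hI e (mem_filter.1 he).1]
    norm_num
  rw [sum_congr rfl h]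
  simp

theorem sparse_extend {B : Finset (Finset α)} (hB : IsG B) (hs : Sparse B)
    (hn : 2 ≤ Fintype.card α) :
    ∃ L, B ⊆ L ∧ IsG L ∧ Sparse L ∧ L.card + 3 = 2 * Fintype.card α := by
  classical
  obtain ⟨L, hL, hmax⟩ := exists_max_image
    (((univ : Finset α).powersetCard 2).powerset.filter (fun L => B ⊆ L ∧ Sparse L)) card
    ⟨B, mem_filter.2 ⟨mem_powerset.2 (fun e he => mem_powersetCard.2 ⟨subset_univ _, hB e he⟩),
      subset_rfl, hs⟩⟩
  obtain ⟨hL1, hBL, hLs⟩ := mem_filter.1 hL
  rw [mem_powerset] at hL1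
  have hLG : IsG L := fun e he => (mem_powersetCard.1 (hL1 he)).2
  have hInd := sparse_indep hLG hLs
  have hno : ∀ e : Finset α, e.card = 2 → e ∉ L → ¬ Sparse (insert e L) := by
    intro e he heL hsp
    have h1 := hmax (insert e L) (mem_filter.2 ⟨mem_powerset.2
      (insert_subset (mem_powersetCard.2 ⟨subset_univ _, he⟩) hL1),
      hBL.trans (subset_insert _ _), hsp⟩)
    rw [card_insert_of_notMem heL] at h1
    omega
  have hpair : ∀ x y : α, x ≠ y → ∃ X, Rig L X ∧ x ∈ X ∧ y ∈ X := by
    intro x y hxy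
    obtain ⟨X, hX, heX⟩ : ∃ X, Rig L X ∧ ({x, y} : Finset α) ⊆ X := by
      by_cases heI : ({x, y} : Finset α) ∈ L
      · exact ⟨_, hInd.rig heI, subset_rfl⟩
      · have h1 := hno _ (card_pair hxy) heI
        unfold Sparse at h1
        push Not at h1
        obtain ⟨X, hX2, hX3⟩ := h1
        have h2 := hLs X hX2
        rw [filter_insert] at hX3
        split_ifs at hX3 with h3
        · rw [card_insert_of_notMem (fun hm => heI (mem_filter.1 hm).1)] at hX3
          refine ⟨X, ⟨hX2, ?_⟩, h3⟩
          unfold kk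
          rw [sIn_card_C2 hLG]
          unfold w
          have h4 : (L.filter (fun e => e ⊆ X)).card + 3 = 2 * X.card := by omega
          have h5 : ((L.filter (fun e => e ⊆ X)).card : ℤ) + 3 = 2 * (X.card : ℤ) := by
            exact_mod_cast h4
          linarith
        · omega
    exact ⟨X, hX, heX (by simp), heX (by simp)⟩
  -- the largest rigid set
  have hn' : 1 < Fintype.card α := by omega
  obtain ⟨x, y, hxy⟩ := Fintype.one_lt_card_iff.1 hn'
  obtain ⟨X₀, hX₀, _⟩ := hpair x y hxy
  obtain ⟨A, hA, hAmax⟩ := exists_max_image (univ.filter (fun X : Finset α => Rig L X)) card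
    ⟨X₀, mem_filter.2 ⟨mem_univ _, hX₀⟩⟩
  have hAr : Rig L A := (mem_filter.1 hA).2
  have hAu : A = univ := by
    by_contra hne
    obtain ⟨z, hz⟩ : ∃ z, z ∉ A := by
      by_contra hcon
      push Not at hcon
      exact hne (eq_univ_iff_forall.2 hcon)
    obtain ⟨a, ha, b, hb, hab⟩ := one_lt_card.1 (show 1 < A.card from hAr.1)
    have haz : a ≠ z := fun h => hz (h ▸ ha)
    have hbz : b ≠ z := fun h => hz (h ▸ hb)
    obtain ⟨X, hX, hzX, haX⟩ := hpair z a haz.symm
    obtain ⟨Y, hY, hzY, hbY⟩ := hpair z b hbz.symm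
    have h1 := hAr.triangle hInd hY hX hab haz hbz ha hb hbY hzY hzX haX
    have h2 := hAmax _ (mem_filter.2 ⟨mem_univ _, h1⟩)
    have h3 : A ⊆ A ∪ Y ∪ X := subset_union_left.trans subset_union_left
    have h4 := eq_of_subset_of_card_le h3 h2
    apply hz
    rw [h4]
    exact mem_union_right _ hzX
  refine ⟨L, hBL, hLG, hLs, ?_⟩
  have h1 := hAr.2
  rw [hAu] at h1
  unfold kk w at h1
  rw [sIn_card_C2 hLG, filter_true_of_mem (fun e _ => subset_univ e), card_univ] at h1
  have h2 : (L.card : ℤ) + 3 = 2 * (Fintype.card α : ℤ) := by linarith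
  exact_mod_cast h2

end Pool.Agent.GRB
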