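import Pool.Agent.GRB.Hen
import Pool.Agent.GRB.Row

/-!
# GRB/Cpt3: dependent pairs; collinear configurations

PROOF of `dep_const`. `insert g B` is not sparse: some `Z`, `2 ≤ |Z|`, has `|{e ∈ insert g B : e ⊆ Z}| + 3 > 2|Z|`, so
`g ⊆ Z` and `J = {e ∈ B : e ⊆ Z}` has exactly `2|Z| - 3` members. `J` is nonempty (`|Z| ≥ 2`), so `q` is not
constant on `Z` (the row of a member of `J` is not zero). The rows of `J` at `q` are independent and lie in the
annihilator of the three trivial motions of `Z` (translations and the rotation, restricted to `Z`, linearly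
independent since `q` is not constant on `Z`), which has dimension `2|Z| - 3`. So `row q g`, which lies in the
same space, is a linear combination of the rows of `J`, and `ip (row q g) u = 0`.
PROOF of `not_collinear`. If all points of `q` are on the line through `q c ≠ q d`, every `row q e` is in the space of
the `w` with `w x` parallel to `q d - q c` for all `x` and `∑ x, w x = 0`, of dimension `n - 1 < 2n - 4`.
-/

namespace Pool.Agent.GRB

open Finset Pool.Agent.GRA

variable {α : Type} [DecidableEq α] [Fintype α]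

/-- extension by zero from `Z` -/
private def ext0 (Z : Finset α) (w : {x // x ∈ Z} → Fin 2 → ℝ) : Cfg α :=
  fun x i => if h : x ∈ Z then w ⟨x, h⟩ i else 0

private def res0 (Z : Finset α) (w : Cfg α) : {x // x ∈ Z} → Fin 2 → ℝ := fun x => w x.1

private theorem ip_ext_res (q w : Cfg α) {Z e : Finset α} (he : e ⊆ Z) :
    ip (row q e) (ext0 Z (res0 Z w)) = ip (row q e) w := by
  unfold ip
  refine Finset.sum_congr rfl fun x _ => ?_
  by_cases hx : x ∈ e
  · have hZ : x ∈ Z := he hx
    simp only [ext0, res0, dif_pos hZ]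
  · rw [row_supp q hx]
    simp

private def Phi (q : Cfg α) (Z : Finset α) (J : Finset (Finset α)) :
    ({x // x ∈ Z} → Fin 2 → ℝ) →ₗ[ℝ] ({e // e ∈ J} → ℝ) where
  toFun w e := ip (row q e.1) (ext0 Z w)
  map_add' w w' := by
    funext e
    have h1 : ext0 Z (w + w') = ext0 Z w + ext0 Z w' := by
      funext x i
      show (if h : x ∈ Z then (w + w') ⟨x, h⟩ i else 0) =
        (if h : x ∈ Z then w ⟨x, h⟩ i else 0) + (if h : x ∈ Z then w' ⟨x, h⟩ i else 0)
      split_ifs
      · rfl
      · rw [add_zero]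
    rw [h1, ip_add_right]
    rfl
  map_smul' r w := by
    funext e
    have h1 : ext0 Z (r • w) = r • ext0 Z w := by
      funext x i
      show (if h : x ∈ Z then (r • w) ⟨x, h⟩ i else 0) =
        r * (if h : x ∈ Z then w ⟨x, h⟩ i else 0)
      split_ifs
      · rfl
      · rw [mul_zero]
    rw [h1, ip_smul_right]
    rfl

private theorem Phi_apply (q : Cfg α) (Z : Finset α) (J : Finset (Finset α))
    (w : {x // x ∈ Z} → Fin 2 → ℝ) (e : {e // e ∈ J}) :
    Phi q Z J w e = ip (row q e.1) (ext0 Z w) := rfl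

private theorem Phi_res (q : Cfg α) (Z : Finset α) (J : Finset (Finset α))
    (hJ : ∀ e ∈ J, e ⊆ Z) (w : Cfg α) (e : {e // e ∈ J}) :
    Phi q Z J (res0 Z w) e = ip (row q e.1) w := by
  rw [Phi_apply, ip_ext_res q w (hJ e.1 e.2)]

private theorem Phi_surj (q : Cfg α) (Z : Finset α) (J : Finset (Finset α))
    (hJ : ∀ e ∈ J, e ⊆ Z) (hli : RowInd J q) : Function.Surjective (Phi q Z J) := by
  obtain ⟨g, hg⟩ := exists_dual hli
  intro c
  refine ⟨∑ e' : {e // e ∈ J}, c e' • res0 Z (g e'), ?_⟩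
  rw [map_sum]
  funext e
  rw [Finset.sum_apply]
  have h1 : ∀ e' : {e // e ∈ J}, (Phi q Z J (c e' • res0 Z (g e'))) e =
      if e = e' then c e' else 0 := by
    intro e'
    rw [map_smul, Pi.smul_apply, Phi_res q Z J hJ, hg, smul_eq_mul]
    split_ifs <;> simp
  rw [Finset.sum_congr rfl fun e' _ => h1 e', Finset.sum_ite_eq Finset.univ e,
    if_pos (Finset.mem_univ e)]

private theorem rowInd_mono {I J : Finset (Finset α)} (h : J ⊆ I) {q : Cfg α}
    (hli : RowInd I q) : RowInd J q := by
  have h1 := LinearIndependent.comp hli (fun e : {e // e ∈ J} => (⟨e.1, h e.2⟩ : {e // e ∈ I}))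
    (fun e e' he => Subtype.ext (Subtype.mk.inj he))
  exact h1

/-- the trivial motions -/
private def tm (q : Cfg α) (a b c : ℝ) : Cfg α :=
  fun x => ![a - c * q x 1, b + c * q x 0]

private theorem ip_tm (q : Cfg α) (a b c : ℝ) {e : Finset α} (he : e.card = 2) :
    ip (row q e) (tm q a b c) = 0 := by
  obtain ⟨x, y, hxy, rfl⟩ := Finset.card_eq_two.1 he
  rw [ip_row]
  simp only [tm, Matrix.cons_val_zero, Matrix.cons_val_one]
  ring

private theorem finrank_V (Z : Finset α) :
    Module.finrank ℝ ({x // x ∈ Z} → Fin 2 → ℝ) = 2 * Z.card := by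
  rw [Module.finrank_pi_fintype]
  simp [mul_comm]

private theorem trivial_on {q : Cfg α} {Z : Finset α} {J : Finset (Finset α)}
    (hJ : ∀ e ∈ J, e ⊆ Z) (hJ2 : IsG J) (hli : RowInd J q) (hcard : J.card + 3 = 2 * Z.card)
    (hne : J.Nonempty) {u : Cfg α} (hu : ∀ e ∈ J, ip (row q e) u = 0) :
    ∃ a b c : ℝ, ∀ x ∈ Z, u x = tm q a b c x := by
  classical
  -- two different points
  obtain ⟨e₀, he₀⟩ := hne
  obtain ⟨x₀, y₀, hxy, hexy⟩ := Finset.card_eq_two.1 (hJ2 e₀ he₀)
  have hx₀ : x₀ ∈ Z := hJ e₀ he₀ (by rw [hexy]; simp)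
  have hy₀ : y₀ ∈ Z := hJ e₀ he₀ (by rw [hexy]; simp)
  have hq : q x₀ ≠ q y₀ := by
    intro h
    have h1 : row q e₀ = 0 := by
      funext x i
      rw [hexy, row_pair q hxy, h, sub_self]
      simp
    have h2 := LinearIndependent.ne_zero (⟨e₀, he₀⟩ : {e // e ∈ J}) hli
    exact h2 h1
  have hker : Module.finrank ℝ (LinearMap.ker (Phi q Z J)) = 3 := by
    have h1 := LinearMap.finrank_range_add_finrank_ker (Phi q Z J)
    rw [LinearMap.range_eq_top.2 (Phi_surj q Z J hJ hli), finrank_top, finrank_V,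
      Module.finrank_fintype_fun_eq_card, Fintype.card_coe] at h1
    omega
  have hmem : ∀ a b c : ℝ, res0 Z (tm q a b c) ∈ LinearMap.ker (Phi q Z J) := by
    intro a b c
    rw [LinearMap.mem_ker]
    funext e
    rw [Phi_res q Z J hJ, ip_tm q a b c (hJ2 e.1 e.2)]
    rfl
  let T : Fin 3 → LinearMap.ker (Phi q Z J) :=
    ![⟨res0 Z (tm q 1 0 0), hmem 1 0 0⟩, ⟨res0 Z (tm q 0 1 0), hmem 0 1 0⟩,
      ⟨res0 Z (tm q 0 0 1), hmem 0 0 1⟩]
  have hsum : ∀ (c : Fin 3 → ℝ) (x : {x // x ∈ Z}),
      (((∑ i, c i • T i : LinearMap.ker (Phi q Z J)) : {x // x ∈ Z} → Fin 2 → ℝ) x) =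
        tm q (c 0) (c 1) (c 2) x.1 := by
    intro c x
    rw [Fin.sum_univ_three]
    funext i
    fin_cases i
    · simp [T, res0, tm]
      ring
    · simp [T, res0, tm]
  have hT : LinearIndependent ℝ T := by
    rw [Fintype.linearIndependent_iff]
    intro c hc
    have h1 : ∀ x ∈ Z, tm q (c 0) (c 1) (c 2) x = 0 := by
      intro x hx
      rw [← hsum c ⟨x, hx⟩, hc]
      rfl
    have h2 := h1 x₀ hx₀
    have h3 := h1 y₀ hy₀
    have h20 : c 0 - c 2 * q x₀ 1 = 0 := by simpa [tm] using congrFun h2 0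
    have h21 : c 1 + c 2 * q x₀ 0 = 0 := by simpa [tm] using congrFun h2 1
    have h30 : c 0 - c 2 * q y₀ 1 = 0 := by simpa [tm] using congrFun h3 0
    have h31 : c 1 + c 2 * q y₀ 0 = 0 := by simpa [tm] using congrFun h3 1
    have h4 : c 2 = 0 := by
      by_contra h5
      apply hq
      funext i
      fin_cases i
      · show q x₀ 0 = q y₀ 0
        have : c 2 * q x₀ 0 = c 2 * q y₀ 0 := by linarith
        exact mul_left_cancel₀ h5 this
      · show q x₀ 1 = q y₀ 1
        have : c 2 * q x₀ 1 = c 2 * q y₀ 1 := by linarith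
        exact mul_left_cancel₀ h5 this
    rw [h4, zero_mul, sub_zero] at h20
    rw [h4, zero_mul, add_zero] at h21
    intro i
    fin_cases i
    · exact h20
    · exact h21
    · exact h4
  have hspan := hT.span_eq_top_of_card_eq_finrank' (by rw [hker]; rfl)
  have hu' : res0 Z u ∈ LinearMap.ker (Phi q Z J) := by
    rw [LinearMap.mem_ker]
    funext e
    rw [Phi_res q Z J hJ, hu e.1 e.2]
    rfl
  have h5 : (⟨res0 Z u, hu'⟩ : LinearMap.ker (Phi q Z J)) ∈ Submodule.span ℝ (Set.range T) := by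
    rw [hspan]
    exact Submodule.mem_top
  obtain ⟨c, hc⟩ := (Submodule.mem_span_range_iff_exists_fun ℝ).1 h5
  refine ⟨c 0, c 1, c 2, fun x hx => ?_⟩
  rw [← hsum c ⟨x, hx⟩, hc]
  rfl

theorem dep_const {B : Finset (Finset α)} (hB : IsG B) (hs : Sparse B) {g : Finset α}
    (hg : g.card = 2) (hns : ¬ Sparse (insert g B)) {q : Cfg α} (hli : RowInd B q)
    {u : Cfg α} (hu : ∀ e ∈ B, ip (row q e) u = 0) : ip (row q g) u = 0 := by
  classical
  unfold Sparse at hns
  push Not at hns
  obtain ⟨Z, hZ, hZ2⟩ := hns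
  have h1 := hs Z hZ
  have hgZ : g ⊆ Z := by
    by_contra h
    rw [Finset.filter_insert, if_neg h] at hZ2
    omega
  have h2 : ((insert g B).filter (fun e => e ⊆ Z)).card ≤ (B.filter (fun e => e ⊆ Z)).card + 1 := by
    rw [Finset.filter_insert, if_pos hgZ]
    exact Finset.card_insert_le _ _
  have hsub : B.filter (fun e => e ⊆ Z) ⊆ B := Finset.filter_subset _ _
  have hcard : (B.filter (fun e => e ⊆ Z)).card + 3 = 2 * Z.card := by omega
  have hne : (B.filter (fun e => e ⊆ Z)).Nonempty := by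
    rw [← Finset.card_pos]
    omega
  obtain ⟨a, b, c, habc⟩ := trivial_on (q := q) (Z := Z) (J := B.filter (fun e => e ⊆ Z))
    (fun e he => (Finset.mem_filter.1 he).2) (fun e he => hB e (hsub he))
    (rowInd_mono hsub hli) hcard hne (u := u) (fun e he => hu e (hsub he))
  have h3 : ip (row q g) u = ip (row q g) (tm q a b c) := by
    unfold ip
    refine Finset.sum_congr rfl fun x _ => ?_
    by_cases hx : x ∈ g
    · rw [habc x (hgZ hx)]
    · rw [row_supp q hx]
      simp
  rw [h3, ip_tm q a b c hg]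

theorem not_collinear {B : Finset (Finset α)} (hB : IsG B)
    (hcard : B.card + 4 = 2 * Fintype.card α) (hn : 4 ≤ Fintype.card α) {q : Cfg α}
    (hli : RowInd B q) {c d : α} (hcd : q c ≠ q d) : ∃ x, area (q c) (q d) (q x) ≠ 0 := by
  classical
  by_contra hcon
  push Not at hcon
  set D : Fin 2 → ℝ := fun i => q d i - q c i with hD
  have hDpos : 0 < D 0 ^ 2 + D 1 ^ 2 := by
    rcases eq_or_ne (D 0) 0 with h0 | h0
    · rcases eq_or_ne (D 1) 0 with h1 | h1
      · exfalso
        apply hcd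
        funext i
        fin_cases i
        · exact (sub_eq_zero.1 h0).symm
        · exact (sub_eq_zero.1 h1).symm
      · positivity
    · positivity
  let s : α → ℝ := fun x => (D 0 * (q x 0 - q c 0) + D 1 * (q x 1 - q c 1)) / (D 0 ^ 2 + D 1 ^ 2)
  have hs : ∀ x i, q x i - q c i = s x * D i := by
    intro x i
    have h1 : D 0 * (q x 1 - q c 1) - D 1 * (q x 0 - q c 0) = 0 := hcon x
    show q x i - q c i = (D 0 * (q x 0 - q c 0) + D 1 * (q x 1 - q c 1)) / (D 0 ^ 2 + D 1 ^ 2) * D i
    rw [div_mul_eq_mul_div, eq_div_iff hDpos.ne']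
    fin_cases i
    · show (q x 0 - q c 0) * (D 0 ^ 2 + D 1 ^ 2) =
        (D 0 * (q x 0 - q c 0) + D 1 * (q x 1 - q c 1)) * D 0
      linear_combination (- D 1) * h1
    · show (q x 1 - q c 1) * (D 0 ^ 2 + D 1 ^ 2) =
        (D 0 * (q x 0 - q c 0) + D 1 * (q x 1 - q c 1)) * D 1
      linear_combination (D 0) * h1
  have hs' : ∀ x y i, q x i - q y i = (s x - s y) * D i := by
    intro x y i
    have h1 := hs x i
    have h2 := hs y i
    linear_combination h1 - h2
  let σ : (α → ℝ) →ₗ[ℝ] ℝ := ∑ x, LinearMap.proj x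
  have hσ : ∀ w, σ w = ∑ x, w x := fun w => by
    simp [σ]
  have hσs : Function.Surjective σ := by
    intro r
    refine ⟨Pi.single c r, ?_⟩
    rw [hσ]
    simp
  have hker : Module.finrank ℝ (LinearMap.ker σ) + 1 = Fintype.card α := by
    have h1 := LinearMap.finrank_range_add_finrank_ker σ
    rw [LinearMap.range_eq_top.2 hσs, finrank_top, Module.finrank_self,
      Module.finrank_fintype_fun_eq_card] at h1
    omega
  let A : {e // e ∈ B} → LinearMap.ker σ := fun e =>
    ⟨fun z => if z ∈ e.1 then ∑ y ∈ e.1, (s z - s y) else 0, by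
      rw [LinearMap.mem_ker, hσ, Finset.sum_ite_mem, Finset.univ_inter]
      simp only [Finset.sum_sub_distrib, Finset.sum_const, nsmul_eq_mul]
      rw [← Finset.mul_sum, sub_self]⟩
  let Ψ : LinearMap.ker σ →ₗ[ℝ] Cfg α :=
    { toFun := fun w z i => w.1 z * D i
      map_add' := fun w w' => by
        funext z i
        show (w.1 z + w'.1 z) * D i = w.1 z * D i + w'.1 z * D i
        ring
      map_smul' := fun r w => by
        funext z i
        show (r * w.1 z) * D i = r * (w.1 z * D i)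
        ring }
  have hA : LinearIndependent ℝ A := by
    refine LinearIndependent.of_comp Ψ ?_
    have h1 : (Ψ ∘ A) = fun e : {e // e ∈ B} => row q e.1 := by
      funext e z i
      show (if z ∈ e.1 then ∑ y ∈ e.1, (s z - s y) else 0) * D i = row q e.1 z i
      unfold row
      split_ifs
      · rw [Finset.sum_mul]
        exact Finset.sum_congr rfl fun y _ => (hs' z y i).symm
      · rw [zero_mul]
    rw [h1]
    exact hli
  have h2 := hA.fintype_card_le_finrank
  rw [Fintype.card_coe] at h2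
  omega

end Pool.Agent.GRB
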