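import Pool.Agent.GRB.Hen
import Pool.Agent.GRB.Row

/-!
# GRB/Cpt1: compact fibres

PROOF of `sparse_conn`. `B` sparse with `2n - 4` members, `n ≥ 3`. If `L` is nonempty, not everything, and no member
of `B` joins `L` and its complement, then the members of `B` are inside `L` or inside `univ \ L`, so
`|B| ≤ φ |L| + φ (n - |L|)` with `φ 1 = 0`, `φ m = 2m - 3` for `m ≥ 2`, which is at most `2n - 5`. Contradiction.
PROOF of `compact_fibre`. Closed: all conditions are equalities of continuous functions. Bounded: `B` is
connected, every vertex is joined to `c` by a path of members of `B` whose lengths are fixed (the set of the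
vertices `x` for which `{q x : q in the fibre}` is bounded is closed under adjacency, `sparse_conn`).
-/

namespace Pool.Agent.GRB

open Finset Pool.Agent.GRA

variable {α : Type} [DecidableEq α] [Fintype α]

private theorem filter_card_le {B : Finset (Finset α)} (hB : IsG B) (hs : Sparse B)
    (L : Finset α) (hL : L.Nonempty) :
    (B.filter (fun e => e ⊆ L)).card + 3 ≤ 2 * L.card ∨
      (L.card = 1 ∧ (B.filter (fun e => e ⊆ L)).card = 0) := by
  by_cases h2 : 2 ≤ L.card
  · exact Or.inl (hs L h2)
  · right
    have h1 : L.card = 1 := by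
      have := hL.card_pos
      omega
    refine ⟨h1, ?_⟩
    rw [Finset.card_eq_zero, Finset.filter_eq_empty_iff]
    intro e he hsub
    have h3 := Finset.card_le_card hsub
    rw [hB e he] at h3
    omega

theorem sparse_conn {B : Finset (Finset α)} (hB : IsG B) (hs : Sparse B)
    (hcard : B.card + 4 = 2 * Fintype.card α) (hn : 3 ≤ Fintype.card α) {L : Finset α}
    (hL : L.Nonempty) (hcl : ∀ x ∈ L, ∀ y, ({x, y} : Finset α) ∈ B → y ∈ L) : L = univ := by
  by_contra hne
  obtain ⟨M, hM⟩ : ∃ M : Finset α, M = univ \ L := ⟨_, rfl⟩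
  have hMne : M.Nonempty := by
    rw [Finset.nonempty_iff_ne_empty, hM]
    intro h
    apply hne
    exact Finset.univ_subset_iff.1 (Finset.sdiff_eq_empty_iff_subset.1 h)
  have hcardM : L.card + M.card = Fintype.card α := by
    rw [hM, ← Finset.compl_eq_univ_sdiff, Finset.card_add_card_compl]
  have hsub : B ⊆ B.filter (fun e => e ⊆ L) ∪ B.filter (fun e => e ⊆ M) := by
    intro e he
    obtain ⟨x, y, hxy, rfl⟩ := Finset.card_eq_two.1 (hB e he)
    by_cases hx : x ∈ L
    · have hy := hcl x hx y he
      refine Finset.mem_union_left _ (Finset.mem_filter.2 ⟨he, ?_⟩)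
      intro z hz
      simp only [Finset.mem_insert, Finset.mem_singleton] at hz
      rcases hz with rfl | rfl
      · exact hx
      · exact hy
    · have hy : y ∉ L := by
        intro hy
        apply hx
        refine hcl y hy x ?_
        rw [Finset.pair_comm]
        exact he
      refine Finset.mem_union_right _ (Finset.mem_filter.2 ⟨he, ?_⟩)
      intro z hz
      rw [hM]
      simp only [Finset.mem_insert, Finset.mem_singleton] at hz
      rcases hz with rfl | rfl
      · exact Finset.mem_sdiff.2 ⟨Finset.mem_univ _, hx⟩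
      · exact Finset.mem_sdiff.2 ⟨Finset.mem_univ _, hy⟩
  have h1 := (Finset.card_le_card hsub).trans (Finset.card_union_le _ _)
  rcases filter_card_le hB hs L hL with h2 | ⟨h2, h2'⟩ <;>
    rcases filter_card_le hB hs M hMne with h3 | ⟨h3, h3'⟩ <;> omega

theorem compact_fibre {B : Finset (Finset α)} (hB : IsG B) (hs : Sparse B)
    (hcard : B.card + 4 = 2 * Fintype.card α) (hn : 3 ≤ Fintype.card α) (p : Cfg α) (c d : α) :
    IsCompact {q : Cfg α | q c = p c ∧ q d = p d ∧ Eqv B q p} := by
  classical
  apply Metric.isCompact_of_isClosed_isBounded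
  · have h1 : IsClosed {q : Cfg α | q c = p c} :=
      isClosed_eq (continuous_apply c) continuous_const
    have h2 : IsClosed {q : Cfg α | q d = p d} :=
      isClosed_eq (continuous_apply d) continuous_const
    have h3 : IsClosed {q : Cfg α | Eqv B q p} := by
      have h4 : {q : Cfg α | Eqv B q p} = ⋂ (u : α) (v : α) (_ : ({u, v} : Finset α) ∈ B),
          {q : Cfg α | dsq (q u) (q v) = dsq (p u) (p v)} := by
        ext q
        simp only [Set.mem_setOf_eq, Set.mem_iInter]
        rfl
      rw [h4]
      refine isClosed_iInter fun u => isClosed_iInter fun v => isClosed_iInter fun _ => ?_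
      refine isClosed_eq ?_ continuous_const
      unfold dsq
      fun_prop
    exact h1.inter (h2.inter h3)
  · obtain ⟨F, hF⟩ : ∃ F, F = {q : Cfg α | q c = p c ∧ q d = p d ∧ Eqv B q p} := ⟨_, rfl⟩
    rw [← hF]
    have hall : univ.filter (fun x : α => ∃ R : ℝ, ∀ q ∈ F, ∀ i, |q x i| ≤ R) = univ := by
      refine sparse_conn hB hs hcard hn ⟨c, Finset.mem_filter.2 ⟨Finset.mem_univ _, ?_⟩⟩ ?_
      · refine ⟨max |p c 0| |p c 1|, fun q hq i => ?_⟩
        rw [hF] at hq
        rw [hq.1]
        fin_cases i
        · exact le_max_left _ _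
        · exact le_max_right _ _
      · intro x hx y hxy
        obtain ⟨R, hR⟩ := (Finset.mem_filter.1 hx).2
        refine Finset.mem_filter.2 ⟨Finset.mem_univ _, R + √(dsq (p x) (p y)), fun q hq i => ?_⟩
        have h1 : dsq (q x) (q y) = dsq (p x) (p y) := by
          rw [hF] at hq
          exact hq.2.2 x y hxy
        have h2 : |q x i - q y i| ≤ √(dsq (p x) (p y)) := by
          apply Real.abs_le_sqrt
          rw [← h1]
          unfold dsq
          fin_cases i
          · have := sq_nonneg (q x 1 - q y 1)
            show (q x 0 - q y 0) ^ 2 ≤ _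
            linarith
          · have := sq_nonneg (q x 0 - q y 0)
            show (q x 1 - q y 1) ^ 2 ≤ _
            linarith
        have h3 := hR q hq i
        have h4 : |q y i| ≤ |q x i| + |q x i - q y i| := by
          have h5 : q y i = q x i - (q x i - q y i) := by ring
          conv_lhs => rw [h5]
          exact abs_sub _ _
        linarith
    have hex : ∀ x : α, ∃ R : ℝ, ∀ q ∈ F, ∀ i, |q x i| ≤ R := by
      intro x
      have hx : x ∈ univ.filter (fun x : α => ∃ R : ℝ, ∀ q ∈ F, ∀ i, |q x i| ≤ R) := by
        rw [hall]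
        exact Finset.mem_univ x
      exact (Finset.mem_filter.1 hx).2
    choose R hR using hex
    rw [isBounded_iff_forall_norm_le]
    refine ⟨∑ x, |R x|, fun q hq => ?_⟩
    have h0 : 0 ≤ ∑ x, |R x| := Finset.sum_nonneg fun x _ => abs_nonneg _
    rw [pi_norm_le_iff_of_nonneg h0]
    intro x
    rw [pi_norm_le_iff_of_nonneg h0]
    intro i
    rw [Real.norm_eq_abs]
    refine ((hR x q hq i).trans (le_abs_self _)).trans ?_
    exact Finset.single_le_sum (f := fun x => |R x|) (fun x _ => abs_nonneg _) (Finset.mem_univ x)

end Pool.Agent.GRB
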