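import Pool.Agent.GRA.L2
import Pool.Agent.GRA.S1

/-!
# GRB: generic frameworks in the plane, definitions

Goal of `Pool/Agent/GRB`: the theorem of Jackson and Jordan (globally rigid in the plane iff 3-connected and
redundantly rigid, more than three vertices) for the geometric definitions, without any hypothesis, so that
MP_d7d610_lc.GlobalRigidityAugmentation holds for the geometric definition. See `BLUEPRINT.md`.

Graphs are families `E : Finset (Finset α)` with `IsG E` (all members are pairs) as in `Pool/Agent/GRA`.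
-/

namespace Pool.Agent.GRB

open Finset Pool.Agent.GRA

/-- Configurations: a point of the plane for every vertex. -/
abbrev Cfg (α : Type) : Type := α → Fin 2 → ℝ

/-- Squared distance. -/
def dsq (x y : Fin 2 → ℝ) : ℝ := (x 0 - y 0) ^ 2 + (x 1 - y 1) ^ 2

/-- Twice the signed area of a triangle. -/
def area (x y z : Fin 2 → ℝ) : ℝ :=
  (y 0 - x 0) * (z 1 - x 1) - (y 1 - x 1) * (z 0 - x 0)

variable {α : Type}

/-- Generic configurations: the coordinates are algebraically independent over `ℚ`. -/
def Gen (p : Cfg α) : Prop := AlgebraicIndependent ℚ (fun x : α × Fin 2 => p x.1 x.2)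

variable [DecidableEq α]

/-- All pairs in `E` keep their lengths. -/
def Eqv (E : Finset (Finset α)) (p q : Cfg α) : Prop :=
  ∀ u v, ({u, v} : Finset α) ∈ E → dsq (p u) (p v) = dsq (q u) (q v)

/-- The row of the set `e` (a pair) in the rigidity matrix: for `e = {u, v}` it is `q u - q v` at `u`,
`q v - q u` at `v` and `0` elsewhere. -/
def row (q : Cfg α) (e : Finset α) : Cfg α :=
  fun x i => if x ∈ e then ∑ y ∈ e, (q x i - q y i) else 0

/-- The rows of the members of `I` at `q` are linearly independent. -/
def RowInd (I : Finset (Finset α)) (q : Cfg α) : Prop :=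
  LinearIndependent ℝ (fun e : {e // e ∈ I} => row q e.1)

variable [Fintype α]

/-- The inner product of two configurations. -/
def ip (u v : Cfg α) : ℝ := ∑ x, (u x 0 * v x 0 + u x 1 * v x 1)

/-- `x` and `y` are not separated by two vertices in the graph induced by `E` on `W`. -/
def L3 (E : Finset (Finset α)) (W : Finset α) (x y : α) : Prop :=
  ∀ S : Finset α, S.card ≤ 2 → x ∉ S → y ∉ S → Reach (E.filter (· ⊆ W)) S x y

/-- The set `L` with the two boundary vertices `s, t` separates `a` from `b` in the graph induced by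
`E` on `W`. -/
structure SepAt (E : Finset (Finset α)) (W : Finset α) (a b s t : α) (L : Finset α) : Prop where
  ne : s ≠ t
  LW : L ⊆ W
  aL : a ∈ L
  bW : b ∈ W
  sW : s ∈ W
  tW : t ∈ W
  sL : s ∉ L
  tL : t ∉ L
  bL : b ∉ L
  bs : b ≠ s
  bt : b ≠ t
  closed : Closed (E.filter (· ⊆ W)) {s, t} L

/-- `SepAt` with a smallest possible `L`. -/
def MinSep (E : Finset (Finset α)) (W : Finset α) (a b s t : α) (L : Finset α) : Prop :=
  SepAt E W a b s t L ∧ ∀ s' t' L', SepAt E W a b s' t' L' → L.card ≤ L'.card

/-- The linear reflection with matrix `(r, s; s, -r)`. -/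
def refl (r s : ℝ) (x : Fin 2 → ℝ) : Fin 2 → ℝ := ![r * x 0 + s * x 1, s * x 0 - r * x 1]

/-- The mirror image of `x` in the line through `a` and `b`. -/
noncomputable def mir (a b x : Fin 2 → ℝ) : Fin 2 → ℝ := fun i =>
  a i + refl (((b 0 - a 0) ^ 2 - (b 1 - a 1) ^ 2) / dsq a b)
    (2 * (b 0 - a 0) * (b 1 - a 1) / dsq a b) (fun j => x j - a j) i

end Pool.Agent.GRB
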