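import Pool.Agent.GRB.Rem0

/-!
# GRB/Deg3: vertices of degree three, definitions

`tri E a b c` is `E` with the three pairs of `{a,b,c}` added. `Deg3 E W v a b c`: `v ∈ W` has exactly the neighbours
`a, b, c` in `W`. `exists_deg3`: `card_eq_three`; `v ≠ a` because members of `E` have two elements.
-/

namespace Pool.Agent.GRB

open Finset Pool.Agent.GRA

variable {α : Type} [DecidableEq α] [Fintype α]

/-- Add the three pairs of `a, b, c`. -/
def tri (E : Finset (Finset α)) (a b c : α) : Finset (Finset α) :=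
  E ∪ {{a, b}, {b, c}, {a, c}}

/-- `v` has exactly the three neighbours `a, b, c` in `W`. -/
structure Deg3 (E : Finset (Finset α)) (W : Finset α) (v a b c : α) : Prop where
  vW : v ∈ W
  aW : a ∈ W
  bW : b ∈ W
  cW : c ∈ W
  ab : a ≠ b
  ac : a ≠ c
  bc : b ≠ c
  va : ({v, a} : Finset α) ∈ E
  vb : ({v, b} : Finset α) ∈ E
  vc : ({v, c} : Finset α) ∈ E
  only : ∀ y ∈ W, ({v, y} : Finset α) ∈ E → y = a ∨ y = b ∨ y = c

/-- `W'` is the union of three sets pairwise meeting in one of `a, b, c`. -/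
structure Bodies (F : Finset (Finset α)) (W' : Finset α) (a b c : α) (X Y Z : Finset α) :
    Prop where
  XW : X ⊆ W'
  YW : Y ⊆ W'
  ZW : Z ⊆ W'
  top : W' ⊆ X ∪ Y ∪ Z
  XY : X ∩ Y = {b}
  YZ : Y ∩ Z = {c}
  ZX : Z ∩ X = {a}
  mX : MCon F X
  mY : MCon F Y
  mZ : MCon F Z
  edge : ∀ e ∈ F, e ⊆ W' → e ⊆ X ∨ e ⊆ Y ∨ e ⊆ Z

theorem tri_isG {E : Finset (Finset α)} (hE : IsG E) {a b c : α} (hab : a ≠ b) (hac : a ≠ c)
    (hbc : b ≠ c) : IsG (tri E a b c) := by
  intro e he
  rcases mem_union.1 he with he | he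
  · exact hE e he
  · simp only [mem_insert, mem_singleton] at he
    rcases he with rfl | rfl | rfl
    · exact card_pair hab
    · exact card_pair hbc
    · exact card_pair hac

theorem exists_deg3 {E : Finset (Finset α)} (hE : IsG E) {W : Finset α} {v : α} (hv : v ∈ W)
    (h : (univ.filter (fun y => y ∈ W ∧ ({v, y} : Finset α) ∈ E)).card = 3) :
    ∃ a b c, Deg3 E W v a b c := by
  obtain ⟨a, b, c, hab, hac, hbc, habc⟩ := card_eq_three.1 h
  have hm : ∀ y, y ∈ univ.filter (fun y => y ∈ W ∧ ({v, y} : Finset α) ∈ E) ↔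
      y ∈ W ∧ ({v, y} : Finset α) ∈ E := fun y => by simp
  rw [habc] at hm
  have ha := (hm a).1 (by simp)
  have hb := (hm b).1 (by simp)
  have hc := (hm c).1 (by simp)
  refine ⟨a, b, c, hv, ha.1, hb.1, hc.1, hab, hac, hbc, ha.2, hb.2, hc.2, ?_⟩
  intro y hy hvy
  have h1 := (hm y).2 ⟨hy, hvy⟩
  simpa only [mem_insert, mem_singleton] using h1

end Pool.Agent.GRB
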