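import Pool.Agent.GRB.Deg3

/-!
# GRB/Deg3C: the M-components after the removal of a vertex of degree three

PROOF of `deg3_cases`. `W' = W.erase v`, `F = (tri E a b c).filter (· ⊆ W')`, `Sys F H` (`exists_sys`). Members of
`H` are inside `W'`. Let `X, Y, Z ∈ H` contain `{a,b}`, `{b,c}`, `{a,c}`.
If `X = Y = Z =: K`: `(H \ {K}) ∪ {K ∪ {v}}` covers the members of `E` inside `W` and has weight
`Σ_H w + 2 ≤ w W' + 2 = 2|W| - 3`; by `MCon E W` some member is `W`: `K ∪ {v} = W`, so `K = W'` and `MCon (tri E a b c) W'`.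
If two of them are equal, say `X = Y`, then `a, b, c ∈ X` and `|X ∩ Z| ≥ 2`, so all are equal (`Indep.thin`). So let
the three be distinct: `X ∩ Y = {b}`, `Y ∩ Z = {c}`, `Z ∩ X = {a}` (`Indep.thin`), no common point of all three
(`a, b, c` are distinct). `T = X ∪ Y ∪ Z ∪ {v}`: `|T| = |X| + |Y| + |Z| - 2`, `w T = w X + w Y + w Z + 2`.
`(H \ {X,Y,Z}) ∪ {T}` covers the members of `E` inside `W`, weight `≤ 2|W| - 3`, so `T = W`. Then
`w X + w Y + w Z = w W' ≥ Σ_H w`, so `H = {X, Y, Z}` and every member of `F` is inside one of the three.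
-/

namespace Pool.Agent.GRB

open Finset Pool.Agent.GRA

variable {α : Type} [DecidableEq α] [Fintype α]

private theorem cover_aux {E H S : Finset (Finset α)} (hE : IsG E) {W : Finset α}
    (hM : MCon E W) {v a b c : α} (hD : Deg3 E W v a b c) (h2 : ∀ A ∈ H, 2 ≤ A.card)
    (hH : ∀ A ∈ H, A ⊆ W.erase v) (hcov : ∀ e ∈ E, e ⊆ W.erase v → ∃ X ∈ H, e ⊆ X)
    (hsum : ∑ A ∈ H, w A ≤ w (W.erase v)) (hS : S ⊆ H) {T : Finset α}
    (hT : ∀ A ∈ S, A ⊆ T) (hv : v ∈ T) (ha : a ∈ T) (hb : b ∈ T) (hc : c ∈ T) (hTW : T ⊆ W)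
    (hw : w T ≤ ∑ A ∈ S, w A + 2) : T = W := by
  by_contra hne
  have hva : v ≠ a := by
    intro h
    have := hE _ hD.va
    rw [h] at this
    simp at this
  have hTn : T ∉ H \ S := by
    intro h
    exact (notMem_erase v W) (hH T (mem_sdiff.1 h).1 hv)
  have h := hM (insert T (H \ S)) (fun A hA => ?_) (fun B hB hBW => ?_)
  · rw [sum_insert hTn] at h
    have h3 := sum_sdiff (f := w) hS
    have h4 : (W.erase v).card + 1 = W.card := card_erase_add_one hD.vW
    have h5 : w (W.erase v) = 2 * (W.card : ℤ) - 5 := by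
      unfold w
      rw [← h4]
      push_cast
      ring
    linarith
  · rcases mem_insert.1 hA with rfl | hA
    · refine ⟨?_, hTW, hne⟩
      calc 2 = ({v, a} : Finset α).card := (card_pair hva).symm
        _ ≤ _ := card_le_card (pair_subset.2 ⟨hv, ha⟩)
    · have hAH := (mem_sdiff.1 hA).1
      refine ⟨h2 A hAH, (hH A hAH).trans (erase_subset _ _), ?_⟩
      rintro rfl
      exact (notMem_erase v A) (hH A hAH hD.vW)
  · by_cases hvB : v ∈ B
    · refine ⟨T, mem_insert_self _ _, ?_⟩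
      intro x hx
      by_cases hxv : x = v
      · rw [hxv]
        exact hv
      · have hBe : B = {v, x} := by
          refine (eq_of_subset_of_card_le (pair_subset.2 ⟨hvB, hx⟩) ?_).symm
          rw [hE B hB, card_pair (Ne.symm hxv)]
        rcases hD.only x (hBW hx) (hBe ▸ hB) with h | h | h
        · rw [h]; exact ha
        · rw [h]; exact hb
        · rw [h]; exact hc
    · have hBW' : B ⊆ W.erase v := fun x hx => mem_erase.2 ⟨fun h => hvB (h ▸ hx), hBW hx⟩
      obtain ⟨X, hX, hBX⟩ := hcov B hB hBW'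
      by_cases hXS : X ∈ S
      · exact ⟨T, mem_insert_self _ _, hBX.trans (hT X hXS)⟩
      · exact ⟨X, mem_insert_of_mem (mem_sdiff.2 ⟨hX, hXS⟩), hBX⟩

theorem deg3_cases {E : Finset (Finset α)} (hE : IsG E) {W : Finset α} (hM : MCon E W)
    {v a b c : α} (hD : Deg3 E W v a b c) :
    MCon (tri E a b c) (W.erase v) ∨ ∃ X Y Z, Bodies (tri E a b c) (W.erase v) a b c X Y Z := by
  have hne : ∀ x, ({v, x} : Finset α) ∈ E → x ≠ v := by
    intro x hx h
    have := hE _ hx
    rw [h] at this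
    simp at this
  have haW : a ∈ W.erase v := mem_erase.2 ⟨hne a hD.va, hD.aW⟩
  have hbW : b ∈ W.erase v := mem_erase.2 ⟨hne b hD.vb, hD.bW⟩
  have hcW : c ∈ W.erase v := mem_erase.2 ⟨hne c hD.vc, hD.cW⟩
  have htri := tri_isG hE hD.ab hD.ac hD.bc
  set F := (tri E a b c).filter (· ⊆ W.erase v) with hF
  have hFG : IsG F := fun e he => htri e (mem_filter.1 he).1
  obtain ⟨H, hS⟩ := exists_sys F hFG
  have hH : ∀ A ∈ H, A ⊆ W.erase v := by
    intro A hA
    have h2 := hS.indep.two A hA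
    by_cases h3 : A.card = 2
    · exact (mem_filter.1 (mcon_two hFG (hS.mc A hA) h3)).2
    · intro x hx
      have h4 := mcon_deg hFG (hS.mc A hA) (by omega) hx
      obtain ⟨y, hy⟩ := card_pos.1 (by omega : 0 < (univ.filter
        (fun y => y ∈ A ∧ ({x, y} : Finset α) ∈ F)).card)
      exact (mem_filter.1 (mem_filter.1 hy).2.2).2 (by simp)
  have hcov : ∀ e ∈ E, e ⊆ W.erase v → ∃ X ∈ H, e ⊆ X := fun e he heW =>
    hS.cov e (mem_filter.2 ⟨mem_union_left _ he, heW⟩)
  have hW2 : 2 ≤ (W.erase v).card := by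
    calc 2 = ({a, b} : Finset α).card := (card_pair hD.ab).symm
      _ ≤ _ := card_le_card (pair_subset.2 ⟨haW, hbW⟩)
  have hsum : ∑ A ∈ H, w A ≤ w (W.erase v) := by
    have h1 := hS.indep.nonneg _ hW2
    unfold kk sIn at h1
    rw [filter_true_of_mem hH] at h1
    linarith
  have hmc : ∀ A ∈ H, MCon (tri E a b c) A := fun A hA =>
    mcon_congr (hS.mc A hA) (fun B hB _ => (mem_filter.1 hB).1)
  have htab : ({a, b} : Finset α) ∈ tri E a b c := by simp [tri]
  have htbc : ({b, c} : Finset α) ∈ tri E a b c := by simp [tri]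
  have htac : ({a, c} : Finset α) ∈ tri E a b c := by simp [tri]
  obtain ⟨X, hX, hXs⟩ := hS.cov {a, b} (mem_filter.2 ⟨htab, pair_subset.2 ⟨haW, hbW⟩⟩)
  obtain ⟨Y, hY, hYs⟩ := hS.cov {b, c} (mem_filter.2 ⟨htbc, pair_subset.2 ⟨hbW, hcW⟩⟩)
  obtain ⟨Z, hZ, hZs⟩ := hS.cov {a, c} (mem_filter.2 ⟨htac, pair_subset.2 ⟨haW, hcW⟩⟩)
  rw [pair_subset] at hXs hYs hZs
  by_cases hK : ∃ K ∈ H, a ∈ K ∧ b ∈ K ∧ c ∈ K
  · left
    obtain ⟨K, hKH, hKa, hKb, hKc⟩ := hK
    have hvK : v ∉ K := fun h => notMem_erase v W (hH K hKH h)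
    have hT : insert v K = W := cover_aux hE hM hD hS.indep.two hH hcov hsum
      (S := {K}) (singleton_subset_iff.2 hKH) (fun A hA => by
        rw [mem_singleton.1 hA]
        exact subset_insert _ _) (mem_insert_self _ _) (mem_insert_of_mem hKa)
      (mem_insert_of_mem hKb) (mem_insert_of_mem hKc)
      (insert_subset hD.vW ((hH K hKH).trans (erase_subset _ _))) (by
        rw [sum_singleton, w_insert hvK])
    have hKW : K = W.erase v := by rw [← hT, erase_insert hvK]
    rw [← hKW]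
    exact hmc K hKH
  · right
    have hXY : X ≠ Y := by
      rintro rfl
      exact hK ⟨X, hX, hXs.1, hXs.2, hYs.2⟩
    have hYZ : Y ≠ Z := by
      rintro rfl
      exact hK ⟨Y, hY, hZs.1, hYs.1, hYs.2⟩
    have hZX : Z ≠ X := by
      rintro rfl
      exact hK ⟨Z, hZ, hXs.1, hXs.2, hZs.2⟩
    have one : ∀ {A B : Finset α} {x : α}, A ∈ H → B ∈ H → A ≠ B → x ∈ A → x ∈ B →
        A ∩ B = {x} := by
      intro A B x hA hB hAB hxA hxB
      refine (eq_of_subset_of_card_le (singleton_subset_iff.2 (mem_inter.2 ⟨hxA, hxB⟩)) ?_).symm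
      rw [card_singleton]
      exact hS.indep.thin hA hB hAB
    have iXY := one hX hY hXY hXs.2 hYs.1
    have iYZ := one hY hZ hYZ hYs.2 hZs.2
    have iZX := one hZ hX hZX hZs.1 hXs.1
    have hcard : (X ∪ Y ∪ Z).card + 3 = X.card + Y.card + Z.card := by
      have h1 := card_union_add_card_inter X Y
      have h2 := card_union_add_card_inter (X ∪ Y) Z
      have h3 : (X ∪ Y) ∩ Z = {a, c} := by
        rw [union_inter_distrib_right, inter_comm X Z, iZX, iYZ]
        rfl
      rw [iXY, card_singleton] at h1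
      rw [h3, card_pair hD.ac] at h2
      omega
    have hwU : w (X ∪ Y ∪ Z) = w X + w Y + w Z := by
      unfold w
      have h1 : ((X ∪ Y ∪ Z).card : ℤ) + 3 = X.card + Y.card + Z.card := by exact_mod_cast hcard
      linarith
    have hUW : X ∪ Y ∪ Z ⊆ W.erase v := union_subset (union_subset (hH X hX) (hH Y hY)) (hH Z hZ)
    have hvU : v ∉ X ∪ Y ∪ Z := fun h => notMem_erase v W (hUW h)
    have hsum3 : ∑ A ∈ ({X, Y, Z} : Finset (Finset α)), w A = w X + w Y + w Z := by
      rw [sum_insert, sum_pair hYZ]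
      · ring
      · simp only [mem_insert, mem_singleton, not_or]
        exact ⟨hXY, fun h => hZX h.symm⟩
    have hsub3 : ({X, Y, Z} : Finset (Finset α)) ⊆ H := by
      intro A hA
      simp only [mem_insert, mem_singleton] at hA
      rcases hA with rfl | rfl | rfl <;> assumption
    have hT : insert v (X ∪ Y ∪ Z) = W := cover_aux hE hM hD hS.indep.two hH hcov hsum
      (S := {X, Y, Z}) hsub3 (fun A hA => by
        simp only [mem_insert, mem_singleton] at hA
        rcases hA with rfl | rfl | rfl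
        · exact (subset_union_left.trans subset_union_left).trans (subset_insert _ _)
        · exact (subset_union_right.trans subset_union_left).trans (subset_insert _ _)
        · exact subset_union_right.trans (subset_insert _ _)) (mem_insert_self _ _)
      (mem_insert_of_mem (mem_union_left _ (mem_union_left _ hXs.1)))
      (mem_insert_of_mem (mem_union_left _ (mem_union_left _ hXs.2)))
      (mem_insert_of_mem (mem_union_right _ hZs.2))
      (insert_subset hD.vW (hUW.trans (erase_subset _ _))) (by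
        rw [hsum3, w_insert hvU, hwU])
    have hUe : X ∪ Y ∪ Z = W.erase v := by rw [← hT, erase_insert hvU]
    have hHeq : H ⊆ {X, Y, Z} := by
      intro A hA
      by_contra hA3
      have h1 : A ∈ H \ {X, Y, Z} := mem_sdiff.2 ⟨hA, hA3⟩
      have h2 := sum_sdiff (f := w) hsub3
      have h3 : w A ≤ ∑ B ∈ H \ {X, Y, Z}, w B :=
        single_le_sum (f := w) (fun B hB => by
          have := hS.indep.w_pos (mem_sdiff.1 hB).1
          linarith) h1
      have h4 := hS.indep.w_pos hA
      rw [← hUe, hwU] at hsum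
      rw [hsum3] at h2
      linarith
    refine ⟨X, Y, Z, hH X hX, hH Y hY, hH Z hZ, hUe.ge, iXY, iYZ, iZX, hmc X hX, hmc Y hY,
      hmc Z hZ, fun e he heW => ?_⟩
    obtain ⟨A, hA, heA⟩ := hS.cov e (mem_filter.2 ⟨he, heW⟩)
    have hA3 := hHeq hA
    simp only [mem_insert, mem_singleton] at hA3
    rcases hA3 with rfl | rfl | rfl
    · exact Or.inl heA
    · exact Or.inr (Or.inl heA)
    · exact Or.inr (Or.inr heA)

end Pool.Agent.GRB
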