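import Pool.Agent.GRB.Deg3

/-!
# GRB/Deg3L: a Laman graph on the rest

`W' = W.erase v`.
PROOF of `deg3_laman`. Let `I` be a maximal sparse subset of `E.filter (· ⊆ W')` (`exists_maxSparse`), `M` its cover
of weight `|I|` (`maxSparse_cover`). The traces `A ∩ W'` with at least two elements and the three pairs
`{v,a}, {v,b}, {v,c}` cover the members of `E` inside `W` by proper subsets of `W`, so `|I| + 3 ≥ 2|W| - 2`, i.e.
`|I| ≥ 2|W'| - 3`; `≤` is `Sparse` for `W'`.
-/

namespace Pool.Agent.GRB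

open Finset Pool.Agent.GRA

variable {α : Type} [DecidableEq α] [Fintype α]

private theorem d3l_sum_image {s : Finset (Finset α)} {f : Finset α → Finset α}
    (h : ∀ A ∈ s, 0 ≤ w (f A)) : ∑ T ∈ s.image f, w T ≤ ∑ A ∈ s, w (f A) := by
  induction s using Finset.induction_on with
  | empty => simp
  | insert a s ha ih =>
    have ih' := ih (fun A hA => h A (mem_insert_of_mem hA))
    have h0 := h a (mem_insert_self _ _)
    rw [image_insert, sum_insert ha]
    by_cases hm : f a ∈ s.image f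
    · rw [insert_eq_of_mem hm]
      linarith
    · rw [sum_insert hm]
      linarith

private theorem d3l_union {s t : Finset (Finset α)} (h : ∀ A ∈ t, 0 ≤ w A) :
    ∑ A ∈ s ∪ t, w A ≤ ∑ A ∈ s, w A + ∑ A ∈ t, w A := by
  have h1 : ∑ A ∈ s ∪ t, w A = ∑ A ∈ s, w A + ∑ A ∈ t \ s, w A := by
    rw [← sum_union disjoint_sdiff, union_sdiff_self_eq_union]
  have h2 : ∑ A ∈ t \ s, w A ≤ ∑ A ∈ t, w A :=
    sum_le_sum_of_subset_of_nonneg sdiff_subset (fun A hA _ => h A hA)
  linarith

theorem deg3_laman {E : Finset (Finset α)} (hE : IsG E) {W : Finset α} (hM : MCon E W)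
    {v a b c : α} (hD : Deg3 E W v a b c) :
    ∃ I ⊆ E, (∀ e ∈ I, e ⊆ W.erase v) ∧ Sparse I ∧ I.card + 3 = 2 * (W.erase v).card := by
  have hF : IsG (E.filter (· ⊆ W.erase v)) := fun e he => hE e (mem_filter.1 he).1
  have hne : ∀ {x : α}, ({v, x} : Finset α) ∈ E → v ≠ x := by
    rintro x hx rfl
    have := hE _ hx
    simp at this
  have hva := hne hD.va
  have hvb := hne hD.vb
  have hvc := hne hD.vc
  obtain ⟨I, hI⟩ := exists_maxSparse (E.filter (· ⊆ W.erase v))
  obtain ⟨M, hM2, hMc, hMw⟩ := maxSparse_cover hF hI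
  have hIW : ∀ e ∈ I, e ⊆ W.erase v := fun e he => (mem_filter.1 (hI.1 he)).2
  have hW2 : 2 ≤ (W.erase v).card := by
    rw [← card_pair hD.ab]
    exact card_le_card (pair_subset.2 ⟨mem_erase.2 ⟨hva.symm, hD.aW⟩,
      mem_erase.2 ⟨hvb.symm, hD.bW⟩⟩)
  have hup := hI.2.1 _ hW2
  rw [filter_true_of_mem hIW] at hup
  have hWc : (W.erase v).card + 1 = W.card := card_erase_add_one hD.vW
  refine ⟨I, fun e he => (mem_filter.1 (hI.1 he)).1, hIW, hI.2.1, le_antisymm hup ?_⟩
  have hpairs : ∀ y z : α, ({v, y} : Finset α) ∈ E → y ∈ W → z ∈ W → v ≠ z → y ≠ z →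
      2 ≤ ({v, y} : Finset α).card ∧ ({v, y} : Finset α) ⊆ W ∧ ({v, y} : Finset α) ≠ W := by
    intro y z h1 h2 h3 h4 h5
    refine ⟨(hE _ h1).ge, pair_subset.2 ⟨hD.vW, h2⟩, fun h => ?_⟩
    rw [← h] at h3
    simp only [mem_insert, mem_singleton] at h3
    rcases h3 with h3 | h3
    · exact h4 h3.symm
    · exact h5 h3.symm
  have h1 := hM (((M.filter (fun A => 2 ≤ (A ∩ W.erase v).card)).image (fun A => A ∩ W.erase v)) ∪
      {{v, a}, {v, b}, {v, c}}) (by
    intro A hA
    rcases mem_union.1 hA with hA | hA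
    · obtain ⟨X, hX, rfl⟩ := mem_image.1 hA
      obtain ⟨hXM, hX2⟩ := mem_filter.1 hX
      refine ⟨hX2, inter_subset_right.trans (erase_subset _ _), fun h => ?_⟩
      have h3 : v ∈ X ∩ W.erase v := by
        rw [h]
        exact hD.vW
      exact (mem_erase.1 (mem_inter.1 h3).2).1 rfl
    · simp only [mem_insert, mem_singleton] at hA
      rcases hA with rfl | rfl | rfl
      · exact hpairs a b hD.va hD.aW hD.bW hvb hD.ab
      · exact hpairs b a hD.vb hD.bW hD.aW hva hD.ab.symm
      · exact hpairs c a hD.vc hD.cW hD.aW hva hD.ac.symm) (by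
    intro B hB hBW
    by_cases hvB : v ∈ B
    · obtain ⟨x, y, hxy, rfl⟩ := card_eq_two.1 (hE B hB)
      have hk : ∀ y, y ∈ W → ({v, y} : Finset α) ∈ E →
          ({v, y} : Finset α) ∈ ({{v, a}, {v, b}, {v, c}} : Finset (Finset α)) := by
        intro y hy hvy
        simp only [mem_insert, mem_singleton]
        rcases hD.only y hy hvy with rfl | rfl | rfl
        · exact Or.inl rfl
        · exact Or.inr (Or.inl rfl)
        · exact Or.inr (Or.inr rfl)
      simp only [mem_insert, mem_singleton] at hvB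
      rcases hvB with rfl | rfl
      · exact ⟨_, mem_union_right _ (hk y (hBW (by simp)) hB), subset_rfl⟩
      · rw [pair_comm] at hB
        refine ⟨{v, x}, mem_union_right _ (hk x (hBW (by simp)) hB), ?_⟩
        rw [pair_comm]
    · have hBW' : B ⊆ W.erase v := fun t ht => mem_erase.2 ⟨fun h => hvB (h ▸ ht), hBW ht⟩
      obtain ⟨A, hA, hBA⟩ := hMc B (mem_filter.2 ⟨hB, hBW'⟩)
      have h3 : B ⊆ A ∩ W.erase v := subset_inter hBA hBW'
      refine ⟨A ∩ W.erase v, mem_union_left _ (mem_image.2 ⟨A, mem_filter.2 ⟨hA, ?_⟩, rfl⟩), h3⟩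
      rw [← hE B hB]
      exact card_le_card h3)
  have h2 := d3l_union (s := (M.filter (fun A => 2 ≤ (A ∩ W.erase v).card)).image
    (fun A => A ∩ W.erase v)) (t := {{v, a}, {v, b}, {v, c}}) (by
      intro A hA
      simp only [mem_insert, mem_singleton] at hA
      rcases hA with rfl | rfl | rfl
      · rw [w_pair hva]; norm_num
      · rw [w_pair hvb]; norm_num
      · rw [w_pair hvc]; norm_num)
  have h3 := d3l_sum_image (s := M.filter (fun A => 2 ≤ (A ∩ W.erase v).card))
    (f := fun A => A ∩ W.erase v) (by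
      intro A hA
      have := w_pos (mem_filter.1 hA).2
      linarith)
  have h4 : ∑ A ∈ M.filter (fun A => 2 ≤ (A ∩ W.erase v).card), w (A ∩ W.erase v) ≤
      ∑ A ∈ M, w A := by
    calc ∑ A ∈ M.filter (fun A => 2 ≤ (A ∩ W.erase v).card), w (A ∩ W.erase v)
        ≤ ∑ A ∈ M.filter (fun A => 2 ≤ (A ∩ W.erase v).card), w A :=
          sum_le_sum fun A _ => w_mono inter_subset_left
      _ ≤ _ := sum_le_sum_of_subset_of_nonneg (filter_subset _ _) fun A hA _ => by
          have := w_pos (hM2 A hA)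
          linarith
  have h5 : ∑ A ∈ ({{v, a}, {v, b}, {v, c}} : Finset (Finset α)), w A ≤ 3 := by
    have h6 : ∑ A ∈ ({{v, a}, {v, b}, {v, c}} : Finset (Finset α)), w A =
        ∑ A ∈ ({{v, a}, {v, b}, {v, c}} : Finset (Finset α)), (1 : ℤ) := by
      refine sum_congr rfl (fun A hA => ?_)
      simp only [mem_insert, mem_singleton] at hA
      rcases hA with rfl | rfl | rfl
      · exact w_pair hva
      · exact w_pair hvb
      · exact w_pair hvc
    rw [h6, sum_const, nsmul_eq_mul, mul_one]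
    have h7 := card_le_three (a := ({v, a} : Finset α)) (b := {v, b}) (c := {v, c})
    exact_mod_cast h7
  have h6 : (2 * (W.card : ℤ) - 2) ≤ (I.card : ℤ) + 3 := by linarith
  omega

end Pool.Agent.GRB
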