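import Pool.Agent.GRB.Per

/-!
# GRB/Dyn: a closed orbit meets a level again, even modulo a symmetry

PROOF of `dyn`. Write `c = h (γ 0)`. The set `{t > 0 : γ t = γ 0}` is nonempty (`hper`); its infimum `T0` is positive:
`h (γ t) ≠ c` for small `t ≠ 0` (`m ≠ 0`), and `γ T0 = γ 0` (continuity). By `curve_unique` `γ (t + T0) = γ t`. WLOG
`m > 0` (the other case is the same with reversed inequalities, or replace `h` by `-h`): `h (γ t) > c` for small
`t > 0`, `h (γ t) < c` for `t < T0` near `T0` (periodicity). Suppose the conclusion fails: `h (γ t) = c` implies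
`γ t ∈ {γ 0, σ (γ 0)}`.
Case 1: `γ t ≠ σ (γ 0)` for all `t ∈ (0, T0)`. By the intermediate value theorem there is `t ∈ (0, T0)` with
`h (γ t) = c`; `γ t ≠ γ 0` by minimality of `T0`; contradiction.
Case 2: `γ t1 = σ (γ 0)`, `0 < t1 < T0`.
Case 2a: `X (σ x) = -σ' (X x)`. The curve `t ↦ σ (γ (-t))` is an integral curve of `X`: its derivative is
`-σ' (X (γ (-t))) = X (σ (γ (-t)))`. It has the value `σ (γ 0) = γ t1` at `t = 0`, so `σ (γ (-t)) = γ (t1 + t)` for all
`t`. Put `t = -t1/2`: `σ (γ (t1/2)) = γ (t1/2)`, contradiction with `hfix`.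
Case 2b: `X (σ x) = σ' (X x)`. Then `t ↦ σ (γ t)` is an integral curve with value `γ t1` at `0`, so
`σ (γ t) = γ (t1 + t)` and `h (γ (t1 + t)) = h (γ t)`. So `h (γ t) < c` for `t < t1` near `t1`, and `> c` for small
`t > 0`: there is `t2 ∈ (0, t1)` with `h (γ t2) = c`. `γ t2 ≠ γ 0` by minimality. If `γ t2 = σ (γ 0) = γ t1`, then
by uniqueness `γ (t1 - t2) = γ 0` with `0 < t1 - t2 < T0`, contradiction.
-/

namespace Pool.Agent.GRB

private theorem dyn_local {g : ℝ → ℝ} {m : ℝ} (hg : HasDerivAt g m 0) (hm : 0 < m) :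
    ∃ δ > 0, (∀ t, 0 < t → t < δ → g 0 < g t) ∧ (∀ t, -δ < t → t < 0 → g t < g 0) := by
  rw [hasDerivAt_iff_tendsto_slope] at hg
  have h1 : ∀ᶠ t in nhdsWithin (0 : ℝ) {0}ᶜ, 0 < slope g 0 t := hg.eventually (lt_mem_nhds hm)
  rw [eventually_nhdsWithin_iff, Metric.eventually_nhds_iff] at h1
  obtain ⟨δ, hδ, h2⟩ := h1
  refine ⟨δ, hδ, fun t ht ht' => ?_, fun t ht ht' => ?_⟩
  · have h3 := h2 (y := t) (by rw [Real.dist_eq, sub_zero, abs_of_pos ht]; exact ht')
      (by simp [ht.ne'])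
    rw [slope_def_field, sub_zero] at h3
    have h4 := (div_pos_iff_of_pos_right ht).1 h3
    linarith
  · have h3 := h2 (y := t) (by rw [Real.dist_eq, sub_zero, abs_of_neg ht']; linarith)
      (by simp [ht'.ne])
    rw [slope_def_field, sub_zero] at h3
    have h4 : g t - g 0 < 0 := by
      by_contra hcon
      push Not at hcon
      exact absurd h3 (not_lt.2 (div_nonpos_of_nonneg_of_nonpos hcon ht'.le))
    linarith

private theorem dyn_shift {V : Type} [NormedAddCommGroup V] [NormedSpace ℝ V]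
    {X : V → V} {γ : ℝ → V} (hγ : ∀ t, HasDerivAt γ (X (γ t)) t) (a : ℝ) :
    ∀ t, HasDerivAt (fun t => γ (t + a)) (X (γ (t + a))) t := by
  intro t
  exact (hγ (t + a)).comp_add_const t a

private theorem dyn_pos {V : Type} [NormedAddCommGroup V] [NormedSpace ℝ V] [FiniteDimensional ℝ V]
    {X : V → V} (hX : ContDiff ℝ 1 X) {γ : ℝ → V} (hγ : ∀ t, HasDerivAt γ (X (γ t)) t) {T : ℝ}
    (hT : 0 < T) (hper : γ T = γ 0) {h : V → ℝ} (hh : Continuous h) {m : ℝ}
    (hd : HasDerivAt (fun t => h (γ t)) m 0) (hm : 0 < m) {σ : V → V} (σ' : V →L[ℝ] V)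
    (hσ : ∀ x y, σ x - σ y = σ' (x - y))
    (hhσ : ∀ x, h (σ x) = h x)
    (hXσ : (∀ x, X (σ x) = σ' (X x)) ∨ (∀ x, X (σ x) = -σ' (X x)))
    (hfix : ∀ t, σ (γ t) ≠ γ t) :
    ∃ t, h (γ t) = h (γ 0) ∧ γ t ≠ γ 0 ∧ γ t ≠ σ (γ 0) := by
  have hγc : Continuous γ := continuous_iff_continuousAt.2 fun t => (hγ t).continuousAt
  have hgc : Continuous (fun t => h (γ t)) := hh.comp hγc
  obtain ⟨δ, hδ, hloc1, hloc2⟩ := dyn_local hd hm
  -- the smallest period
  have hclosed : IsClosed {t : ℝ | δ ≤ t ∧ γ t = γ 0} :=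
    (isClosed_le continuous_const continuous_id).inter (isClosed_eq hγc continuous_const)
  have hTδ : δ ≤ T := by
    by_contra hcon
    push Not at hcon
    have h1 := hloc1 T hT hcon
    rw [hper] at h1
    exact lt_irrefl _ h1
  have hne : {t : ℝ | δ ≤ t ∧ γ t = γ 0}.Nonempty := ⟨T, hTδ, hper⟩
  have hbdd : BddBelow {t : ℝ | δ ≤ t ∧ γ t = γ 0} := ⟨δ, fun t ht => ht.1⟩
  have hmem := hclosed.csInf_mem hne hbdd
  set T0 : ℝ := sInf {t : ℝ | δ ≤ t ∧ γ t = γ 0} with hT0def
  have hT0δ : δ ≤ T0 := hmem.1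
  have hT0γ : γ T0 = γ 0 := hmem.2
  have hT0 : 0 < T0 := lt_of_lt_of_le hδ hT0δ
  have hmin : ∀ t, 0 < t → t < T0 → γ t ≠ γ 0 := by
    intro t ht ht' heq
    by_cases h1 : t < δ
    · have h2 := hloc1 t ht h1
      simp only [heq] at h2
      exact lt_irrefl _ h2
    · push Not at h1
      exact absurd (csInf_le hbdd (show t ∈ {t : ℝ | δ ≤ t ∧ γ t = γ 0} from ⟨h1, heq⟩))
        (not_le.2 ht')
  have hperiod : ∀ t, γ (t + T0) = γ t := by
    have h1 : (fun t => γ (t + T0)) = γ :=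
      curve_unique hX (dyn_shift hγ T0) hγ (t0 := 0) (by
        show γ (0 + T0) = γ 0
        rw [zero_add, hT0γ])
    intro t
    exact congrFun h1 t
  by_contra hcon
  push Not at hcon
  -- the intermediate value theorem
  have hivt : ∀ a b : ℝ, a < b → h (γ 0) < h (γ a) → h (γ b) < h (γ 0) →
      ∃ t, a < t ∧ t < b ∧ h (γ t) = h (γ 0) := by
    intro a b hab ha hb
    have h1 := intermediate_value_Icc' hab.le hgc.continuousOn
    obtain ⟨t, ht, hte⟩ := h1 ⟨hb.le, ha.le⟩
    have hte' : h (γ t) = h (γ 0) := hte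
    refine ⟨t, lt_of_le_of_ne ht.1 ?_, lt_of_le_of_ne ht.2 ?_, hte'⟩
    · intro h2
      rw [← h2] at hte'
      exact absurd hte' ha.ne'
    · intro h2
      rw [h2] at hte'
      exact absurd hte' hb.ne
  by_cases hcase : ∃ t1, 0 < t1 ∧ t1 < T0 ∧ γ t1 = σ (γ 0)
  · obtain ⟨t1, ht1, ht1', hγ1⟩ := hcase
    have hσd : ∀ x, σ x = σ' x + σ 0 := by
      intro x
      have h1 := hσ x 0
      rw [sub_zero] at h1
      rw [← h1, sub_add_cancel]
    rcases hXσ with hXσ | hXσ
    · -- the symmetric case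
      have hζ : ∀ t, HasDerivAt (fun t => σ (γ t)) (X (σ (γ t))) t := by
        intro t
        have h1 : (fun t => σ (γ t)) = fun t => σ' (γ t) + σ 0 := by
          funext t
          exact hσd _
        rw [h1, hXσ]
        exact ((σ'.hasFDerivAt.comp_hasDerivAt t (hγ t)).add_const (σ 0))
      have hsh : (fun t => σ (γ t)) = fun t => γ (t + t1) :=
        curve_unique hX hζ (dyn_shift hγ t1) (t0 := 0) (by
          show σ (γ 0) = γ (0 + t1)
          rw [zero_add, hγ1])
      have hsh' : ∀ t, h (γ (t + t1)) = h (γ t) := by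
        intro t
        rw [← congrFun hsh t, hhσ]
      set ε : ℝ := min δ t1 / 3 with hε
      have hmpos : 0 < min δ t1 := lt_min hδ ht1
      have hεpos : 0 < ε := by positivity
      have hεδ : ε < δ := by
        have := min_le_left δ t1
        rw [hε]
        linarith
      have hεt : ε < t1 - ε := by
        have := min_le_right δ t1
        rw [hε]
        linarith
      obtain ⟨t2, h21, h22, h23⟩ := hivt ε (t1 - ε) hεt (hloc1 ε hεpos hεδ) (by
        have h1 := hsh' (-ε)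
        have h2 : -ε + t1 = t1 - ε := by ring
        rw [h2] at h1
        rw [h1]
        exact hloc2 (-ε) (by linarith) (by linarith))
      have h2ne := hmin t2 (by linarith) (by linarith)
      have h2eq := hcon t2 h23 h2ne
      have hsh2 : (fun t => γ (t + t2)) = fun t => γ (t + t1) :=
        curve_unique hX (dyn_shift hγ t2) (dyn_shift hγ t1) (t0 := 0) (by
          show γ (0 + t2) = γ (0 + t1)
          rw [zero_add, zero_add, h2eq, hγ1])
      have h3 := congrFun hsh2 (-t2)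
      simp only [neg_add_cancel] at h3
      have h4 : -t2 + t1 = t1 - t2 := by ring
      rw [h4] at h3
      exact hmin (t1 - t2) (by linarith) (by linarith) h3.symm
    · -- the antisymmetric case
      have hζ : ∀ t, HasDerivAt (fun t => σ (γ (-t))) (X (σ (γ (-t)))) t := by
        intro t
        have h1 : (fun t => σ (γ (-t))) = fun t => σ' (γ (-t)) + σ 0 := by
          funext t
          exact hσd _
        rw [h1, hXσ]
        have h2 : HasDerivAt (fun t => γ (-t)) (-(X (γ (-t)))) t := by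
          have h3 := (hγ (-t)).scomp t (hasDerivAt_neg t)
          rw [neg_one_smul] at h3
          exact h3
        have h4 := (σ'.hasFDerivAt.comp_hasDerivAt t h2).add_const (σ 0)
        rw [map_neg] at h4
        exact h4
      have hsh : (fun t => σ (γ (-t))) = fun t => γ (t + t1) :=
        curve_unique hX hζ (dyn_shift hγ t1) (t0 := 0) (by
          show σ (γ (-0)) = γ (0 + t1)
          rw [zero_add, neg_zero, hγ1])
      have h3 := congrFun hsh (-(t1 / 2))
      simp only [neg_neg] at h3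
      have h4 : -(t1 / 2) + t1 = t1 / 2 := by ring
      rw [h4] at h3
      exact hfix (t1 / 2) h3
  · push Not at hcase
    set ε : ℝ := min δ T0 / 3 with hε
    have hmpos : 0 < min δ T0 := lt_min hδ hT0
    have hεpos : 0 < ε := by positivity
    have hεδ : ε < δ := by
      have := min_le_left δ T0
      rw [hε]
      linarith
    have hεt : ε < T0 - ε := by
      have := min_le_right δ T0
      rw [hε]
      linarith
    obtain ⟨t2, h21, h22, h23⟩ := hivt ε (T0 - ε) hεt (hloc1 ε hεpos hεδ) (by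
      have h1 := hperiod (-ε)
      have h2 : -ε + T0 = T0 - ε := by ring
      rw [h2] at h1
      rw [h1]
      exact hloc2 (-ε) (by linarith) (by linarith))
    have h2ne := hmin t2 (by linarith) (by linarith)
    exact hcase t2 (by linarith) (by linarith) (hcon t2 h23 h2ne)

theorem dyn {V : Type} [NormedAddCommGroup V] [NormedSpace ℝ V] [FiniteDimensional ℝ V]
    {X : V → V} (hX : ContDiff ℝ 1 X) {γ : ℝ → V} (hγ : ∀ t, HasDerivAt γ (X (γ t)) t) {T : ℝ}
    (hT : 0 < T) (hper : γ T = γ 0) {h : V → ℝ} (hh : Continuous h) {m : ℝ}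
    (hd : HasDerivAt (fun t => h (γ t)) m 0) (hm : m ≠ 0) {σ : V → V} (σ' : V →L[ℝ] V)
    (hσ : ∀ x y, σ x - σ y = σ' (x - y)) (hσσ : ∀ x, σ (σ x) = x)
    (hhσ : ∀ x, h (σ x) = h x)
    (hXσ : (∀ x, X (σ x) = σ' (X x)) ∨ (∀ x, X (σ x) = -σ' (X x)))
    (hfix : ∀ t, σ (γ t) ≠ γ t) :
    ∃ t, h (γ t) = h (γ 0) ∧ γ t ≠ γ 0 ∧ γ t ≠ σ (γ 0) := by
  rcases lt_or_gt_of_ne hm with hm' | hm'
  · obtain ⟨t, h1, h2, h3⟩ := dyn_pos hX hγ hT hper (h := fun x => -h x) hh.neg (m := -m)
      hd.neg (by linarith) σ' hσ (fun x => by rw [hhσ x]) hXσ hfix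
    exact ⟨t, neg_injective h1, h2, h3⟩
  · exact dyn_pos hX hγ hT hper hh hd hm' σ' hσ hhσ hXσ hfix

end Pool.Agent.GRB
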