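import Pool.Agent.GRB.Sepn0

/-!
# GRB/Ext0: one side of a separation with the vertex `a` attached

`ext H a b s t = H ∪ {{s,t},{a,s},{a,t},{a,b}}`, used on `insert a (W \ L)`, where `SepAt H W a b s t L`. The vertices
of this set: `a`, `s`, `t`, and `R = W \ (L ∪ {s,t})`, `b ∈ R`. In `ext H a b s t` on this set, `a` is joined exactly
to `s`, `t`, `b`.

PROOF of `mcon_side`. `G0 = insert {s,t} H` is M-connected on `Y = W \ L`: let `Z` be a cover of the members of `G0`
inside `Y` by proper subsets of `Y`, `Z0 ∈ Z` contains `{s,t}`. Then `(Z \ {Z0}) ∪ {Z0 ∪ L}` covers the members of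
`H` inside `W` (those inside `L ∪ {s,t}` are in `Z0 ∪ L`), is a cover by proper subsets of `W`, of weight
`Σ_Z w + 2|L|`; so `Σ_Z w ≥ 2|W| - 2 - 2|L| = 2|Y| - 2`.
PROOF of `mcon_add3`. `MCon K Y`, `3 ≤ |Y|`, `a ∉ Y`, three distinct vertices `n1, n2, n3 ∈ Y` joined to `a` in `K'`,
`K ⊆ K'`. Let `X` be a cover of the members of `K'` inside `insert a Y` by proper subsets. If `Y ∈ X`: the pairs
`{a, n_i}` are covered by a set containing `a` with at least three elements (weight at least 3) or by three pairs: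
`Σ ≥ 2|Y| - 3 + 3 = 2(|Y| + 1) - 2`. Otherwise the sets `A \ {a}` (`A ∈ X`, at least two elements) are proper subsets of
`Y` and cover the members of `K` inside `Y`, so `Σ w (A \ {a}) ≥ 2|Y| - 2`; removing `a` lowers the weight of `A ∋ a`
by 2 if `|A| ≥ 3`, and drops a member of weight 1 if `|A| = 2`; the total is lowered by at least 2 (some `A ∋ a` with
`|A| ≥ 3`, or three pairs). So `Σ_X w ≥ 2|Y| = 2(|Y|+1) - 2`.
-/

namespace Pool.Agent.GRB

open Finset Pool.Agent.GRA

variable {α : Type} [DecidableEq α] [Fintype α]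

/-- `H` with the pairs `{s,t}`, `{a,s}`, `{a,t}`, `{a,b}`. -/
def ext (H : Finset (Finset α)) (a b s t : α) : Finset (Finset α) :=
  H ∪ {{s, t}, {a, s}, {a, t}, {a, b}}

theorem mcon_side {H : Finset (Finset α)} (hH : IsG H) {W : Finset α} (hM : MCon H W)
    {a b s t : α} {L : Finset α} (hS : SepAt H W a b s t L) :
    MCon (insert {s, t} H) (W \ L) := by
  intro Z hZ hc
  have hst : ({s, t} : Finset α) ⊆ W \ L :=
    pair_subset.2 ⟨mem_sdiff.2 ⟨hS.sW, hS.sL⟩, mem_sdiff.2 ⟨hS.tW, hS.tL⟩⟩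
  obtain ⟨Z0, hZ0, hstZ⟩ := hc {s, t} (mem_insert_self _ _) hst
  have hZ0Y := (hZ Z0 hZ0).2.1
  have hdis : Disjoint Z0 L := disjoint_of_subset_left hZ0Y sdiff_disjoint
  have hnm : Z0 ∪ L ∉ Z.erase Z0 := by
    intro h
    have h1 := (hZ _ (mem_of_mem_erase h)).2.1 (mem_union_right Z0 hS.aL)
    exact (mem_sdiff.1 h1).2 hS.aL
  have h1 := hM (insert (Z0 ∪ L) (Z.erase Z0)) (by
    intro A hA
    rcases mem_insert.1 hA with rfl | hA
    · refine ⟨(hZ Z0 hZ0).1.trans (card_le_card subset_union_left),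
        union_subset (hZ0Y.trans sdiff_subset) hS.LW, fun h => (hZ Z0 hZ0).2.2 ?_⟩
      refine subset_antisymm hZ0Y (fun y hy => ?_)
      obtain ⟨hyW, hyL⟩ := mem_sdiff.1 hy
      rw [← h] at hyW
      exact (mem_union.1 hyW).resolve_right hyL
    · obtain ⟨h2, h3, -⟩ := hZ A (mem_of_mem_erase hA)
      refine ⟨h2, h3.trans sdiff_subset, ?_⟩
      rintro rfl
      exact (mem_sdiff.1 (h3 (hS.LW hS.aL))).2 hS.aL) (by
    intro B hB hBW
    by_cases hBL : B ⊆ W \ L
    · obtain ⟨A, hA, hBA⟩ := hc B (mem_insert_of_mem hB) hBL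
      by_cases hAZ : A = Z0
      · subst hAZ
        exact ⟨_, mem_insert_self _ _, hBA.trans subset_union_left⟩
      · exact ⟨A, mem_insert_of_mem (mem_erase.2 ⟨hAZ, hA⟩), hBA⟩
    · refine ⟨_, mem_insert_self _ _, ?_⟩
      obtain ⟨x, y, hxy, rfl⟩ := card_eq_two.1 (hH B hB)
      have key : ∀ x y : α, ({x, y} : Finset α) ∈ H → ({x, y} : Finset α) ⊆ W → x ∈ L →
          ({x, y} : Finset α) ⊆ Z0 ∪ L := by
        intro x y h1 h2 h3
        refine pair_subset.2 ⟨mem_union_right _ h3, ?_⟩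
        by_cases hy : y ∈ ({s, t} : Finset α)
        · exact mem_union_left _ (hstZ hy)
        · exact mem_union_right _ (hS.closed.2 x h3 y hy (mem_filter.2 ⟨h1, h2⟩))
      rw [pair_subset, not_and_or] at hBL
      have hBW' := pair_subset.1 hBW
      rcases hBL with h | h
      · have hxL : x ∈ L := by
          by_contra hc
          exact h (mem_sdiff.2 ⟨hBW'.1, hc⟩)
        exact key x y hB hBW hxL
      · have hyL : y ∈ L := by
          by_contra hc
          exact h (mem_sdiff.2 ⟨hBW'.2, hc⟩)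
        rw [pair_comm] at hB hBW ⊢
        exact key y x hB hBW hyL)
  rw [sum_insert hnm] at h1
  have h2 : ∑ A ∈ Z.erase Z0, w A + w Z0 = ∑ A ∈ Z, w A := sum_erase_add Z w hZ0
  have h3 : w (Z0 ∪ L) = w Z0 + 2 * (L.card : ℤ) := by
    unfold w
    rw [card_union_of_disjoint hdis]
    push_cast
    ring
  have h4 : (W \ L).card + L.card = W.card := card_sdiff_add_card_eq_card hS.LW
  have h5 : ((W \ L).card : ℤ) + L.card = W.card := by exact_mod_cast h4
  linarith

private theorem e0_sum_image {β : Type} [DecidableEq β] {s : Finset β} {f : β → Finset α}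
    (h : ∀ A ∈ s, 0 ≤ w (f A)) : ∑ T ∈ s.image f, w T ≤ ∑ A ∈ s, w (f A) := by
  induction s using Finset.induction_on with
  | empty => simp
  | insert a s ha ih =>
    have ih' := ih (fun A hA => h A (mem_insert_of_mem hA))
    have h0 := h a (mem_insert_self _ _)
    rw [image_insert, sum_insert ha]
    by_cases hm : f a ∈ s.image f
    · rw [insert_eq_of_mem hm]
      linarith
    · rw [sum_insert hm]
      linarith

/-- small members do not matter -/
private theorem mcon_filter {K : Finset (Finset α)} {Y : Finset α} (hK : MCon K Y)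
    (h3 : 3 ≤ Y.card) : MCon (K.filter (fun B => 2 ≤ B.card)) Y := by
  intro X hX hc
  obtain ⟨Z, hZ⟩ : ∃ Z, Z = Y.filter (fun y => ∃ A ∈ X, y ∈ A) := ⟨_, rfl⟩
  have hZY : Z ⊆ Y := by rw [hZ]; exact filter_subset _ _
  have hmZ : ∀ y, y ∈ Z ↔ y ∈ Y ∧ ∃ A ∈ X, y ∈ A := fun y => by rw [hZ, mem_filter]
  have hbig : ∀ B ∈ K, B ⊆ Y → 2 ≤ B.card → B ⊆ Z := by
    intro B hB hBY h2 y hy
    obtain ⟨A, hA, hBA⟩ := hc B (mem_filter.2 ⟨hB, h2⟩) hBY
    exact (hmZ y).2 ⟨hBY hy, A, hA, hBA hy⟩
  by_cases hZe : Z = Y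
  · refine hK X hX (fun B hB hBY => ?_)
    by_cases h2 : 2 ≤ B.card
    · exact hc B (mem_filter.2 ⟨hB, h2⟩) hBY
    · have hYne : Y.Nonempty := card_pos.1 (by omega)
      rcases B.eq_empty_or_nonempty with rfl | hBne
      · obtain ⟨y, hy⟩ := hYne
        obtain ⟨-, A, hA, -⟩ := (hmZ y).1 (hZe.symm ▸ hy)
        exact ⟨A, hA, empty_subset _⟩
      · have h1 : B.card = 1 := by
          have := card_pos.2 hBne
          omega
        obtain ⟨y, rfl⟩ := card_eq_one.1 h1
        obtain ⟨-, A, hA, hyA⟩ := (hmZ y).1 (hZe.symm ▸ hBY (mem_singleton_self y))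
        exact ⟨A, hA, singleton_subset_iff.2 hyA⟩
  · exfalso
    have hlt : Z.card < Y.card := card_lt_card (Finset.ssubset_iff_subset_ne.2 ⟨hZY, hZe⟩)
    obtain ⟨y0, hy0Y, hy0Z⟩ : ∃ y0 ∈ Y, Z.Nonempty → y0 ∈ Z := by
      by_cases hZn : Z.Nonempty
      · obtain ⟨y, hy⟩ := hZn
        exact ⟨y, hZY hy, fun _ => hy⟩
      · obtain ⟨y, hy⟩ : Y.Nonempty := card_pos.1 (by omega)
        exact ⟨y, hy, fun h => absurd h hZn⟩
    -- pairs with `y0`
    have hp1 : ∀ u ∈ Y.erase y0, w ({u, y0} : Finset α) = 1 := fun u hu =>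
      w_pair (mem_erase.1 hu).1
    have hpp : ∀ u ∈ Y.erase y0, 2 ≤ ({u, y0} : Finset α).card ∧ ({u, y0} : Finset α) ⊆ Y ∧
        ({u, y0} : Finset α) ≠ Y := by
      intro u hu
      refine ⟨(card_pair (mem_erase.1 hu).1).ge, pair_subset.2 ⟨(mem_erase.1 hu).2, hy0Y⟩, ?_⟩
      intro h
      have h5 := card_pair (mem_erase.1 hu).1
      rw [h] at h5
      omega
    have hYe : (Y.erase y0).card + 1 = Y.card := card_erase_add_one hy0Y
    by_cases hZ2 : 2 ≤ Z.card
    · have hy0 : y0 ∈ Z := hy0Z (card_pos.1 (by omega))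
      have hsub : Y \ Z ⊆ Y.erase y0 := by
        intro u hu
        obtain ⟨h5, h6⟩ := mem_sdiff.1 hu
        exact mem_erase.2 ⟨fun h => h6 (h ▸ hy0), h5⟩
      have h1 := hK (insert Z ((Y \ Z).image (fun u => {u, y0}))) (by
        intro A hA
        rcases mem_insert.1 hA with rfl | hA
        · exact ⟨hZ2, hZY, hZe⟩
        · obtain ⟨u, hu, rfl⟩ := mem_image.1 hA
          exact hpp u (hsub hu)) (by
        intro B hB hBY
        by_cases h2 : 2 ≤ B.card
        · exact ⟨Z, mem_insert_self _ _, hbig B hB hBY h2⟩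
        · rcases B.eq_empty_or_nonempty with rfl | hBne
          · exact ⟨Z, mem_insert_self _ _, empty_subset _⟩
          · have h1 : B.card = 1 := by
              have := card_pos.2 hBne
              omega
            obtain ⟨y, rfl⟩ := card_eq_one.1 h1
            have hyY := hBY (mem_singleton_self y)
            by_cases hyZ : y ∈ Z
            · exact ⟨Z, mem_insert_self _ _, singleton_subset_iff.2 hyZ⟩
            · exact ⟨{y, y0}, mem_insert_of_mem (mem_image.2 ⟨y, mem_sdiff.2 ⟨hyY, hyZ⟩, rfl⟩),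
                singleton_subset_iff.2 (by simp)⟩)
      have h4 : ∑ A ∈ insert Z ((Y \ Z).image (fun u => ({u, y0} : Finset α))), w A ≤
          w Z + ∑ A ∈ (Y \ Z).image (fun u => ({u, y0} : Finset α)), w A := by
        by_cases hm : Z ∈ (Y \ Z).image (fun u => ({u, y0} : Finset α))
        · rw [insert_eq_of_mem hm]
          have := w_pos hZ2
          linarith
        · rw [sum_insert hm]
      have h5 := e0_sum_image (s := Y \ Z) (f := fun u => ({u, y0} : Finset α)) (by
        intro u hu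
        rw [hp1 u (hsub hu)]
        norm_num)
      have h6 : ∑ u ∈ Y \ Z, w ({u, y0} : Finset α) = ((Y \ Z).card : ℤ) := by
        rw [sum_congr rfl (fun u hu => hp1 u (hsub hu)), sum_const, nsmul_eq_mul, mul_one]
      have h7 : (Y \ Z).card + Z.card = Y.card := card_sdiff_add_card_eq_card hZY
      have h8 : ((Y \ Z).card : ℤ) + Z.card = Y.card := by exact_mod_cast h7
      have h9 : w Z = 2 * (Z.card : ℤ) - 3 := rfl
      have h10 : (Z.card : ℤ) < Y.card := by exact_mod_cast hlt
      linarith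
    · have h1 := hK ((Y.erase y0).image (fun u => {u, y0})) (by
        intro A hA
        obtain ⟨u, hu, rfl⟩ := mem_image.1 hA
        exact hpp u hu) (by
        intro B hB hBY
        have h2 : ¬ 2 ≤ B.card := by
          intro h2
          exact hZ2 (h2.trans (card_le_card (hbig B hB hBY h2)))
        have hne : (Y.erase y0).Nonempty := card_pos.1 (by omega)
        rcases B.eq_empty_or_nonempty with rfl | hBne
        · obtain ⟨u, hu⟩ := hne
          exact ⟨_, mem_image.2 ⟨u, hu, rfl⟩, empty_subset _⟩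
        · have h1 : B.card = 1 := by
            have := card_pos.2 hBne
            omega
          obtain ⟨y, rfl⟩ := card_eq_one.1 h1
          have hyY := hBY (mem_singleton_self y)
          by_cases hyy : y = y0
          · obtain ⟨u, hu⟩ := hne
            exact ⟨_, mem_image.2 ⟨u, hu, rfl⟩, singleton_subset_iff.2 (by simp [hyy])⟩
          · exact ⟨_, mem_image.2 ⟨y, mem_erase.2 ⟨hyy, hyY⟩, rfl⟩,
              singleton_subset_iff.2 (by simp)⟩)
      have h5 := e0_sum_image (s := Y.erase y0) (f := fun u => ({u, y0} : Finset α)) (by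
        intro u hu
        rw [hp1 u hu]
        norm_num)
      have h6 : ∑ u ∈ Y.erase y0, w ({u, y0} : Finset α) = ((Y.erase y0).card : ℤ) := by
        rw [sum_congr rfl (fun u hu => hp1 u hu), sum_const, nsmul_eq_mul, mul_one]
      omega

theorem mcon_add3 {K K' : Finset (Finset α)} {Y : Finset α} (hK : MCon K Y) (h3 : 3 ≤ Y.card)
    (hKK : K ⊆ K') {a n1 n2 n3 : α} (ha : a ∉ Y) (h1 : n1 ∈ Y) (h2 : n2 ∈ Y) (h3' : n3 ∈ Y)
    (h12 : n1 ≠ n2) (h13 : n1 ≠ n3) (h23 : n2 ≠ n3) (e1 : ({a, n1} : Finset α) ∈ K')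
    (e2 : ({a, n2} : Finset α) ∈ K') (e3 : ({a, n3} : Finset α) ∈ K') :
    MCon K' (insert a Y) := by
  intro X hX hc
  have hcard : (insert a Y).card = Y.card + 1 := card_insert_of_notMem ha
  have hwX : ∀ A ∈ X, 1 ≤ w A := fun A hA => w_pos (hX A hA).1
  -- the sets containing `a`
  have hthree : 3 ≤ ∑ A ∈ X.filter (a ∈ ·), w A ∧
      (3 ≤ ∑ A ∈ X.filter (a ∈ ·), (if 3 ≤ A.card then 2 else 1 : ℤ) ∨
        2 ≤ ∑ A ∈ X.filter (a ∈ ·), (if 3 ≤ A.card then 2 else 1 : ℤ)) := by
    obtain ⟨A1, hA1, hs1⟩ := hc _ e1 (pair_subset.2 ⟨mem_insert_self _ _, mem_insert_of_mem h1⟩)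
    obtain ⟨A2, hA2, hs2⟩ := hc _ e2 (pair_subset.2 ⟨mem_insert_self _ _, mem_insert_of_mem h2⟩)
    obtain ⟨A3, hA3, hs3⟩ := hc _ e3 (pair_subset.2 ⟨mem_insert_self _ _, mem_insert_of_mem h3'⟩)
    rw [pair_subset] at hs1 hs2 hs3
    have m1 : A1 ∈ X.filter (a ∈ ·) := mem_filter.2 ⟨hA1, hs1.1⟩
    have m2 : A2 ∈ X.filter (a ∈ ·) := mem_filter.2 ⟨hA2, hs2.1⟩
    have m3 : A3 ∈ X.filter (a ∈ ·) := mem_filter.2 ⟨hA3, hs3.1⟩
    by_cases hbig : ∃ A ∈ X.filter (a ∈ ·), 3 ≤ A.card
    · obtain ⟨A, hA, hA3c⟩ := hbig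
      constructor
      · have h4 : w A ≤ ∑ A ∈ X.filter (a ∈ ·), w A :=
          single_le_sum (f := w) (fun B hB => by
            have := hwX B (mem_filter.1 hB).1
            linarith) hA
        have h5 : w A = 2 * (A.card : ℤ) - 3 := rfl
        have h6 : (3 : ℤ) ≤ A.card := by exact_mod_cast hA3c
        linarith
      · right
        have h4 : (if 3 ≤ A.card then 2 else 1 : ℤ) ≤
            ∑ A ∈ X.filter (a ∈ ·), (if 3 ≤ A.card then 2 else 1 : ℤ) :=
          single_le_sum (f := fun A : Finset α => (if 3 ≤ A.card then 2 else 1 : ℤ))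
            (fun B _ => by split_ifs <;> norm_num) hA
        rw [if_pos hA3c] at h4
        exact h4
    · push Not at hbig
      have hne : ∀ (A B : Finset α) (x y : α), A ∈ X.filter (a ∈ ·) → a ∈ A → x ∈ A → y ∈ B →
          x ∈ Y → y ∈ Y → x ≠ y → A ≠ B := by
        rintro A B x y hA haA hxA hyB hxY hyY hxy rfl
        have h4 := hbig A hA
        have h5 : ({a, x, y} : Finset α) ⊆ A := by
          intro t ht
          simp only [mem_insert, mem_singleton] at ht
          rcases ht with rfl | rfl | rfl <;> assumption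
        have h6 : ({a, x, y} : Finset α).card = 3 :=
          card_eq_three.2 ⟨a, x, y, fun h => ha (h ▸ hxY), fun h => ha (h ▸ hyY), hxy, rfl⟩
        have h7 := card_le_card h5
        omega
      have n12 := hne A1 A2 n1 n2 m1 hs1.1 hs1.2 hs2.2 h1 h2 h12
      have n13 := hne A1 A3 n1 n3 m1 hs1.1 hs1.2 hs3.2 h1 h3' h13
      have n23 := hne A2 A3 n2 n3 m2 hs2.1 hs2.2 hs3.2 h2 h3' h23
      have hT : ({A1, A2, A3} : Finset (Finset α)) ⊆ X.filter (a ∈ ·) := by
        intro t ht
        simp only [mem_insert, mem_singleton] at ht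
        rcases ht with rfl | rfl | rfl <;> assumption
      have hTc : ({A1, A2, A3} : Finset (Finset α)).card = 3 :=
        card_eq_three.2 ⟨A1, A2, A3, n12, n13, n23, rfl⟩
      have hge : ∀ f : Finset α → ℤ, (∀ A ∈ X.filter (a ∈ ·), 1 ≤ f A) →
          3 ≤ ∑ A ∈ X.filter (a ∈ ·), f A := by
        intro f hf
        calc (3 : ℤ) = ∑ A ∈ ({A1, A2, A3} : Finset (Finset α)), (1 : ℤ) := by
              rw [sum_const, hTc]; norm_num
          _ ≤ ∑ A ∈ ({A1, A2, A3} : Finset (Finset α)), f A :=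
              sum_le_sum fun A hA => hf A (hT hA)
          _ ≤ _ := sum_le_sum_of_subset_of_nonneg hT fun A hA _ => by
              have := hf A hA
              linarith
      exact ⟨hge w fun A hA => hwX A (mem_filter.1 hA).1,
        Or.inl (hge _ fun A _ => by split_ifs <;> norm_num)⟩
  obtain ⟨ht1, ht2⟩ := hthree
  have ht2' : 2 ≤ ∑ A ∈ X.filter (a ∈ ·), (if 3 ≤ A.card then 2 else 1 : ℤ) := by
    rcases ht2 with h | h <;> linarith
  by_cases hYX : Y ∈ X
  · have h4 : w Y + ∑ A ∈ X.filter (a ∈ ·), w A ≤ ∑ A ∈ X, w A := by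
      have h5 : Y ∉ X.filter (a ∈ ·) := fun h => ha (mem_filter.1 h).2
      rw [← sum_insert h5]
      refine sum_le_sum_of_subset_of_nonneg ?_ (fun A hA _ => by
        have := hwX A hA
        linarith)
      exact insert_subset hYX (filter_subset _ _)
    have h5 : w Y = 2 * (Y.card : ℤ) - 3 := rfl
    rw [hcard]
    push_cast
    linarith
  · have hK2 := mcon_filter hK h3
    have hsub : ∀ A ∈ X, A.erase a ⊆ Y := by
      intro A hA t ht
      obtain ⟨h5, h6⟩ := mem_erase.1 ht
      exact (mem_insert.1 ((hX A hA).2.1 h6)).resolve_left h5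
    have h4 := hK2 ((X.filter (fun A => 2 ≤ (A.erase a).card)).image (fun A => A.erase a)) (by
      intro T hT
      obtain ⟨A, hA, rfl⟩ := mem_image.1 hT
      obtain ⟨hAX, hA2⟩ := mem_filter.1 hA
      refine ⟨hA2, hsub A hAX, fun h => ?_⟩
      by_cases haA : a ∈ A
      · apply (hX A hAX).2.2
        rw [← h, insert_erase haA]
      · rw [erase_eq_of_notMem haA] at h
        exact hYX (h ▸ hAX)) (by
      intro B hB hBY
      obtain ⟨hBK, hB2⟩ := mem_filter.1 hB
      obtain ⟨A, hA, hBA⟩ := hc B (hKK hBK) (hBY.trans (subset_insert _ _))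
      have h5 : B ⊆ A.erase a := fun t ht => mem_erase.2 ⟨fun h => ha (h ▸ hBY ht), hBA ht⟩
      exact ⟨A.erase a, mem_image.2 ⟨A, mem_filter.2 ⟨hA, hB2.trans (card_le_card h5)⟩, rfl⟩, h5⟩)
    have h5 := e0_sum_image (s := X.filter (fun A => 2 ≤ (A.erase a).card))
      (f := fun A => A.erase a) (by
        intro A hA
        have := w_pos (mem_filter.1 hA).2
        linarith)
    have h6 : ∑ A ∈ X.filter (fun A => 2 ≤ (A.erase a).card), w (A.erase a) ≤
        ∑ A ∈ X, (w A - (if a ∈ A then (if 3 ≤ A.card then 2 else 1 : ℤ) else 0)) := by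
      rw [sum_filter]
      refine sum_le_sum (fun A hA => ?_)
      have h7 := hwX A hA
      have h8 := (hX A hA).1
      by_cases haA : a ∈ A
      · rw [if_pos haA]
        have h9 : (A.erase a).card + 1 = A.card := card_erase_add_one haA
        have h10 : ((A.erase a).card : ℤ) + 1 = A.card := by exact_mod_cast h9
        by_cases h3A : 3 ≤ A.card
        · rw [if_pos h3A, if_pos (by omega)]
          unfold w
          linarith
        · rw [if_neg h3A, if_neg (by omega)]
          linarith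
      · rw [if_neg haA, erase_eq_of_notMem haA, if_pos h8]
        linarith
    rw [sum_sub_distrib, ← sum_filter] at h6
    rw [hcard]
    push_cast
    linarith

end Pool.Agent.GRB
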