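import Pool.Agent.GRB.Ext0

/-!
# GRB/Ext1: one side of a separation with the vertex `a` attached

`ext H a b s t = H ∪ {{s,t},{a,s},{a,t},{a,b}}`, used on `insert a (W \ L)`, where `SepAt H W a b s t L`. The vertices
of this set: `a`, `s`, `t`, and `R = W \ (L ∪ {s,t})`, `b ∈ R`. In `ext H a b s t` on this set, `a` is joined exactly
to `s`, `t`, `b`.

PROOF of `mcon_ext`: `mcon_side` and `mcon_add3` with `Y = W \ L`, neighbours `s, t, b` (`3 ≤ |W \ L|`).
-/

namespace Pool.Agent.GRB

open Finset Pool.Agent.GRA

variable {α : Type} [DecidableEq α] [Fintype α]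

theorem mcon_ext {H : Finset (Finset α)} (hH : IsG H) {W : Finset α} (hM : MCon H W)
    {a b s t : α} {L : Finset α} (hS : SepAt H W a b s t L) :
    MCon (ext H a b s t) (insert a (W \ L)) := by
  have hs : s ∈ W \ L := Finset.mem_sdiff.2 ⟨hS.sW, hS.sL⟩
  have ht : t ∈ W \ L := Finset.mem_sdiff.2 ⟨hS.tW, hS.tL⟩
  have hb : b ∈ W \ L := Finset.mem_sdiff.2 ⟨hS.bW, hS.bL⟩
  have ha : a ∉ W \ L := fun h => (Finset.mem_sdiff.1 h).2 hS.aL
  have hcard : 3 ≤ (W \ L).card := by
    have h1 : ({s, t, b} : Finset α) ⊆ W \ L := by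
      intro x hx
      simp only [Finset.mem_insert, Finset.mem_singleton] at hx
      rcases hx with rfl | rfl | rfl
      · exact hs
      · exact ht
      · exact hb
    have h2 : ({s, t, b} : Finset α).card = 3 :=
      Finset.card_eq_three.2 ⟨s, t, b, hS.ne, hS.bs.symm, hS.bt.symm, rfl⟩
    rw [← h2]
    exact Finset.card_le_card h1
  refine mcon_add3 (mcon_side hH hM hS) hcard ?_ ha hs ht hb hS.ne hS.bs.symm hS.bt.symm ?_ ?_ ?_
  · intro e he
    unfold ext
    rcases Finset.mem_insert.1 he with rfl | he
    · simp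
    · exact Finset.mem_union_left _ he
  · unfold ext; simp
  · unfold ext; simp
  · unfold ext; simp

/-- The side is smaller than `W`. PROOF: `a` has at least three neighbours in `H` on `W` (`mcon_deg`), they are in
`L ∪ {s,t}`, so `L` has another element. -/
theorem card_ext_lt {H : Finset (Finset α)} (hH : IsG H) {W : Finset α} (hM : MCon H W)
    {a b s t : α} {L : Finset α} (hS : SepAt H W a b s t L) :
    (insert a (W \ L)).card < W.card := by
  have haW : a ∈ W := hS.LW hS.aL
  have hcard : 3 ≤ W.card := by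
    have h1 : ({s, t, b} : Finset α) ⊆ W := by
      intro x hx
      simp only [Finset.mem_insert, Finset.mem_singleton] at hx
      rcases hx with rfl | rfl | rfl
      · exact hS.sW
      · exact hS.tW
      · exact hS.bW
    have h2 : ({s, t, b} : Finset α).card = 3 :=
      Finset.card_eq_three.2 ⟨s, t, b, hS.ne, hS.bs.symm, hS.bt.symm, rfl⟩
    rw [← h2]
    exact Finset.card_le_card h1
  have hdeg := mcon_deg hH hM hcard haW
  obtain ⟨y, hyL, hya⟩ : ∃ y ∈ L, y ≠ a := by
    by_contra hcon
    push Not at hcon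
    have h1 : univ.filter (fun y => y ∈ W ∧ ({a, y} : Finset α) ∈ H) ⊆ {s, t} := by
      intro y hy
      obtain ⟨hyW, hye⟩ := (Finset.mem_filter.1 hy).2
      by_contra hst
      have h2 : y ∈ L := by
        refine hS.closed.2 a hS.aL y hst (Finset.mem_filter.2 ⟨hye, ?_⟩)
        intro x hx
        simp only [Finset.mem_insert, Finset.mem_singleton] at hx
        rcases hx with rfl | rfl
        · exact haW
        · exact hyW
      have h3 := hcon y h2
      rw [h3] at hye
      have h4 := hH _ hye
      simp at h4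
    have h2 := Finset.card_le_card h1
    have h3 : ({s, t} : Finset α).card ≤ 2 := Finset.card_le_two
    omega
  refine Finset.card_lt_card ⟨?_, ?_⟩
  · intro x hx
    rcases Finset.mem_insert.1 hx with rfl | hx
    · exact haW
    · exact (Finset.mem_sdiff.1 hx).1
  · intro h
    rcases Finset.mem_insert.1 (h (hS.LW hyL)) with h1 | h1
    · exact hya h1
    · exact (Finset.mem_sdiff.1 h1).2 hyL

end Pool.Agent.GRB
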