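import Pool.Agent.GRB.Ext0

/-!
# GRB/Ext2: one side of a separation with the vertex `a` attached

`ext H a b s t = H ∪ {{s,t},{a,s},{a,t},{a,b}}`, used on `insert a (W \ L)`, where `SepAt H W a b s t L`. The vertices
of this set: `a`, `s`, `t`, and `R = W \ (L ∪ {s,t})`, `b ∈ R`. In `ext H a b s t` on this set, `a` is joined exactly
to `s`, `t`, `b`.

PROOF of `l3_bs`. Let `T`, `|T| ≤ 2`, `P ∋ b` closed for `ext` and `T`, `s ∉ P ∪ T`. `a` is joined to `b` and `s`, so `a ∈ T`
(otherwise `a ∈ P`, `s ∈ P`). `t ∉ P` (`t` is joined to `s`; `t ∈ P` gives `s ∈ P`). So `P ⊆ R` (within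
`insert a (W \ L)`) and in `H` on `W` the neighbours of `P` are in `T \ {a}`, at most one vertex: contradiction with
`cut_one` (`a ∈ W` is outside).
PROOF of `l3_near`. `x, y ∈ insert a (W \ L)`, `L3 (insert {a,b} H) W x y`. Let `P ∋ x` be closed for `ext`, `T`,
`y ∉ P ∪ T`, `P ⊆ insert a (W \ L)`.
(1) `a ∉ T`, `a ∈ P`: `{s,t,b} \ T ⊆ P`, and `P ∪ L` is closed for `insert {a,b} H` in `W` and `T ∩ (W \ L)`.
(2) `a ∉ T`, `a ∉ P`: `s, t, b ∉ P`, and `P` is closed for `insert {a,b} H` in `W` and `T`.
(3) `a ∈ T`: if `{s,t} ∩ P ≠ ∅` then `{s,t} \ T ⊆ P` and `P ∪ (L \ {a})` is closed for `insert {a,b} H` in `W` and `T`;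
otherwise `P` is closed for it. Each case contradicts `L3 (insert {a,b} H) W x y` (`y ≠ a` in (1) and (3)... `y` is not
in the enlarged set: `y ∉ L \ {a}` because `y ∈ insert a (W \ L)`, and `y = a` is impossible in (1) since `a ∈ P`).
PROOF of `l3_far`. `y ∈ R`, `x ∈ L`, `x ≠ a`, `L3 (insert {a,b} H) W x y`, `z ∈ {s,t,a}`. Let `P ∋ y` be closed for `ext` and `T`,
`z ∉ P ∪ T`. `{s,t,a}` is a clique, so `{s,t,a} ∩ P = ∅`, `P ⊆ R`. `b ∈ P` implies `a ∈ T`. `P` is closed for
`insert {a,b} H` in `W` and `T ∩ insert a (W \ L)`; `x ∉ T ∩ insert a (W \ L)` because `x ∈ L`, `x ≠ a`; `x ∉ P`.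
Contradiction with `L3 (insert {a,b} H) W x y`.
-/

namespace Pool.Agent.GRB

open Finset Pool.Agent.GRA

variable {α : Type} [DecidableEq α] [Fintype α]

private theorem mem_pair_left (x y : α) : x ∈ ({x, y} : Finset α) := by simp

private theorem mem_pair_right (x y : α) : y ∈ ({x, y} : Finset α) := by simp

private theorem pair_sub {x y : α} {Y : Finset α} (hx : x ∈ Y) (hy : y ∈ Y) :
    ({x, y} : Finset α) ⊆ Y := by
  intro z hz
  simp only [mem_insert, mem_singleton] at hz
  rcases hz with rfl | rfl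
  · exact hx
  · exact hy

private theorem ext_mem {H : Finset (Finset α)} {W : Finset α} {a b s t : α} {L : Finset α}
    {e : Finset α} (he : e ∈ H ∨ e = {s, t} ∨ e = {a, s} ∨ e = {a, t} ∨ e = {a, b})
    (hY : e ⊆ insert a (W \ L)) :
    e ∈ (ext H a b s t).filter (· ⊆ insert a (W \ L)) := by
  rw [mem_filter]
  refine ⟨?_, hY⟩
  simp only [ext, mem_union, mem_insert, mem_singleton]
  exact he

private theorem mem_side {W : Finset α} {L : Finset α} {a z : α} (hz : z ∈ W) (hzL : z ∉ L) :
    z ∈ insert a (W \ L) := mem_insert_of_mem (mem_sdiff.2 ⟨hz, hzL⟩)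

/-- Steps of a closed set along the five kinds of edges. -/
private theorem step {H : Finset (Finset α)} {W : Finset α} {a b s t : α} {L S P : Finset α}
    (hP : Closed ((ext H a b s t).filter (· ⊆ insert a (W \ L))) S P) {u v : α}
    (hu : u ∈ P) (hv : v ∉ S)
    (he : ({u, v} : Finset α) ∈ H ∨ ({u, v} : Finset α) = {s, t} ∨ ({u, v} : Finset α) = {a, s} ∨
      ({u, v} : Finset α) = {a, t} ∨ ({u, v} : Finset α) = {a, b})
    (huY : u ∈ insert a (W \ L)) (hvY : v ∈ insert a (W \ L)) : v ∈ P :=
  hP.2 u hu v hv (ext_mem he (pair_sub huY hvY))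

theorem l3_bs {H : Finset (Finset α)} (hH : IsG H) {W : Finset α} (hM : MCon H W)
    {a b s t : α} {L : Finset α} (hS : SepAt H W a b s t L) :
    L3 (ext H a b s t) (insert a (W \ L)) b s := by
  intro S hSc hbS hsS P hP hbP
  by_contra hsP
  have haW : a ∈ W := hS.LW hS.aL
  have has : a ≠ s := fun h => hS.sL (h ▸ hS.aL)
  have hat : a ≠ t := fun h => hS.tL (h ▸ hS.aL)
  have haY : a ∈ insert a (W \ L) := mem_insert_self _ _
  have hbY : b ∈ insert a (W \ L) := mem_side hS.bW hS.bL
  have hsY : s ∈ insert a (W \ L) := mem_side hS.sW hS.sL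
  have htY : t ∈ insert a (W \ L) := mem_side hS.tW hS.tL
  have h3 : 3 ≤ W.card := by
    have h1 : ({a, s, t} : Finset α).card = 3 := card_eq_three.2 ⟨a, s, t, has, hat, hS.ne, rfl⟩
    rw [← h1]
    refine card_le_card ?_
    intro z hz
    simp only [mem_insert, mem_singleton] at hz
    rcases hz with rfl | rfl | rfl
    · exact haW
    · exact hS.sW
    · exact hS.tW
  have haS : a ∈ S := by
    by_contra haS
    have h1 : a ∈ P := step hP hbP haS (by rw [pair_comm b a]; simp) hbY haY
    exact hsP (step hP h1 hsS (by simp) haY hsY)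
  have htP : t ∉ P := fun h => hsP (step hP h hsS (by rw [pair_comm t s]; simp) htY hsY)
  have hcl : Closed (H.filter (· ⊆ W)) (S.erase a) (P ∩ (W \ L)) := by
    refine ⟨?_, ?_⟩
    · rw [disjoint_left]
      intro x hx hx'
      exact disjoint_left.1 hP.1 (mem_inter.1 hx).1 (mem_of_mem_erase hx')
    · intro x hx y hy hxy
      obtain ⟨hxP, hx2⟩ := mem_inter.1 hx
      obtain ⟨hxW, hxL⟩ := mem_sdiff.1 hx2
      obtain ⟨hxyH, hxyW⟩ := mem_filter.1 hxy
      have hyW : y ∈ W := hxyW (mem_pair_right x y)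
      have hyL : y ∉ L := by
        intro hyL
        refine hxL (hS.closed.2 y hyL x ?_ (by rw [pair_comm]; exact hxy))
        simp only [mem_insert, mem_singleton, not_or]
        exact ⟨fun h => hsP (h ▸ hxP), fun h => htP (h ▸ hxP)⟩
      have hya : y ≠ a := fun h => hyL (h ▸ hS.aL)
      have hyS : y ∉ S := fun h => hy (mem_erase.2 ⟨hya, h⟩)
      refine mem_inter.2 ⟨?_, mem_sdiff.2 ⟨hyW, hyL⟩⟩
      exact step hP hxP hyS (Or.inl hxyH) (mem_side hxW hxL) (mem_side hyW hyL)
  have h4 := cut_one hH hM h3 hcl (mem_inter.2 ⟨hbP, mem_sdiff.2 ⟨hS.bW, hS.bL⟩⟩) hS.bW hS.sW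
    (fun h => hsP (mem_inter.1 h).1) (fun h => hsS (mem_of_mem_erase h))
  have h5 : (S.erase a ∩ W).card ≤ (S.erase a).card := card_le_card inter_subset_left
  have h6 := card_erase_of_mem haS
  omega

/-- The case where `L` is added to `P`. -/
private theorem big {H : Finset (Finset α)} {W : Finset α} {a b s t : α} {L S P : Finset α}
    (hS : SepAt H W a b s t L)
    (hP : Closed ((ext H a b s t).filter (· ⊆ insert a (W \ L))) S P)
    (hs : s ∉ S → s ∈ P) (ht : t ∉ S → t ∈ P) (ha : a ∉ S → a ∈ P) :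
    Closed ((insert {a, b} H).filter (· ⊆ W)) S
      ((P ∩ insert a (W \ L)) ∪ (L \ S)) := by
  have haY : a ∈ insert a (W \ L) := mem_insert_self _ _
  have hbY : b ∈ insert a (W \ L) := mem_side hS.bW hS.bL
  refine ⟨?_, ?_⟩
  · rw [disjoint_left]
    intro x hx hx'
    rcases mem_union.1 hx with h | h
    · exact disjoint_left.1 hP.1 (mem_inter.1 h).1 hx'
    · exact (mem_sdiff.1 h).2 hx'
  · intro u hu v hv huv
    obtain ⟨huvH, huvW⟩ := mem_filter.1 huv
    have huW : u ∈ W := huvW (mem_pair_left u v)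
    have hvW : v ∈ W := huvW (mem_pair_right u v)
    have huS : u ∉ S := by
      rcases mem_union.1 hu with h | h
      · exact disjoint_left.1 hP.1 (mem_inter.1 h).1
      · exact (mem_sdiff.1 h).2
    by_cases hvL : v ∈ L
    · exact mem_union_right _ (mem_sdiff.2 ⟨hvL, hv⟩)
    refine mem_union_left _ (mem_inter.2 ⟨?_, mem_side hvW hvL⟩)
    rcases mem_insert.1 huvH with hab | hH
    · have hv1 : v ∈ ({a, b} : Finset α) := by
        rw [← hab]
        exact mem_pair_right u v
      have hu1 : u ∈ ({a, b} : Finset α) := by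
        rw [← hab]
        exact mem_pair_left u v
      have hva : v ≠ a := fun h => hvL (h ▸ hS.aL)
      have hvb : v = b := by
        simp only [mem_insert, mem_singleton] at hv1
        exact hv1.resolve_left hva
      subst hvb
      simp only [mem_insert, mem_singleton] at hu1
      rcases hu1 with rfl | rfl
      · exact step hP (ha huS) hv (by simp) haY hbY
      · rcases mem_union.1 hu with h | h
        · exact (mem_inter.1 h).1
        · exact absurd (mem_sdiff.1 h).1 hvL
    · by_cases huL : u ∈ L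
      · have hvst : v = s ∨ v = t := by
          by_contra hcon
          refine hvL (hS.closed.2 u huL v ?_ (mem_filter.2 ⟨hH, huvW⟩))
          simpa only [mem_insert, mem_singleton] using hcon
        rcases hvst with rfl | rfl
        · exact hs hv
        · exact ht hv
      · have huP : u ∈ P ∩ insert a (W \ L) := by
          rcases mem_union.1 hu with h | h
          · exact h
          · exact absurd (mem_sdiff.1 h).1 huL
        exact step hP (mem_inter.1 huP).1 hv (Or.inl hH) (mem_side huW huL) (mem_side hvW hvL)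

/-- The case where nothing is added. -/
private theorem small {H : Finset (Finset α)} {W : Finset α} {a b s t : α} {L S P : Finset α}
    (hS : SepAt H W a b s t L)
    (hP : Closed ((ext H a b s t).filter (· ⊆ insert a (W \ L))) S P)
    (hs : s ∉ P) (ht : t ∉ P) (ha : a ∉ P) (hab : a ∈ S ∨ b ∉ P) :
    Closed ((insert {a, b} H).filter (· ⊆ W)) (S ∩ insert a (W \ L))
      (P ∩ insert a (W \ L)) := by
  have haY : a ∈ insert a (W \ L) := mem_insert_self _ _
  refine ⟨?_, ?_⟩
  · rw [disjoint_left]
    intro x hx hx'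
    exact disjoint_left.1 hP.1 (mem_inter.1 hx).1 (mem_inter.1 hx').1
  · intro u hu v hv huv
    obtain ⟨huvH, huvW⟩ := mem_filter.1 huv
    have huW : u ∈ W := huvW (mem_pair_left u v)
    have hvW : v ∈ W := huvW (mem_pair_right u v)
    obtain ⟨huP, huY⟩ := mem_inter.1 hu
    have hua : u ≠ a := fun h => ha (h ▸ huP)
    have huL : u ∉ L := by
      rcases mem_insert.1 huY with h | h
      · exact absurd h hua
      · exact (mem_sdiff.1 h).2
    rcases mem_insert.1 huvH with hab' | hH
    · exfalso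
      have hv1 : v ∈ ({a, b} : Finset α) := by
        rw [← hab']
        exact mem_pair_right u v
      have hu1 : u ∈ ({a, b} : Finset α) := by
        rw [← hab']
        exact mem_pair_left u v
      have hub : u = b := by
        simp only [mem_insert, mem_singleton] at hu1
        exact hu1.resolve_left hua
      subst hub
      have haS : a ∈ S := hab.resolve_right (fun h => h huP)
      have hav : a ∈ ({u, v} : Finset α) := by
        rw [hab']
        exact mem_pair_left _ _
      simp only [mem_insert, mem_singleton] at hav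
      have hva : v = a := (hav.resolve_left (fun h => hua h.symm)).symm
      subst hva
      exact hv (mem_inter.2 ⟨haS, haY⟩)
    · have hvL : v ∉ L := by
        intro hvL
        refine huL (hS.closed.2 v hvL u ?_ (mem_filter.2 ⟨by rw [pair_comm]; exact hH,
          by rw [pair_comm]; exact huvW⟩))
        simp only [mem_insert, mem_singleton, not_or]
        exact ⟨fun h => hs (h ▸ huP), fun h => ht (h ▸ huP)⟩
      have hvY : v ∈ insert a (W \ L) := mem_side hvW hvL
      have hvS : v ∉ S := fun h => hv (mem_inter.2 ⟨h, hvY⟩)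
      exact mem_inter.2 ⟨step hP huP hvS (Or.inl hH) (mem_side huW huL) hvY, hvY⟩

theorem l3_near {H : Finset (Finset α)} (hH : IsG H) {W : Finset α} {a b s t : α} {L : Finset α}
    (hS : SepAt H W a b s t L) {x y : α} (hx : x ∈ insert a (W \ L)) (hy : y ∈ insert a (W \ L))
    (h : L3 (insert {a, b} H) W x y) : L3 (ext H a b s t) (insert a (W \ L)) x y := by
  intro S hSc hxS hyS P hP hxP
  by_contra hyP
  have haY : a ∈ insert a (W \ L) := mem_insert_self _ _
  have hbY : b ∈ insert a (W \ L) := mem_side hS.bW hS.bL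
  have hsY : s ∈ insert a (W \ L) := mem_side hS.sW hS.sL
  have htY : t ∈ insert a (W \ L) := mem_side hS.tW hS.tL
  have hbig : (s ∉ S → s ∈ P) → (t ∉ S → t ∈ P) → (a ∉ S → a ∈ P) → False := by
    intro h1 h2 h3
    have h4 := h S hSc hxS hyS _ (big hS hP h1 h2 h3) (mem_union_left _ (mem_inter.2 ⟨hxP, hx⟩))
    rcases mem_union.1 h4 with h5 | h5
    · exact hyP (mem_inter.1 h5).1
    · obtain ⟨hyL, _⟩ := mem_sdiff.1 h5
      rcases mem_insert.1 hy with h6 | h6
      · exact hyP (h6 ▸ h3 (h6 ▸ hyS))
      · exact (mem_sdiff.1 h6).2 hyL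
  have hsmall : s ∉ P → t ∉ P → a ∉ P → (a ∈ S ∨ b ∉ P) → False := by
    intro h1 h2 h3 h4
    have h5 := h (S ∩ insert a (W \ L)) (le_trans (card_le_card inter_subset_left) hSc)
      (fun h6 => hxS (mem_inter.1 h6).1) (fun h6 => hyS (mem_inter.1 h6).1) _
      (small hS hP h1 h2 h3 h4) (mem_inter.2 ⟨hxP, hx⟩)
    exact hyP (mem_inter.1 h5).1
  by_cases haS : a ∈ S
  · have haP : a ∉ P := fun h1 => disjoint_left.1 hP.1 h1 haS
    by_cases hst : s ∈ P ∨ t ∈ P
    · refine hbig ?_ ?_ (fun h1 => absurd haS h1)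
      · intro hsS
        rcases hst with h1 | h1
        · exact h1
        · exact step hP h1 hsS (by rw [pair_comm t s]; simp) htY hsY
      · intro htS
        rcases hst with h1 | h1
        · exact step hP h1 htS (by simp) hsY htY
        · exact h1
    · rw [not_or] at hst
      exact hsmall hst.1 hst.2 haP (Or.inl haS)
  · by_cases haP : a ∈ P
    · refine hbig ?_ ?_ (fun _ => haP)
      · intro hsS
        exact step hP haP hsS (by simp) haY hsY
      · intro htS
        exact step hP haP htS (by simp) haY htY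
    · refine hsmall ?_ ?_ haP (Or.inr ?_)
      · exact fun h1 => haP (step hP h1 haS (by rw [pair_comm s a]; simp) hsY haY)
      · exact fun h1 => haP (step hP h1 haS (by rw [pair_comm t a]; simp) htY haY)
      · exact fun h1 => haP (step hP h1 haS (by rw [pair_comm b a]; simp) hbY haY)

theorem l3_far {H : Finset (Finset α)} (hH : IsG H) {W : Finset α} {a b s t : α} {L : Finset α}
    (hS : SepAt H W a b s t L) {x y z : α} (hx : x ∈ L) (hxa : x ≠ a) (hy : y ∈ W) (hyL : y ∉ L)
    (hys : y ≠ s) (hyt : y ≠ t) (h : L3 (insert {a, b} H) W x y)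
    (hz : z = s ∨ z = t ∨ z = a) : L3 (ext H a b s t) (insert a (W \ L)) y z := by
  intro S hSc hyS hzS P hP hyP
  by_contra hzP
  have haY : a ∈ insert a (W \ L) := mem_insert_self _ _
  have hbY : b ∈ insert a (W \ L) := mem_side hS.bW hS.bL
  have hsY : s ∈ insert a (W \ L) := mem_side hS.sW hS.sL
  have htY : t ∈ insert a (W \ L) := mem_side hS.tW hS.tL
  have hsP : s ∉ P := by
    intro h1
    rcases hz with rfl | rfl | rfl
    · exact hzP h1
    · exact hzP (step hP h1 hzS (by simp) hsY htY)
    · exact hzP (step hP h1 hzS (by rw [pair_comm s z]; simp) hsY haY)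
  have htP : t ∉ P := by
    intro h1
    rcases hz with rfl | rfl | rfl
    · exact hzP (step hP h1 hzS (by rw [pair_comm t z]; simp) htY hsY)
    · exact hzP h1
    · exact hzP (step hP h1 hzS (by rw [pair_comm t z]; simp) htY haY)
  have haP : a ∉ P := by
    intro h1
    rcases hz with rfl | rfl | rfl
    · exact hzP (step hP h1 hzS (by simp) haY hsY)
    · exact hzP (step hP h1 hzS (by simp) haY htY)
    · exact hzP h1
  have hab : a ∈ S ∨ b ∉ P := by
    by_contra hcon
    rw [not_or, not_not] at hcon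
    exact haP (step hP hcon.2 hcon.1 (by rw [pair_comm b a]; simp) hbY haY)
  have hxY : x ∉ insert a (W \ L) := by
    rw [mem_insert, mem_sdiff, not_or]
    exact ⟨hxa, fun h1 => h1.2 hx⟩
  have hxT : x ∉ S ∩ insert a (W \ L) := fun h1 => hxY (mem_inter.1 h1).2
  have h1 := (h (S ∩ insert a (W \ L)) (le_trans (card_le_card inter_subset_left) hSc) hxT
    (fun h6 => hyS (mem_inter.1 h6).1)).symm hxT
  have h2 := h1 _ (small hS hP hsP htP haP hab) (mem_inter.2 ⟨hyP, mem_side hy hyL⟩)
  exact hxY (mem_inter.1 h2).2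

end Pool.Agent.GRB
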