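import Pool.Agent.GRB.Ker

/-!
# GRB/Field: a polynomial vector field tangent to the fibres of the length map

`B` is a graph with `2n - 4` members, `{c,d} ∈ B`. `X q` is the generalized cross product of the `2n - 1` vectors
(pins) `e_(c,0), e_(c,1), e_(d,0), e_(d,1)` and `row q e`, `e ∈ B.erase {c,d}`, in the space `Cfg α` of dimension `2n`:
with `M q w` the square matrix with these rows and the last row `w`, `ip (X q) w = det (M q w)`, i.e.
`X q x i = det (M q (unit vector at (x,i)))`.

PROOF of `exists_field`. Choose an equivalence between the row index set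
`(Fin 2 × Fin 2) ⊕ {e // e ∈ B.erase {c,d}} ⊕ Unit` and `α × Fin 2` (equal cardinalities `4 + (2n-5) + 1 = 2n`).
Smooth: the determinant is a polynomial in the entries and `row q e` is linear in `q`.
`ip (X q) w = det (M q w)` (expansion along the last row), so `ip (X q) (pin) = 0`, `ip (X q) (row q e) = 0` for
`e ∈ B.erase {c,d}` (two equal rows); for `{c,d}`: `ip_row` and `X q c = X q d = 0`.
`X q ≠ 0`: if `q c ≠ q d` and the rows of `B` are independent at `q`, the `2n - 1` vectors are linearly
independent: by `ker_line` and `ker_exists` their annihilator has dimension exactly one. So some unit vector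
completes them to a basis and one determinant is not zero.
Translations: `row (q + z) e = row q e`.
Reflections (`R = refl r s`, `r² + s² = 1`, applied at every vertex): `row (R q) e = R (row q e)`. `det (M (R q) (R w))`:
multiply the matrix on the right by the block matrix `𝐑` (symmetric, orthogonal, `det 𝐑 = (-1)^n`); the rows
become `row q e`, `w` and the pins times `𝐑`, which are combinations of the two pins at the same vertex with
determinant `-1` for `c` and `-1` for `d`. So `det (M (R q) (R w)) (-1)^n = det (M q w)` for all `w`, i.e.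
`X (R q) = (-1)^n R (X q)`.
-/

namespace Pool.Agent.GRB

open Finset Pool.Agent.GRA

variable {α : Type} [DecidableEq α] [Fintype α]

/-- the unit configuration at `(x, i)` -/
private def uc (x : α) (i : Fin 2) : Cfg α := Pi.single x (Pi.single i 1)

/-- the index set of the rows -/
private abbrev RI (B : Finset (Finset α)) (c d : α) : Type :=
  (Fin 2 × Fin 2) ⊕ ({e // e ∈ B.erase {c, d}} ⊕ Unit)

/-- the pin vertices -/
private def pv (c d : α) (j : Fin 2) : α := if j = 0 then c else d

/-- the rectangular matrix -/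
private def Mt (B : Finset (Finset α)) (c d : α) (q w : Cfg α) : Matrix (RI B c d) (α × Fin 2) ℝ :=
  Matrix.of fun ρ t => match ρ with
    | Sum.inl p => uc (pv c d p.1) p.2 t.1 t.2
    | Sum.inr (Sum.inl e) => row q e.1 t.1 t.2
    | Sum.inr (Sum.inr _) => w t.1 t.2

/-- the determinant -/
private noncomputable def Dt (B : Finset (Finset α)) (c d : α) (ε : α × Fin 2 ≃ RI B c d) (q w : Cfg α) : ℝ :=
  ((Mt B c d q w).submatrix ε id).det

private theorem Mt_upd (B : Finset (Finset α)) (c d : α) (ε : α × Fin 2 ≃ RI B c d) (q w : Cfg α) :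
    (Mt B c d q w).submatrix ε id =
      ((Mt B c d q 0).submatrix ε id).updateRow (ε.symm (Sum.inr (Sum.inr ()))) (fun t => w t.1 t.2) := by
  ext s t
  rw [Matrix.updateRow_apply]
  split_ifs with h
  · subst h
    simp [Mt]
  · have h2 : ε s ≠ Sum.inr (Sum.inr ()) := by
      intro h3
      apply h
      rw [← h3, Equiv.symm_apply_apply]
    rw [Matrix.submatrix_apply, Matrix.submatrix_apply]
    revert h2
    generalize ε s = ρ
    intro h2
    rcases ρ with p | e | u
    · rfl
    · rfl
    · exact absurd rfl h2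

/-- the determinant is linear in `w` -/
private noncomputable def Dl (B : Finset (Finset α)) (c d : α) (ε : α × Fin 2 ≃ RI B c d) (q : Cfg α) :
    Cfg α →ₗ[ℝ] ℝ where
  toFun w := Dt B c d ε q w
  map_add' w w' := by
    unfold Dt
    rw [Mt_upd, Mt_upd B c d ε q w, Mt_upd B c d ε q w', ← Matrix.det_updateRow_add]
    rfl
  map_smul' r w := by
    unfold Dt
    rw [Mt_upd, Mt_upd B c d ε q w, RingHom.id_apply, smul_eq_mul, ← Matrix.det_updateRow_smul]
    rfl

private theorem cfg_expand (u : Cfg α) : u = ∑ x, (u x 0 • uc x 0 + u x 1 • uc x 1) := by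
  unfold uc
  funext y i
  rw [Finset.sum_apply, Finset.sum_apply, Finset.sum_eq_single y]
  · fin_cases i <;> simp
  · intro x _ hx
    simp [Pi.single_eq_of_ne hx.symm]
  · intro h
    exact absurd (Finset.mem_univ y) h

/-- the field -/
private noncomputable def XX (B : Finset (Finset α)) (c d : α) (ε : α × Fin 2 ≃ RI B c d) (q : Cfg α) :
    Cfg α := fun x i => Dt B c d ε q (uc x i)

private theorem ip_XX (B : Finset (Finset α)) (c d : α) (ε : α × Fin 2 ≃ RI B c d) (q w : Cfg α) :
    ip (XX B c d ε q) w = Dt B c d ε q w := by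
  have h1 : Dt B c d ε q w = Dl B c d ε q w := rfl
  rw [h1]
  conv_rhs => rw [cfg_expand w]
  rw [map_sum]
  unfold ip XX
  refine Finset.sum_congr rfl fun x _ => ?_
  rw [map_add, map_smul, map_smul, smul_eq_mul, smul_eq_mul]
  show Dt B c d ε q (uc x 0) * w x 0 + Dt B c d ε q (uc x 1) * w x 1 =
    w x 0 * Dt B c d ε q (uc x 0) + w x 1 * Dt B c d ε q (uc x 1)
  ring

private theorem Dt_eq_zero (B : Finset (Finset α)) (c d : α) (ε : α × Fin 2 ≃ RI B c d) (q w : Cfg α)
    (ρ : RI B c d) (hρ : ρ ≠ Sum.inr (Sum.inr ())) (h : ∀ t, Mt B c d q w ρ t = w t.1 t.2) :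
    Dt B c d ε q w = 0 := by
  unfold Dt
  refine Matrix.det_zero_of_row_eq (i := ε.symm ρ) (j := ε.symm (Sum.inr (Sum.inr ()))) ?_ ?_
  · intro h2
    exact hρ (ε.symm.injective h2)
  · funext t
    rw [Matrix.submatrix_apply, Matrix.submatrix_apply, Equiv.apply_symm_apply,
      Equiv.apply_symm_apply, id, h]
    rfl

private theorem XX_pin (B : Finset (Finset α)) (c d : α) (ε : α × Fin 2 ≃ RI B c d) (q : Cfg α)
    (j : Fin 2) : XX B c d ε q (pv c d j) = 0 := by
  funext i
  exact Dt_eq_zero B c d ε q _ (Sum.inl (j, i)) (by simp) (fun t => rfl)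

private theorem XX_row (B : Finset (Finset α)) (c d : α) (ε : α × Fin 2 ≃ RI B c d) (q : Cfg α)
    {e : Finset α} (he : e ∈ B) : ip (row q e) (XX B c d ε q) = 0 := by
  by_cases h : e = {c, d}
  · have h1 : XX B c d ε q c = 0 := XX_pin B c d ε q 0
    have h2 : XX B c d ε q d = 0 := XX_pin B c d ε q 1
    rw [h, ip_row, h1, h2]
    simp
  · rw [ip_comm, ip_XX]
    exact Dt_eq_zero B c d ε q _ (Sum.inr (Sum.inl ⟨e, Finset.mem_erase.2 ⟨h, he⟩⟩))
      (by simp) (fun t => rfl)

private theorem XX_ne {B : Finset (Finset α)} (hB : IsG B)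
    (hcard : B.card + 4 = 2 * Fintype.card α) {c d : α} (hmem : ({c, d} : Finset α) ∈ B)
    (ε : α × Fin 2 ≃ RI B c d) {q : Cfg α} (hcd : q c ≠ q d) (hli : RowInd B q) :
    XX B c d ε q ≠ 0 := by
  intro h0
  obtain ⟨u, hu0, hu, huc, hud⟩ := ker_exists hB hcard (q := q) hmem
  have h1 : Dt B c d ε q u = 0 := by
    rw [← ip_XX, h0]
    simp [ip]
  unfold Dt at h1
  obtain ⟨v, hv0, hv⟩ := Matrix.exists_mulVec_eq_zero_iff.2 h1
  obtain ⟨v', hv'⟩ : ∃ v' : Cfg α, v' = fun x i => v (x, i) := ⟨_, rfl⟩
  have key : ∀ ρ, ∑ x, (Mt B c d q u ρ (x, 0) * v' x 0 + Mt B c d q u ρ (x, 1) * v' x 1) = 0 := by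
    intro ρ
    have h2 := congrFun hv (ε.symm ρ)
    simp only [Matrix.mulVec, dotProduct, Matrix.submatrix_apply, Equiv.apply_symm_apply, id,
      Pi.zero_apply, Fintype.sum_prod_type, Fin.sum_univ_two] at h2
    rw [hv']
    exact h2
  have kip : ∀ w : Cfg α, (∃ ρ, ∀ t, Mt B c d q u ρ t = w t.1 t.2) → ip w v' = 0 := by
    rintro w ⟨ρ, h⟩
    have h2 := key ρ
    simp only [h] at h2
    exact h2
  have hpin : ∀ j, v' (pv c d j) = 0 := by
    intro j
    funext i
    have h2 := kip (uc (pv c d j) i) ⟨Sum.inl (j, i), fun t => rfl⟩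
    unfold ip uc at h2
    rw [Finset.sum_eq_single (pv c d j)] at h2
    · fin_cases i
      · simpa using h2
      · simpa using h2
    · intro x _ hx
      simp [Pi.single_eq_of_ne hx]
    · intro h
      exact absurd (Finset.mem_univ _) h
  have hvc : v' c = 0 := hpin 0
  have hvd : v' d = 0 := hpin 1
  have hrow : ∀ e ∈ B, ip (row q e) v' = 0 := by
    intro e he
    by_cases h : e = {c, d}
    · rw [h, ip_row, hvc, hvd]
      simp
    · exact kip _ ⟨Sum.inr (Sum.inl ⟨e, Finset.mem_erase.2 ⟨h, he⟩⟩), fun t => rfl⟩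
  have huv : ip u v' = 0 := kip u ⟨Sum.inr (Sum.inr ()), fun t => rfl⟩
  obtain ⟨r, hr⟩ := ker_line hB hcard hli hcd hmem hrow hvc hvd hu huc hud hu0
  rw [hr, ip_smul_right] at huv
  have hr0 : r = 0 := by
    rcases mul_eq_zero.1 huv with h | h
    · exact h
    · exact absurd (ip_self_eq_zero.1 h) hu0
  rw [hr0, zero_smul] at hr
  apply hv0
  funext t
  have h3 := congrFun (congrFun hr t.1) t.2
  rw [hv'] at h3
  exact h3

private theorem contDiff_entry (B : Finset (Finset α)) (c d : α) (w : Cfg α) (ρ : RI B c d)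
    (t : α × Fin 2) : ContDiff ℝ 1 (fun q => Mt B c d q w ρ t) := by
  rcases ρ with p | e | u
  · exact contDiff_const
  · show ContDiff ℝ 1 (fun q : Cfg α => row q e.1 t.1 t.2)
    unfold row
    by_cases h : t.1 ∈ e.1
    · simp only [if_pos h]
      fun_prop
    · simp only [if_neg h]
      exact contDiff_const
  · exact contDiff_const

private theorem contDiff_XX (B : Finset (Finset α)) (c d : α) (ε : α × Fin 2 ≃ RI B c d) :
    ContDiff ℝ 1 (XX B c d ε) := by
  rw [contDiff_pi]
  intro x
  rw [contDiff_pi]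
  intro i
  show ContDiff ℝ 1 (fun q => Dt B c d ε q (uc x i))
  unfold Dt
  simp only [Matrix.det_apply, Matrix.submatrix_apply]
  refine ContDiff.sum fun σ _ => ?_
  refine ContDiff.const_smul _ ?_
  refine contDiff_prod fun s _ => ?_
  exact contDiff_entry B c d _ _ _

private theorem row_add (q : Cfg α) (z : Fin 2 → ℝ) (e : Finset α) :
    row (fun x => q x + z) e = row q e := by
  funext x i
  unfold row
  split_ifs
  · refine Finset.sum_congr rfl fun y _ => ?_
    simp only [Pi.add_apply]
    ring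
  · rfl

private theorem Mt_add (B : Finset (Finset α)) (c d : α) (q w : Cfg α) (z : Fin 2 → ℝ) :
    Mt B c d (fun x => q x + z) w = Mt B c d q w := by
  ext ρ t
  rcases ρ with p | e | u
  · rfl
  · show row (fun x => q x + z) e.1 t.1 t.2 = row q e.1 t.1 t.2
    rw [row_add]
  · rfl

/-- the matrix of the reflection -/
private def Rm (r s : ℝ) : Matrix (Fin 2) (Fin 2) ℝ := !![r, s; s, -r]

private theorem Rm_sq {r s : ℝ} (h : r ^ 2 + s ^ 2 = 1) : Rm r s * Rm r s = 1 := by
  ext i j
  rw [Matrix.mul_apply, Fin.sum_univ_two]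
  fin_cases i <;> fin_cases j <;> simp [Rm] <;> nlinarith [h]

private theorem refl_eq (r s : ℝ) (x : Fin 2 → ℝ) (i : Fin 2) :
    refl r s x i = x 0 * Rm r s 0 i + x 1 * Rm r s 1 i := by
  unfold refl Rm
  fin_cases i
  · simp; ring
  · simp; ring

open Matrix Kronecker in
/-- the right factor -/
private def RR (α : Type) [DecidableEq α] (r s : ℝ) : Matrix (α × Fin 2) (α × Fin 2) ℝ :=
  (1 : Matrix α α ℝ) ⊗ₖ Rm r s

open Matrix Kronecker in
private theorem RR_sq {r s : ℝ} (h : r ^ 2 + s ^ 2 = 1) : RR α r s * RR α r s = 1 := by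
  unfold RR
  rw [← Matrix.mul_kronecker_mul, Rm_sq h, one_mul, Matrix.one_kronecker_one]

open Matrix Kronecker in
/-- the left factor -/
private def LL (B : Finset (Finset α)) (c d : α) (r s : ℝ) : Matrix (RI B c d) (RI B c d) ℝ :=
  Matrix.fromBlocks ((1 : Matrix (Fin 2) (Fin 2) ℝ) ⊗ₖ Rm r s) 0 0 1

open Matrix Kronecker in
private theorem LL_sq (B : Finset (Finset α)) (c d : α) {r s : ℝ} (h : r ^ 2 + s ^ 2 = 1) :
    LL B c d r s * LL B c d r s = 1 := by
  unfold LL
  rw [Matrix.fromBlocks_multiply, ← Matrix.mul_kronecker_mul, Rm_sq h, one_mul,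
    Matrix.one_kronecker_one]
  simp

private theorem mul_RR (B : Finset (Finset α)) (c d : α) (q w : Cfg α) (r s : ℝ) (ρ : RI B c d)
    (x : α) (i : Fin 2) : (Mt B c d q w * RR α r s) ρ (x, i) =
      Mt B c d q w ρ (x, 0) * Rm r s 0 i + Mt B c d q w ρ (x, 1) * Rm r s 1 i := by
  rw [Matrix.mul_apply, Fintype.sum_prod_type, Finset.sum_eq_single x]
  · rw [Fin.sum_univ_two]
    simp [RR, Matrix.kroneckerMap_apply]
  · intro y _ hy
    rw [Fin.sum_univ_two]
    simp [RR, Matrix.kroneckerMap_apply, Matrix.one_apply_ne hy]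
  · intro h
    exact absurd (Finset.mem_univ x) h

private theorem row_refl (q : Cfg α) (r s : ℝ) (e : Finset α) (x : α) (i : Fin 2) :
    row (fun x => refl r s (q x)) e x i = row q e x 0 * Rm r s 0 i + row q e x 1 * Rm r s 1 i := by
  unfold row
  split_ifs
  · rw [Finset.sum_mul, Finset.sum_mul, ← Finset.sum_add_distrib]
    refine Finset.sum_congr rfl fun y _ => ?_
    show refl r s (q x) i - refl r s (q y) i = _
    rw [refl_eq, refl_eq]
    ring
  · simp

private theorem Mt_refl (B : Finset (Finset α)) (c d : α) (q w : Cfg α) {r s : ℝ}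
    (h : r ^ 2 + s ^ 2 = 1) :
    Mt B c d (fun x => refl r s (q x)) (fun x => refl r s (w x)) =
      LL B c d r s * (Mt B c d q w * RR α r s) := by
  ext ρ t
  obtain ⟨x, i⟩ := t
  rw [Matrix.mul_apply, Fintype.sum_sum_type]
  rcases ρ with p | e | u
  · obtain ⟨j, k⟩ := p
    have h0 : ∀ a : {e // e ∈ B.erase {c, d}} ⊕ Unit, LL B c d r s (Sum.inl (j, k)) (Sum.inr a) = 0 := by
      intro a
      simp [LL]
    simp only [h0, zero_mul, Finset.sum_const_zero, add_zero]
    rw [Fintype.sum_prod_type, Finset.sum_eq_single j]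
    · rw [Fin.sum_univ_two, mul_RR, mul_RR]
      have h1 : ∀ k', LL B c d r s (Sum.inl (j, k)) (Sum.inl (j, k')) = Rm r s k k' := by
        intro k'
        simp [LL, Matrix.kroneckerMap_apply]
      rw [h1, h1]
      show uc (pv c d j) k x i = Rm r s k 0 * (uc (pv c d j) 0 x 0 * Rm r s 0 i +
        uc (pv c d j) 0 x 1 * Rm r s 1 i) + Rm r s k 1 * (uc (pv c d j) 1 x 0 * Rm r s 0 i +
        uc (pv c d j) 1 x 1 * Rm r s 1 i)
      have h2 := congrFun (congrFun (Rm_sq h) k) i
      rw [Matrix.mul_apply, Fin.sum_univ_two] at h2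
      unfold uc
      by_cases hx : x = pv c d j
      · subst hx
        simp only [Pi.single_eq_same]
        have h3 : (Pi.single k 1 : Fin 2 → ℝ) i = (1 : Matrix (Fin 2) (Fin 2) ℝ) k i := by
          fin_cases k <;> fin_cases i <;> simp
        rw [h3, ← h2]
        simp
      · simp [Pi.single_eq_of_ne hx]
    · intro j' _ hj
      rw [Fin.sum_univ_two]
      have h1 : ∀ k', LL B c d r s (Sum.inl (j, k)) (Sum.inl (j', k')) = 0 := by
        intro k'
        simp [LL, Matrix.kroneckerMap_apply, Matrix.one_apply_ne (Ne.symm hj)]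
      rw [h1, h1]
      simp
    · intro h
      exact absurd (Finset.mem_univ j) h
  · have h0 : ∀ a, LL B c d r s (Sum.inr (Sum.inl e)) (Sum.inl a) = 0 := by
      intro a
      simp [LL]
    simp only [h0, zero_mul, Finset.sum_const_zero, zero_add]
    rw [Finset.sum_eq_single (Sum.inl e)]
    · rw [mul_RR]
      have h1 : LL B c d r s (Sum.inr (Sum.inl e)) (Sum.inr (Sum.inl e)) = 1 := by
        simp [LL]
      rw [h1, one_mul]
      exact row_refl q r s e.1 x i
    · intro a _ ha
      have h1 : LL B c d r s (Sum.inr (Sum.inl e)) (Sum.inr a) = 0 := by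
        simp [LL, Matrix.one_apply_ne (Ne.symm ha)]
      rw [h1, zero_mul]
    · intro h
      exact absurd (Finset.mem_univ _) h
  · have h0 : ∀ a, LL B c d r s (Sum.inr (Sum.inr u)) (Sum.inl a) = 0 := by
      intro a
      simp [LL]
    simp only [h0, zero_mul, Finset.sum_const_zero, zero_add]
    rw [Finset.sum_eq_single (Sum.inr u)]
    · rw [mul_RR]
      have h1 : LL B c d r s (Sum.inr (Sum.inr u)) (Sum.inr (Sum.inr u)) = 1 := by
        simp [LL]
      rw [h1, one_mul]
      exact refl_eq r s (w x) i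
    · intro a _ ha
      have h1 : LL B c d r s (Sum.inr (Sum.inr u)) (Sum.inr a) = 0 := by
        simp [LL, Matrix.one_apply_ne (Ne.symm ha)]
      rw [h1, zero_mul]
    · intro h
      exact absurd (Finset.mem_univ _) h

private theorem Dt_refl (B : Finset (Finset α)) (c d : α) (ε : α × Fin 2 ≃ RI B c d) (q w : Cfg α)
    {r s : ℝ} (h : r ^ 2 + s ^ 2 = 1) :
    Dt B c d ε (fun x => refl r s (q x)) (fun x => refl r s (w x)) =
      ((LL B c d r s).det * (RR α r s).det) * Dt B c d ε q w := by
  unfold Dt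
  rw [Mt_refl B c d q w h]
  have h1 : (LL B c d r s * (Mt B c d q w * RR α r s)).submatrix ε id =
      (LL B c d r s).submatrix ε ε * ((Mt B c d q w).submatrix ε id * RR α r s) := by
    rw [← Matrix.submatrix_mul_equiv (LL B c d r s) (Mt B c d q w * RR α r s) ε ε id]
    congr 1
  rw [h1, Matrix.det_mul, Matrix.det_mul, Matrix.det_submatrix_equiv_self]
  ring

private theorem det_pm {ι : Type} [Fintype ι] [DecidableEq ι] {M : Matrix ι ι ℝ} (h : M * M = 1) :
    M.det = 1 ∨ M.det = -1 := by
  have h1 : M.det * M.det = 1 := by rw [← Matrix.det_mul, h, Matrix.det_one]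
  exact mul_self_eq_one_iff.1 h1

private theorem refl_invol {r s : ℝ} (h : r ^ 2 + s ^ 2 = 1) (x : Fin 2 → ℝ) :
    refl r s (refl r s x) = x := by
  funext i
  unfold refl
  fin_cases i
  · simp
    linear_combination (x 0) * h
  · simp
    linear_combination (x 1) * h

private theorem ip_refl (r s : ℝ) (u w : Cfg α) :
    ip (fun x => refl r s (u x)) w = ip u (fun x => refl r s (w x)) := by
  unfold ip
  refine Finset.sum_congr rfl fun x _ => ?_
  simp only [refl_eq, Rm]
  simp
  ring

private theorem ip_ext {u v : Cfg α} (h : ∀ w, ip u w = ip v w) : u = v := by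
  have h1 : ip (u + (-1 : ℝ) • v) (u + (-1 : ℝ) • v) = 0 := by
    rw [ip_add_left, ip_smul_left, h]
    ring
  have h2 := ip_self_eq_zero.1 h1
  funext x i
  have h3 := congrFun (congrFun h2 x) i
  simp only [Pi.add_apply, Pi.smul_apply, smul_eq_mul, Pi.zero_apply] at h3
  linarith

private theorem XX_refl (B : Finset (Finset α)) (c d : α) (ε : α × Fin 2 ≃ RI B c d)
    {r s : ℝ} (h : r ^ 2 + s ^ 2 = 1) (q : Cfg α) :
    XX B c d ε (fun x => refl r s (q x)) =
      ((LL B c d r s).det * (RR α r s).det) • fun x => refl r s (XX B c d ε q x) := by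
  refine ip_ext fun w => ?_
  rw [ip_XX, ip_smul_left, ip_refl, ip_XX]
  have h1 := Dt_refl B c d ε q (fun x => refl r s (w x)) h
  simp only [refl_invol h] at h1
  exact h1

theorem exists_field {B : Finset (Finset α)} (hB : IsG B)
    (hcard : B.card + 4 = 2 * Fintype.card α) {c d : α} (hmem : ({c, d} : Finset α) ∈ B) :
    ∃ X : Cfg α → Cfg α, ContDiff ℝ 1 X ∧ (∀ q, X q c = 0 ∧ X q d = 0) ∧
      (∀ q, ∀ e ∈ B, ip (row q e) (X q) = 0) ∧
      (∀ q, q c ≠ q d → RowInd B q → X q ≠ 0) ∧
      (∀ (q : Cfg α) (z : Fin 2 → ℝ), X (fun x => q x + z) = X q) ∧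
      (∀ r s : ℝ, r ^ 2 + s ^ 2 = 1 →
        (∀ q : Cfg α, X (fun x => refl r s (q x)) = fun x => refl r s (X q x)) ∨
        (∀ q : Cfg α, X (fun x => refl r s (q x)) = fun x => -refl r s (X q x))) := by
  have hpos : 1 ≤ B.card := Finset.card_pos.2 ⟨_, hmem⟩
  have hc : Fintype.card (α × Fin 2) = Fintype.card (RI B c d) := by
    rw [Fintype.card_prod, Fintype.card_fin, Fintype.card_sum, Fintype.card_sum,
      Fintype.card_prod, Fintype.card_fin, Fintype.card_coe, Finset.card_erase_of_mem hmem,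
      Fintype.card_unit]
    omega
  obtain ⟨ε⟩ : Nonempty (α × Fin 2 ≃ RI B c d) := Fintype.card_eq.1 hc
  refine ⟨XX B c d ε, contDiff_XX B c d ε, fun q => ⟨XX_pin B c d ε q 0, XX_pin B c d ε q 1⟩,
    fun q e he => XX_row B c d ε q he, fun q h1 h2 => XX_ne hB hcard hmem ε h1 h2, ?_, ?_⟩
  · intro q z
    funext x i
    show Dt B c d ε (fun x => q x + z) (uc x i) = Dt B c d ε q (uc x i)
    unfold Dt
    rw [Mt_add]
  · intro r s h
    have h1 := XX_refl B c d ε h
    rcases det_pm (LL_sq B c d h) with h2 | h2 <;> rcases det_pm (RR_sq (α := α) h) with h3 | h3 <;>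
      rw [h2, h3] at h1
    · left
      intro q
      rw [h1 q]
      simp
    · right
      intro q
      rw [h1 q]
      funext x i
      simp
    · right
      intro q
      rw [h1 q]
      funext x i
      simp
    · left
      intro q
      rw [h1 q]
      simp

end Pool.Agent.GRB
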