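import Pool.Agent.GRB.Orb

/-!
# GRB/Nec: globally rigid generic frameworks are redundantly rigid
-/

namespace Pool.Agent.GRB

open Finset Pool.Agent.GRA

variable {α : Type} [DecidableEq α] [Fintype α]

/-- Along the orbit of `B` the pairs dependent on `B` keep their lengths. -/
private theorem orbit_const {B : Finset (Finset α)} (hB : IsG B) (hs : Sparse B) {p : Cfg α}
    {X : Cfg α → Cfg α} {γ : ℝ → Cfg α} (hγ0 : γ 0 = p)
    (hγ : ∀ t, HasDerivAt γ (X (γ t)) t) (hEqv : ∀ t, Eqv B p (γ t))
    (hrow : ∀ t, RowInd B (γ t)) (hker : ∀ t, ∀ e ∈ B, ip (row (γ t) e) (X (γ t)) = 0)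
    {u v : α} (huv : u ≠ v) (h : ({u, v} : Finset α) ∈ B ∨ ¬ Sparse (insert {u, v} B)) (t : ℝ) :
    dsq (p u) (p v) = dsq (γ t u) (γ t v) := by
  rcases h with h | h
  · exact hEqv t u v h
  · have h1 : ∀ s, HasDerivAt (fun s => dsq (γ s u) (γ s v)) 0 s := by
      intro s
      have h2 := hasDerivAt_dsq (hγ s) u v
      rwa [dep_const hB hs (card_pair huv) h (hrow s) (hker s), mul_zero] at h2
    have h3 := is_const_of_deriv_eq_zero (fun s => (h1 s).differentiableAt)
      (fun s => (h1 s).deriv) 0 t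
    simp only [hγ0] at h3
    exact h3

private theorem pairs_of {E : Finset (Finset α)} (hE : IsG E) {u v : α}
    (h : ({u, v} : Finset α) ∈ E) : u ≠ v := by
  rintro rfl
  have := hE _ h
  simp at this

/-- The velocity changes the length of every pair completing `B` to a Laman graph. -/
private theorem speed_ne {B : Finset (Finset α)} (hB : IsG B)
    (hcard : B.card + 4 = 2 * Fintype.card α) {p : Cfg α} (hp : Gen p) {j : Finset α}
    (hj : j.card = 2) (hjB : j ∉ B) (hs : Sparse (insert j B)) {c d : α} (hcd : c ≠ d)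
    {w : Cfg α} (hw : ∀ e ∈ B, ip (row p e) w = 0) (hw0 : w ≠ 0) (hwc : w c = 0)
    (hwd : w d = 0) : ip (row p j) w ≠ 0 := by
  intro h0
  apply hw0
  have hI : IsG (insert j B) := fun e he => by
    rcases mem_insert.1 he with rfl | he
    · exact hj
    · exact hB e he
  have hc : (insert j B).card + 3 = 2 * (univ : Finset α).card := by
    rw [card_insert_of_notMem hjB, card_univ]
    omega
  have := ker_pinned hI (W := univ) (fun e _ => subset_univ e) hc
    (rows_generic hI hs hp) (u := w) (fun e he => by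
      rcases mem_insert.1 he with rfl | he
      · exact h0
      · exact hw e he) (mem_univ c) (mem_univ d) (gen_ne hp hcd) hwc hwd
  funext x
  exact this x (mem_univ x)

theorem lRigid_of_rigid {E : Finset (Finset α)} (hE : IsG E) (hn : 4 ≤ Fintype.card α)
    {p : Cfg α} (hp : Gen p)
    (hg : ∀ q, Eqv E p q → ∀ u v, dsq (p u) (p v) = dsq (q u) (q v)) : LRigid E := by
  by_contra hR
  obtain ⟨I, hI⟩ := exists_maxSparse E
  obtain ⟨hIE, hIs, hmax⟩ := hI
  have hIG : IsG I := fun e he => hE e (hIE he)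
  obtain ⟨L, hIL, hLG, hLs, hLc⟩ := sparse_extend hIG hIs (by omega)
  have hne : I ≠ L := by
    rintro rfl
    exact hR ⟨I, hIE, hIs, hLc⟩
  obtain ⟨j, hjL, hjI⟩ := Finset.exists_of_ssubset (Finset.ssubset_iff_subset_ne.2 ⟨hIL, hne⟩)
  have hB : IsG (L.erase j) := fun e he => hLG e (mem_of_mem_erase he)
  have hs : Sparse (L.erase j) := sparse_mono (erase_subset _ _) hLs
  have hc : (L.erase j).card + 4 = 2 * Fintype.card α := by
    rw [card_erase_of_mem hjL]
    have : 0 < L.card := card_pos.2 ⟨j, hjL⟩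
    omega
  have hBne : (L.erase j).Nonempty := by
    rw [← card_pos]
    omega
  obtain ⟨e0, he0⟩ := hBne
  obtain ⟨c, d, hcd, rfl⟩ := card_eq_two.1 (hB e0 he0)
  obtain ⟨X, γ, hX1, hγ0, hγ, hpin, hEqv, hrow, hker, -, hXp, ⟨hXc, hXd⟩, -, -⟩ :=
    exists_orbit hB hs hc hn hp he0
  have hall : ∀ t, Eqv E p (γ t) := by
    intro t u v huv
    refine orbit_const hB hs hγ0 hγ hEqv hrow hker (pairs_of hE huv) ?_ t
    by_cases h1 : ({u, v} : Finset α) ∈ I
    · left
      exact mem_erase.2 ⟨fun h => hjI (h ▸ h1), hIL h1⟩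
    · right
      intro h2
      refine hmax _ huv h1 (sparse_mono ?_ h2)
      intro f hf
      rcases mem_insert.1 hf with rfl | hf
      · exact mem_insert_self _ _
      · exact mem_insert_of_mem (mem_erase.2 ⟨fun h => hjI (h ▸ hf), hIL hf⟩)
  obtain ⟨a, b, hab, rfl⟩ := card_eq_two.1 (hLG j hjL)
  have h1 := hasDerivAt_dsq (hγ 0) a b
  have h2 : HasDerivAt (fun s => dsq (γ s a) (γ s b)) 0 0 := by
    have : (fun s => dsq (γ s a) (γ s b)) = fun _ => dsq (p a) (p b) := by
      funext s
      exact (hg _ (hall s) a b).symm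
    rw [this]
    exact hasDerivAt_const 0 _
  have h3 := h1.unique h2
  rw [hγ0] at h3
  have hk := hker 0
  rw [hγ0] at hk
  refine speed_ne hB hc hp (card_pair hab) (notMem_erase _ _) ?_ hcd hk hXp hXc hXd (by linarith)
  rwa [insert_erase hjL]

theorem redund_of_rigid {E : Finset (Finset α)} (hE : IsG E) (hn : 4 ≤ Fintype.card α)
    {p : Cfg α} (hp : Gen p)
    (hg : ∀ q, Eqv E p q → ∀ u v, dsq (p u) (p v) = dsq (q u) (q v)) : Redund E := by
  intro e he
  by_contra hR
  obtain ⟨L, hLE, hLs, hLc⟩ := lRigid_of_rigid hE hn hp hg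
  have hLG : IsG L := fun f hf => hE f (hLE hf)
  have heL : e ∈ L := by
    by_contra heL
    exact hR ⟨L, fun f hf => mem_erase.2 ⟨fun h => heL (h ▸ hf), hLE hf⟩, hLs, hLc⟩
  have hB : IsG (L.erase e) := fun f hf => hLG f (mem_of_mem_erase hf)
  have hs : Sparse (L.erase e) := sparse_mono (erase_subset _ _) hLs
  have hc : (L.erase e).card + 4 = 2 * Fintype.card α := by
    rw [card_erase_of_mem heL]
    have : 0 < L.card := card_pos.2 ⟨e, heL⟩
    omega
  have hBne : (L.erase e).Nonempty := by
    rw [← card_pos]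
    omega
  obtain ⟨e0, he0⟩ := hBne
  obtain ⟨c, d, hcd, rfl⟩ := card_eq_two.1 (hB e0 he0)
  obtain ⟨X, γ, hX1, hγ0, hγ, hpin, hEqv, hrow, hker, ⟨T, hT, hTp⟩, hXp, ⟨hXc, hXd⟩, hX5, hX6⟩ :=
    exists_orbit hB hs hc hn hp he0
  obtain ⟨a, b, hab, rfl⟩ := card_eq_two.1 (hE e he)
  have hpcd : p c ≠ p d := gen_ne hp hcd
  -- the symmetry
  obtain ⟨r, s, hrs, hmir⟩ := mir_eq hpcd
  let R : (Fin 2 → ℝ) →ₗ[ℝ] (Fin 2 → ℝ) :=
    { toFun := refl r s
      map_add' := by
        intro x y
        funext i
        fin_cases i <;> simp [refl] <;> ring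
      map_smul' := by
        intro k x
        funext i
        fin_cases i <;> simp [refl] <;> ring }
  let S : Cfg α →ₗ[ℝ] Cfg α :=
    { toFun := fun w x => refl r s (w x)
      map_add' := fun w w' => funext fun x => R.map_add (w x) (w' x)
      map_smul' := fun k w => funext fun x => R.map_smul k (w x) }
  let σ : Cfg α → Cfg α := fun q x => mir (p c) (p d) (q x)
  have hσ : ∀ x y, σ x - σ y = LinearMap.toContinuousLinearMap S (x - y) := by
    intro x y
    funext z
    show mir (p c) (p d) (x z) - mir (p c) (p d) (y z) = refl r s (x z - y z)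
    rw [hmir, hmir]
    have h1 : refl r s (x z - y z) = R (fun j => x z j - p c j) - R (fun j => y z j - p c j) := by
      rw [← R.map_sub]
      show refl r s _ = refl r s _
      congr 1
      funext j
      simp only [Pi.sub_apply]
      ring
    rw [h1]
    funext i
    show _ = refl r s (fun j => x z j - p c j) i - refl r s (fun j => y z j - p c j) i
    simp only [Pi.sub_apply]
    ring
  have hσX0 : ∀ q, X (σ q) = X (fun x => refl r s (fun j => q x j - p c j)) := by
    intro q
    have h1 : σ q = fun x => refl r s (fun j => q x j - p c j) + p c := by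
      funext x i
      show mir (p c) (p d) (q x) i = _
      rw [hmir]
      simp only [Pi.add_apply]
      ring
    rw [h1, hX5 (fun x => refl r s (fun j => q x j - p c j))]
  have hXt : ∀ q, X (fun (x : α) (j : Fin 2) => q x j - p c j) = X q := by
    intro q
    have h1 := hX5 q (-p c)
    rw [← h1]
    congr 1
  have hXσ : (∀ x, X (σ x) = LinearMap.toContinuousLinearMap S (X x)) ∨
      (∀ x, X (σ x) = -LinearMap.toContinuousLinearMap S (X x)) := by
    rcases hX6 r s hrs with h | h
    · left
      intro q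
      rw [hσX0, h (fun x j => q x j - p c j), hXt]
      rfl
    · right
      intro q
      rw [hσX0, h (fun x j => q x j - p c j), hXt]
      rfl
  have hcont : Continuous (fun q : Cfg α => dsq (q a) (q b)) := by
    unfold dsq
    fun_prop
  have hd := hasDerivAt_dsq (hγ 0) a b
  have hk := hker 0
  rw [hγ0] at hk hd
  have hm : ip (row p {a, b}) (X p) ≠ 0 := by
    refine speed_ne hB hc hp (card_pair hab) (notMem_erase _ _) ?_ hcd hk hXp hXc hXd
    rwa [insert_erase heL]
  have hfix : ∀ t, σ (γ t) ≠ γ t := by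
    intro t ht
    have hcd' : γ t c ≠ γ t d := by
      rw [(hpin t).1, (hpin t).2]
      exact hpcd
    obtain ⟨x, hx⟩ := not_collinear hB hc hn (hrow t) hcd'
    apply hx
    rw [(hpin t).1, (hpin t).2]
    exact mir_fix hpcd (congrFun ht x)
  obtain ⟨t, ht1, ht2, ht3⟩ := dyn hX1 hγ hT hTp hcont (m := 2 * ip (row p {a, b}) (X p)) hd
    (mul_ne_zero two_ne_zero hm) (σ := σ) (LinearMap.toContinuousLinearMap S) hσ
    (fun q => funext fun x => mir_mir hpcd (q x))
    (fun q => mir_dsq hpcd (q a) (q b)) hXσ hfix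
  rw [hγ0] at ht1 ht2 ht3
  have hall : Eqv E p (γ t) := by
    intro u v huv
    by_cases h1 : ({u, v} : Finset α) = {a, b}
    · have hne := pairs_of hE huv
      have hu : u ∈ ({a, b} : Finset α) := h1 ▸ (by simp)
      have hv : v ∈ ({a, b} : Finset α) := h1 ▸ (by simp)
      simp only [mem_insert, mem_singleton] at hu hv
      rcases hu with rfl | rfl
      · rcases hv with rfl | rfl
        · exact absurd rfl hne
        · exact ht1.symm
      · rcases hv with rfl | rfl
        · rw [dsq_comm, ← ht1, dsq_comm]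
        · exact absurd rfl hne
    · refine orbit_const hB hs hγ0 hγ hEqv hrow hker (pairs_of hE huv) ?_ t
      by_cases h2 : ({u, v} : Finset α) ∈ L.erase {a, b}
      · exact Or.inl h2
      · right
        intro h3
        refine hR ⟨insert {u, v} (L.erase {a, b}), ?_, h3, ?_⟩
        · intro f hf
          rcases mem_insert.1 hf with rfl | hf
          · exact mem_erase.2 ⟨h1, huv⟩
          · exact mem_erase.2 ⟨ne_of_mem_erase hf, hLE (mem_of_mem_erase hf)⟩
        · rw [card_insert_of_notMem h2]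
          omega
  rcases cong_mirror hp hcd (hg _ hall) (hpin t).1 (hpin t).2 with h | h
  · exact ht2 h
  · exact ht3 h

theorem nec {E : Finset (Finset α)} (hE : IsG E) (hn : 4 ≤ Fintype.card α) {p : Cfg α}
    (hp : Gen p) (hg : ∀ q, Eqv E p q → ∀ u v, dsq (p u) (p v) = dsq (q u) (q v)) :
    MC E ∧ Conn E 2 := by
  have h3 := conn_of_rigid hE hn hp hg
  exact ⟨redund_MC hE hn h3 (redund_of_rigid hE hn hp hg), h3⟩

end Pool.Agent.GRB
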