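import Pool.Agent.GRB.Suf
import Pool.Agent.GRB.Nec
import Pool.Agent.GRA.Main

/-!
# GRB/Fin: global rigidity in the plane is the combinatorial property, for all graphs
-/

namespace Pool.Agent.GRB

open Finset Pool.Agent.GRA Pool.Agent.GRA.Stmt

variable {n : ℕ}

private theorem plane_dist (x y : Plane) : dist x y ^ 2 = dsq (fun i => x i) (fun i => y i) := by
  rw [EuclideanSpace.dist_eq, Real.sq_sqrt (Finset.sum_nonneg fun i _ => sq_nonneg _),
    Fin.sum_univ_two, Real.dist_eq, Real.dist_eq, sq_abs, sq_abs]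
  rfl

private theorem dist_iff (x y x' y' : Plane) : dist x y = dist x' y' ↔
    dsq (fun i => x i) (fun i => y i) = dsq (fun i => x' i) (fun i => y' i) := by
  rw [← plane_dist, ← plane_dist]
  constructor
  · intro h
    rw [h]
  · intro h
    exact (pow_left_inj₀ dist_nonneg dist_nonneg two_ne_zero).1 h

private theorem fam_pair {G : SimpleGraph (Fin n)} {u v : Fin n} :
    ({u, v} : Finset (Fin n)) ∈ fam G ↔ G.Adj u v := by
  classical
  unfold fam
  rw [mem_filter]
  constructor
  · rintro ⟨-, i, j, hij, h⟩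
    have hu : u ∈ ({i, j} : Finset (Fin n)) := h ▸ (by simp)
    have hv : v ∈ ({i, j} : Finset (Fin n)) := h ▸ (by simp)
    have hi : i ∈ ({u, v} : Finset (Fin n)) := h ▸ (by simp)
    have hj : j ∈ ({u, v} : Finset (Fin n)) := h ▸ (by simp)
    simp only [mem_insert, mem_singleton] at hu hv hi hj
    rcases hu with rfl | rfl
    · rcases hv with rfl | rfl
      · rcases hj with rfl | rfl <;> exact absurd hij (G.loopless.irrefl _)
      · exact hij
    · rcases hv with rfl | rfl
      · exact hij.symm
      · rcases hi with rfl | rfl <;> exact absurd hij (G.loopless.irrefl _)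
  · intro h
    exact ⟨mem_univ _, u, v, h, rfl⟩

theorem geo_comb (G : SimpleGraph (Fin n)) : GloballyRigid G ↔ CombGloballyRigid G := by
  rcases le_or_gt n 3 with hn | hn
  · rw [small_iff hn, comb_small hn]
  have hn4 : 4 ≤ Fintype.card (Fin n) := by
    rw [Fintype.card_fin]
    omega
  rw [comb_iff (by omega)]
  constructor
  · rintro ⟨p, hp, hg⟩
    refine nec (fam_isG G) hn4 (p := fun x i => p x i) hp ?_
    intro q hq u v
    have h1 := hg (fun x => (WithLp.toLp 2 (q x) : Plane)) (fun a b hab =>
      (dist_iff _ _ _ _).2 (hq a b (fam_pair.2 hab))) u v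
    exact (dist_iff _ _ _ _).1 h1
  · rintro ⟨hM, hC⟩
    obtain ⟨p, hp⟩ := exists_generic n
    refine ⟨p, hp, fun q hq u v => (dist_iff _ _ _ _).2 ?_⟩
    exact suf (fam_isG G) hM hC (p := fun x i => p x i) (q := fun x i => q x i) hp
      (fun a b hab => (dist_iff _ _ _ _).1 (hq a b (fam_pair.1 hab))) u v

end Pool.Agent.GRB
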