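import Mathlib

/-!
# GRB/Flow: integral curves in a compact level set exist for all time

PROOF of `flow_exists`. `K = {x | f x = f p}` is compact. Choose a smooth bump function `χ`, `χ = 1` on `K`, compactly
supported. `Y = χ • X` is `C¹` with compact support, so it is globally Lipschitz and bounded, and by
Picard-Lindelöf there is a global integral curve `γ` of `Y` with `γ 0 = p` (uniform existence time and gluing; see
`Mathlib.Analysis.ODE.*`, or `Mathlib.Geometry.Manifold.IntegralCurve.UniformTime`). `f ∘ γ` is constant because its derivative is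
`fderiv f (γ t) (χ X) = χ · 0`. So `γ t ∈ K` for all `t` and `Y (γ t) = X (γ t)`.
-/

namespace Pool.Agent.GRB

private theorem global_curve {V : Type} [NormedAddCommGroup V] [NormedSpace ℝ V]
    [CompleteSpace V] {Y : V → V} {K : NNReal} (hK : LipschitzWith K Y) {C : ℝ}
    (hC : ∀ x, ‖Y x‖ ≤ C) (p : V) :
    ∃ γ : ℝ → V, γ 0 = p ∧ ∀ t, HasDerivAt γ (Y (γ t)) t := by
  have hC0 : 0 ≤ C := le_trans (norm_nonneg _) (hC p)
  have hloc : ∀ n : ℕ, ∃ α : ℝ → V, α 0 = p ∧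
      ∀ t ∈ Set.Icc (-(n : ℝ)) n, HasDerivWithinAt α (Y (α t)) (Set.Icc (-(n : ℝ)) n) t := by
    intro n
    have h0 : (0 : ℝ) ∈ Set.Icc (-(n : ℝ)) n := by
      constructor
      · have : (0 : ℝ) ≤ n := Nat.cast_nonneg n
        linarith
      · exact Nat.cast_nonneg n
    have hpl : IsPicardLindelof (fun _ => Y) (tmin := -(n : ℝ)) (tmax := n) ⟨0, h0⟩ p
        (⟨C, hC0⟩ * n) 0 ⟨C, hC0⟩ K := by
      refine IsPicardLindelof.of_time_independent (fun x _ => hC x) hK.lipschitzOnWith ?_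
      simp
    exact hpl.exists_eq_forall_mem_Icc_hasDerivWithinAt₀
  choose α hα0 hα using hloc
  have hder : ∀ n : ℕ, ∀ t ∈ Set.Ioo (-(n : ℝ)) n, HasDerivAt (α n) (Y (α n t)) t := by
    intro n t ht
    exact (hα n t (Set.Ioo_subset_Icc_self ht)).hasDerivAt (Icc_mem_nhds ht.1 ht.2)
  have hagree : ∀ m n : ℕ, 1 ≤ n → n ≤ m → Set.EqOn (α m) (α n) (Set.Ioo (-(n : ℝ)) n) := by
    intro m n hn hnm
    have hn' : (1 : ℝ) ≤ n := by exact_mod_cast hn
    have hnm' : (n : ℝ) ≤ m := by exact_mod_cast hnm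
    refine ODE_solution_unique_of_mem_Ioo (v := fun _ => Y) (s := fun _ => Set.univ) (K := K)
      (t₀ := 0) (fun t _ => hK.lipschitzOnWith) ⟨by linarith, by linarith⟩ ?_ ?_ ?_
    · intro t ht
      exact ⟨hder m t ⟨by linarith [ht.1], by linarith [ht.2]⟩, Set.mem_univ _⟩
    · intro t ht
      exact ⟨hder n t ht, Set.mem_univ _⟩
    · rw [hα0, hα0]
  refine ⟨fun t => α (⌈|t|⌉₊ + 1) t, hα0 _, ?_⟩
  intro t
  have hN : ∀ s : ℝ, |s| < |t| + 1 → α (⌈|s|⌉₊ + 1) s = α (⌈|t|⌉₊ + 2) s := by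
    intro s hs
    have h1 : ⌈|s|⌉₊ + 1 ≤ ⌈|t|⌉₊ + 2 := by
      have h2 : ⌈|s|⌉₊ ≤ ⌈|t| + 1⌉₊ := Nat.ceil_le_ceil hs.le
      have h3 : ⌈|t| + 1⌉₊ = ⌈|t|⌉₊ + 1 := Nat.ceil_add_one (abs_nonneg t)
      omega
    refine (hagree _ _ (by omega) h1 ?_).symm
    have h4 : |s| ≤ ⌈|s|⌉₊ := Nat.le_ceil _
    rw [Set.mem_Ioo, ← abs_lt]
    push_cast
    linarith
  have hev : (fun s => α (⌈|s|⌉₊ + 1) s) =ᶠ[nhds t] α (⌈|t|⌉₊ + 2) := by
    have h1 : {s : ℝ | |s| < |t| + 1} ∈ nhds t := by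
      refine (isOpen_lt continuous_abs continuous_const).mem_nhds ?_
      show |t| < |t| + 1
      linarith
    filter_upwards [h1] with s hs
    exact hN s hs
  have h5 : t ∈ Set.Ioo (-((⌈|t|⌉₊ + 2 : ℕ) : ℝ)) ((⌈|t|⌉₊ + 2 : ℕ) : ℝ) := by
    have h4 : |t| ≤ ⌈|t|⌉₊ := Nat.le_ceil _
    rw [Set.mem_Ioo, ← abs_lt]
    push_cast
    linarith
  have h6 := (hder _ t h5).congr_of_eventuallyEq hev
  rw [← hN t (by linarith)] at h6
  exact h6

theorem flow_exists {V F : Type} [NormedAddCommGroup V] [NormedSpace ℝ V] [FiniteDimensional ℝ V]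
    [NormedAddCommGroup F] [NormedSpace ℝ F] {X : V → V} (hX : ContDiff ℝ 1 X) {f : V → F}
    (hf : Differentiable ℝ f) (hfX : ∀ x, fderiv ℝ f x (X x) = 0) {p : V}
    (hK : IsCompact {x | f x = f p}) :
    ∃ γ : ℝ → V, γ 0 = p ∧ (∀ t, HasDerivAt γ (X (γ t)) t) ∧ ∀ t, f (γ t) = f p := by
  obtain ⟨R, hR⟩ := hK.isBounded.subset_closedBall 0
  have hR' : {x | f x = f p} ⊆ Metric.closedBall 0 (max R 1) :=
    hR.trans (Metric.closedBall_subset_closedBall (le_max_left _ _))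
  let χ : ContDiffBump (0 : V) := ⟨max R 1, max R 1 + 1, by positivity, by linarith⟩
  have hχ1 : ∀ x, f x = f p → χ x = 1 := fun x hx => χ.one_of_mem_closedBall (hR' hx)
  have hY : ContDiff ℝ 1 (fun x => χ x • X x) := (χ.contDiff).smul hX
  have hYc : HasCompactSupport (fun x => χ x • X x) := χ.hasCompactSupport.smul_right
  obtain ⟨K, hKY⟩ := hY.lipschitzWith_of_hasCompactSupport hYc (by norm_num)
  obtain ⟨C, hC⟩ := hY.continuous.bounded_above_of_compact_support hYc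
  obtain ⟨γ, hγ0, hγ⟩ := global_curve hKY hC p
  have hd : ∀ t, HasDerivAt (fun t => f (γ t)) 0 t := by
    intro t
    have h1 := (hf (γ t)).hasFDerivAt.comp_hasDerivAt t (hγ t)
    have h2 : fderiv ℝ f (γ t) (χ (γ t) • X (γ t)) = 0 := by
      rw [map_smul, hfX, smul_zero]
    rw [h2] at h1
    exact h1
  have hconst : ∀ t, f (γ t) = f p := by
    intro t
    have h1 := is_const_of_deriv_eq_zero (fun t => (hd t).differentiableAt)
      (fun t => (hd t).deriv) t 0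
    simp only [hγ0] at h1
    exact h1
  refine ⟨γ, hγ0, fun t => ?_, hconst⟩
  have h1 := hγ t
  rw [hχ1 _ (hconst t), one_smul] at h1
  exact h1

end Pool.Agent.GRB
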