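import Pool.Agent.GRB.L3A

/-!
# GRB/L3B: pairs not separated by two vertices, three bodies

`E' = tri E a b c`, `W' = W.erase v`.
PROOF of `l3_bodies`. If `x ∈ X \ {a,b}`: `X \ {a,b}` is closed for `E` in `W` with `S = {a,b}` (edges of `E` inside `W`
are at `v`, and `v` is joined to `a, b, c` only, `c ∉ X`, or inside one of `X, Y, Z`, `Bodies.edge`); so `y ∈ X`. In
the same way for `Y`, `Z` and for `y`. If `x` and `y` are both in `{a,b,c}` then both are in one of `X, Y, Z`.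
So `x, y` are in the same body, say `X`. `L3 E' X x y`: let `L` be closed for `E'` in `X`, `S`, `x ∈ L`, `y ∉ L`. If
`L ∩ {a,b} ∩ X` (minus `S`) is empty then `L ∩ (X \ {a,b})` is closed for `E` in `W` and `S`; otherwise
`{a,b} \ S ⊆ L` (`{a,b} ∈ E'`) and `(L ∩ X) ∪ ((W \ X) \ S)` is closed for `E` in `W` and `S`. Contradiction.
PROOF of `l3_bodies_vertex`. If `x ∈ X \ {a,b}`: `{a,b}` separates `x` from `v` (as above). So `x ∈ {a,b,c}`.
-/

namespace Pool.Agent.GRB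

open Finset Pool.Agent.GRA

variable {α : Type} [DecidableEq α] [Fintype α]

/-- The neighbours of an interior vertex of a body. -/
theorem l3b_nbr {E F : Finset (Finset α)} {W : Finset α} {v p q r : α} (hEF : E ⊆ F)
    {X Y Z : Finset α} (hXW : X ⊆ W.erase v) (hq : X ∩ Y = {q}) (hp : Z ∩ X = {p}) (hr : r ∉ X)
    (hv : ∀ s ∈ W, ({v, s} : Finset α) ∈ E → s = p ∨ s = q ∨ s = r)
    (hedge : ∀ e ∈ F, e ⊆ W.erase v → e ⊆ X ∨ e ⊆ Y ∨ e ⊆ Z) :
    ∀ s ∈ X, s ≠ p → s ≠ q → ∀ t ∈ W, ({s, t} : Finset α) ∈ E → t ∈ X := by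
  intro s hs hsp hsq t ht hst
  have hsW := mem_of_mem_erase (hXW hs)
  by_cases htv : t = v
  · exfalso
    rw [htv, pair_comm] at hst
    rcases hv s hsW hst with h | h | h
    · exact hsp h
    · exact hsq h
    · exact hr (h ▸ hs)
  · have h1 : ({s, t} : Finset α) ⊆ W.erase v := by
      intro u hu
      rcases mem_insert.1 hu with rfl | hu
      · exact hXW hs
      · rw [mem_singleton.1 hu]
        exact mem_erase.2 ⟨htv, ht⟩
    have h2 : s ∈ ({s, t} : Finset α) := mem_insert_self _ _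
    have h3 : t ∈ ({s, t} : Finset α) := mem_insert_of_mem (mem_singleton_self _)
    rcases hedge _ (hEF hst) h1 with h | h | h
    · exact h h3
    · have h4 : s ∈ X ∩ Y := mem_inter.2 ⟨hs, h h2⟩
      rw [hq, mem_singleton] at h4
      exact absurd h4 hsq
    · have h4 : s ∈ Z ∩ X := mem_inter.2 ⟨h h2, hs⟩
      rw [hp, mem_singleton] at h4
      exact absurd h4 hsp

/-- The interior of a body is closed. -/
theorem l3b_closed {E : Finset (Finset α)} {W X : Finset α} {p q : α}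
    (hN : ∀ s ∈ X, s ≠ p → s ≠ q → ∀ t ∈ W, ({s, t} : Finset α) ∈ E → t ∈ X) :
    Closed (E.filter (· ⊆ W)) {p, q} (X \ {p, q}) := by
  refine ⟨sdiff_disjoint, fun s hs t ht hst => ?_⟩
  rw [mem_filter] at hst
  have ht' : t ∈ W := hst.2 (mem_insert_of_mem (mem_singleton_self _))
  rw [mem_sdiff, mem_insert, mem_singleton, not_or] at hs
  exact mem_sdiff.2 ⟨hN s hs.1 hs.2.1 hs.2.2 t ht' hst.1, ht⟩

/-- If `x` is an interior vertex of a body then `y` is in the body. -/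
theorem l3b_mem {E : Finset (Finset α)} {W X : Finset α} {p q x y : α}
    (hN : ∀ s ∈ X, s ≠ p → s ≠ q → ∀ t ∈ W, ({s, t} : Finset α) ∈ E → t ∈ X)
    (hp : p ∈ X) (hq : q ∈ X) (h : L3 E W x y) (hx : x ∈ X) (hxp : x ≠ p) (hxq : x ≠ q) :
    y ∈ X := by
  by_cases hy : y = p ∨ y = q
  · rcases hy with rfl | rfl
    · exact hp
    · exact hq
  · rw [not_or] at hy
    have h1 : ({p, q} : Finset α).card ≤ 2 := card_le_two
    have h2 := h {p, q} h1 (by simp [hxp, hxq]) (by simp [hy.1, hy.2]) _ (l3b_closed hN)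
      (mem_sdiff.2 ⟨hx, by simp [hxp, hxq]⟩)
    exact (mem_sdiff.1 h2).1

/-- Pairs in a body. -/
theorem l3b_body {E F : Finset (Finset α)} {W X : Finset α} {p q x y : α} (hEF : E ⊆ F)
    (hN : ∀ s ∈ X, s ≠ p → s ≠ q → ∀ t ∈ W, ({s, t} : Finset α) ∈ E → t ∈ X)
    (hp : p ∈ X) (hq : q ∈ X) (hpq : ({p, q} : Finset α) ∈ F) (h : L3 E W x y) (hx : x ∈ X)
    (hy : y ∈ X) : L3 F X x y := by
  intro S hS hxS hyS L hL hxL
  by_contra hyL
  have hF : ∀ s ∈ L, s ∈ X → ∀ t ∈ X, t ∉ S → ({s, t} : Finset α) ∈ F → t ∈ L := by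
    intro s hs hsX t htX htS hst
    refine hL.2 s hs t htS (mem_filter.2 ⟨hst, ?_⟩)
    intro u hu
    rcases mem_insert.1 hu with rfl | hu
    · exact hsX
    · rw [mem_singleton.1 hu]
      exact htX
  by_cases hc : p ∈ L ∨ q ∈ L
  · have hpL : ∀ t, (t = p ∨ t = q) → t ∉ S → t ∈ L := by
      rintro t (rfl | rfl) htS
      · rcases hc with h1 | h1
        · exact h1
        · exact hF q h1 hq _ hp htS (by rw [pair_comm]; exact hpq)
      · rcases hc with h1 | h1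
        · exact hF p h1 hp _ hq htS hpq
        · exact h1
    have h1 : Closed (E.filter (· ⊆ W)) S (L ∩ X ∪ (W \ X) \ S) := by
      refine ⟨?_, ?_⟩
      · rw [disjoint_left]
        intro s hs hsS
        rcases mem_union.1 hs with h2 | h2
        · exact disjoint_left.1 hL.1 (mem_inter.1 h2).1 hsS
        · exact (mem_sdiff.1 h2).2 hsS
      · intro s hs t htS hst
        rw [mem_filter] at hst
        have htW : t ∈ W := hst.2 (mem_insert_of_mem (mem_singleton_self _))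
        have hsW : s ∈ W := hst.2 (mem_insert_self _ _)
        by_cases htX : t ∈ X
        · refine mem_union_left _ (mem_inter.2 ⟨?_, htX⟩)
          by_cases hsX : s ∈ X
          · have hsL : s ∈ L := by
              rcases mem_union.1 hs with h2 | h2
              · exact (mem_inter.1 h2).1
              · exact absurd hsX (mem_sdiff.1 (mem_sdiff.1 h2).1).2
            exact hF s hsL hsX t htX htS (hEF hst.1)
          · refine hpL t ?_ htS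
            by_contra hcon
            rw [not_or] at hcon
            exact hsX (hN t htX hcon.1 hcon.2 s hsW (by rw [pair_comm]; exact hst.1))
        · exact mem_union_right _ (mem_sdiff.2 ⟨mem_sdiff.2 ⟨htW, htX⟩, htS⟩)
    have h2 := h S hS hxS hyS _ h1 (mem_union_left _ (mem_inter.2 ⟨hxL, hx⟩))
    rcases mem_union.1 h2 with h3 | h3
    · exact hyL (mem_inter.1 h3).1
    · exact (mem_sdiff.1 (mem_sdiff.1 h3).1).2 hy
  · rw [not_or] at hc
    have h1 : Closed (E.filter (· ⊆ W)) S (L ∩ X) := by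
      refine ⟨?_, ?_⟩
      · rw [disjoint_left]
        intro s hs hsS
        exact disjoint_left.1 hL.1 (mem_inter.1 hs).1 hsS
      · intro s hs t htS hst
        rw [mem_filter] at hst
        have htW : t ∈ W := hst.2 (mem_insert_of_mem (mem_singleton_self _))
        obtain ⟨hsL, hsX⟩ := mem_inter.1 hs
        have htX := hN s hsX (by rintro rfl; exact hc.1 hsL) (by rintro rfl; exact hc.2 hsL) t
          htW hst.1
        exact mem_inter.2 ⟨hF s hsL hsX t htX htS (hEF hst.1), htX⟩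
    have h2 := h S hS hxS hyS _ h1 (mem_inter.2 ⟨hxL, hx⟩)
    exact hyL (mem_inter.1 h2).1

/-- The data of the three bodies. -/
theorem l3b_data {E : Finset (Finset α)} {W : Finset α} {v a b c : α}
    (hD : Deg3 E W v a b c) {X Y Z : Finset α}
    (hB : Bodies (tri E a b c) (W.erase v) a b c X Y Z) :
    (a ∈ X ∧ b ∈ X ∧ b ∈ Y ∧ c ∈ Y ∧ c ∈ Z ∧ a ∈ Z) ∧
    (∀ s ∈ X, s ≠ a → s ≠ b → ∀ t ∈ W, ({s, t} : Finset α) ∈ E → t ∈ X) ∧
    (∀ s ∈ Y, s ≠ b → s ≠ c → ∀ t ∈ W, ({s, t} : Finset α) ∈ E → t ∈ Y) ∧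
    (∀ s ∈ Z, s ≠ c → s ≠ a → ∀ t ∈ W, ({s, t} : Finset α) ∈ E → t ∈ Z) := by
  have hEF : E ⊆ tri E a b c := subset_union_left
  have hXY : b ∈ X ∩ Y := by rw [hB.XY]; exact mem_singleton_self _
  have hYZ : c ∈ Y ∩ Z := by rw [hB.YZ]; exact mem_singleton_self _
  have hZX : a ∈ Z ∩ X := by rw [hB.ZX]; exact mem_singleton_self _
  rw [mem_inter] at hXY hYZ hZX
  have hcX : c ∉ X := by
    intro h
    have h1 : c ∈ X ∩ Y := mem_inter.2 ⟨h, hYZ.1⟩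
    rw [hB.XY, mem_singleton] at h1
    exact hD.bc h1.symm
  have haY : a ∉ Y := by
    intro h
    have h1 : a ∈ X ∩ Y := mem_inter.2 ⟨hZX.2, h⟩
    rw [hB.XY, mem_singleton] at h1
    exact hD.ab h1
  have hbZ : b ∉ Z := by
    intro h
    have h1 : b ∈ Z ∩ X := mem_inter.2 ⟨h, hXY.1⟩
    rw [hB.ZX, mem_singleton] at h1
    exact hD.ab h1.symm
  refine ⟨⟨hZX.2, hXY.1, hXY.2, hYZ.1, hYZ.2, hZX.1⟩, ?_, ?_, ?_⟩
  · exact l3b_nbr hEF hB.XW hB.XY hB.ZX hcX hD.only hB.edge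
  · refine l3b_nbr (r := a) hEF hB.YW hB.YZ hB.XY haY ?_ ?_
    · intro s hs h
      rcases hD.only s hs h with h1 | h1 | h1 <;> simp [h1]
    · intro e he heW
      rcases hB.edge e he heW with h | h | h
      · exact Or.inr (Or.inr h)
      · exact Or.inl h
      · exact Or.inr (Or.inl h)
  · refine l3b_nbr (r := b) hEF hB.ZW hB.ZX hB.YZ hbZ ?_ ?_
    · intro s hs h
      rcases hD.only s hs h with h1 | h1 | h1 <;> simp [h1]
    · intro e he heW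
      rcases hB.edge e he heW with h | h | h
      · exact Or.inr (Or.inl h)
      · exact Or.inr (Or.inr h)
      · exact Or.inl h

theorem l3b_corner {X Y Z : Finset α} {a b c x : α} (h : x ∈ X ∪ Y ∪ Z)
    (h1 : ¬ (x ∈ X ∧ x ≠ a ∧ x ≠ b)) (h2 : ¬ (x ∈ Y ∧ x ≠ b ∧ x ≠ c))
    (h3 : ¬ (x ∈ Z ∧ x ≠ c ∧ x ≠ a)) : x = a ∨ x = b ∨ x = c := by
  by_contra hc
  rw [not_or, not_or] at hc
  rw [mem_union, mem_union] at h
  rcases h with (h | h) | h
  · exact h1 ⟨h, hc.1, hc.2.1⟩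
  · exact h2 ⟨h, hc.2.1, hc.2.2⟩
  · exact h3 ⟨h, hc.2.2, hc.1⟩

theorem l3_bodies {E : Finset (Finset α)} (hE : IsG E) {W : Finset α} {v a b c : α}
    (hD : Deg3 E W v a b c) {X Y Z : Finset α}
    (hB : Bodies (tri E a b c) (W.erase v) a b c X Y Z) {x y : α} (hx : x ∈ W.erase v)
    (hy : y ∈ W.erase v) (h : L3 E W x y) :
    (x ∈ X ∧ y ∈ X ∧ L3 (tri E a b c) X x y) ∨ (x ∈ Y ∧ y ∈ Y ∧ L3 (tri E a b c) Y x y) ∨
      (x ∈ Z ∧ y ∈ Z ∧ L3 (tri E a b c) Z x y) := by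
  have hEF : E ⊆ tri E a b c := subset_union_left
  have hab : ({a, b} : Finset α) ∈ tri E a b c := by simp [tri]
  have hbc : ({b, c} : Finset α) ∈ tri E a b c := by simp [tri]
  have hca : ({c, a} : Finset α) ∈ tri E a b c := by
    rw [pair_comm]
    simp [tri]
  obtain ⟨⟨haX, hbX, hbY, hcY, hcZ, haZ⟩, hNX, hNY, hNZ⟩ := l3b_data hD hB
  have hsame : (x ∈ X ∧ y ∈ X) ∨ (x ∈ Y ∧ y ∈ Y) ∨ (x ∈ Z ∧ y ∈ Z) := by
    by_cases h1 : x ∈ X ∧ x ≠ a ∧ x ≠ b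
    · exact Or.inl ⟨h1.1, l3b_mem hNX haX hbX h h1.1 h1.2.1 h1.2.2⟩
    by_cases h2 : x ∈ Y ∧ x ≠ b ∧ x ≠ c
    · exact Or.inr (Or.inl ⟨h2.1, l3b_mem hNY hbY hcY h h2.1 h2.2.1 h2.2.2⟩)
    by_cases h3 : x ∈ Z ∧ x ≠ c ∧ x ≠ a
    · exact Or.inr (Or.inr ⟨h3.1, l3b_mem hNZ hcZ haZ h h3.1 h3.2.1 h3.2.2⟩)
    have h' := l3_symm h
    by_cases h4 : y ∈ X ∧ y ≠ a ∧ y ≠ b
    · exact Or.inl ⟨l3b_mem hNX haX hbX h' h4.1 h4.2.1 h4.2.2, h4.1⟩
    by_cases h5 : y ∈ Y ∧ y ≠ b ∧ y ≠ c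
    · exact Or.inr (Or.inl ⟨l3b_mem hNY hbY hcY h' h5.1 h5.2.1 h5.2.2, h5.1⟩)
    by_cases h6 : y ∈ Z ∧ y ≠ c ∧ y ≠ a
    · exact Or.inr (Or.inr ⟨l3b_mem hNZ hcZ haZ h' h6.1 h6.2.1 h6.2.2, h6.1⟩)
    have hx1 : x = a ∨ x = b ∨ x = c := l3b_corner (hB.top hx) h1 h2 h3
    have hy1 : y = a ∨ y = b ∨ y = c := l3b_corner (hB.top hy) h4 h5 h6
    clear hx hy h h' h1 h2 h3 h4 h5 h6
    rcases hx1 with rfl | rfl | rfl <;> rcases hy1 with rfl | rfl | rfl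
    · exact Or.inl ⟨haX, haX⟩
    · exact Or.inl ⟨haX, hbX⟩
    · exact Or.inr (Or.inr ⟨haZ, hcZ⟩)
    · exact Or.inl ⟨hbX, haX⟩
    · exact Or.inl ⟨hbX, hbX⟩
    · exact Or.inr (Or.inl ⟨hbY, hcY⟩)
    · exact Or.inr (Or.inr ⟨hcZ, haZ⟩)
    · exact Or.inr (Or.inl ⟨hcY, hbY⟩)
    · exact Or.inr (Or.inl ⟨hcY, hcY⟩)
  rcases hsame with h1 | h1 | h1
  · exact Or.inl ⟨h1.1, h1.2, l3b_body hEF hNX haX hbX hab h h1.1 h1.2⟩
  · exact Or.inr (Or.inl ⟨h1.1, h1.2, l3b_body hEF hNY hbY hcY hbc h h1.1 h1.2⟩)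
  · exact Or.inr (Or.inr ⟨h1.1, h1.2, l3b_body hEF hNZ hcZ haZ hca h h1.1 h1.2⟩)

theorem l3_bodies_vertex {E : Finset (Finset α)} (hE : IsG E) {W : Finset α} {v a b c : α}
    (hD : Deg3 E W v a b c) {X Y Z : Finset α}
    (hB : Bodies (tri E a b c) (W.erase v) a b c X Y Z) {x : α} (hx : x ∈ W.erase v)
    (h : L3 E W v x) : x = a ∨ x = b ∨ x = c := by
  obtain ⟨⟨haX, hbX, hbY, hcY, hcZ, haZ⟩, hNX, hNY, hNZ⟩ := l3b_data hD hB
  have h' := l3_symm h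
  by_cases h1 : x ∈ X ∧ x ≠ a ∧ x ≠ b
  · exact absurd (hB.XW (l3b_mem hNX haX hbX h' h1.1 h1.2.1 h1.2.2)) (notMem_erase _ _)
  by_cases h2 : x ∈ Y ∧ x ≠ b ∧ x ≠ c
  · exact absurd (hB.YW (l3b_mem hNY hbY hcY h' h2.1 h2.2.1 h2.2.2)) (notMem_erase _ _)
  by_cases h3 : x ∈ Z ∧ x ≠ c ∧ x ≠ a
  · exact absurd (hB.ZW (l3b_mem hNZ hcZ haZ h' h3.1 h3.2.1 h3.2.2)) (notMem_erase _ _)
  exact l3b_corner (hB.top hx) h1 h2 h3

end Pool.Agent.GRB
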