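import Pool.Agent.GRB.Rem0

/-!
# GRB/Rem: an M-connected graph has a removable edge or a vertex of degree three

PROOF of `removable` (blueprint (II.5)). For `e ∈ E`, `e ⊆ W` put `E_e = (E.erase e).filter (· ⊆ W)` and let `H_e`
be a family with `Sys E_e H_e` (`exists_sys`).
(F0) members of `H_e` are subsets of `W` (`mcon_two`, `mcon_deg`). (F1) `W ∉ H_e` by `hdel`.
(F2) `Σ_{X ∈ H_e} w X = 2|W| - 3`: `≤` is `Indep.nonneg` for `W`; `≥`: `H_e ∪ {e}` is a cover of the members of `E`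
inside `W` by proper subsets of `W` and `MCon E W`. (F2') no member of `H_e` contains `e` (otherwise `H_e` is such
a cover of weight `2|W| - 3`).
Choose `e0` and `U ∈ H_{e0}` with `|U|` maximal over all `e` and all members of `H_e`. `U ≠ W`. Let
`X = W \ U` and `E_X = {g ∈ E : g ⊆ W, ¬ g ⊆ U}`.
(G1) `g ∈ E_X → U ∈ H_g`: `MCon E_g U` by `mcon_congr`, so `U ⊆ Y ∈ H_g` and `|Y| ≤ |U|`.
(G2) `g ∈ E_X`, `K ∈ H_g`, `K ≠ U` → `|K| = 2`. Suppose `3 ≤ |K|`. `|K ∩ U| ≤ 1` (`Indep.thin`). Choose `h ∈ E_g`,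
`h ⊆ K` (`mcon_deg`); `h ∈ E_X`, `h ≠ g`. Let `E_gh = E_g.erase h` and `Sys E_gh P`. `g ∈ E_h`, so `g ⊆ J` for a
`J ∈ H_h`; `J ≠ U`, `J ≠ K` by (F2').
Every `Z ∈ P` is inside a member of `H_g` and inside a member of `H_h` (`mcon_sub_member`, `MCon.mono`); the members
of an independent family meet in at most one point, so `Σ_{X ∈ H_g} wp (Z ∩ X) = w Z`, the same for `H_h`.
For `X ∈ H_g`, `X ≠ K`: `P` covers `E_g` inside `X` (`¬ h ⊆ X`), so `Σ_{Z ∈ P} wp (Z ∩ X) ≥ w X` (some `Z ⊇ X` or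
`≥ 2|X| - 2`); for `X = K`: `P ∪ {h}` covers, so `Σ ≥ w K` (here `3 ≤ |K|`). Summing, `Σ_P w ≥ 2|W| - 3`; also
`Σ_P w ≤ 2|W| - 3` (`Indep P`). And `Σ_{Z ∈ P, Z ⊆ X} w Z ≤ w X` for all `X` with `2 ≤ |X|` (`Indep P`), so
equality holds for every `X ∈ H_g` and every `X ∈ H_h`; since `Σ_P w = Σ_{H_h} w`; in particular `Σ_{Z ⊆ K} w Z = w K`,
`Σ_{Z ⊆ J} w Z = w J` (so `3 ≤ |J|`, not needed).
Let `C = (H_g ∩ H_h) \ {K, J}`; `U ∈ C`. If `X ∈ H_g`, `X ≠ K`, then `MCon E_gh X`, so `X ⊆ Z' ∈ P`, `Z'` is inside a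
member of `H_g`, so `X = Z' ∈ P`; the same for `X ∈ H_h`, `X ≠ J`. So every `Z ∈ P` is inside `K`, or inside `J`, or
in `C`. Hence `C ∪ {K, J}` covers all members of `E` inside `W` (`g ⊆ J`, `h ⊆ K`).
Case `|K ∩ J| ≤ 1`: `C`, `{Z ⊆ K}`, `{Z ⊆ J}` are disjoint parts of `P`, so `Σ_C w + w K + w J ≤ 2|W| - 3`, and
this is a cover by proper subsets: contradiction with `MCon E W`.
Case `2 ≤ |K ∩ J|`: `Σ_{Z ⊆ K ∩ J} w Z ≤ w (K ∩ J)`, so `Σ_C w + w (K ∪ J) ≤ 2|W| - 3`, so `K ∪ J = W`; but then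
`|U| ≤ |U ∩ K| + |U ∩ J| ≤ 2 < |K| ≤ |U|`, contradiction.
(G3) So for `g ∈ E_X` (`E_X` is nonempty) `H_g \ {U} = E_X \ {g}` and `|E_X| - 1 = 2|W| - 3 - w U = 2|X|`.
(G4) The members of `E_X \ {g}` inside `X` are at most `w X = 2|X| - 3` if `2 ≤ |X|` (`Indep`), none if `|X| = 1`.
(G5) `Σ_{x ∈ X} deg x = |E_X| + #{f ∈ E_X : f ⊆ X} ≤ 4|X| - 1`, so some `x ∈ X` has degree at most 3, and it is 3
by `mcon_deg`.
-/

namespace Pool.Agent.GRB

open Finset Pool.Agent.GRA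

variable {α : Type} [DecidableEq α] [Fintype α]

private theorem rem_sum_image_le {β γ : Type*} [DecidableEq β] [DecidableEq γ] (f : β → γ)
    (g : γ → ℤ) (hg : ∀ x, 0 ≤ g x) (s : Finset β) :
    ∑ y ∈ s.image f, g y ≤ ∑ x ∈ s, g (f x) := by
  induction s using Finset.induction_on with
  | empty => simp
  | insert a s ha ih =>
    rw [image_insert, sum_insert ha]
    by_cases h : f a ∈ s.image f
    · rw [insert_eq_of_mem h]
      have := hg (f a)
      linarith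
    · rw [sum_insert h]
      linarith

private theorem rem_sum_insert_le {s : Finset (Finset α)} {a : Finset α} (ha : 2 ≤ a.card) :
    ∑ A ∈ insert a s, w A ≤ w a + ∑ A ∈ s, w A := by
  by_cases h : a ∈ s
  · rw [insert_eq_of_mem h]
    have := w_pos ha
    linarith
  · rw [sum_insert h]

/-- covers by traces and extra sets -/
private theorem rem_trace {K P Q : Finset (Finset α)} (hK : IsG K) {X : Finset α} (hM : MCon K X)
    (hQ : ∀ A ∈ Q, 2 ≤ A.card ∧ A ⊆ X ∧ A ≠ X)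
    (hc : ∀ B ∈ K, B ⊆ X → (∃ Z ∈ P, B ⊆ Z) ∨ ∃ A ∈ Q, B ⊆ A)
    (hn : ∀ Z ∈ P, ¬ X ⊆ Z) :
    2 * (X.card : ℤ) - 2 ≤ ∑ Z ∈ P, wp (Z ∩ X) + ∑ A ∈ Q, w A := by
  set T : Finset (Finset α) := (P.image (fun Z => Z ∩ X)).filter (fun A => 2 ≤ A.card) with hT
  have hTm : ∀ A ∈ T, 2 ≤ A.card ∧ A ⊆ X ∧ A ≠ X := by
    intro A hA
    obtain ⟨hA1, hA2⟩ := mem_filter.1 hA
    obtain ⟨Z, hZ, rfl⟩ := mem_image.1 hA1
    refine ⟨hA2, inter_subset_right, fun h => hn Z hZ ?_⟩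
    rw [← h]
    exact inter_subset_left
  have h1 := hM (T ∪ Q) (by
    intro A hA
    rcases mem_union.1 hA with hA | hA
    · exact hTm A hA
    · exact hQ A hA) (by
    intro B hB hBX
    rcases hc B hB hBX with ⟨Z, hZ, hBZ⟩ | ⟨A, hA, hBA⟩
    · refine ⟨Z ∩ X, mem_union_left _ (mem_filter.2 ⟨mem_image_of_mem _ hZ, ?_⟩),
        subset_inter hBZ hBX⟩
      rw [← hK B hB]
      exact card_le_card (subset_inter hBZ hBX)
    · exact ⟨A, mem_union_right _ hA, hBA⟩)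
  have h2 : ∑ A ∈ T ∪ Q, w A ≤ ∑ A ∈ T, w A + ∑ A ∈ Q, w A := by
    rw [← sum_union_inter]
    have : 0 ≤ ∑ A ∈ T ∩ Q, w A := sum_nonneg fun A hA => by
      have := w_pos (hTm A (mem_inter.1 hA).1).1
      linarith
    linarith
  have h3 : ∑ A ∈ T, w A ≤ ∑ Z ∈ P, wp (Z ∩ X) := by
    calc ∑ A ∈ T, w A = ∑ A ∈ T, wp A :=
          sum_congr rfl fun A hA => (wp_of_two (hTm A hA).1).symm
      _ ≤ ∑ A ∈ P.image (fun Z => Z ∩ X), wp A :=
          sum_le_sum_of_subset_of_nonneg (filter_subset _ _) fun A _ _ => wp_nonneg A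
      _ ≤ ∑ Z ∈ P, wp (Z ∩ X) := rem_sum_image_le (fun Z => Z ∩ X) wp wp_nonneg P
  linarith

private theorem rem_trace_le {K P Q : Finset (Finset α)} (hK : IsG K) {X : Finset α}
    (hM : MCon K X) (h2 : 2 ≤ X.card) (hQ : ∀ A ∈ Q, 2 ≤ A.card ∧ A ⊆ X ∧ A ≠ X)
    (hc : ∀ B ∈ K, B ⊆ X → (∃ Z ∈ P, B ⊆ Z) ∨ ∃ A ∈ Q, B ⊆ A)
    (hQ1 : ∑ A ∈ Q, w A ≤ 1) : w X ≤ ∑ Z ∈ P, wp (Z ∩ X) := by
  by_cases hex : ∃ Z ∈ P, X ⊆ Z
  · obtain ⟨Z, hZ, hXZ⟩ := hex
    have h1 : wp (Z ∩ X) = w X := by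
      rw [inter_eq_right.2 hXZ, wp_of_two h2]
    rw [← h1]
    exact single_le_sum (f := fun Z => wp (Z ∩ X)) (fun A _ => wp_nonneg _) hZ
  · push Not at hex
    have h1 := rem_trace hK hM hQ hc hex
    unfold w at *
    linarith

/-- members of `P` are inside members of `H`: the traces on a member of `H` -/
private theorem rem_eq {H P : Finset (Finset α)} (hH : Indep H) (hP : Indep P)
    (hPH : ∀ Z ∈ P, ∃ X ∈ H, Z ⊆ X) {X : Finset α} (hX : X ∈ H)
    (hle : w X ≤ ∑ Z ∈ P, wp (Z ∩ X)) : sIn P X = w X := by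
  have h1 : ∑ Z ∈ P, wp (Z ∩ X) = sIn P X := by
    unfold sIn
    rw [sum_filter]
    refine sum_congr rfl fun Z hZ => ?_
    by_cases h : Z ⊆ X
    · rw [if_pos h, inter_eq_left.2 h, wp_of_two (hP.two Z hZ)]
    · rw [if_neg h]
      obtain ⟨Y, hY, hZY⟩ := hPH Z hZ
      have hYX : Y ≠ X := fun hYX => h (hYX ▸ hZY)
      exact wp_of_lt ((card_le_card (inter_subset_inter_right hZY)).trans (hH.thin hY hX hYX))
  have h2 := hP.nonneg X (hH.two X hX)
  unfold kk at h2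
  linarith

private theorem rem_split {H P : Finset (Finset α)} (hH : Indep H) (hP : Indep P)
    (hPH : ∀ Z ∈ P, ∃ X ∈ H, Z ⊆ X) : ∑ Z ∈ P, w Z = ∑ X ∈ H, sIn P X := by
  unfold sIn
  simp_rw [sum_filter]
  rw [sum_comm]
  refine sum_congr rfl fun Z hZ => ?_
  obtain ⟨Y, hY, hZY⟩ := hPH Z hZ
  rw [sum_eq_single Y]
  · rw [if_pos hZY]
  · intro X hX hXY
    rw [if_neg]
    intro hZX
    have h1 := hH.thin hX hY hXY
    have h2 := card_le_card (subset_inter hZX hZY)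
    have h3 := hP.two Z hZ
    omega
  · intro h
    exact absurd hY h

private theorem rem_isG_erase {F : Finset (Finset α)} (hF : IsG F) (e : Finset α) :
    IsG (F.erase e) := fun f hf => hF f (mem_of_mem_erase hf)

private theorem rem_sum_le {P : Finset (Finset α)} {W : Finset α} (hP : Indep P)
    (hPW : ∀ Z ∈ P, Z ⊆ W) (h2 : 2 ≤ W.card) : ∑ Z ∈ P, w Z ≤ w W := by
  have h1 := hP.nonneg W h2
  unfold kk sIn at h1
  rw [filter_true_of_mem hPW] at h1
  linarith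

private theorem rem_sub {K : Finset (Finset α)} {W X : Finset α} (hK : IsG K)
    (hKW : ∀ B ∈ K, B ⊆ W) (hM : MCon K X) (h2 : 2 ≤ X.card) : X ⊆ W := by
  by_cases h : X.card = 2
  · exact hKW X (mcon_two hK hM h)
  · intro x hx
    have h1 := mcon_deg hK hM (by omega) hx
    obtain ⟨y, hy⟩ := card_pos.1 (by omega : 0 <
      (univ.filter (fun y => y ∈ X ∧ ({x, y} : Finset α) ∈ K)).card)
    exact hKW _ (mem_filter.1 hy).2.2 (mem_insert_self _ _)

private theorem rem_facts {F : Finset (Finset α)} {W : Finset α} (hF : IsG F)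
    (hFW : ∀ B ∈ F, B ⊆ W) (hM : MCon F W) (h3 : 3 ≤ W.card)
    (hdel : ∀ e ∈ F, ¬ MCon (F.erase e) W) {e : Finset α} (he : e ∈ F) {H : Finset (Finset α)}
    (hS : Sys (F.erase e) H) : (∀ X ∈ H, X ⊆ W ∧ X ≠ W) ∧ ∑ X ∈ H, w X = w W ∧
      ∀ X ∈ H, ¬ e ⊆ X := by
  have hsub : ∀ X ∈ H, X ⊆ W ∧ X ≠ W := by
    intro X hX
    refine ⟨rem_sub (rem_isG_erase hF e) (fun B hB => hFW B (mem_of_mem_erase hB)) (hS.mc X hX)
      (hS.indep.two X hX), ?_⟩
    rintro rfl
    exact hdel e he (hS.mc _ hX)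
  have hle : ∑ X ∈ H, w X ≤ w W := rem_sum_le hS.indep (fun X hX => (hsub X hX).1) (by omega)
  have hcov : ∀ B ∈ F, B ≠ e → ∃ X ∈ H, B ⊆ X := fun B hB hBe =>
    hS.cov B (mem_erase.2 ⟨hBe, hB⟩)
  have hno : ∀ X ∈ H, ¬ e ⊆ X := by
    intro X hX heX
    have h1 := hM H (fun A hA => ⟨hS.indep.two A hA, (hsub A hA).1, (hsub A hA).2⟩) (by
      intro B hB _
      by_cases hBe : B = e
      · exact ⟨X, hX, hBe ▸ heX⟩
      · exact hcov B hB hBe)
    unfold w at *
    linarith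
  refine ⟨hsub, le_antisymm hle ?_, hno⟩
  have h1 := hM (insert e H) (by
    intro A hA
    rcases mem_insert.1 hA with rfl | hA
    · refine ⟨(hF _ he).ge, hFW _ he, ?_⟩
      rintro rfl
      have := hF _ he
      omega
    · exact ⟨hS.indep.two A hA, (hsub A hA).1, (hsub A hA).2⟩) (by
    intro B hB _
    by_cases hBe : B = e
    · exact ⟨e, mem_insert_self _ _, hBe ▸ subset_rfl⟩
    · obtain ⟨X, hX, hBX⟩ := hcov B hB hBe
      exact ⟨X, mem_insert_of_mem hX, hBX⟩)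
  have h2 : ∑ A ∈ insert e H, w A ≤ w e + ∑ A ∈ H, w A := rem_sum_insert_le (hF e he).ge
  have h4 : w e = 1 := by
    unfold w
    rw [hF e he]
    norm_num
  unfold w at *
  linarith

private theorem rem_key {F : Finset (Finset α)} {W : Finset α} (hF : IsG F)
    (hFW : ∀ B ∈ F, B ⊆ W) (hM : MCon F W) (h3 : 3 ≤ W.card)
    (hdel : ∀ e ∈ F, ¬ MCon (F.erase e) W) {g h : Finset α} (hg : g ∈ F) (hh : h ∈ F)
    (hgh : g ≠ h) {Hg Hh P : Finset (Finset α)} (hSg : Sys (F.erase g) Hg)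
    (hSh : Sys (F.erase h) Hh) (hSP : Sys ((F.erase g).erase h) P) {K J U : Finset α}
    (hK : K ∈ Hg) (hhK : h ⊆ K) (hK3 : 3 ≤ K.card) (hJ : J ∈ Hh) (hgJ : g ⊆ J) (hUg : U ∈ Hg)
    (hUh : U ∈ Hh) (hUK : U ≠ K) (hUJ : U ≠ J) (hKU : K.card ≤ U.card) : False := by
  have hFg := rem_isG_erase hF g
  have hFh := rem_isG_erase hF h
  have hFgh := rem_isG_erase hFg h
  have hsubh : (F.erase g).erase h ⊆ F.erase h := erase_subset_erase _ (erase_subset _ _)
  obtain ⟨hg1, hg2, hg3⟩ := rem_facts hF hFW hM h3 hdel hg hSg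
  obtain ⟨hh1, hh2, hh3⟩ := rem_facts hF hFW hM h3 hdel hh hSh
  have hPg : ∀ Z ∈ P, ∃ X ∈ Hg, Z ⊆ X := fun Z hZ =>
    mcon_sub_member hFg hSg ((hSP.mc Z hZ).mono (erase_subset _ _)) (hSP.indep.two Z hZ)
  have hPh : ∀ Z ∈ P, ∃ X ∈ Hh, Z ⊆ X := fun Z hZ =>
    mcon_sub_member hFh hSh ((hSP.mc Z hZ).mono hsubh) (hSP.indep.two Z hZ)
  have hPW : ∀ Z ∈ P, Z ⊆ W := by
    intro Z hZ
    obtain ⟨X, hX, hZX⟩ := hPg Z hZ
    exact hZX.trans (hg1 X hX).1
  have hPsum : ∑ Z ∈ P, w Z ≤ w W := rem_sum_le hSP.indep hPW (by omega)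
  have hgc := hF g hg
  have hhc := hF h hh
  -- edges inside members
  have hnh : ∀ X ∈ Hg, X ≠ K → ∀ B ∈ F.erase g, B ⊆ X → B ∈ (F.erase g).erase h := by
    intro X hX hXK B hB hBX
    refine mem_erase.2 ⟨?_, hB⟩
    rintro rfl
    have h1 := hSg.indep.thin hX hK hXK
    have h2 := card_le_card (subset_inter hBX hhK)
    omega
  have hng : ∀ X ∈ Hh, X ≠ J → ∀ B ∈ F.erase h, B ⊆ X → B ∈ (F.erase g).erase h := by
    intro X hX hXJ B hB hBX
    obtain ⟨hBh, hBF⟩ := mem_erase.1 hB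
    refine mem_erase.2 ⟨hBh, mem_erase.2 ⟨?_, hBF⟩⟩
    rintro rfl
    have h1 := hSh.indep.thin hX hJ hXJ
    have h2 := card_le_card (subset_inter hBX hgJ)
    omega
  -- the members of `Hg` are tight for `P`
  have heqg : ∀ X ∈ Hg, sIn P X = w X := by
    intro X hX
    refine rem_eq hSg.indep hSP.indep hPg hX ?_
    by_cases hXK : X = K
    · subst hXK
      refine rem_trace_le (Q := {h}) hFg (hSg.mc X hX) (by omega) ?_ ?_ ?_
      · intro A hA
        rw [mem_singleton] at hA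
        subst hA
        refine ⟨hhc.ge, hhK, ?_⟩
        rintro rfl
        omega
      · intro B hB _
        by_cases hBh : B = h
        · exact Or.inr ⟨h, mem_singleton_self _, hBh ▸ subset_rfl⟩
        · exact Or.inl (hSP.cov B (mem_erase.2 ⟨hBh, hB⟩))
      · rw [sum_singleton]
        unfold w
        rw [hhc]
        norm_num
    · refine rem_trace_le (Q := ∅) hFg (hSg.mc X hX) (hSg.indep.two X hX) ?_ ?_ ?_
      · intro A hA
        exact absurd hA (notMem_empty A)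
      · intro B hB hBX
        exact Or.inl (hSP.cov B (hnh X hX hXK B hB hBX))
      · rw [sum_empty]
        norm_num
  have hPeq : ∑ Z ∈ P, w Z = w W := by
    rw [rem_split hSg.indep hSP.indep hPg, sum_congr rfl heqg, hg2]
  have heqh : ∀ X ∈ Hh, sIn P X = w X := by
    have h1 := rem_split hSh.indep hSP.indep hPh
    rw [hPeq, ← hh2] at h1
    refine (sum_eq_sum_iff_of_le ?_).1 h1.symm
    intro X hX
    have h2 := hSP.indep.nonneg X (hSh.indep.two X hX)
    unfold kk at h2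
    linarith
  have hRK := heqg K hK
  have hRJ := heqh J hJ
  -- other members are members of `P`
  have hgP : ∀ X ∈ Hg, X ≠ K → X ∈ P := by
    intro X hX hXK
    have h1 : MCon ((F.erase g).erase h) X := mcon_congr (hSg.mc X hX) (hnh X hX hXK)
    obtain ⟨Z, hZ, hXZ⟩ := mcon_sub_member hFgh hSP h1 (hSg.indep.two X hX)
    obtain ⟨Y, hY, hZY⟩ := hPg Z hZ
    have h2 : X = Y := by
      by_contra hne
      have h4 := hSg.indep.thin hX hY hne
      have h5 := hSg.indep.two X hX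
      rw [inter_eq_left.2 (hXZ.trans hZY)] at h4
      omega
    have h3 : X = Z := subset_antisymm hXZ (h2 ▸ hZY)
    rw [h3]
    exact hZ
  have hhP : ∀ X ∈ Hh, X ≠ J → X ∈ P := by
    intro X hX hXJ
    have h1 : MCon ((F.erase g).erase h) X := mcon_congr (hSh.mc X hX) (hng X hX hXJ)
    obtain ⟨Z, hZ, hXZ⟩ := mcon_sub_member hFgh hSP h1 (hSh.indep.two X hX)
    obtain ⟨Y, hY, hZY⟩ := hPh Z hZ
    have h2 : X = Y := by
      by_contra hne
      have h4 := hSh.indep.thin hX hY hne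
      have h5 := hSh.indep.two X hX
      rw [inter_eq_left.2 (hXZ.trans hZY)] at h4
      omega
    have h3 : X = Z := subset_antisymm hXZ (h2 ▸ hZY)
    rw [h3]
    exact hZ
  set D : Finset (Finset α) := ((Hg ∩ Hh).erase K).erase J with hD
  have hDm : ∀ Z, Z ∈ D ↔ Z ≠ J ∧ Z ≠ K ∧ Z ∈ Hg ∧ Z ∈ Hh := by
    intro Z
    rw [hD, mem_erase, mem_erase, mem_inter]
  have hDP : D ⊆ P := fun Z hZ => hgP Z ((hDm Z).1 hZ).2.2.1 ((hDm Z).1 hZ).2.1
  have hcov : ∀ Z ∈ P, Z ⊆ K ∨ Z ⊆ J ∨ Z ∈ D := by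
    intro Z hZ
    obtain ⟨X, hX, hZX⟩ := hPg Z hZ
    obtain ⟨X', hX', hZX'⟩ := hPh Z hZ
    by_cases hXK : X = K
    · exact Or.inl (hXK ▸ hZX)
    by_cases hXJ : X' = J
    · exact Or.inr (Or.inl (hXJ ▸ hZX'))
    right; right
    have hZ2 := hSP.indep.two Z hZ
    have h1 : Z = X := by
      by_contra hne
      have h4 := hSP.indep.thin hZ (hgP X hX hXK) hne
      rw [inter_eq_left.2 hZX] at h4
      omega
    have h2 : Z = X' := by
      by_contra hne
      have h4 := hSP.indep.thin hZ (hhP X' hX' hXJ) hne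
      rw [inter_eq_left.2 hZX'] at h4
      omega
    refine (hDm Z).2 ⟨fun h => hXJ (h2 ▸ h), fun h => hXK (h1 ▸ h), h1 ▸ hX, h2 ▸ hX'⟩
  have hcovF : ∀ B ∈ F, B ⊆ K ∨ B ⊆ J ∨ ∃ Z ∈ D, B ⊆ Z := by
    intro B hB
    by_cases hBg : B = g
    · exact Or.inr (Or.inl (hBg ▸ hgJ))
    by_cases hBh : B = h
    · exact Or.inl (hBh ▸ hhK)
    obtain ⟨Z, hZ, hBZ⟩ := hSP.cov B (mem_erase.2 ⟨hBh, mem_erase.2 ⟨hBg, hB⟩⟩)
    rcases hcov Z hZ with h1 | h1 | h1
    · exact Or.inl (hBZ.trans h1)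
    · exact Or.inr (Or.inl (hBZ.trans h1))
    · exact Or.inr (Or.inr ⟨Z, h1, hBZ⟩)
  have hDmem : ∀ A ∈ D, 2 ≤ A.card ∧ A ⊆ W ∧ A ≠ W := fun A hA =>
    ⟨hSg.indep.two A ((hDm A).1 hA).2.2.1, (hg1 A ((hDm A).1 hA).2.2.1).1,
      (hg1 A ((hDm A).1 hA).2.2.1).2⟩
  have hKm : 2 ≤ K.card ∧ K ⊆ W ∧ K ≠ W := ⟨by omega, hg1 K hK⟩
  have hJm : 2 ≤ J.card ∧ J ⊆ W ∧ J ≠ W := ⟨hSh.indep.two J hJ, hh1 J hJ⟩
  -- `D` is disjoint from the members inside `K` and inside `J`
  have hdK : ∀ Z ∈ D, ¬ Z ⊆ K := by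
    intro Z hZ hZK
    have h1 := (hDm Z).1 hZ
    have h2 := hSg.indep.thin h1.2.2.1 hK h1.2.1
    rw [inter_eq_left.2 hZK] at h2
    have h4 := hSg.indep.two Z h1.2.2.1
    omega
  have hdJ : ∀ Z ∈ D, ¬ Z ⊆ J := by
    intro Z hZ hZJ
    have h1 := (hDm Z).1 hZ
    have h2 := hSh.indep.thin h1.2.2.2 hJ h1.1
    rw [inter_eq_left.2 hZJ] at h2
    have h4 := hSh.indep.two Z h1.2.2.2
    omega
  have hwP : ∀ Z ∈ P, 0 ≤ w Z := fun Z hZ => by
    have := hSP.indep.w_pos hZ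
    linarith
  -- the sum over `D` and over the members inside `K` or `J`
  have hunion : ∑ Z ∈ D, w Z + ∑ Z ∈ P.filter (· ⊆ K) ∪ P.filter (· ⊆ J), w Z ≤
      ∑ Z ∈ P, w Z := by
    rw [← sum_union]
    · refine sum_le_sum_of_subset_of_nonneg ?_ fun Z hZ _ => hwP Z hZ
      refine union_subset hDP (union_subset (filter_subset _ _) (filter_subset _ _))
    · rw [disjoint_left]
      intro Z hZ hZ'
      rcases mem_union.1 hZ' with h1 | h1
      · exact hdK Z hZ (mem_filter.1 h1).2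
      · exact hdJ Z hZ (mem_filter.1 h1).2
  have hinter : P.filter (· ⊆ K) ∩ P.filter (· ⊆ J) = P.filter (· ⊆ K ∩ J) := by
    ext Z
    simp only [mem_inter, mem_filter, subset_inter_iff]
    tauto
  have hsi := sum_union_inter (s₁ := P.filter (· ⊆ K)) (s₂ := P.filter (· ⊆ J)) (f := w)
  rw [hinter] at hsi
  have hRK' : ∑ Z ∈ P.filter (· ⊆ K), w Z = w K := hRK
  have hRJ' : ∑ Z ∈ P.filter (· ⊆ J), w Z = w J := hRJ
  by_cases hKJ : (K ∩ J).card ≤ 1
  · have h0 : ∑ Z ∈ P.filter (· ⊆ K ∩ J), w Z = 0 := sIn_eq_zero hSP.indep hKJ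
    have h1 := hM (insert K (insert J D)) (by
      intro A hA
      rcases mem_insert.1 hA with rfl | hA
      · exact hKm
      rcases mem_insert.1 hA with rfl | hA
      · exact hJm
      · exact hDmem A hA) (by
      intro B hB _
      rcases hcovF B hB with h4 | h4 | ⟨Z, hZ, h4⟩
      · exact ⟨K, mem_insert_self _ _, h4⟩
      · exact ⟨J, mem_insert_of_mem (mem_insert_self _ _), h4⟩
      · exact ⟨Z, mem_insert_of_mem (mem_insert_of_mem hZ), h4⟩)
    have h2 : ∑ A ∈ insert K (insert J D), w A ≤ w K + ∑ A ∈ insert J D, w A :=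
      rem_sum_insert_le hKm.1
    have h4 : ∑ A ∈ insert J D, w A ≤ w J + ∑ A ∈ D, w A := rem_sum_insert_le hJm.1
    have h5 : w W = 2 * (W.card : ℤ) - 3 := rfl
    linarith
  · push Not at hKJ
    have h0 : ∑ Z ∈ P.filter (· ⊆ K ∩ J), w Z ≤ w (K ∩ J) := by
      have h1 := hSP.indep.nonneg (K ∩ J) hKJ
      unfold kk sIn at h1
      linarith
    have hw := w_union_inter K J
    have hle : ∑ Z ∈ D, w Z + w (K ∪ J) ≤ w W := by linarith
    by_cases hKJW : K ∪ J = W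
    · have hU1 := hSg.indep.thin hUg hK hUK
      have hU2 := hSh.indep.thin hUh hJ hUJ
      have hUW : U ⊆ K ∪ J := by
        rw [hKJW]
        exact (hg1 U hUg).1
      have h1 : U = (U ∩ K) ∪ (U ∩ J) := by
        rw [← inter_union_distrib_left, inter_eq_left.2 hUW]
      have h2 : U.card ≤ (U ∩ K).card + (U ∩ J).card := by
        conv_lhs => rw [h1]
        exact card_union_le _ _
      omega
    · have h1 := hM (insert (K ∪ J) D) (by
        intro A hA
        rcases mem_insert.1 hA with rfl | hA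
        · exact ⟨hKm.1.trans (card_le_card subset_union_left),
            union_subset hKm.2.1 hJm.2.1, hKJW⟩
        · exact hDmem A hA) (by
        intro B hB _
        rcases hcovF B hB with h4 | h4 | ⟨Z, hZ, h4⟩
        · exact ⟨K ∪ J, mem_insert_self _ _, h4.trans subset_union_left⟩
        · exact ⟨K ∪ J, mem_insert_self _ _, h4.trans subset_union_right⟩
        · exact ⟨Z, mem_insert_of_mem hZ, h4⟩)
      have h2 : ∑ A ∈ insert (K ∪ J) D, w A ≤ w (K ∪ J) + ∑ A ∈ D, w A :=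
        rem_sum_insert_le (hKm.1.trans (card_le_card subset_union_left))
      have h5 : w W = 2 * (W.card : ℤ) - 3 := rfl
      linarith

private theorem rem_deg_le {E F : Finset (Finset α)} {W : Finset α}
    (hF : F = E.filter (· ⊆ W)) (hE : IsG E) {x : α} (hx : x ∈ W) :
    (univ.filter (fun y => y ∈ W ∧ ({x, y} : Finset α) ∈ E)).card ≤ (F.filter (x ∈ ·)).card := by
  refine card_le_card_of_injOn (fun y => ({x, y} : Finset α)) ?_ ?_
  · intro y hy
    obtain ⟨-, hyW, hyE⟩ := mem_filter.1 (mem_coe.1 hy)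
    rw [mem_coe, mem_filter]
    refine ⟨?_, mem_insert_self _ _⟩
    rw [hF, mem_filter]
    refine ⟨hyE, ?_⟩
    intro z hz
    rcases mem_insert.1 hz with rfl | hz
    · exact hx
    · rw [mem_singleton.1 hz]
      exact hyW
  · intro y hy y' _ hyy
    obtain ⟨-, -, hyE⟩ := mem_filter.1 (mem_coe.1 hy)
    have hxy : y ≠ x := by
      rintro rfl
      have h1 := hE _ hyE
      simp at h1
    have h1 : y ∈ ({x, y'} : Finset α) := by
      have h2 : ({x, y} : Finset α) = {x, y'} := hyy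
      rw [← h2]
      exact mem_insert_of_mem (mem_singleton_self _)
    rcases mem_insert.1 h1 with h2 | h2
    · exact absurd h2 hxy
    · exact mem_singleton.1 h2

private theorem rem_degsum {F : Finset (Finset α)} {W U : Finset α} (hF : IsG F) :
    ∑ x ∈ W \ U, (F.filter (x ∈ ·)).card ≤ (F.filter (fun f => ¬ f ⊆ U)).card +
      ((F.filter (fun f => ¬ f ⊆ U)).filter (· ⊆ W \ U)).card := by
  have h1 : ∑ x ∈ W \ U, (F.filter (x ∈ ·)).card = ∑ f ∈ F, ((W \ U).filter (· ∈ f)).card := by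
    simp_rw [card_filter]
    rw [sum_comm]
  rw [h1, card_filter, filter_filter, card_filter, ← sum_add_distrib]
  refine sum_le_sum fun f hf => ?_
  have hc := hF f hf
  have hsub : (W \ U).filter (· ∈ f) ⊆ f := fun x hx => (mem_filter.1 hx).2
  by_cases hfU : f ⊆ U
  · have h2 : (W \ U).filter (· ∈ f) = ∅ := by
      refine filter_eq_empty_iff.2 fun x hx hxf => ?_
      exact (mem_sdiff.1 hx).2 (hfU hxf)
    rw [h2, card_empty]
    exact Nat.zero_le _
  · by_cases hfX : f ⊆ W \ U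
    · rw [if_pos hfU, if_pos ⟨hfU, hfX⟩]
      have := card_le_card hsub
      omega
    · rw [if_pos hfU, if_neg (fun h => hfX h.2)]
      have h2 : ((W \ U).filter (· ∈ f)).card < f.card := by
        apply card_lt_card
        refine ⟨hsub, fun h => hfX fun x hx => ?_⟩
        exact (mem_filter.1 (h hx)).1
      omega

theorem removable {E : Finset (Finset α)} (hE : IsG E) {W : Finset α} (hM : MCon E W)
    (h3 : 3 ≤ W.card) (hdel : ∀ e ∈ E, e ⊆ W → ¬ MCon (E.erase e) W) :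
    ∃ v ∈ W, (univ.filter (fun y => y ∈ W ∧ ({v, y} : Finset α) ∈ E)).card = 3 := by
  classical
  obtain ⟨F, hFdef⟩ : ∃ F, F = E.filter (· ⊆ W) := ⟨_, rfl⟩
  have hFE : F ⊆ E := by
    rw [hFdef]
    exact filter_subset _ _
  have hF : IsG F := fun f hf => hE f (hFE hf)
  have hFW : ∀ B ∈ F, B ⊆ W := by
    intro B hB
    rw [hFdef] at hB
    exact (mem_filter.1 hB).2
  have hMF : MCon F W := mcon_congr hM fun B hB hBW => by
    rw [hFdef]
    exact mem_filter.2 ⟨hB, hBW⟩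
  have hdelF : ∀ e ∈ F, ¬ MCon (F.erase e) W := by
    intro e he hcon
    exact hdel e (hFE he) (hFW e he) (hcon.mono (erase_subset_erase _ hFE))
  have hsys : ∀ e, ∃ H, Sys (F.erase e) H := fun e => exists_sys _ (rem_isG_erase hF e)
  choose HH hHH using hsys
  have hfacts := fun (e : Finset α) (he : e ∈ F) => rem_facts hF hFW hMF h3 hdelF he (hHH e)
  -- an edge through every vertex
  have hedge : ∀ x ∈ W, ∃ y, ({x, y} : Finset α) ∈ F := by
    intro x hx
    have h1 := mcon_deg hF hMF h3 hx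
    obtain ⟨y, hy⟩ := card_pos.1 (by omega : 0 <
      (univ.filter (fun y => y ∈ W ∧ ({x, y} : Finset α) ∈ F)).card)
    exact ⟨y, (mem_filter.1 hy).2.2⟩
  -- a largest member
  have hne : (F.biUnion HH).Nonempty := by
    obtain ⟨x, hx⟩ := card_pos.1 (by omega : 0 < W.card)
    obtain ⟨y, hy⟩ := hedge x hx
    have h1 := (hfacts _ hy).2.1
    have h2 : (HH {x, y}).Nonempty := by
      rw [nonempty_iff_ne_empty]
      intro h0
      rw [h0, sum_empty] at h1
      have h4 : (3 : ℤ) ≤ W.card := by exact_mod_cast h3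
      unfold w at h1
      linarith
    obtain ⟨Z, hZ⟩ := h2
    exact ⟨Z, mem_biUnion.2 ⟨_, hy, hZ⟩⟩
  obtain ⟨U, hU, hmax⟩ := exists_max_image (F.biUnion HH) card hne
  obtain ⟨e0, he0, hUe0⟩ := mem_biUnion.1 hU
  have hUW := (hfacts e0 he0).1 U hUe0
  have hU2 : 2 ≤ U.card := (hHH e0).indep.two U hUe0
  have hmax' : ∀ g ∈ F, ∀ Y ∈ HH g, Y.card ≤ U.card := fun g hg Y hY =>
    hmax Y (mem_biUnion.2 ⟨g, hg, hY⟩)
  have hG1 : ∀ g ∈ F, ¬ g ⊆ U → U ∈ HH g := by
    intro g hg hgU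
    have h1 : MCon (F.erase g) U := mcon_congr ((hHH e0).mc U hUe0) (by
      intro B hB hBU
      refine mem_erase.2 ⟨?_, mem_of_mem_erase hB⟩
      rintro rfl
      exact hgU hBU)
    obtain ⟨Y, hY, hUY⟩ := mcon_sub_member (rem_isG_erase hF g) (hHH g) h1 hU2
    have h2 := eq_of_subset_of_card_le hUY (hmax' g hg Y hY)
    rw [h2]
    exact hY
  have hG2 : ∀ g ∈ F, ¬ g ⊆ U → ∀ K ∈ HH g, K ≠ U → K.card = 2 := by
    intro g hg hgU K hK hKU
    by_contra hcon
    have hK3 : 3 ≤ K.card := by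
      have := (hHH g).indep.two K hK
      omega
    obtain ⟨x, hx⟩ := card_pos.1 (by omega : 0 < K.card)
    have h1 := mcon_deg (rem_isG_erase hF g) ((hHH g).mc K hK) hK3 hx
    obtain ⟨y, hy⟩ := card_pos.1 (by omega : 0 <
      (univ.filter (fun y => y ∈ K ∧ ({x, y} : Finset α) ∈ F.erase g)).card)
    obtain ⟨-, hyK, hxy⟩ := mem_filter.1 hy
    obtain ⟨hne', hxyF⟩ := mem_erase.1 hxy
    have hhK : ({x, y} : Finset α) ⊆ K := by
      intro z hz
      rcases mem_insert.1 hz with rfl | hz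
      · exact hx
      · rw [mem_singleton.1 hz]
        exact hyK
    have hhU : ¬ ({x, y} : Finset α) ⊆ U := by
      intro hcon'
      have h2 := (hHH g).indep.thin hK (hG1 g hg hgU) hKU
      have h4 := card_le_card (subset_inter hhK hcon')
      rw [hF _ hxyF] at h4
      omega
    obtain ⟨J, hJ, hgJ⟩ := (hHH {x, y}).cov g (mem_erase.2 ⟨hne'.symm, hg⟩)
    obtain ⟨P, hP⟩ := exists_sys ((F.erase g).erase {x, y})
      (rem_isG_erase (rem_isG_erase hF g) _)
    exact rem_key hF hFW hMF h3 hdelF hg hxyF hne'.symm (hHH g) (hHH _) hP hK hhK hK3 hJ hgJ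
      (hG1 g hg hgU) (hG1 _ hxyF hhU) hKU.symm (fun h => hgU (h ▸ hgJ)) (hmax' g hg K hK)
  -- the vertices outside `U`
  have hXne : (W \ U).Nonempty := by
    rw [sdiff_nonempty]
    intro h
    exact hUW.2 (subset_antisymm hUW.1 h)
  have hXc : (W \ U).card = W.card - U.card := card_sdiff_of_subset hUW.1
  have hUWc : U.card ≤ W.card := card_le_card hUW.1
  obtain ⟨x0, hx0⟩ := hXne
  obtain ⟨hx0W, hx0U⟩ := mem_sdiff.1 hx0
  obtain ⟨y0, hy0⟩ := hedge x0 hx0W
  obtain ⟨g, hgdef⟩ : ∃ g, g = ({x0, y0} : Finset α) := ⟨_, rfl⟩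
  rw [← hgdef] at hy0
  have hgU : ¬ g ⊆ U := fun h => hx0U (h (by rw [hgdef]; exact mem_insert_self _ _))
  obtain ⟨EX, hEX⟩ : ∃ EX, EX = F.filter (fun f => ¬ f ⊆ U) := ⟨_, rfl⟩
  have hgEX : g ∈ EX := by
    rw [hEX]
    exact mem_filter.2 ⟨hy0, hgU⟩
  have hUg := hG1 g hy0 hgU
  have hset : (HH g).erase U = EX.erase g := by
    ext K
    rw [mem_erase, mem_erase, hEX, mem_filter]
    constructor
    · rintro ⟨hKU, hK⟩
      have h1 := hG2 g hy0 hgU K hK hKU
      have h2 := mem_erase.1 (mcon_two (rem_isG_erase hF g) ((hHH g).mc K hK) h1)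
      refine ⟨h2.1, h2.2, fun hcon => ?_⟩
      have h4 := (hHH g).indep.thin hK hUg hKU
      rw [inter_eq_left.2 hcon] at h4
      omega
    · rintro ⟨hKg, hKF, hKU⟩
      obtain ⟨Y, hY, hKY⟩ := (hHH g).cov K (mem_erase.2 ⟨hKg, hKF⟩)
      have hYU : Y ≠ U := fun h => hKU (h ▸ hKY)
      have h1 := hG2 g hy0 hgU Y hY hYU
      have h2 : K = Y := eq_of_subset_of_card_le hKY (by rw [h1, hF K hKF])
      rw [h2]
      exact ⟨hYU, hY⟩
  have hwEX : ∀ f ∈ EX, w f = 1 := by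
    intro f hf
    rw [hEX] at hf
    unfold w
    rw [hF f (mem_filter.1 hf).1]
    norm_num
  have hsum : w U + ((EX.card : ℤ) - 1) = w W := by
    have h1 := (hfacts g hy0).2.1
    rw [← add_sum_erase _ _ hUg, hset, sum_congr rfl (fun f hf => hwEX f (mem_of_mem_erase hf)),
      sum_const, card_erase_of_mem hgEX] at h1
    rw [← h1]
    have h2 : 1 ≤ EX.card := card_pos.2 ⟨g, hgEX⟩
    simp [Nat.cast_sub h2]
  have hEXc : (EX.card : ℤ) = 2 * ((W \ U).card : ℤ) + 1 := by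
    rw [hXc, Nat.cast_sub hUWc]
    unfold w at hsum
    linarith
  have hXpos : 1 ≤ (W \ U).card := card_pos.2 ⟨x0, hx0⟩
  have hin : ((EX.filter (· ⊆ W \ U)).card : ℤ) ≤ 2 * ((W \ U).card : ℤ) - 2 := by
    by_cases hX2 : 2 ≤ (W \ U).card
    · have h1 : ((EX.erase g).filter (· ⊆ W \ U)).card ≤ w (W \ U) := by
        have h2 := (hHH g).indep.nonneg _ hX2
        unfold kk at h2
        have h4 : ∑ f ∈ (EX.erase g).filter (· ⊆ W \ U), w f ≤ sIn (HH g) (W \ U) := by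
          unfold sIn
          refine sum_le_sum_of_subset_of_nonneg ?_ fun Z hZ _ => ?_
          · intro f hf
            obtain ⟨hf1, hf2⟩ := mem_filter.1 hf
            rw [← hset] at hf1
            exact mem_filter.2 ⟨mem_of_mem_erase hf1, hf2⟩
          · have := (hHH g).indep.w_pos (mem_filter.1 hZ).1
            linarith
        rw [sum_congr rfl (fun f hf => hwEX f (mem_of_mem_erase (mem_filter.1 hf).1)),
          sum_const] at h4
        simp only [nsmul_eq_mul, mul_one] at h4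
        linarith
      have h2 : (EX.filter (· ⊆ W \ U)).card ≤ ((EX.erase g).filter (· ⊆ W \ U)).card + 1 := by
        have h4 : EX.filter (· ⊆ W \ U) ⊆ insert g ((EX.erase g).filter (· ⊆ W \ U)) := by
          intro f hf
          obtain ⟨hf1, hf2⟩ := mem_filter.1 hf
          by_cases hfg : f = g
          · rw [hfg]
            exact mem_insert_self _ _
          · exact mem_insert_of_mem (mem_filter.2 ⟨mem_erase.2 ⟨hfg, hf1⟩, hf2⟩)
        exact (card_le_card h4).trans (card_insert_le _ _)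
      have h5 : ((EX.filter (· ⊆ W \ U)).card : ℤ) ≤
          (((EX.erase g).filter (· ⊆ W \ U)).card : ℤ) + 1 := by exact_mod_cast h2
      unfold w at h1
      linarith
    · have h1 : (W \ U).card = 1 := by omega
      have h2 : EX.filter (· ⊆ W \ U) = ∅ := by
        refine filter_eq_empty_iff.2 fun f hf hfX => ?_
        rw [hEX] at hf
        have h4 := card_le_card hfX
        rw [hF f (mem_filter.1 hf).1] at h4
        omega
      rw [h2, h1]
      norm_num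
  have hdeg := rem_degsum (W := W) (U := U) hF
  rw [← hEX] at hdeg
  by_contra hcon
  push Not at hcon
  have h4 : ∀ x ∈ W \ U, 4 ≤ (F.filter (x ∈ ·)).card := by
    intro x hx
    have hxW := (mem_sdiff.1 hx).1
    have h1 := mcon_deg hE hM h3 hxW
    have h2 := hcon x hxW
    have h5 := rem_deg_le hFdef hE hxW
    omega
  have h5 : (W \ U).card * 4 ≤ ∑ x ∈ W \ U, (F.filter (x ∈ ·)).card := by
    have := card_nsmul_le_sum (W \ U) (fun x => (F.filter (x ∈ ·)).card) 4 h4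
    rwa [smul_eq_mul] at this
  have h6 : ((W \ U).card * 4 : ℤ) ≤ (EX.card : ℤ) + ((EX.filter (· ⊆ W \ U)).card : ℤ) := by
    exact_mod_cast h5.trans hdeg
  linarith

end Pool.Agent.GRB
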