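import Pool.Agent.GRB.Sepn1

/-!
# GRB/Sepn2: the separation closest to `a`

`H` is M-connected on `W`. `MinSep H W a b s t L`: a separation with a smallest `L ∋ a`.

PROOF of `l3_as`. (`L3` is symmetric: if `P` is closed for `F`, `T` then so is `univ \ (P ∪ T)`.) Suppose
`|T| ≤ 2`, `a, s ∉ T`, `P ∋ a` is closed for `H` in `W` and `T`, `s ∉ P`. Then `t ∉ P`: otherwise `t ∉ T` and `l3_st`
(for `T`) gives `s ∈ P`. Let `S' = T ∩ (L ∪ {t})` and `L' = L ∩ P`. `L'` is closed for `H` in `W` and `S'`: a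
neighbour of `L'` is in `(L ∪ {s,t}) ∩ (P ∪ T)`, and `s ∉ P ∪ T`, `t ∉ P`. `a ∈ L'`, `b ∉ L ∪ {s,t}`, so `b ∉ L' ∪ S'`.
By `cut_one` (`x = a`, `y = b`) `2 ≤ |S' ∩ W|`, so `S' = T = {s', t'}` with `s' ≠ t'` in `W`, and
`SepAt H W a b s' t' L'` holds. `L' ≠ L`: by `sep_adj` some `x ∈ L` is joined to `s`; if `x ∈ P` then `s ∈ P ∪ T`. So
`|L'| < |L|`, contradiction with the minimality of `L`. For `t` instead of `s`: `sepAt_symm` (`MinSep` is symmetric in
`s, t`).
-/

namespace Pool.Agent.GRB

open Finset Pool.Agent.GRA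

variable {α : Type} [DecidableEq α] [Fintype α]

private theorem l3_as_one {H : Finset (Finset α)} (hH : IsG H) {W : Finset α} (hM : MCon H W)
    {a b s t : α} {L : Finset α} (hS : MinSep H W a b s t L) : L3 H W a s := by
  intro T hT haT hsT P hP haP
  by_contra hsP
  obtain ⟨hS1, hmin⟩ := hS
  have hcl := hS1.closed
  have h3 : 3 ≤ W.card := by
    have h : ({a, s, t} : Finset α) ⊆ W := by
      intro x hx
      simp only [mem_insert, mem_singleton] at hx
      rcases hx with rfl | rfl | rfl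
      · exact hS1.LW hS1.aL
      · exact hS1.sW
      · exact hS1.tW
    have has : a ≠ s := fun h => hS1.sL (h ▸ hS1.aL)
    have hat : a ≠ t := fun h => hS1.tL (h ▸ hS1.aL)
    have hc : ({a, s, t} : Finset α).card = 3 := by
      rw [card_insert_of_notMem (by simp [has, hat]), card_insert_of_notMem (by simp [hS1.ne]),
        card_singleton]
    rw [← hc]
    exact card_le_card h
  have hPT : ∀ x ∈ P, x ∉ T := fun x hx hxT => (disjoint_left.1 hP.1 hx) hxT
  have htP : t ∉ P := by
    intro h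
    exact hsP (l3_st hH hM (sepAt_symm hS1) T hT (hPT t h) hsT P hP h)
  set S' := T ∩ (insert t L) with hS'
  set L' := L ∩ P with hL'
  have c1 : Closed (H.filter (· ⊆ W)) S' L' := by
    refine ⟨?_, ?_⟩
    · rw [disjoint_left]
      intro x hx hx'
      exact hPT x (mem_inter.1 hx).2 (mem_inter.1 hx').1
    · intro x hx y hy hxy
      rw [hL', mem_inter] at hx
      have hyPT : y ∈ P ∨ y ∈ T := by
        by_cases h : y ∈ T
        · exact Or.inr h
        · exact Or.inl (hP.2 x hx.2 y h hxy)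
      have hyL : y ∈ L := by
        apply hcl.2 x hx.1 y _ hxy
        simp only [mem_insert, mem_singleton, not_or]
        refine ⟨?_, ?_⟩
        · rintro rfl
          rcases hyPT with h | h
          · exact hsP h
          · exact hsT h
        · rintro rfl
          rcases hyPT with h | h
          · exact htP h
          · exact hy (mem_inter.2 ⟨h, mem_insert_self _ _⟩)
      refine mem_inter.2 ⟨hyL, ?_⟩
      rcases hyPT with h | h
      · exact h
      · exact absurd (mem_inter.2 ⟨h, mem_insert_of_mem hyL⟩) hy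
  have hbL' : b ∉ L' := fun h => hS1.bL (mem_inter.1 h).1
  have hbS' : b ∉ S' := by
    intro h
    rcases mem_insert.1 (mem_inter.1 h).2 with h | h
    · exact hS1.bt h
    · exact hS1.bL h
  have haL' : a ∈ L' := mem_inter.2 ⟨hS1.aL, haP⟩
  have h2 := cut_one hH hM h3 c1 haL' (hS1.LW hS1.aL) hS1.bW hbL' hbS'
  have hS'T : S' ⊆ T := inter_subset_left
  have hS'2 : S'.card = 2 := by
    have i1 := card_le_card (inter_subset_left : S' ∩ W ⊆ S')
    have i2 := card_le_card hS'T
    omega
  have hS'W : S' ⊆ W := by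
    have : S' ∩ W = S' := by
      apply eq_of_subset_of_card_le inter_subset_left
      omega
    exact inter_eq_left.1 this
  obtain ⟨s', t', hst', hSe⟩ := card_eq_two.1 hS'2
  have hs'S : s' ∈ S' := by rw [hSe]; simp
  have ht'S : t' ∈ S' := by rw [hSe]; simp
  have hsep : SepAt H W a b s' t' L' :=
    { ne := hst'
      LW := fun x hx => hS1.LW (mem_inter.1 hx).1
      aL := haL'
      bW := hS1.bW
      sW := hS'W hs'S
      tW := hS'W ht'S
      sL := fun h => hPT _ (mem_inter.1 h).2 (hS'T hs'S)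
      tL := fun h => hPT _ (mem_inter.1 h).2 (hS'T ht'S)
      bL := hbL'
      bs := fun h => hbS' (h ▸ hs'S)
      bt := fun h => hbS' (h ▸ ht'S)
      closed := hSe ▸ c1 }
  have hc := hmin s' t' L' hsep
  have hLP : L' = L := eq_of_subset_of_card_le inter_subset_left hc
  obtain ⟨⟨x, hxL, hxs⟩, -⟩ := sep_adj hH hM hS1
  have hxP : x ∈ P := by
    rw [← hLP] at hxL
    exact (mem_inter.1 hxL).2
  apply hsP
  refine hP.2 x hxP s hsT (mem_filter.2 ⟨hxs, ?_⟩)
  intro z hz
  simp only [mem_insert, mem_singleton] at hz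
  rcases hz with rfl | rfl
  · exact hS1.LW hxL
  · exact hS1.sW

theorem l3_as {H : Finset (Finset α)} (hH : IsG H) {W : Finset α} (hM : MCon H W)
    {a b s t : α} {L : Finset α} (hS : MinSep H W a b s t L) : L3 H W a s ∧ L3 H W a t :=
  ⟨l3_as_one hH hM hS, l3_as_one hH hM ⟨sepAt_symm hS.1, hS.2⟩⟩

end Pool.Agent.GRB
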