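import Pool.Agent.GRB.Sepn0

/-!
# GRB/Sepn3: 2-separations of an M-connected graph

`H` is M-connected on `W` (later `H = E.erase {a,b}`). `SepAt H W a b s t L`: `L ⊆ W` contains `a`, `s, t ∉ L` are the
only possible neighbours of `L`, `b ∈ W \ (L ∪ {s,t})`. Write `R = W \ (L ∪ {s,t})`.
-/

namespace Pool.Agent.GRB

open Finset Pool.Agent.GRA

variable {α : Type} [DecidableEq α] [Fintype α]

/-- If adding the pair `{a, b}` joins `x` and `y`, there is a separation of `a` from `b`.
PROOF. Let `L` be closed for `H` in `W` and `S`, `|S| ≤ 2`, `x ∈ L`, `y ∉ L ∪ S`. It is not closed for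
`insert {a,b} H` in `W` and `S`, so one of `a, b` is in `L` and the other one is outside `L ∪ S`. By `cut_one`
`S ∩ W` has exactly two elements `s ≠ t`. If `a ∈ L` take `L ∩ W`; otherwise `b ∈ L`, take `W \ (L ∪ {s,t})`. Then
choose a separation with a smallest `L`. -/
theorem exists_minSep {H : Finset (Finset α)} (hH : IsG H) {W : Finset α} (hM : MCon H W)
    (h3 : 3 ≤ W.card) {a b : α} (haW : a ∈ W) (hbW : b ∈ W) (hab : a ≠ b) {x y : α} (hx : x ∈ W)
    (hy : y ∈ W) (h : L3 (insert {a, b} H) W x y) (hn : ¬ L3 H W x y) :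
    ∃ s t L, MinSep H W a b s t L := by
  classical
  have hex : ∃ s t L, SepAt H W a b s t L := by
    unfold L3 at hn
    push Not at hn
    obtain ⟨S, hS2, hxS, hyS, hr⟩ := hn
    unfold Reach at hr
    push Not at hr
    obtain ⟨L, hL, hxL, hyL⟩ := hr
    have hnc : ¬ Closed ((insert {a, b} H).filter (· ⊆ W)) S L := fun hc =>
      hyL (h S hS2 hxS hyS L hc hxL)
    have hpq : ∃ p ∈ L, ∃ q, q ∉ S ∧ q ∉ L ∧ ({p, q} : Finset α) ⊆ W ∧
        ({p, q} : Finset α) = {a, b} := by
      by_contra hcon
      push Not at hcon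
      apply hnc
      refine ⟨hL.1, fun p hp q hq hpq => ?_⟩
      by_contra hqL
      rw [mem_filter, mem_insert] at hpq
      have h1 := hcon p hp q hq hqL hpq.2
      rcases hpq.1 with h2 | h2
      · exact h1 h2
      · exact hqL (hL.2 p hp q hq (mem_filter.2 ⟨h2, hpq.2⟩))
    obtain ⟨p, hp, q, hqS, hqL, hpqW, hpq⟩ := hpq
    have hcut := cut_one hH hM h3 hL hxL hx hy hyL hyS
    have hSW : S ∩ W = S := by
      apply eq_of_subset_of_card_le inter_subset_left
      omega
    have hS2' : S.card = 2 := by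
      rw [hSW] at hcut
      omega
    obtain ⟨s, t, hst, rfl⟩ := card_eq_two.1 hS2'
    have hsW : s ∈ W := by
      have : s ∈ ({s, t} : Finset α) ∩ W := by
        rw [hSW]
        exact mem_insert_self _ _
      exact (mem_inter.1 this).2
    have htW : t ∈ W := by
      have : t ∈ ({s, t} : Finset α) ∩ W := by
        rw [hSW]
        exact mem_insert_of_mem (mem_singleton_self _)
      exact (mem_inter.1 this).2
    have hsL : s ∉ L := fun h1 => disjoint_left.1 hL.1 h1 (mem_insert_self _ _)
    have htL : t ∉ L := fun h1 =>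
      disjoint_left.1 hL.1 h1 (mem_insert_of_mem (mem_singleton_self _))
    have hpW : p ∈ W := hpqW (mem_insert_self _ _)
    have hqW : q ∈ W := hpqW (mem_insert_of_mem (mem_singleton_self _))
    have hsep : SepAt H W p q s t (L ∩ W) := by
      refine ⟨hst, inter_subset_right, mem_inter.2 ⟨hp, hpW⟩, hqW, hsW, htW,
        fun h1 => hsL (mem_inter.1 h1).1, fun h1 => htL (mem_inter.1 h1).1,
        fun h1 => hqL (mem_inter.1 h1).1, ?_, ?_, ?_, ?_⟩
      · rintro rfl
        exact hqS (mem_insert_self _ _)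
      · rintro rfl
        exact hqS (mem_insert_of_mem (mem_singleton_self _))
      · exact disjoint_of_subset_left inter_subset_left hL.1
      · intro x' hx' y' hy' hxy
        refine mem_inter.2 ⟨hL.2 x' (mem_inter.1 hx').1 y' hy' hxy, ?_⟩
        exact (mem_filter.1 hxy).2 (mem_insert_of_mem (mem_singleton_self _))
    have hne : p ≠ q := fun h1 => hqL (h1 ▸ hp)
    have ha : a = p ∨ a = q := by
      have : a ∈ ({p, q} : Finset α) := by
        rw [hpq]
        exact mem_insert_self _ _
      rwa [mem_insert, mem_singleton] at this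
    have hb : b = p ∨ b = q := by
      have : b ∈ ({p, q} : Finset α) := by
        rw [hpq]
        exact mem_insert_of_mem (mem_singleton_self _)
      rwa [mem_insert, mem_singleton] at this
    rcases ha with rfl | rfl
    · rcases hb with h1 | rfl
      · exact absurd h1.symm hab
      · exact ⟨s, t, _, hsep⟩
    · rcases hb with rfl | h1
      · exact ⟨s, t, _, sepAt_swap hsep hpW⟩
      · exact absurd h1.symm hab
  have hex2 : ∃ n : ℕ, ∃ s t L, SepAt H W a b s t L ∧ L.card = n := by
    obtain ⟨s, t, L, hS⟩ := hex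
    exact ⟨_, s, t, L, hS, rfl⟩
  obtain ⟨s, t, L, hS, hc⟩ := Nat.find_spec hex2
  refine ⟨s, t, L, hS, fun s' t' L' hS' => ?_⟩
  rw [hc]
  exact Nat.find_min' hex2 ⟨s', t', L', hS', rfl⟩

end Pool.Agent.GRB
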