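import Pool.Agent.GRB.Row

/-!
# GRB/Tri: three points determine a point

PROOF. `P1 P2 P3` not collinear, `Q1 Q2 Q3` with the same mutual distances (so also not collinear: the square of the
area is a polynomial in the squared distances, Heron). `X, X'` have the same distances to `P1, P2, P3` as
`Y, Y'` to `Q1, Q2, Q3`. With `P1 = Q1 = 0` (translate): `X · P2 = Y · Q2` etc. (polarization), `P2, P3` is a basis
with the same Gram matrix as `Q2, Q3`, so `X · X' = Y · Y'` (both are expressed by the Gram matrix and the products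
with the basis vectors), `X · X = Y · Y`, `X' · X' = Y' · Y'`, hence `dsq X X' = dsq Y Y'`.
Concretely: `area² · (X·X')` is a polynomial in `X·P2, X·P3, X'·P2, X'·P3` and the Gram matrix.
-/

namespace Pool.Agent.GRB

private theorem tri_aux (a0 a1 b0 b1 x0 x1 u0 u1 : ℝ) :
    (a0 * b1 - a1 * b0) ^ 2 * (x0 * u0 + x1 * u1) =
      (x0 * a0 + x1 * a1) * (u0 * a0 + u1 * a1) * (b0 * b0 + b1 * b1)
      - (x0 * a0 + x1 * a1) * (u0 * b0 + u1 * b1) * (a0 * b0 + a1 * b1)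
      - (x0 * b0 + x1 * b1) * (u0 * a0 + u1 * a1) * (a0 * b0 + a1 * b1)
      + (x0 * b0 + x1 * b1) * (u0 * b0 + u1 * b1) * (a0 * a0 + a1 * a1) := by
  ring

private theorem tri_aux2 (a0 a1 b0 b1 x0 x1 u0 u1 c0 c1 d0 d1 y0 y1 v0 v1 : ℝ)
    (hD : a0 * b1 - a1 * b0 ≠ 0)
    (haa : a0 * a0 + a1 * a1 = c0 * c0 + c1 * c1)
    (hbb : b0 * b0 + b1 * b1 = d0 * d0 + d1 * d1)
    (hab : a0 * b0 + a1 * b1 = c0 * d0 + c1 * d1)
    (hxa : x0 * a0 + x1 * a1 = y0 * c0 + y1 * c1)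
    (hxb : x0 * b0 + x1 * b1 = y0 * d0 + y1 * d1)
    (hua : u0 * a0 + u1 * a1 = v0 * c0 + v1 * c1)
    (hub : u0 * b0 + u1 * b1 = v0 * d0 + v1 * d1) :
    x0 * u0 + x1 * u1 = y0 * v0 + y1 * v1 := by
  have h1 := tri_aux a0 a1 b0 b1 x0 x1 u0 u1
  have h2 := tri_aux c0 c1 d0 d1 y0 y1 v0 v1
  rw [haa, hbb, hab, hxa, hxb, hua, hub, ← h2] at h1
  have h3 : (a0 * b1 - a1 * b0) ^ 2 = (c0 * d1 - c1 * d0) ^ 2 := by
    have e1 : (a0 * b1 - a1 * b0) ^ 2 = (a0 * a0 + a1 * a1) * (b0 * b0 + b1 * b1)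
        - (a0 * b0 + a1 * b1) ^ 2 := by ring
    have e2 : (c0 * d1 - c1 * d0) ^ 2 = (c0 * c0 + c1 * c1) * (d0 * d0 + d1 * d1)
        - (c0 * d0 + c1 * d1) ^ 2 := by ring
    rw [e1, e2, haa, hbb, hab]
  rw [← h3] at h1
  exact mul_left_cancel₀ (pow_ne_zero 2 hD) h1

theorem tri_dsq {P1 P2 P3 Q1 Q2 Q3 X Y X' Y' : Fin 2 → ℝ} (hA : area P1 P2 P3 ≠ 0)
    (h12 : dsq P1 P2 = dsq Q1 Q2) (h13 : dsq P1 P3 = dsq Q1 Q3) (h23 : dsq P2 P3 = dsq Q2 Q3)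
    (h1 : dsq X P1 = dsq Y Q1) (h2 : dsq X P2 = dsq Y Q2) (h3 : dsq X P3 = dsq Y Q3)
    (h1' : dsq X' P1 = dsq Y' Q1) (h2' : dsq X' P2 = dsq Y' Q2) (h3' : dsq X' P3 = dsq Y' Q3) :
    dsq X X' = dsq Y Y' := by
  unfold dsq area at *
  have key := tri_aux2 (P2 0 - P1 0) (P2 1 - P1 1) (P3 0 - P1 0) (P3 1 - P1 1)
    (X 0 - P1 0) (X 1 - P1 1) (X' 0 - P1 0) (X' 1 - P1 1)
    (Q2 0 - Q1 0) (Q2 1 - Q1 1) (Q3 0 - Q1 0) (Q3 1 - Q1 1)
    (Y 0 - Q1 0) (Y 1 - Q1 1) (Y' 0 - Q1 0) (Y' 1 - Q1 1) hA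
    (by linear_combination h12) (by linear_combination h13)
    (by linear_combination (1/2) * h12 + (1/2) * h13 - (1/2) * h23)
    (by linear_combination (1/2) * h12 + (1/2) * h1 - (1/2) * h2)
    (by linear_combination (1/2) * h13 + (1/2) * h1 - (1/2) * h3)
    (by linear_combination (1/2) * h12 + (1/2) * h1' - (1/2) * h2')
    (by linear_combination (1/2) * h13 + (1/2) * h1' - (1/2) * h3')
  linear_combination h1 + h1' - 2 * key

end Pool.Agent.GRB
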