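import Pool.Agent.GRB.Tan
import Pool.Agent.GRB.Tri
import Pool.Agent.GRB.Deg3C
import Pool.Agent.GRB.Deg3L
import Pool.Agent.GRB.L3B
import Pool.Agent.GRB.Rem
import Pool.Agent.GRB.Sepn2
import Pool.Agent.GRB.Sepn3
import Pool.Agent.GRB.Ext1
import Pool.Agent.GRB.Ext2

/-!
# GRB/GL: in an M-connected graph two vertices not separated by two vertices are globally linked
-/

namespace Pool.Agent.GRB

open Finset Pool.Agent.GRA

variable {α : Type} [DecidableEq α] [Fintype α]

private theorem pair_cases {u v s t : α} (h : ({u, v} : Finset α) = {s, t}) (hst : s ≠ t) :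
    (u = s ∧ v = t) ∨ (u = t ∧ v = s) := by
  have hu : u ∈ ({s, t} : Finset α) := h ▸ (by simp)
  have hv : v ∈ ({s, t} : Finset α) := h ▸ (by simp)
  have hs : s ∈ ({u, v} : Finset α) := h ▸ (by simp)
  have ht : t ∈ ({u, v} : Finset α) := h ▸ (by simp)
  simp only [mem_insert, mem_singleton] at hu hv hs ht
  rcases hu with rfl | rfl
  · rcases hv with rfl | rfl
    · rcases ht with h | h <;> exact absurd h.symm hst
    · exact Or.inl ⟨rfl, rfl⟩
  · rcases hv with rfl | rfl
    · exact Or.inr ⟨rfl, rfl⟩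
    · rcases hs with h | h <;> exact absurd h hst

private theorem dsq_of_pair {p q : Cfg α} {u v s t : α} (h : ({u, v} : Finset α) = {s, t})
    (hst : s ≠ t) (hd : dsq (p s) (p t) = dsq (q s) (q t)) :
    dsq (p u) (p v) = dsq (q u) (q v) := by
  rcases pair_cases h hst with ⟨rfl, rfl⟩ | ⟨rfl, rfl⟩
  · exact hd
  · rw [dsq_comm, hd, dsq_comm]

private theorem gen_area' {p : Cfg α} (hp : Gen p) {a b c : α} (hab : a ≠ b) (hac : a ≠ c)
    (hbc : b ≠ c) : area (p a) (p b) (p c) ≠ 0 := gen_area hp hab hac hbc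

/-- The data given by one side of a separation. -/
private theorem side {p : Cfg α} (hp : Gen p) {W : Finset α}
    (ihN : ∀ W' : Finset α, W'.card < W.card → ∀ E : Finset (Finset α), IsG E → MCon E W' →
      ∀ q : Cfg α, Eqv (E.filter (· ⊆ W')) p q → ∀ x ∈ W', ∀ y ∈ W', L3 E W' x y →
        dsq (p x) (p y) = dsq (q x) (q y))
    {H : Finset (Finset α)} (hH : IsG H) (hM : MCon H W) {q : Cfg α}
    (hq : Eqv (H.filter (· ⊆ W)) p q) {a b s t : α} {L : Finset α} (hS : SepAt H W a b s t L)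
    (hst : dsq (p s) (p t) = dsq (q s) (q t)) (has : dsq (p a) (p s) = dsq (q a) (q s))
    (hat : dsq (p a) (p t) = dsq (q a) (q t)) (hab : dsq (p a) (p b) = dsq (q a) (q b)) :
    ∀ x ∈ insert a (W \ L), ∀ y ∈ insert a (W \ L), L3 (ext H a b s t) (insert a (W \ L)) x y →
      dsq (p x) (p y) = dsq (q x) (q y) := by
  have haW : a ∈ W := hS.LW hS.aL
  have hsub : insert a (W \ L) ⊆ W := insert_subset haW sdiff_subset
  have hne1 : a ≠ s := fun h => hS.sL (h ▸ hS.aL)
  have hne2 : a ≠ t := fun h => hS.tL (h ▸ hS.aL)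
  have hne3 : a ≠ b := fun h => hS.bL (h ▸ hS.aL)
  refine ihN _ (card_ext_lt hH hM hS) (ext H a b s t) ?_ (mcon_ext hH hM hS) q ?_
  · intro e he
    rcases mem_union.1 he with he | he
    · exact hH e he
    · simp only [mem_insert, mem_singleton] at he
      rcases he with rfl | rfl | rfl | rfl
      · exact card_pair hS.ne
      · exact card_pair hne1
      · exact card_pair hne2
      · exact card_pair hne3
  · intro u v huv
    obtain ⟨h1, h2⟩ := mem_filter.1 huv
    rcases mem_union.1 h1 with h1 | h1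
    · exact hq u v (mem_filter.2 ⟨h1, h2.trans hsub⟩)
    · simp only [mem_insert, mem_singleton] at h1
      rcases h1 with h1 | h1 | h1 | h1
      · exact dsq_of_pair h1 hS.ne hst
      · exact dsq_of_pair h1 hne1 has
      · exact dsq_of_pair h1 hne2 hat
      · exact dsq_of_pair h1 hne3 hab

private theorem ext_symm (H : Finset (Finset α)) (a b s t : α) :
    ext H a b t s = ext H a b s t := by
  unfold ext
  rw [pair_comm t s]
  congr 1
  ext e
  simp only [mem_insert, mem_singleton]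
  tauto

/-- Case of a removable edge. -/
private theorem case_edge {p : Cfg α} (hp : Gen p) {W : Finset α} (h3 : 3 ≤ W.card)
    (ihN : ∀ W' : Finset α, W'.card < W.card → ∀ E : Finset (Finset α), IsG E → MCon E W' →
      ∀ q : Cfg α, Eqv (E.filter (· ⊆ W')) p q → ∀ x ∈ W', ∀ y ∈ W', L3 E W' x y →
        dsq (p x) (p y) = dsq (q x) (q y))
    {H : Finset (Finset α)} (hH : IsG H) {a b : α} (hab : a ≠ b) (haW : a ∈ W) (hbW : b ∈ W)
    (hM : MCon H W) {q : Cfg α} (hq : Eqv (H.filter (· ⊆ W)) p q)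
    (hdab : dsq (p a) (p b) = dsq (q a) (q b))
    (ihM : ∀ x ∈ W, ∀ y ∈ W, L3 H W x y → dsq (p x) (p y) = dsq (q x) (q y))
    {x y : α} (hx : x ∈ W) (hy : y ∈ W) (hL : L3 (insert {a, b} H) W x y) :
    dsq (p x) (p y) = dsq (q x) (q y) := by
  by_cases hLH : L3 H W x y
  · exact ihM x hx y hy hLH
  obtain ⟨s, t, L, hmin⟩ := exists_minSep hH hM h3 haW hbW hab hx hy hL hLH
  have hS := hmin.1
  have hst := ihM s hS.sW t hS.tW (l3_st hH hM hS)
  have has := ihM a haW s hS.sW (l3_as hH hM hmin).1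
  have hat := ihM a haW t hS.tW (l3_as hH hM hmin).2
  have hA := side hp ihN hH hM hq hS hst has hat hdab
  have hab' : a ∈ insert a (W \ L) := mem_insert_self _ _
  have hWL : ∀ z ∈ W, z ∉ L → z ∈ insert a (W \ L) := fun z h1 h2 =>
    mem_insert_of_mem (mem_sdiff.2 ⟨h1, h2⟩)
  have hbs := hA b (hWL b hbW hS.bL) s (hWL s hS.sW hS.sL) (l3_bs hH hM hS)
  have hbt := hA b (hWL b hbW hS.bL) t (hWL t hS.tW hS.tL) (by
    have := l3_bs hH hM (sepAt_symm hS)
    rwa [ext_symm] at this)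
  -- the other side
  have hS' := sepAt_swap hS haW
  have hdba : dsq (p b) (p a) = dsq (q b) (q a) := by rw [dsq_comm, hdab, dsq_comm]
  have hB := side hp ihN hH hM hq hS' hst hbs hbt hdba
  have hR : ∀ z ∈ W, z ∈ L ∨ z = s ∨ z = t → z ∈ insert b (W \ (W \ (L ∪ {s, t}))) := by
    intro z h1 h2
    apply mem_insert_of_mem
    simp only [mem_sdiff, mem_union, mem_insert, mem_singleton, not_and, not_not]
    exact ⟨h1, fun _ => h2⟩
  have hbR : b ∈ insert b (W \ (W \ (L ∪ {s, t}))) := mem_insert_self _ _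
  have hLs : ∀ z ∈ L, z ≠ s ∧ z ≠ t := fun z hz =>
    ⟨fun h => hS.sL (h ▸ hz), fun h => hS.tL (h ▸ hz)⟩
  have hswap : insert ({a, b} : Finset α) H = insert {b, a} H := by rw [pair_comm]
  -- two vertices on the same side
  have near1 : ∀ x ∈ insert a (W \ L), ∀ y ∈ insert a (W \ L), L3 (insert {a, b} H) W x y →
      dsq (p x) (p y) = dsq (q x) (q y) := fun x hx y hy h =>
    hA x hx y hy (l3_near hH hS hx hy h)
  have near2 : ∀ x ∈ insert b (W \ (W \ (L ∪ {s, t}))), ∀ y ∈ insert b (W \ (W \ (L ∪ {s, t}))),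
      L3 (insert {a, b} H) W x y → dsq (p x) (p y) = dsq (q x) (q y) := fun x hx y hy h =>
    hB x hx y hy (l3_near hH hS' hx hy (by rwa [← hswap]))
  -- a vertex in `L` and a vertex beyond
  have far : ∀ x ∈ L, ∀ y ∈ W, y ∉ L → y ≠ s → y ≠ t → L3 (insert {a, b} H) W x y →
      dsq (p x) (p y) = dsq (q x) (q y) := by
    intro x hx y hy hyL hys hyt h
    have hxW : x ∈ W := hS.LW hx
    by_cases hxa : x = a
    · subst hxa
      exact near1 x hab' y (hWL y hy hyL) h
    by_cases hyb : y = b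
    · subst hyb
      exact near2 x (hR x hxW (Or.inl hx)) y hbR h
    -- distances of `y` to `s, t, a`
    have hy1 : ∀ z, (z = s ∨ z = t ∨ z = a) → dsq (p y) (p z) = dsq (q y) (q z) := by
      intro z hz
      refine hA y (hWL y hy hyL) z ?_ (l3_far hH hS hx hxa hy hyL hys hyt h hz)
      rcases hz with rfl | rfl | rfl
      · exact hWL _ hS.sW hS.sL
      · exact hWL _ hS.tW hS.tL
      · exact hab'
    -- distances of `x` to `s, t, b`
    have hyR : y ∈ W \ (L ∪ {s, t}) := by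
      simp only [mem_sdiff, mem_union, mem_insert, mem_singleton, not_or]
      exact ⟨hy, hyL, hys, hyt⟩
    have hxR : x ∉ W \ (L ∪ {s, t}) := by
      simp only [mem_sdiff, mem_union, not_and, not_not]
      exact fun _ => Or.inl hx
    have hx1 : ∀ z, (z = s ∨ z = t ∨ z = b) → dsq (p x) (p z) = dsq (q x) (q z) := by
      intro z hz
      refine hB x (hR x hxW (Or.inl hx)) z ?_ (l3_far hH hS' hyR hyb hxW hxR (hLs x hx).1
        (hLs x hx).2 (l3_symm (by rwa [← hswap])) hz)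
      rcases hz with rfl | rfl | rfl
      · exact hR _ hS.sW (Or.inr (Or.inl rfl))
      · exact hR _ hS.tW (Or.inr (Or.inr rfl))
      · exact hbR
    have hne1 : a ≠ s := (hLs a hS.aL).1
    have hne2 : a ≠ t := (hLs a hS.aL).2
    -- `y` and `b` over the triangle `s, t, a`
    have hyb1 : dsq (p y) (p b) = dsq (q y) (q b) :=
      tri_dsq (gen_area hp hS.ne hne1.symm hne2.symm) hst (by rw [dsq_comm, has, dsq_comm])
        (by rw [dsq_comm, hat, dsq_comm]) (hy1 s (Or.inl rfl)) (hy1 t (Or.inr (Or.inl rfl)))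
        (hy1 a (Or.inr (Or.inr rfl))) hbs hbt hdba
    -- `x` and `y` over the triangle `s, t, b`
    exact tri_dsq (gen_area hp hS.ne hS.bs.symm hS.bt.symm) hst
      (by rw [dsq_comm, hbs, dsq_comm]) (by rw [dsq_comm, hbt, dsq_comm])
      (hx1 s (Or.inl rfl)) (hx1 t (Or.inr (Or.inl rfl))) (hx1 b (Or.inr (Or.inr rfl)))
      (hy1 s (Or.inl rfl)) (hy1 t (Or.inr (Or.inl rfl))) hyb1
  by_cases hxL : x ∈ L
  · by_cases hy1 : y ∈ L ∨ y = s ∨ y = t
    · exact near2 x (hR x hx (Or.inl hxL)) y (hR y hy hy1) hL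
    · push Not at hy1
      exact far x hxL y hy hy1.1 hy1.2.1 hy1.2.2 hL
  · by_cases hyL : y ∈ L
    · by_cases hx1 : x = s ∨ x = t
      · exact near2 x (hR x hx (Or.inr hx1)) y (hR y hy (Or.inl hyL)) hL
      · push Not at hx1
        have := far y hyL x hx hxL hx1.1 hx1.2 (l3_symm hL)
        rw [dsq_comm, this, dsq_comm]
    · exact near1 x (hWL x hx hxL) y (hWL y hy hyL) hL

/-- Case of a vertex of degree three. -/
private theorem case_vertex {p : Cfg α} (hp : Gen p) {W : Finset α}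
    (ihN : ∀ W' : Finset α, W'.card < W.card → ∀ E : Finset (Finset α), IsG E → MCon E W' →
      ∀ q : Cfg α, Eqv (E.filter (· ⊆ W')) p q → ∀ x ∈ W', ∀ y ∈ W', L3 E W' x y →
        dsq (p x) (p y) = dsq (q x) (q y))
    {E : Finset (Finset α)} (hE : IsG E) (hM : MCon E W) {q : Cfg α}
    (hq : Eqv (E.filter (· ⊆ W)) p q) {v a b c : α} (hD : Deg3 E W v a b c) {x y : α}
    (hx : x ∈ W) (hy : y ∈ W) (hxy : x ≠ y) (hL : L3 E W x y) :
    dsq (p x) (p y) = dsq (q x) (q y) := by
  obtain ⟨I, hIE, hIW, hs, hcard⟩ := deg3_laman hE hM hD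
  have hIG : IsG I := fun e he => hE e (hIE he)
  have hedge : ∀ u, ({v, u} : Finset α) ∈ E → u ∈ W → dsq (p v) (p u) = dsq (q v) (q u) :=
    fun u h1 h2 => hq v u (mem_filter.2 ⟨h1, insert_subset hD.vW (singleton_subset_iff.2 h2)⟩)
  have hva := hedge a hD.va hD.aW
  have hvb := hedge b hD.vb hD.bW
  have hvc := hedge c hD.vc hD.cW
  have hqI : Eqv I p q := fun u w h =>
    hq u w (mem_filter.2 ⟨hIE h, (hIW _ h).trans (erase_subset _ _)⟩)
  have nva : v ≠ a := by
    intro h
    have := hE _ hD.va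
    rw [h] at this
    simp at this
  have nvb : v ≠ b := by
    intro h
    have := hE _ hD.vb
    rw [h] at this
    simp at this
  have nvc : v ≠ c := by
    intro h
    have := hE _ hD.vc
    rw [h] at this
    simp at this
  have ha' : a ∈ W.erase v := mem_erase.2 ⟨nva.symm, hD.aW⟩
  have hb' : b ∈ W.erase v := mem_erase.2 ⟨nvb.symm, hD.bW⟩
  have hc' : c ∈ W.erase v := mem_erase.2 ⟨nvc.symm, hD.cW⟩
  have hv' : v ∉ W.erase v := notMem_erase _ _
  have dab : dsq (p a) (p b) = dsq (q a) (q b) :=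
    tan_step hIG hs hIW hcard hp hqI hv' ha' hb' hc' hD.ab hD.ac hD.bc hva hvb hvc
  have dac : dsq (p a) (p c) = dsq (q a) (q c) :=
    tan_step hIG hs hIW hcard hp hqI hv' ha' hc' hb' hD.ac hD.ab hD.bc.symm hva hvc hvb
  have dbc : dsq (p b) (p c) = dsq (q b) (q c) :=
    tan_step hIG hs hIW hcard hp hqI hv' hb' hc' ha' hD.bc hD.ab.symm hD.ac.symm hvb hvc hva
  have hqT : Eqv ((tri E a b c).filter (· ⊆ W.erase v)) p q := by
    intro u w huw
    obtain ⟨h1, h2⟩ := mem_filter.1 huw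
    rcases mem_union.1 h1 with h1 | h1
    · exact hq u w (mem_filter.2 ⟨h1, h2.trans (erase_subset _ _)⟩)
    · simp only [mem_insert, mem_singleton] at h1
      rcases h1 with h1 | h1 | h1
      · exact dsq_of_pair h1 hD.ab dab
      · exact dsq_of_pair h1 hD.bc dbc
      · exact dsq_of_pair h1 hD.ac dac
  have hTG := tri_isG hE hD.ab hD.ac hD.bc
  have hlt : (W.erase v).card < W.card := card_erase_lt_of_mem hD.vW
  -- the statement for `v` and another vertex
  have key : ∀ z ∈ W, z ≠ v → L3 E W v z → dsq (p v) (p z) = dsq (q v) (q z) := by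
    intro z hz hzv hLz
    have hz' : z ∈ W.erase v := mem_erase.2 ⟨hzv, hz⟩
    rcases deg3_cases hE hM hD with hMT | ⟨X, Y, Z, hB⟩
    · have h1 : ∀ u, (u = a ∨ u = b ∨ u = c) → dsq (p z) (p u) = dsq (q z) (q u) := by
        intro u hu
        refine ihN _ hlt _ hTG hMT q hqT z hz' u ?_ (l3_vertex hE hD hz' hu hLz)
        rcases hu with rfl | rfl | rfl <;> assumption
      exact tri_dsq (gen_area hp hD.ab hD.ac hD.bc) dab dac dbc hva hvb hvc
        (h1 a (Or.inl rfl)) (h1 b (Or.inr (Or.inl rfl))) (h1 c (Or.inr (Or.inr rfl)))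
    · rcases l3_bodies_vertex hE hD hB hz' hLz with rfl | rfl | rfl <;> assumption
  by_cases hxv : x = v
  · subst hxv
    exact key y hy hxy.symm hL
  by_cases hyv : y = v
  · subst hyv
    rw [dsq_comm, key x hx hxv (l3_symm hL), dsq_comm]
  have hx' : x ∈ W.erase v := mem_erase.2 ⟨hxv, hx⟩
  have hy' : y ∈ W.erase v := mem_erase.2 ⟨hyv, hy⟩
  rcases deg3_cases hE hM hD with hMT | ⟨X, Y, Z, hB⟩
  · exact ihN _ hlt _ hTG hMT q hqT x hx' y hy' (l3_erase hE hD hx' hy' hL)
  · have hsub : ∀ X : Finset α, X ⊆ W.erase v → Eqv ((tri E a b c).filter (· ⊆ X)) p q :=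
      fun X hX u w huw => hqT u w (mem_filter.2 ⟨(mem_filter.1 huw).1,
        (mem_filter.1 huw).2.trans hX⟩)
    have hc : ∀ X : Finset α, X ⊆ W.erase v → X.card < W.card := fun X hX =>
      (card_le_card hX).trans_lt hlt
    rcases l3_bodies hE hD hB hx' hy' hL with ⟨h1, h2, h3⟩ | ⟨h1, h2, h3⟩ | ⟨h1, h2, h3⟩
    · exact ihN X (hc X hB.XW) _ hTG hB.mX q (hsub X hB.XW) x h1 y h2 h3
    · exact ihN Y (hc Y hB.YW) _ hTG hB.mY q (hsub Y hB.YW) x h1 y h2 h3
    · exact ihN Z (hc Z hB.ZW) _ hTG hB.mZ q (hsub Z hB.ZW) x h1 y h2 h3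

theorem global_link {p : Cfg α} (hp : Gen p) : ∀ (N : ℕ) (W : Finset α), W.card = N →
    ∀ (M : ℕ) (E : Finset (Finset α)), (E.filter (· ⊆ W)).card = M → IsG E → MCon E W →
    ∀ q : Cfg α, Eqv (E.filter (· ⊆ W)) p q → ∀ x ∈ W, ∀ y ∈ W, L3 E W x y →
      dsq (p x) (p y) = dsq (q x) (q y) := by
  intro N
  induction N using Nat.strong_induction_on with
  | _ N ihN0 =>
  intro W hW M
  have ihN : ∀ W' : Finset α, W'.card < W.card → ∀ E : Finset (Finset α), IsG E → MCon E W' →
      ∀ q : Cfg α, Eqv (E.filter (· ⊆ W')) p q → ∀ x ∈ W', ∀ y ∈ W', L3 E W' x y →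
        dsq (p x) (p y) = dsq (q x) (q y) := fun W' h E hE hM q hq x hx y hy hL =>
    ihN0 W'.card (hW ▸ h) W' rfl _ E rfl hE hM q hq x hx y hy hL
  induction M using Nat.strong_induction_on with
  | _ M ihM =>
  intro E hEM hE hMC q hq x hx y hy hL
  by_cases hxy : x = y
  · subst hxy
    rw [dsq_self, dsq_self]
  have h2 : 2 ≤ W.card := by
    rw [← card_pair hxy]
    exact card_le_card (insert_subset hx (singleton_subset_iff.2 hy))
  by_cases h3 : W.card = 2
  · have hWE := mcon_two hE hMC h3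
    have hWxy : ({x, y} : Finset α) = W :=
      eq_of_subset_of_card_le (insert_subset hx (singleton_subset_iff.2 hy))
        (by rw [card_pair hxy, h3])
    exact hq x y (mem_filter.2 ⟨hWxy ▸ hWE, hWxy.le⟩)
  have h3' : 3 ≤ W.card := by omega
  by_cases hdel : ∃ e ∈ E, e ⊆ W ∧ MCon (E.erase e) W
  · obtain ⟨e, heE, heW, hMe⟩ := hdel
    obtain ⟨a, b, hab, rfl⟩ := card_eq_two.1 (hE e heE)
    have hHG : IsG (E.erase {a, b}) := fun f hf => hE f (mem_of_mem_erase hf)
    have haW : a ∈ W := heW (by simp)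
    have hbW : b ∈ W := heW (by simp)
    have hqH : Eqv ((E.erase {a, b}).filter (· ⊆ W)) p q := fun u v huv =>
      hq u v (mem_filter.2 ⟨mem_of_mem_erase (mem_filter.1 huv).1, (mem_filter.1 huv).2⟩)
    have hlt : ((E.erase {a, b}).filter (· ⊆ W)).card < M := by
      rw [← hEM]
      apply card_lt_card
      rw [Finset.ssubset_iff_of_subset (filter_subset_filter _ (erase_subset _ _))]
      exact ⟨{a, b}, mem_filter.2 ⟨heE, heW⟩, fun h => by simp at h⟩
    refine case_edge hp h3' ihN hHG hab haW hbW hMe hqH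
      (hq a b (mem_filter.2 ⟨heE, heW⟩)) (fun x hx y hy hL =>
        ihM _ hlt (E.erase {a, b}) rfl hHG hMe q hqH x hx y hy hL) hx hy ?_
    rwa [insert_erase heE]
  · push Not at hdel
    obtain ⟨v, hv, hdeg⟩ := removable hE hMC h3' hdel
    obtain ⟨a, b, c, hD⟩ := exists_deg3 hE hv hdeg
    exact case_vertex hp ihN hE hMC hq hD hx hy hxy hL

end Pool.Agent.GRB
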