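import Pool.Agent.GRB.Defs

/-!
# GRB/Hen: Henneberg lemmas for sparse sets

PROOF of `sparse_low`. Let `X` be the union of the members of `I` (`2 ≤ |X|`). All members are inside `X`, so
`|I| + 3 ≤ 2|X|`; `Σ_{v ∈ X} deg v = 2|I| ≤ 4|X| - 6`, so some `v ∈ X` has `deg v ≤ 3`, and `1 ≤ deg v`.

PROOF of `sparse_inv`. `I' = I.filter (v ∉ ·)` is sparse, so `Indep I'` (`GRA.sparse_indep`), and for a family of
pairs `kk I' X = w X - |{e ∈ I' : e ⊆ X}|` (`GRA.sIn_card`). Suppose the claim fails. Then for each of the three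
pairs `f ⊆ {a,b,c}` there is a rigid set (`Rig I'`) containing `f`: `f` itself if `f ∈ I'` (`Indep.rig`); otherwise
`f ∉ I` (`v ∉ f`), so `insert f I'` is not sparse, and a violating set `X` satisfies `f ⊆ X`, `kk I' X ≤ 0`,
so it is rigid. By `GRA.Rig.triangle` the union `U` of the three rigid sets is rigid: `|{e ∈ I' : e ⊆ U}| + 3 = 2|U|`.
(`v ∉ U` may be assumed: no member of `I'` contains `v`; if `v ∈ U` then `U \ {v}` contains as many members, which
contradicts sparsity, `|U \ {v}| ≥ 3`.) Then `U ∪ {v}` contains three more members of `I`: `{v,a}, {v,b}, {v,c}`,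
so `2|U| + 3 ≤ ... ≤ 2(|U|+1)`, contradiction.
-/

namespace Pool.Agent.GRB

open Finset Pool.Agent.GRA

variable {α : Type} [DecidableEq α] [Fintype α]

omit [DecidableEq α] [Fintype α] in
private theorem hen_aux_card {α : Type} [DecidableEq α] {I J : Finset (Finset α)} (h : J ⊆ I)
    (X : Finset α) : (J.filter (fun e => e ⊆ X)).card ≤ (I.filter (fun e => e ⊆ X)).card :=
  card_le_card (filter_subset_filter _ h)

theorem sparse_mono {I J : Finset (Finset α)} (h : J ⊆ I) (hs : Sparse I) : Sparse J := by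
  intro X hX
  have h1 := hs X hX
  have h2 := hen_aux_card h X
  omega

private theorem hen_sIn_card {I : Finset (Finset α)} (hI : IsG I) (X : Finset α) :
    sIn I X = ((I.filter (fun e => e ⊆ X)).card : ℤ) := by
  unfold sIn
  have h1 : ∀ e ∈ I.filter (fun e => e ⊆ X), w e = 1 := by
    intro e he
    unfold w
    rw [hI e (mem_filter.1 he).1]
    norm_num
  rw [sum_congr rfl h1]
  simp

private theorem hen_rig {I : Finset (Finset α)} (hI : IsG I) {X : Finset α} (h2 : 2 ≤ X.card)
    (h : (I.filter (fun e => e ⊆ X)).card + 3 = 2 * X.card) : Rig I X := by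
  refine ⟨h2, ?_⟩
  unfold kk
  rw [hen_sIn_card hI]
  unfold w
  have h3 : ((I.filter (fun e => e ⊆ X)).card : ℤ) + 3 = 2 * (X.card : ℤ) := by exact_mod_cast h
  linarith

private theorem hen_of_rig {I : Finset (Finset α)} (hI : IsG I) {X : Finset α} (h : Rig I X) :
    (I.filter (fun e => e ⊆ X)).card + 3 = 2 * X.card := by
  have h1 := h.2
  unfold kk at h1
  rw [hen_sIn_card hI] at h1
  unfold w at h1
  have h3 : ((I.filter (fun e => e ⊆ X)).card : ℤ) + 3 = 2 * (X.card : ℤ) := by linarith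
  exact_mod_cast h3

theorem sparse_low {I : Finset (Finset α)} (hI : IsG I) (hs : Sparse I) (hne : I.Nonempty) :
    ∃ v, 1 ≤ (I.filter (v ∈ ·)).card ∧ (I.filter (v ∈ ·)).card ≤ 3 := by
  obtain ⟨e₀, he₀⟩ := hne
  let X : Finset α := I.biUnion id
  have hX : ∀ e ∈ I, e ⊆ X := fun e he => subset_biUnion_of_mem id he
  have h2 : 2 ≤ X.card := by
    rw [← hI e₀ he₀]
    exact card_le_card (hX e₀ he₀)
  have h3 := hs X h2
  rw [filter_true_of_mem hX] at h3
  have h4 : ∑ v ∈ X, (I.filter (v ∈ ·)).card = ∑ e ∈ I, (X.filter (· ∈ e)).card := by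
    have := sum_card_bipartiteAbove_eq_sum_card_bipartiteBelow (s := X) (t := I)
      (fun v e => v ∈ e)
    exact this
  have h5 : ∑ e ∈ I, (X.filter (· ∈ e)).card = 2 * I.card := by
    rw [sum_congr rfl (g := fun _ => 2), sum_const, smul_eq_mul, mul_comm]
    intro e he
    have h6 : X.filter (· ∈ e) = e := by
      ext y
      rw [mem_filter]
      exact ⟨fun h => h.2, fun h => ⟨hX e he h, h⟩⟩
    rw [h6, hI e he]
  by_contra hcon
  push Not at hcon
  have h6 : ∀ v ∈ X, 4 ≤ (I.filter (v ∈ ·)).card := by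
    intro v hv
    obtain ⟨e, he, hve⟩ := mem_biUnion.1 hv
    have h7 : 1 ≤ (I.filter (v ∈ ·)).card := card_pos.2 ⟨e, mem_filter.2 ⟨he, hve⟩⟩
    have h8 := hcon v h7
    omega
  have h7 : 4 * X.card ≤ ∑ v ∈ X, (I.filter (v ∈ ·)).card := by
    have := card_nsmul_le_sum X (fun v => (I.filter (v ∈ ·)).card) 4 h6
    rw [smul_eq_mul] at this
    linarith
  omega

theorem sparse_inv {I : Finset (Finset α)} (hI : IsG I) (hs : Sparse I) {v a b c : α}
    (hab : a ≠ b) (hac : a ≠ c) (hbc : b ≠ c) (hva : ({v, a} : Finset α) ∈ I)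
    (hvb : ({v, b} : Finset α) ∈ I) (hvc : ({v, c} : Finset α) ∈ I) :
    ∃ x y z : α, x ≠ y ∧ x ≠ z ∧ y ≠ z ∧ ({x, y, z} : Finset α) = {a, b, c} ∧
      ({x, y} : Finset α) ∉ I ∧ Sparse (insert {x, y} (I.filter (v ∉ ·))) := by
  have hne : ∀ {x : α}, ({v, x} : Finset α) ∈ I → v ≠ x := by
    rintro x hx rfl
    have := hI _ hx
    simp at this
  have hav := hne hva
  have hbv := hne hvb
  have hcv := hne hvc
  have hIJ : I.filter (v ∉ ·) ⊆ I := filter_subset _ _
  have hJ : IsG (I.filter (v ∉ ·)) := fun e he => hI e (hIJ he)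
  have hJs : Sparse (I.filter (v ∉ ·)) := sparse_mono hIJ hs
  have hJi : Indep (I.filter (v ∉ ·)) := sparse_indep hJ hJs
  by_contra hcon
  push Not at hcon
  have aux : ∀ x y z : α, x ≠ y → x ≠ z → y ≠ z → v ≠ x → v ≠ y →
      ({x, y, z} : Finset α) = {a, b, c} →
      ∃ X, Rig (I.filter (v ∉ ·)) X ∧ x ∈ X ∧ y ∈ X := by
    intro x y z hxy hxz hyz hvx hvy hxyz
    by_cases hm : ({x, y} : Finset α) ∈ I
    · refine ⟨{x, y}, hJi.rig (mem_filter.2 ⟨hm, ?_⟩), by simp, by simp⟩
      simp [hvx, hvy]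
    · have h1 := hcon x y z hxy hxz hyz hxyz hm
      unfold Sparse at h1
      push Not at h1
      obtain ⟨X, hX2, hX⟩ := h1
      have h2 := hJs X hX2
      rw [filter_insert] at hX
      split_ifs at hX with h3
      · have h4 : (insert ({x, y} : Finset α) ((I.filter (v ∉ ·)).filter (fun e => e ⊆ X))).card ≤
            ((I.filter (v ∉ ·)).filter (fun e => e ⊆ X)).card + 1 := card_insert_le _ _
        rw [pair_subset] at h3
        exact ⟨X, hen_rig hJ hX2 (by omega), h3.1, h3.2⟩
      · omega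
  obtain ⟨X, hX, haX, hbX⟩ := aux a b c hab hac hbc hav hbv rfl
  obtain ⟨Y, hY, hbY, hcY⟩ := aux b c a hbc hab.symm hac.symm hbv hcv (by
    ext t; simp only [mem_insert, mem_singleton]; tauto)
  obtain ⟨Z, hZ, haZ, hcZ⟩ := aux a c b hac hab hbc.symm hav hcv (by
    ext t; simp only [mem_insert, mem_singleton]; tauto)
  have hU : Rig (I.filter (v ∉ ·)) (X ∪ Y ∪ Z) :=
    Rig.triangle hJi hX hY hZ hab hac hbc haX hbX hbY hcY hcZ haZ
  obtain ⟨U, hUe⟩ : ∃ U, U = X ∪ Y ∪ Z := ⟨_, rfl⟩
  rw [← hUe] at hU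
  have haU : a ∈ U := by rw [hUe]; simp [haX]
  have hbU : b ∈ U := by rw [hUe]; simp [hbX]
  have hcU : c ∈ U := by rw [hUe]; simp [hcY]
  have h1 := hen_of_rig hJ hU
  have h3 : 3 ≤ (U.erase v).card := by
    have h4 : ({a, b, c} : Finset α) ⊆ U.erase v := by
      intro t ht
      simp only [mem_insert, mem_singleton] at ht
      rcases ht with rfl | rfl | rfl
      · exact mem_erase.2 ⟨hav.symm, haU⟩
      · exact mem_erase.2 ⟨hbv.symm, hbU⟩
      · exact mem_erase.2 ⟨hcv.symm, hcU⟩
    have h5 : ({a, b, c} : Finset α).card = 3 := card_eq_three.2 ⟨a, b, c, hab, hac, hbc, rfl⟩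
    rw [← h5]
    exact card_le_card h4
  have hvU : v ∉ U := by
    intro hv
    have h4 := hJs (U.erase v) (by omega)
    have h5 : (I.filter (v ∉ ·)).filter (fun e => e ⊆ U.erase v) =
        (I.filter (v ∉ ·)).filter (fun e => e ⊆ U) := by
      ext e
      simp only [mem_filter]
      constructor
      · rintro ⟨⟨h6, h7⟩, h8⟩
        exact ⟨⟨h6, h7⟩, h8.trans (erase_subset _ _)⟩
      · rintro ⟨⟨h6, h7⟩, h8⟩
        exact ⟨⟨h6, h7⟩, fun t ht => mem_erase.2 ⟨fun h => h7 (h ▸ ht), h8 ht⟩⟩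
    have h6 : (U.erase v).card + 1 = U.card := card_erase_add_one hv
    rw [h5] at h4
    omega
  rw [erase_eq_of_notMem hvU] at h3
  have h4 := hs (insert v U) (by rw [card_insert_of_notMem hvU]; omega)
  rw [card_insert_of_notMem hvU] at h4
  let T : Finset (Finset α) := {{v, a}, {v, b}, {v, c}}
  have hT : T.card = 3 := by
    refine card_eq_three.2 ⟨_, _, _, ?_, ?_, ?_, rfl⟩
    · intro h
      have : a ∈ ({v, b} : Finset α) := h ▸ (by simp)
      simp only [mem_insert, mem_singleton] at this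
      rcases this with h | h
      · exact hav h.symm
      · exact hab h
    · intro h
      have : a ∈ ({v, c} : Finset α) := h ▸ (by simp)
      simp only [mem_insert, mem_singleton] at this
      rcases this with h | h
      · exact hav h.symm
      · exact hac h
    · intro h
      have : b ∈ ({v, c} : Finset α) := h ▸ (by simp)
      simp only [mem_insert, mem_singleton] at this
      rcases this with h | h
      · exact hbv h.symm
      · exact hbc h
  have hd : Disjoint ((I.filter (v ∉ ·)).filter (fun e => e ⊆ U)) T := by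
    rw [disjoint_left]
    intro e he heT
    have h5 := (mem_filter.1 (mem_filter.1 he).1).2
    apply h5
    simp only [T, mem_insert, mem_singleton] at heT
    rcases heT with rfl | rfl | rfl <;> simp
  have hsub : ((I.filter (v ∉ ·)).filter (fun e => e ⊆ U)) ∪ T ⊆
      I.filter (fun e => e ⊆ insert v U) := by
    intro e he
    rcases mem_union.1 he with he | he
    · have h5 := mem_filter.1 he
      exact mem_filter.2 ⟨(mem_filter.1 h5.1).1, h5.2.trans (subset_insert _ _)⟩
    · simp only [T, mem_insert, mem_singleton] at he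
      rcases he with rfl | rfl | rfl
      · exact mem_filter.2 ⟨hva, pair_subset.2 ⟨mem_insert_self _ _, mem_insert_of_mem haU⟩⟩
      · exact mem_filter.2 ⟨hvb, pair_subset.2 ⟨mem_insert_self _ _, mem_insert_of_mem hbU⟩⟩
      · exact mem_filter.2 ⟨hvc, pair_subset.2 ⟨mem_insert_self _ _, mem_insert_of_mem hcU⟩⟩
  have h5 := card_le_card hsub
  rw [card_union_of_disjoint hd, hT] at h5
  omega

end Pool.Agent.GRB
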