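import Pool.Agent.GRB.Row

/-!
# GRB/Ker2: the pinned kernel of a graph with `2n - 4` members

PROOF of `ker_line`. `B.card + 4 = 2 * card α`: the annihilator `K` of the rows has dimension 4 and contains
`t0, t1, r`. `{c,d} ∈ B` gives `(q c - q d) · (u c - u d) = 0` for `u ∈ K`. For `u ∈ K` there are `A, B, C` such that
`u - A t0 - B t1 - C r` vanishes at `c` and `d` (choose `A, B, C` such that it vanishes at `c` and the difference
`u c - u d` is a multiple of the rotated `q c - q d`). So the map `K → ` values at `(c, d)` has rank 3 and the kernel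
is one-dimensional: two elements `u, u'` of `K` that vanish at `c` and `d` are proportional, and there is a
nonzero one.

`ker_exists`: `u c = u d = 0` and orthogonality to the rows of `B.erase {c,d}` are `4 + (2n - 5) < 2n` linear conditions;
the condition for `{c,d}` is then automatic.
-/

namespace Pool.Agent.GRB

open Finset Pool.Agent.GRA

variable {α : Type} [DecidableEq α] [Fintype α]

private theorem ker2_pair {B : Finset (Finset α)} (hB : IsG B) (q v : Cfg α)
    (hv : ∀ a b : α, (q a 0 - q b 0) * (v a 0 - v b 0) + (q a 1 - q b 1) * (v a 1 - v b 1) = 0) :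
    ∀ e ∈ B, ip (row q e) v = 0 := by
  intro e he
  obtain ⟨a, b, -, rfl⟩ := Finset.card_eq_two.1 (hB e he)
  rw [ip_row]
  exact hv a b

theorem ker_line {B : Finset (Finset α)} (hB : IsG B) (hcard : B.card + 4 = 2 * Fintype.card α)
    {q : Cfg α} (hli : RowInd B q) {c d : α} (hcd : q c ≠ q d) (hmem : ({c, d} : Finset α) ∈ B)
    {u u' : Cfg α} (hu : ∀ e ∈ B, ip (row q e) u = 0) (huc : u c = 0) (hud : u d = 0)
    (hu' : ∀ e ∈ B, ip (row q e) u' = 0) (huc' : u' c = 0) (hud' : u' d = 0) (h0 : u' ≠ 0) :
    ∃ r : ℝ, u = r • u' := by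
  classical
  let f : Cfg α →ₗ[ℝ] ({e // e ∈ B} → ℝ) :=
    { toFun := fun w e => ip (row q e.1) w
      map_add' := by
        intro w w'
        funext e
        simp only [ip_add_right, Pi.add_apply]
      map_smul' := by
        intro r w
        funext e
        simp only [ip_smul_right, Pi.smul_apply, smul_eq_mul, RingHom.id_apply] }
  obtain ⟨g, hg⟩ := exists_dual hli
  have hsurj : Function.Surjective f := by
    intro z
    refine ⟨∑ e : {e // e ∈ B}, z e • g e, ?_⟩
    funext e
    change ip (row q e.1) _ = z e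
    rw [ip_comm, ip_sum_left]
    rw [Finset.sum_eq_single e]
    · rw [ip_smul_left, ip_comm, hg e e]
      simp
    · intro b _ hb
      rw [ip_smul_left, ip_comm, hg e b, if_neg (Ne.symm hb)]
      simp
    · intro h
      exact absurd (Finset.mem_univ _) h
  have hdim : Module.finrank ℝ (LinearMap.ker f) = 4 := by
    have h1 := LinearMap.finrank_range_add_finrank_ker f
    rw [LinearMap.range_eq_top.2 hsurj, finrank_top] at h1
    rw [Module.finrank_pi, Module.finrank_pi_fintype] at h1
    simp at h1
    omega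
  have hk : ∀ v : Cfg α, (∀ e ∈ B, ip (row q e) v = 0) → v ∈ LinearMap.ker f := by
    intro v hv
    rw [LinearMap.mem_ker]
    funext e
    exact hv e.1 e.2
  let t0 : Cfg α := fun _ => ![1, 0]
  let t1 : Cfg α := fun _ => ![0, 1]
  let r : Cfg α := fun x => ![-(q x 1), q x 0]
  have h0' : t0 ∈ LinearMap.ker f := hk t0 (ker2_pair hB q t0 (by intro a b; simp [t0]))
  have h1' : t1 ∈ LinearMap.ker f := hk t1 (ker2_pair hB q t1 (by intro a b; simp [t1]))
  have h2' : r ∈ LinearMap.ker f := hk r (ker2_pair hB q r (by intro a b; simp [r]; ring))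
  have h3' : u ∈ LinearMap.ker f := hk u hu
  have h4' : u' ∈ LinearMap.ker f := hk u' hu'
  let v : Fin 5 → LinearMap.ker f := ![⟨_, h0'⟩, ⟨_, h1'⟩, ⟨_, h2'⟩, ⟨_, h3'⟩, ⟨_, h4'⟩]
  have hnot : ¬ LinearIndependent ℝ v := by
    intro h
    have := h.fintype_card_le_finrank
    rw [hdim] at this
    simp at this
  rw [Fintype.not_linearIndependent_iff] at hnot
  obtain ⟨k, hk0, i, hi⟩ := hnot
  have hrel : ∀ x, ∀ j : Fin 2,
      k 0 * t0 x j + k 1 * t1 x j + k 2 * r x j + k 3 * u x j + k 4 * u' x j = 0 := by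
    intro x j
    have h := congrArg (fun w : LinearMap.ker f => (w : Cfg α) x j) hk0
    simp [Fin.sum_univ_five, v] at h
    linear_combination h
  have hc0 := hrel c 0
  have hc1 := hrel c 1
  have hd0 := hrel d 0
  have hd1 := hrel d 1
  simp [t0, t1, r, huc, hud, huc', hud'] at hc0 hc1 hd0 hd1
  have hk2 : k 2 = 0 := by
    by_contra hne
    apply hcd
    funext j
    have e0 : k 2 * (q c 0 - q d 0) = 0 := by linear_combination hc1 - hd1
    have e1 : k 2 * (q c 1 - q d 1) = 0 := by linear_combination hd0 - hc0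
    have e0' := (mul_eq_zero.1 e0).resolve_left hne
    have e1' := (mul_eq_zero.1 e1).resolve_left hne
    fin_cases j
    · simpa using sub_eq_zero.1 e0'
    · simpa using sub_eq_zero.1 e1'
  rw [hk2] at hc0 hc1
  have hk0' : k 0 = 0 := by linarith
  have hk1' : k 1 = 0 := by linarith
  have hrel2 : ∀ x, ∀ j : Fin 2, k 3 * u x j + k 4 * u' x j = 0 := by
    intro x j
    have h := hrel x j
    rw [hk0', hk1', hk2] at h
    linear_combination h
  have hk3 : k 3 ≠ 0 := by
    intro h3
    have hk4 : k 4 = 0 := by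
      by_contra hne
      apply h0
      funext x j
      have h := hrel2 x j
      rw [h3] at h
      have h' : k 4 * u' x j = 0 := by linarith
      simpa using (mul_eq_zero.1 h').resolve_left hne
    apply hi
    fin_cases i
    · exact hk0'
    · exact hk1'
    · exact hk2
    · exact h3
    · exact hk4
  refine ⟨-(k 4) / k 3, ?_⟩
  funext x j
  have h := hrel2 x j
  simp only [Pi.smul_apply, smul_eq_mul]
  field_simp
  linear_combination h

theorem ker_exists {B : Finset (Finset α)} (hB : IsG B) (hcard : B.card + 4 = 2 * Fintype.card α)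
    {q : Cfg α} {c d : α} (hmem : ({c, d} : Finset α) ∈ B) :
    ∃ u : Cfg α, u ≠ 0 ∧ (∀ e ∈ B, ip (row q e) u = 0) ∧ u c = 0 ∧ u d = 0 := by
  classical
  let f : Cfg α →ₗ[ℝ] (({e // e ∈ B.erase {c, d}} → ℝ) × ((Fin 2 → ℝ) × (Fin 2 → ℝ))) :=
    { toFun := fun w => (fun e => ip (row q e.1) w, (w c, w d))
      map_add' := by
        intro w w'
        refine Prod.ext ?_ ?_
        · funext e
          simp only [ip_add_right, Pi.add_apply, Prod.fst_add]
        · rfl
      map_smul' := by
        intro r w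
        refine Prod.ext ?_ ?_
        · funext e
          simp only [ip_smul_right, Pi.smul_apply, smul_eq_mul, RingHom.id_apply, Prod.smul_fst]
        · rfl }
  have hpos : 1 ≤ B.card := Finset.card_pos.2 ⟨_, hmem⟩
  have hlt : Module.finrank ℝ (({e // e ∈ B.erase {c, d}} → ℝ) × ((Fin 2 → ℝ) × (Fin 2 → ℝ)))
      < Module.finrank ℝ (Cfg α) := by
    rw [Module.finrank_prod, Module.finrank_prod, Module.finrank_pi, Module.finrank_pi,
      Module.finrank_pi_fintype]
    rw [Fintype.card_coe, Finset.card_erase_of_mem hmem]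
    simp only [Module.finrank_pi, Fintype.card_fin, Finset.sum_const, Finset.card_univ, smul_eq_mul]
    omega
  have hne := LinearMap.ker_ne_bot_of_finrank_lt (f := f) hlt
  obtain ⟨u, hu, hu0⟩ := (Submodule.ne_bot_iff _).1 hne
  rw [LinearMap.mem_ker] at hu
  have h1 : ∀ e ∈ B.erase {c, d}, ip (row q e) u = 0 := by
    intro e he
    exact congrFun (congrArg Prod.fst hu) ⟨e, he⟩
  have h2 : u c = 0 := congrArg (fun z => z.2.1) hu
  have h3 : u d = 0 := congrArg (fun z => z.2.2) hu
  refine ⟨u, hu0, ?_, h2, h3⟩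
  intro e he
  by_cases h : e = {c, d}
  · rw [h, ip_row, h2, h3]
    simp
  · exact h1 e (Finset.mem_erase.2 ⟨h, he⟩)

end Pool.Agent.GRB
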