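import Pool.Agent.GRB.Row

/-!
# GRB/Ker1: kernels of rigidity matrices

PROOF of `ker_pinned`. Consider the space `V` of configurations supported on `W` (dimension `2|W|`). The rows of the
members of `I` are supported on `W` and linearly independent, so their annihilator `K` in `V` has dimension
`2|W| - |I| = 3`. The three vectors (restricted to `W`) `t0 = (1,0)` everywhere, `t1 = (0,1)` everywhere,
`r x = (-(q x 1), q x 0)` are in `K` and linearly independent because `q c ≠ q d`, `c, d ∈ W`. So `u|W` is a linear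
combination `A t0 + B t1 + C r`; `u c = u d = 0` gives `C (q c - q d) = 0` (rotated), `C = 0`, `A = B = 0`.
-/

namespace Pool.Agent.GRB

open Finset Pool.Agent.GRA

variable {α : Type} [DecidableEq α] [Fintype α]

omit [Fintype α] in
private theorem ext_row {I : Finset (Finset α)} {W : Finset α} (hIW : ∀ e ∈ I, e ⊆ W)
    [Fintype α] (q : Cfg α) {e : Finset α} (he : e ∈ I) (u : Cfg α) :
    ip (row q e) (fun x => if h : x ∈ W then (fun y : {y // y ∈ W} => u y.1) ⟨x, h⟩ else 0) =
      ip (row q e) u := by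
  unfold ip
  refine Finset.sum_congr rfl fun x _ => ?_
  by_cases hx : x ∈ W
  · simp [hx]
  · have : row q e x = 0 := row_supp q (fun h => hx (hIW e he h))
    simp [this]

theorem ker_pinned {I : Finset (Finset α)} (hI : IsG I) {W : Finset α} (hIW : ∀ e ∈ I, e ⊆ W)
    (hcard : I.card + 3 = 2 * W.card) {q : Cfg α} (hli : RowInd I q) {u : Cfg α}
    (hu : ∀ e ∈ I, ip (row q e) u = 0) {c d : α} (hc : c ∈ W) (hd : d ∈ W) (hcd : q c ≠ q d)
    (huc : u c = 0) (hud : u d = 0) : ∀ x ∈ W, u x = 0 := by
  classical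
  let ext : ({x // x ∈ W} → Fin 2 → ℝ) → Cfg α := fun w x => if h : x ∈ W then w ⟨x, h⟩ else 0
  have ext_add : ∀ w w', ext (w + w') = ext w + ext w' := by
    intro w w'
    funext x
    by_cases hx : x ∈ W <;> simp [ext, hx]
  have ext_smul : ∀ (r : ℝ) w, ext (r • w) = r • ext w := by
    intro r w
    funext x
    by_cases hx : x ∈ W <;> simp [ext, hx]
  let f : ({x // x ∈ W} → Fin 2 → ℝ) →ₗ[ℝ] ({e // e ∈ I} → ℝ) :=
    { toFun := fun w e => ip (row q e.1) (ext w)
      map_add' := by
        intro w w'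
        funext e
        simp only [ext_add, ip_add_right, Pi.add_apply]
      map_smul' := by
        intro r w
        funext e
        simp only [ext_smul, ip_smul_right, Pi.smul_apply, smul_eq_mul, RingHom.id_apply] }
  have hf : ∀ (u : Cfg α) (e : {e // e ∈ I}), f (fun y => u y.1) e = ip (row q e.1) u := by
    intro u e
    exact ext_row hIW q e.2 u
  obtain ⟨g, hg⟩ := exists_dual hli
  have hsurj : Function.Surjective f := by
    intro z
    refine ⟨fun y => (∑ e : {e // e ∈ I}, z e • g e) y.1, ?_⟩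
    funext e
    rw [hf, ip_comm, ip_sum_left]
    rw [Finset.sum_eq_single e]
    · rw [ip_smul_left, ip_comm, hg e e]
      simp
    · intro b _ hb
      rw [ip_smul_left, ip_comm, hg e b, if_neg (Ne.symm hb)]
      simp
    · intro h
      exact absurd (Finset.mem_univ _) h
  have hdim : Module.finrank ℝ (LinearMap.ker f) = 3 := by
    have h1 := LinearMap.finrank_range_add_finrank_ker f
    rw [LinearMap.range_eq_top.2 hsurj, finrank_top] at h1
    rw [Module.finrank_pi, Module.finrank_pi_fintype] at h1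
    simp at h1
    omega
  have hk : ∀ v : Cfg α, (∀ e ∈ I, ip (row q e) v = 0) →
      (fun y : {y // y ∈ W} => v y.1) ∈ LinearMap.ker f := by
    intro v hv
    rw [LinearMap.mem_ker]
    funext e
    rw [hf]
    exact hv e.1 e.2
  have hpair : ∀ v : Cfg α, (∀ a b : α, (q a 0 - q b 0) * (v a 0 - v b 0) +
      (q a 1 - q b 1) * (v a 1 - v b 1) = 0) → ∀ e ∈ I, ip (row q e) v = 0 := by
    intro v hv e he
    obtain ⟨a, b, -, rfl⟩ := Finset.card_eq_two.1 (hI e he)
    rw [ip_row]
    exact hv a b
  let t0 : Cfg α := fun _ => ![1, 0]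
  let t1 : Cfg α := fun _ => ![0, 1]
  let r : Cfg α := fun x => ![-(q x 1), q x 0]
  have h0 : (fun y : {y // y ∈ W} => t0 y.1) ∈ LinearMap.ker f :=
    hk t0 (hpair t0 (by intro a b; simp [t0]))
  have h1 : (fun y : {y // y ∈ W} => t1 y.1) ∈ LinearMap.ker f :=
    hk t1 (hpair t1 (by intro a b; simp [t1]))
  have h2 : (fun y : {y // y ∈ W} => r y.1) ∈ LinearMap.ker f :=
    hk r (hpair r (by intro a b; simp [r]; ring))
  have h3 : (fun y : {y // y ∈ W} => u y.1) ∈ LinearMap.ker f := hk u hu
  let v : Fin 4 → LinearMap.ker f := ![⟨_, h0⟩, ⟨_, h1⟩, ⟨_, h2⟩, ⟨_, h3⟩]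
  have hnot : ¬ LinearIndependent ℝ v := by
    intro h
    have := h.fintype_card_le_finrank
    rw [hdim] at this
    simp at this
  rw [Fintype.not_linearIndependent_iff] at hnot
  obtain ⟨k, hk0, i, hi⟩ := hnot
  have hrel : ∀ x ∈ W, ∀ j : Fin 2, k 0 * t0 x j + k 1 * t1 x j + k 2 * r x j + k 3 * u x j = 0 := by
    intro x hx j
    have h := congrArg (fun w : LinearMap.ker f => (w : {x // x ∈ W} → Fin 2 → ℝ) ⟨x, hx⟩ j) hk0
    simp [Fin.sum_univ_four, v] at h
    linear_combination h
  have hc0 := hrel c hc 0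
  have hc1 := hrel c hc 1
  have hd0 := hrel d hd 0
  have hd1 := hrel d hd 1
  simp [t0, t1, r, huc, hud] at hc0 hc1 hd0 hd1
  have hk2 : k 2 = 0 := by
    by_contra hne
    apply hcd
    funext j
    have e0 : k 2 * (q c 0 - q d 0) = 0 := by linear_combination hc1 - hd1
    have e1 : k 2 * (q c 1 - q d 1) = 0 := by linear_combination hd0 - hc0
    have e0' := (mul_eq_zero.1 e0).resolve_left hne
    have e1' := (mul_eq_zero.1 e1).resolve_left hne
    fin_cases j
    · simpa using sub_eq_zero.1 e0'
    · simpa using sub_eq_zero.1 e1'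
  rw [hk2] at hc0 hc1
  have hk0' : k 0 = 0 := by linarith
  have hk1' : k 1 = 0 := by linarith
  have hk3 : k 3 ≠ 0 := by
    intro h
    apply hi
    fin_cases i
    · exact hk0'
    · exact hk1'
    · exact hk2
    · exact h
  intro x hx
  funext j
  have h := hrel x hx j
  rw [hk0', hk1', hk2] at h
  simp at h
  simpa using h.resolve_left hk3

end Pool.Agent.GRB
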