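import Pool.Agent.GRB.Deg3

/-!
# GRB/L3A: pairs not separated by two vertices, removal of a vertex of degree three

`E' = tri E a b c`, `W' = W.erase v`. `L3 E W x y` says: no set `L` with `Closed (E.filter (· ⊆ W)) S L`, `|S| ≤ 2`,
`x, y ∉ S`, `x ∈ L`, `y ∉ L` exists.

PROOF of `l3_erase`. Let `L` be closed for `E'` in `W'` and `S`, `x ∈ L`, `y ∉ L`. The vertices of `{a,b,c} \ S` are
pairwise joined in `E'`, so they are all in `L` or all outside `L`. If some is in `L`, `insert v L` (or `L` if `v ∈ S`;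
then replace `S`, no change needed) is closed for `E` in `W` and `S \ {v}`... Precisely: put `S' = S.erase v`
(still `|S'| ≤ 2`, `x, y ∉ S'`), and `L' = insert v (L ∩ W')` in the first case, `L' = L ∩ W'` in the second.
`L'` is closed for `E.filter (· ⊆ W)`, `S'`; contradiction.
PROOF of `l3_vertex`. `u ∈ {a,b,c}`, suppose `L` closed for `E'` in `W'`, `S`, `u ∈ L`, `x ∉ L` (take the complement, or
start from `x`): choose the closed set `L ∋ x`, `u ∉ L` (`L3` is symmetric, `l3_symm`). Then `{a,b,c} \ S` is outside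
`L`, so `L ∩ W'` is closed for `E` in `W` and `S.erase v`, contains `x`, not `v`: contradiction with `L3 E W x v`.
-/

namespace Pool.Agent.GRB

open Finset Pool.Agent.GRA

variable {α : Type} [DecidableEq α] [Fintype α]

theorem l3_symm {E : Finset (Finset α)} {W : Finset α} {x y : α} (h : L3 E W x y) :
    L3 E W y x := by
  intro S hS hy hx L hL hyL
  by_contra hxL
  have h1 : Closed (E.filter (· ⊆ W)) S (univ \ (L ∪ S)) := by
    constructor
    · rw [disjoint_left]
      intro z hz hzS
      simp only [mem_sdiff, mem_univ, true_and, mem_union, not_or] at hz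
      exact hz.2 hzS
    · intro z hz t ht hzt
      simp only [mem_sdiff, mem_univ, true_and, mem_union, not_or] at hz ⊢
      refine ⟨fun htL => hz.1 ?_, ht⟩
      exact hL.2 t htL z hz.2 (by rw [pair_comm]; exact hzt)
  have h2 := h S hS hx hy _ h1 (by
    simp only [mem_sdiff, mem_univ, true_and, mem_union, not_or]
    exact ⟨hxL, hx⟩)
  simp only [mem_sdiff, mem_univ, true_and, mem_union, not_or] at h2
  exact h2.1 hyL

private theorem tri_mem {E : Finset (Finset α)} {a b c s t : α} (hs : s = a ∨ s = b ∨ s = c)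
    (ht : t = a ∨ t = b ∨ t = c) (hst : s ≠ t) : ({s, t} : Finset α) ∈ tri E a b c := by
  apply mem_union_right
  simp only [mem_insert, mem_singleton]
  rcases hs with rfl | rfl | rfl <;> rcases ht with rfl | rfl | rfl
  · exact absurd rfl hst
  · exact Or.inl rfl
  · exact Or.inr (Or.inr rfl)
  · exact Or.inl (pair_comm _ _)
  · exact absurd rfl hst
  · exact Or.inr (Or.inl rfl)
  · exact Or.inr (Or.inr (pair_comm _ _))
  · exact Or.inr (Or.inl (pair_comm _ _))
  · exact absurd rfl hst

private theorem deg3_abc {E : Finset (Finset α)} (hE : IsG E) {W : Finset α} {v a b c : α}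
    (hD : Deg3 E W v a b c) {u : α} (hu : u = a ∨ u = b ∨ u = c) : u ∈ W.erase v := by
  have hne : ∀ {x : α}, ({v, x} : Finset α) ∈ E → x ≠ v := by
    rintro x hx rfl
    have := hE _ hx
    simp at this
  rcases hu with rfl | rfl | rfl
  · exact mem_erase.2 ⟨hne hD.va, hD.aW⟩
  · exact mem_erase.2 ⟨hne hD.vb, hD.bW⟩
  · exact mem_erase.2 ⟨hne hD.vc, hD.cW⟩

/-- a closed set avoiding the three neighbours -/
private theorem closed_low {E : Finset (Finset α)} {W : Finset α} {v a b c : α}
    (hD : Deg3 E W v a b c) {S L : Finset α}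
    (hL : Closed ((tri E a b c).filter (· ⊆ W.erase v)) S L)
    (hn : ∀ u, u = a ∨ u = b ∨ u = c → u ∉ L) :
    Closed (E.filter (· ⊆ W)) (S.erase v) (L.erase v) := by
  constructor
  · exact Disjoint.mono (erase_subset _ _) (erase_subset _ _) hL.1
  · intro z hz t ht hzt
    obtain ⟨hztE, hztW⟩ := mem_filter.1 hzt
    have hzv := (mem_erase.1 hz).1
    have hzL := (mem_erase.1 hz).2
    have hzW : z ∈ W := hztW (by simp)
    have htW : t ∈ W := hztW (by simp)
    have htv : t ≠ v := by
      rintro rfl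
      refine hn z (hD.only z hzW ?_) hzL
      rw [pair_comm]
      exact hztE
    refine mem_erase.2 ⟨htv, hL.2 z hzL t (fun h => ht (mem_erase.2 ⟨htv, h⟩)) ?_⟩
    refine mem_filter.2 ⟨mem_union_left _ hztE, ?_⟩
    exact pair_subset.2 ⟨mem_erase.2 ⟨hzv, hzW⟩, mem_erase.2 ⟨htv, htW⟩⟩

theorem l3_erase {E : Finset (Finset α)} (hE : IsG E) {W : Finset α} {v a b c : α}
    (hD : Deg3 E W v a b c) {x y : α} (hx : x ∈ W.erase v) (hy : y ∈ W.erase v)
    (h : L3 E W x y) : L3 (tri E a b c) (W.erase v) x y := by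
  intro S hS hxS hyS L hL hxL
  have hxv := (mem_erase.1 hx).1
  have hyv := (mem_erase.1 hy).1
  have hS' : (S.erase v).card ≤ 2 := (card_le_card (erase_subset _ _)).trans hS
  have hxS' : x ∉ S.erase v := fun h => hxS (mem_of_mem_erase h)
  have hyS' : y ∉ S.erase v := fun h => hyS (mem_of_mem_erase h)
  by_cases hc : ∃ u, (u = a ∨ u = b ∨ u = c) ∧ u ∈ L
  · obtain ⟨u, hu, huL⟩ := hc
    have hall : ∀ u', (u' = a ∨ u' = b ∨ u' = c) → u' ∉ S → u' ∈ L := by
      intro u' hu' hu'S
      by_cases huu : u = u'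
      · exact huu ▸ huL
      · refine hL.2 u huL u' hu'S (mem_filter.2 ⟨tri_mem hu hu' huu, ?_⟩)
        exact pair_subset.2 ⟨deg3_abc hE hD hu, deg3_abc hE hD hu'⟩
    have hcl : Closed (E.filter (· ⊆ W)) (S.erase v) (insert v L) := by
      constructor
      · rw [disjoint_left]
        intro z hz hzS
        rcases mem_insert.1 hz with rfl | hz
        · exact (mem_erase.1 hzS).1 rfl
        · exact (disjoint_left.1 hL.1) hz (mem_of_mem_erase hzS)
      · intro z hz t ht hzt
        obtain ⟨hztE, hztW⟩ := mem_filter.1 hzt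
        have hzW : z ∈ W := hztW (by simp)
        have htW : t ∈ W := hztW (by simp)
        by_cases htv : t = v
        · exact mem_insert.2 (Or.inl htv)
        have htS : t ∉ S := fun h => ht (mem_erase.2 ⟨htv, h⟩)
        by_cases hzv : z = v
        · rw [hzv] at hztE
          exact mem_insert_of_mem (hall t (hD.only t htW hztE) htS)
        · have hzL : z ∈ L := (mem_insert.1 hz).resolve_left hzv
          refine mem_insert_of_mem (hL.2 z hzL t htS (mem_filter.2 ⟨mem_union_left _ hztE, ?_⟩))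
          exact pair_subset.2 ⟨mem_erase.2 ⟨hzv, hzW⟩, mem_erase.2 ⟨htv, htW⟩⟩
    have h1 := h _ hS' hxS' hyS' _ hcl (mem_insert_of_mem hxL)
    exact (mem_insert.1 h1).resolve_left hyv
  · push Not at hc
    have h1 := h _ hS' hxS' hyS' _ (closed_low hD hL hc) (mem_erase.2 ⟨hxv, hxL⟩)
    exact mem_of_mem_erase h1

theorem l3_vertex {E : Finset (Finset α)} (hE : IsG E) {W : Finset α} {v a b c : α}
    (hD : Deg3 E W v a b c) {x u : α} (hx : x ∈ W.erase v) (hu : u = a ∨ u = b ∨ u = c)
    (h : L3 E W v x) : L3 (tri E a b c) (W.erase v) x u := by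
  intro S hS hxS huS L hL hxL
  by_contra huL
  have hxv := (mem_erase.1 hx).1
  have hS' : (S.erase v).card ≤ 2 := (card_le_card (erase_subset _ _)).trans hS
  have hxS' : x ∉ S.erase v := fun h => hxS (mem_of_mem_erase h)
  have hc : ∀ u', u' = a ∨ u' = b ∨ u' = c → u' ∉ L := by
    intro u' hu' hu'L
    by_cases huu : u' = u
    · exact huL (huu ▸ hu'L)
    · apply huL
      refine hL.2 u' hu'L u huS (mem_filter.2 ⟨tri_mem hu' hu huu, ?_⟩)
      exact pair_subset.2 ⟨deg3_abc hE hD hu', deg3_abc hE hD hu⟩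
  have h1 := l3_symm h _ hS' hxS' (fun h => (mem_erase.1 h).1 rfl) _ (closed_low hD hL hc)
    (mem_erase.2 ⟨hxv, hxL⟩)
  exact (mem_erase.1 h1).1 rfl

end Pool.Agent.GRB
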