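import Pool.Agent.GRB.Fin

/-!
# MP_d7d610_lc: the final theorem for the geometric definition
-/

namespace Pool.Agent.GRB

open Pool.Agent.GRA Pool.Agent.GRA.Stmt Pool.Agent.PT

theorem main : ∃ f : Inst → ℕ × List (ℕ × ℕ),
    Nonempty (Turing.TM2ComputableInPolyTime Inst.encode encodeOut f) ∧
    ∀ x, Solves (fun {n} G => GloballyRigid (n := n) G) x (f x) := by
  obtain ⟨f, h1, h2, -⟩ := Pool.Agent.GRA.main
  refine ⟨f, h1, fun x => ?_⟩
  have h := h2 x
  exact ⟨h.verts, h.len, (geo_comb _).2 h.good, fun F hF => h.least F ((geo_comb _).1 hF)⟩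

end Pool.Agent.GRB
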