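import Pool.Agent.GRB.Mir0
import Pool.Agent.GRB.Row

/-!
# GRB/Mir2: globally rigid generic frameworks are 3-connected

PROOF of `conn_of_rigid`. Suppose `Conn E 2` fails: `S` with `|S| ≤ 2`, `x, y ∉ S`, a set `L`, `Closed E S L`, `x ∈ L`,
`y ∉ L`. Add vertices different from `x, y` to `S` until `|S| = 2` (`n ≥ 4`), replacing `L` by `L \ S`:
`S = {s, t}`. Let `q` be `p` outside `L` and `mir (p s) (p t) (p z)` for `z ∈ L`. `Eqv E p q`: an edge is inside
`L ∪ {s,t}` or inside `univ \ L` (`mir` fixes `p s`, `p t`). But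
`dsq (q x) (q y) - dsq (p x) (p y) = 4 area area / dsq ≠ 0` by `mir_area` and `gen_area`.
-/

namespace Pool.Agent.GRB

open Finset Pool.Agent.GRA

variable {α : Type} [DecidableEq α] [Fintype α]

theorem conn_of_rigid {E : Finset (Finset α)} (hE : IsG E) (hn : 4 ≤ Fintype.card α)
    {p : Cfg α} (hp : Gen p)
    (hg : ∀ q, Eqv E p q → ∀ u v, dsq (p u) (p v) = dsq (q u) (q v)) : Conn E 2 := by
  classical
  intro S0 hS0 x y hxS0 hyS0 L0 hL0 hxL0
  by_contra hyL0
  have hxy : x ≠ y := by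
    rintro rfl
    exact hyL0 hxL0
  have hsub : S0 ⊆ univ \ {x, y} := by
    intro z hz
    rw [mem_sdiff, mem_insert, mem_singleton]
    refine ⟨mem_univ _, ?_⟩
    rintro (rfl | rfl)
    · exact hxS0 hz
    · exact hyS0 hz
  have hcard : 2 ≤ (univ \ {x, y} : Finset α).card := by
    rw [card_sdiff_of_subset (subset_univ _), card_univ, card_pair hxy]
    omega
  obtain ⟨S, hS0S, hSsub, hS2⟩ := exists_subsuperset_card_eq hsub hS0 hcard
  have hxS : x ∉ S := fun h => (mem_sdiff.1 (hSsub h)).2 (mem_insert_self _ _)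
  have hyS : y ∉ S := fun h =>
    (mem_sdiff.1 (hSsub h)).2 (mem_insert_of_mem (mem_singleton_self _))
  obtain ⟨s, t, hst, rfl⟩ := card_eq_two.1 hS2
  obtain ⟨L, hL⟩ : ∃ L : Finset α, ∀ z, z ∈ L ↔ z ∈ L0 ∧ z ≠ s ∧ z ≠ t := by
    refine ⟨L0 \ {s, t}, fun z => ?_⟩
    rw [mem_sdiff, mem_insert, mem_singleton, not_or]
  have hxL : x ∈ L := by
    rw [hL]
    rw [mem_insert, mem_singleton, not_or] at hxS
    exact ⟨hxL0, hxS⟩
  have hyL : y ∉ L := fun h => hyL0 ((hL y).1 h).1
  have hcl : ∀ z ∈ L, ∀ w, w ∉ L → ({z, w} : Finset α) ∈ E → w = s ∨ w = t := by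
    intro z hz w hw hzw
    by_contra hcon
    rw [not_or] at hcon
    apply hw
    rw [hL]
    refine ⟨hL0.2 z ((hL z).1 hz).1 w ?_ hzw, hcon⟩
    intro h
    have := hS0S h
    rw [mem_insert, mem_singleton] at this
    rcases this with h1 | h1
    · exact hcon.1 h1
    · exact hcon.2 h1
  have hne := gen_ne hp hst
  obtain ⟨q, hq⟩ : ∃ q : Cfg α, q = fun z => if z ∈ L then mir (p s) (p t) (p z) else p z :=
    ⟨_, rfl⟩
  have hq1 : ∀ z, z ∈ L → q z = mir (p s) (p t) (p z) := by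
    intro z hz
    rw [hq]
    simp only [if_pos hz]
  have hq2 : ∀ z, z ∉ L → q z = p z := by
    intro z hz
    rw [hq]
    simp only [if_neg hz]
  have hfix : ∀ w, w = s ∨ w = t → p w = mir (p s) (p t) (p w) := by
    rintro w (rfl | rfl)
    · exact mir_left.symm
    · exact (mir_right hne).symm
  have heqv : Eqv E p q := by
    intro u v huv
    by_cases hu : u ∈ L
    · by_cases hv : v ∈ L
      · rw [hq1 u hu, hq1 v hv, mir_dsq hne]
      · rw [hq1 u hu, hq2 v hv]
        have h1 := hfix v (hcl u hu v hv huv)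
        conv_rhs => rw [h1]
        rw [mir_dsq hne]
    · by_cases hv : v ∈ L
      · rw [hq2 u hu, hq1 v hv]
        rw [pair_comm] at huv
        have h1 := hfix u (hcl v hv u hu huv)
        conv_rhs => rw [h1]
        rw [mir_dsq hne]
      · rw [hq2 u hu, hq2 v hv]
  have h1 := hg q heqv y x
  rw [hq2 y hyL, hq1 x hxL] at h1
  have h2 := mir_area hne (p y) (p x)
  rw [← h1, sub_self] at h2
  rw [mem_insert, mem_singleton, not_or] at hxS hyS
  have ha1 := gen_area hp hst (fun h => hyS.1 h.symm) (fun h => hyS.2 h.symm)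
  have ha2 := gen_area hp hst (fun h => hxS.1 h.symm) (fun h => hxS.2 h.symm)
  have hd : dsq (p s) (p t) ≠ 0 := fun h => hne (dsq_eq_zero.1 h)
  have h3 : 4 * area (p s) (p t) (p y) * area (p s) (p t) (p x) / dsq (p s) (p t) ≠ 0 :=
    div_ne_zero (mul_ne_zero (mul_ne_zero (by norm_num) ha1) ha2) hd
  exact h3 h2.symm

end Pool.Agent.GRB
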