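import Pool.Agent.GRB.RowA

/-!
# GRB/Mir0: mirror images

All statements are identities in coordinates (`dsq a b ≠ 0`). `two_points`: two circles with different centres `a, b`
meet in at most two points, mirror images of each other: with `x - y` and `x - mir a b y`: from
`|x-a|² = |y-a|²`, `|x-b|² = |y-b|²` one gets `(x-y)·(b-a) = 0` and `area a b x = ± area a b y`.
-/

namespace Pool.Agent.GRB

private theorem dpos {a b : Fin 2 → ℝ} (h : a ≠ b) : dsq a b ≠ 0 := fun h0 => h (dsq_eq_zero.1 h0)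

private theorem dexp (a b : Fin 2 → ℝ) : dsq a b = (b 0 - a 0) ^ 2 + (b 1 - a 1) ^ 2 := by
  unfold dsq; ring

private theorem mir0 (a b x : Fin 2 → ℝ) : mir a b x 0 = a 0 +
    (((b 0 - a 0) ^ 2 - (b 1 - a 1) ^ 2) / dsq a b * (x 0 - a 0) +
      2 * (b 0 - a 0) * (b 1 - a 1) / dsq a b * (x 1 - a 1)) := rfl

private theorem mir1 (a b x : Fin 2 → ℝ) : mir a b x 1 = a 1 +
    (2 * (b 0 - a 0) * (b 1 - a 1) / dsq a b * (x 0 - a 0) -
      ((b 0 - a 0) ^ 2 - (b 1 - a 1) ^ 2) / dsq a b * (x 1 - a 1)) := rfl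

theorem mir_eq {a b : Fin 2 → ℝ} (h : a ≠ b) : ∃ r s : ℝ, r ^ 2 + s ^ 2 = 1 ∧
    ∀ x, mir a b x = fun i => a i + refl r s (fun j => x j - a j) i := by
  have hd := dpos h
  refine ⟨((b 0 - a 0) ^ 2 - (b 1 - a 1) ^ 2) / dsq a b,
    2 * (b 0 - a 0) * (b 1 - a 1) / dsq a b, ?_, fun x => rfl⟩
  rw [div_pow, div_pow, ← add_div, div_eq_one_iff_eq (pow_ne_zero 2 hd), dexp]
  ring

theorem mir_dsq {a b : Fin 2 → ℝ} (h : a ≠ b) (x y : Fin 2 → ℝ) :
    dsq (mir a b x) (mir a b y) = dsq x y := by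
  obtain ⟨r, s, hrs, hm⟩ := mir_eq h
  rw [hm x, hm y]
  unfold dsq refl
  simp only [Matrix.cons_val_zero, Matrix.cons_val_one]
  linear_combination ((x 0 - y 0) ^ 2 + (x 1 - y 1) ^ 2) * hrs

theorem mir_mir {a b : Fin 2 → ℝ} (h : a ≠ b) (x : Fin 2 → ℝ) : mir a b (mir a b x) = x := by
  obtain ⟨r, s, hrs, hm⟩ := mir_eq h
  rw [hm (mir a b x), hm x]
  funext i
  fin_cases i
  · simp only [refl, Matrix.cons_val_zero, Matrix.cons_val_one, Fin.zero_eta, Fin.isValue]
    linear_combination (x 0 - a 0) * hrs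
  · simp only [refl, Matrix.cons_val_zero, Matrix.cons_val_one, Fin.mk_one, Fin.isValue]
    linear_combination (x 1 - a 1) * hrs

theorem mir_left {a b : Fin 2 → ℝ} : mir a b a = a := by
  funext i
  fin_cases i
  · show mir a b a 0 = a 0
    rw [mir0]
    ring
  · show mir a b a 1 = a 1
    rw [mir1]
    ring

theorem mir_right {a b : Fin 2 → ℝ} (h : a ≠ b) : mir a b b = b := by
  have hd := dpos h
  have he := dexp a b
  funext i
  fin_cases i
  · show mir a b b 0 = b 0
    rw [mir0]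
    field_simp
    rw [he]
    ring
  · show mir a b b 1 = b 1
    rw [mir1]
    field_simp
    rw [he]
    ring

theorem mir_fix {a b : Fin 2 → ℝ} (h : a ≠ b) {x : Fin 2 → ℝ} (hx : mir a b x = x) :
    area a b x = 0 := by
  have hd := dpos h
  have he := dexp a b
  have h0 := congrFun hx 0
  have h1 := congrFun hx 1
  rw [mir0] at h0
  rw [mir1] at h1
  field_simp at h0 h1
  have h2 : (b 1 - a 1) * area a b x = 0 := by
    unfold area
    rw [he] at h0
    linear_combination h0 / 2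
  have h3 : (b 0 - a 0) * area a b x = 0 := by
    unfold area
    rw [he] at h1
    linear_combination -h1 / 2
  have h4 : dsq a b * area a b x = 0 := by
    rw [he]
    linear_combination (b 1 - a 1) * h2 + (b 0 - a 0) * h3
  exact (mul_eq_zero.1 h4).resolve_left hd

theorem mir_area {a b : Fin 2 → ℝ} (h : a ≠ b) (x y : Fin 2 → ℝ) :
    dsq x (mir a b y) - dsq x y = 4 * area a b x * area a b y / dsq a b := by
  have hd := dpos h
  have he := dexp a b
  obtain ⟨D, hD⟩ : ∃ D, D = dsq a b := ⟨_, rfl⟩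
  have h0 := mir0 a b y
  have h1 := mir1 a b y
  rw [← hD] at hd he h0 h1 ⊢
  have h2 : dsq x (mir a b y) = (x 0 - mir a b y 0) ^ 2 + (x 1 - mir a b y 1) ^ 2 := rfl
  have h3 : dsq x y = (x 0 - y 0) ^ 2 + (x 1 - y 1) ^ 2 := rfl
  rw [h2, h3, h0, h1, eq_div_iff hd]
  unfold area
  field_simp
  rw [he]
  ring

theorem two_points {a b : Fin 2 → ℝ} (h : a ≠ b) {x y : Fin 2 → ℝ} (ha : dsq x a = dsq y a)
    (hb : dsq x b = dsq y b) : x = y ∨ x = mir a b y := by
  have hd := dpos h
  have he := dexp a b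
  obtain ⟨D, hD⟩ : ∃ D, D = dsq a b := ⟨_, rfl⟩
  rw [← hD] at hd he
  unfold dsq at ha hb
  have hdot : (b 0 - a 0) * (x 0 - a 0) + (b 1 - a 1) * (x 1 - a 1) =
      (b 0 - a 0) * (y 0 - a 0) + (b 1 - a 1) * (y 1 - a 1) := by
    linear_combination (ha - hb) / 2
  have hsq : (area a b x - area a b y) * (area a b x + area a b y) = 0 := by
    unfold area
    linear_combination D * ha - ((b 0 - a 0) * (x 0 - a 0) + (b 1 - a 1) * (x 1 - a 1) +
      (b 0 - a 0) * (y 0 - a 0) + (b 1 - a 1) * (y 1 - a 1)) * hdot +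
      ((y 0 - a 0) ^ 2 + (y 1 - a 1) ^ 2 - (x 0 - a 0) ^ 2 - (x 1 - a 1) ^ 2) * he
  rcases mul_eq_zero.1 hsq with h1 | h1
  · left
    unfold area at h1
    funext i
    fin_cases i
    · show x 0 = y 0
      have : D * (x 0 - y 0) = 0 := by
        linear_combination (b 0 - a 0) * hdot - (b 1 - a 1) * h1 + (x 0 - y 0) * he
      exact sub_eq_zero.1 ((mul_eq_zero.1 this).resolve_left hd)
    · show x 1 = y 1
      have : D * (x 1 - y 1) = 0 := by
        linear_combination (b 1 - a 1) * hdot + (b 0 - a 0) * h1 + (x 1 - y 1) * he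
      exact sub_eq_zero.1 ((mul_eq_zero.1 this).resolve_left hd)
  · right
    unfold area at h1
    funext i
    fin_cases i
    · show x 0 = mir a b y 0
      rw [mir0, ← hD]
      field_simp
      linear_combination (b 0 - a 0) * hdot - (b 1 - a 1) * h1 + (x 0 - a 0) * he
    · show x 1 = mir a b y 1
      rw [mir1, ← hD]
      field_simp
      linear_combination (b 1 - a 1) * hdot + (b 0 - a 0) * h1 + (x 1 - a 1) * he

end Pool.Agent.GRB
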