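import Pool.Agent.GRB.Mir0
import Pool.Agent.GRB.Row

/-!
# GRB/Mir1: congruent configurations with two common points

PROOF of `cong_mirror`. For every vertex `x`: `q x = p x` or `q x = mir (p c) (p d) (p x)` (`two_points`). If `q x ≠ p x`
and `q y = p y ≠ mir .. (p y)`, i.e. `x, y ∉ {c,d}`, then
`dsq (mir (p x)) (p y) = dsq (p x) (p y)`, which by `mir_area` gives `area (p c) (p d) (p x) * area (p c) (p d) (p y) = 0`,
contradiction with `gen_area`. So either `q x = p x` for all `x`, or `q x = mir .. (p x)` for all `x ∉ {c,d}`, and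
also for `x = c, d` (`mir` fixes `p c`, `p d`).
-/

namespace Pool.Agent.GRB

open Finset Pool.Agent.GRA

variable {α : Type} [DecidableEq α] [Fintype α]

theorem cong_mirror {p q : Cfg α} (hp : Gen p) {c d : α} (hcd : c ≠ d)
    (hall : ∀ u v, dsq (p u) (p v) = dsq (q u) (q v)) (hc : q c = p c) (hd : q d = p d) :
    q = p ∨ q = fun x => mir (p c) (p d) (p x) := by
  have h := gen_ne hp hcd
  have hx : ∀ x, q x = p x ∨ q x = mir (p c) (p d) (p x) := by
    intro x
    refine two_points h ?_ ?_
    · rw [hall x c, hc]
    · rw [hall x d, hd]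
  by_cases hq : ∀ x, q x = p x
  · exact Or.inl (funext hq)
  · right
    push Not at hq
    obtain ⟨x, hqx⟩ := hq
    have hmx : q x = mir (p c) (p d) (p x) := (hx x).resolve_left hqx
    have hxc : x ≠ c := fun h1 => hqx (by rw [h1, hc])
    have hxd : x ≠ d := fun h1 => hqx (by rw [h1, hd])
    funext y
    rcases hx y with hy | hy
    · by_cases hyc : y = c
      · rw [hyc, hc, mir_left]
      · by_cases hyd : y = d
        · rw [hyd, hd, mir_right h]
        · exfalso
          have h1 := hall y x
          rw [hy, hmx] at h1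
          have h2 := mir_area h (p y) (p x)
          rw [← h1, sub_self] at h2
          have h3 := gen_area hp hcd (Ne.symm hyc) (Ne.symm hyd)
          have h4 := gen_area hp hcd (Ne.symm hxc) (Ne.symm hxd)
          have h5 : dsq (p c) (p d) ≠ 0 := fun h6 => h (dsq_eq_zero.1 h6)
          have h6 : 4 * area (p c) (p d) (p y) * area (p c) (p d) (p x) / dsq (p c) (p d) ≠ 0 :=
            div_ne_zero (mul_ne_zero (mul_ne_zero (by norm_num) h3) h4) h5
          exact h6 h2.symm
    · exact hy

end Pool.Agent.GRB
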