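import Pool.Agent.GRB.RowGen

/-!
# GRB/RowEq: rows at configurations equivalent to a generic one

PROOF of `rows_of_eqv`. The rows of `I` at `p` are independent (`rows_generic`), so there are `g e : Cfg α` with
`ip (row p e) (g f) = if e = f then 1 else 0` (`exists_dual`). Let `δ_f` be a derivation with `δ_f (p x i) = g f x i`
(`exists_der`). Every `e ∈ I` is a pair `{u,v}` and `dsq (p u) (p v) = dsq (q u) (q v)`; apply `δ_f` and
`der_dsq`: `ip (row q e) (δ_f ∘ q) = ip (row p e) (g f)`. So the rows at `q` have a dual family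
(`linInd_of_dual`).
-/

namespace Pool.Agent.GRB

open Finset Pool.Agent.GRA

variable {α : Type} [DecidableEq α] [Fintype α]

theorem rows_of_eqv {I : Finset (Finset α)} (hI : IsG I) (hs : Sparse I) {p q : Cfg α}
    (hp : Gen p) (hq : Eqv I p q) : RowInd I q := by
  classical
  obtain ⟨g, hg⟩ := exists_dual (rows_generic hI hs hp)
  choose δ hδ using fun f : {e // e ∈ I} => exists_der hp (g f)
  refine linInd_of_dual (g := fun f x i => δ f (q x i)) (fun e f => ?_)
  obtain ⟨u, v, huv, he⟩ := Finset.card_eq_two.1 (hI e.1 e.2)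
  have h1 : dsq (p u) (p v) = dsq (q u) (q v) := hq u v (by rw [← he]; exact e.2)
  have h2 := congrArg (δ f) h1
  rw [der_dsq, der_dsq] at h2
  have h3 : (fun x i => δ f (p x i)) = g f := by
    funext x i
    exact hδ f x i
  rw [h3] at h2
  have h4 : ip (row p {u, v}) (g f) = ip (row q {u, v}) (fun x i => δ f (q x i)) :=
    mul_left_cancel₀ two_ne_zero h2
  have h5 := hg e f
  change ip (row p e.1) (g f) = _ at h5
  change ip (row q e.1) (fun x i => δ f (q x i)) = _
  rw [he] at h5 ⊢
  rw [← h4, h5]

end Pool.Agent.GRB
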