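import Pool.Agent.GRB.Field
import Pool.Agent.GRB.Flow
import Pool.Agent.GRB.Dyn
import Pool.Agent.GRB.Cpt
import Pool.Agent.GRB.Mir
import Pool.Agent.GRB.RowEq

/-!
# GRB/Orb: the closed orbit through a generic configuration
-/

namespace Pool.Agent.GRB

open Finset Pool.Agent.GRA

variable {α : Type} [DecidableEq α] [Fintype α]

/-- The pins and the lengths of the members of `B`. -/
def lenMap (B : Finset (Finset α)) (c d : α) (q : Cfg α) :
    (Fin 2 → ℝ) × (Fin 2 → ℝ) × ({e // e ∈ B} → ℝ) :=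
  (q c, q d, fun e => ∑ x ∈ e.1, ∑ y ∈ e.1, dsq (q x) (q y))

theorem lenMap_contDiff (B : Finset (Finset α)) (c d : α) : ContDiff ℝ 1 (lenMap B c d) := by
  unfold lenMap dsq
  fun_prop

theorem len_pair (q : Cfg α) {u v : α} (h : u ≠ v) :
    ∑ x ∈ ({u, v} : Finset α), ∑ y ∈ ({u, v} : Finset α), dsq (q x) (q y) =
      2 * dsq (q u) (q v) := by
  rw [sum_pair h, sum_pair h, sum_pair h, dsq_self, dsq_self, dsq_comm (q v) (q u)]
  ring

theorem lenMap_eq_iff {B : Finset (Finset α)} (hB : IsG B) {c d : α} {q p : Cfg α} :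
    lenMap B c d q = lenMap B c d p ↔ q c = p c ∧ q d = p d ∧ Eqv B q p := by
  unfold lenMap
  simp only [Prod.mk.injEq]
  constructor
  · rintro ⟨h1, h2, h3⟩
    refine ⟨h1, h2, fun u v huv => ?_⟩
    have hne : u ≠ v := by
      rintro rfl
      have := hB _ huv
      simp at this
    have h4 := congrFun h3 ⟨{u, v}, huv⟩
    simp only [len_pair _ hne] at h4
    linarith
  · rintro ⟨h1, h2, h3⟩
    refine ⟨h1, h2, funext fun e => ?_⟩
    obtain ⟨u, v, hne, he⟩ := card_eq_two.1 (hB e.1 e.2)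
    rw [he, len_pair _ hne, len_pair _ hne, h3 u v (he ▸ e.2)]

/-- The derivative of the length map. -/
theorem lenMap_fderiv {B : Finset (Finset α)} (hB : IsG B) {c d : α} (q w : Cfg α) :
    fderiv ℝ (lenMap B c d) q w = (w c, w d, fun e => 4 * ip (row q e.1) w) := by
  have hdiff : DifferentiableAt ℝ (lenMap B c d) q :=
    (lenMap_contDiff B c d).differentiable one_ne_zero q
  have h1 : HasFDerivAt (lenMap B c d) (fderiv ℝ (lenMap B c d) q) q := hdiff.hasFDerivAt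
  have ha : HasFDerivAt (fun q' : Cfg α => q' c)
      ((ContinuousLinearMap.fst ℝ _ _).comp (fderiv ℝ (lenMap B c d) q)) q := h1.fst
  have hb : HasFDerivAt (fun q' : Cfg α => q' d)
      ((ContinuousLinearMap.fst ℝ _ _).comp ((ContinuousLinearMap.snd ℝ _ _).comp
        (fderiv ℝ (lenMap B c d) q))) q := h1.snd.fst
  have hc : HasFDerivAt (fun (q' : Cfg α) (e : {e // e ∈ B}) =>
      ∑ x ∈ e.1, ∑ y ∈ e.1, dsq (q' x) (q' y))
      ((ContinuousLinearMap.snd ℝ _ _).comp ((ContinuousLinearMap.snd ℝ _ _).comp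
        (fderiv ℝ (lenMap B c d) q))) q := h1.snd.snd
  have ha' : HasFDerivAt (fun q' : Cfg α => q' c)
      (ContinuousLinearMap.proj (R := ℝ) (φ := fun _ : α => Fin 2 → ℝ) c) q :=
    (ContinuousLinearMap.proj (R := ℝ) (φ := fun _ : α => Fin 2 → ℝ) c).hasFDerivAt
  have hb' : HasFDerivAt (fun q' : Cfg α => q' d)
      (ContinuousLinearMap.proj (R := ℝ) (φ := fun _ : α => Fin 2 → ℝ) d) q :=
    (ContinuousLinearMap.proj (R := ℝ) (φ := fun _ : α => Fin 2 → ℝ) d).hasFDerivAt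
  have e1 := DFunLike.congr_fun (ha.unique ha') w
  have e2 := DFunLike.congr_fun (hb.unique hb') w
  refine Prod.ext e1 (Prod.ext e2 ?_)
  funext e
  obtain ⟨u, v, hne, he⟩ := card_eq_two.1 (hB e.1 e.2)
  obtain ⟨L, hL, hL'⟩ := hasFDerivAt_dsq q u v
  have h2 : HasFDerivAt (fun q' : Cfg α => ∑ x ∈ e.1, ∑ y ∈ e.1, dsq (q' x) (q' y))
      ((ContinuousLinearMap.proj (R := ℝ) (φ := fun _ : {e // e ∈ B} => ℝ) e).comp
      ((ContinuousLinearMap.snd ℝ _ _).comp ((ContinuousLinearMap.snd ℝ _ _).comp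
        (fderiv ℝ (lenMap B c d) q)))) q := (hasFDerivAt_pi'.1 hc) e
  have h3 : HasFDerivAt (fun q' : Cfg α => ∑ x ∈ e.1, ∑ y ∈ e.1, dsq (q' x) (q' y))
      ((2 : ℝ) • L) q := by
    have h4 := hL'.const_mul (2 : ℝ)
    refine h4.congr_of_eventuallyEq (Filter.Eventually.of_forall fun q' => ?_)
    show ∑ x ∈ e.1, ∑ y ∈ e.1, dsq (q' x) (q' y) = 2 * dsq (q' u) (q' v)
    rw [he, len_pair _ hne]
  have e3 := DFunLike.congr_fun (h2.unique h3) w
  have e4 : ((2 : ℝ) • L) w = 4 * ip (row q e.1) w := by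
    show (2 : ℝ) * L w = _
    rw [hL, he]
    ring
  exact e3.trans e4

/-- The orbit through a generic configuration. -/
theorem exists_orbit {B : Finset (Finset α)} (hB : IsG B) (hs : Sparse B)
    (hcard : B.card + 4 = 2 * Fintype.card α) (hn : 4 ≤ Fintype.card α) {p : Cfg α}
    (hp : Gen p) {c d : α} (hmem : ({c, d} : Finset α) ∈ B) :
    ∃ (X : Cfg α → Cfg α) (γ : ℝ → Cfg α), ContDiff ℝ 1 X ∧ γ 0 = p ∧
      (∀ t, HasDerivAt γ (X (γ t)) t) ∧ (∀ t, γ t c = p c ∧ γ t d = p d) ∧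
      (∀ t, Eqv B p (γ t)) ∧ (∀ t, RowInd B (γ t)) ∧
      (∀ t, ∀ e ∈ B, ip (row (γ t) e) (X (γ t)) = 0) ∧ (∃ T > 0, γ T = γ 0) ∧
      X p ≠ 0 ∧ (X p c = 0 ∧ X p d = 0) ∧
      (∀ (q : Cfg α) (z : Fin 2 → ℝ), X (fun x => q x + z) = X q) ∧
      (∀ r s : ℝ, r ^ 2 + s ^ 2 = 1 →
        (∀ q : Cfg α, X (fun x => refl r s (q x)) = fun x => refl r s (X q x)) ∨
        (∀ q : Cfg α, X (fun x => refl r s (q x)) = fun x => -refl r s (X q x))) := by
  obtain ⟨X, hX1, hX2, hX3, hX4, hX5, hX6⟩ := exists_field hB hcard hmem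
  have hcd : c ≠ d := by
    rintro rfl
    have := hB _ hmem
    simp at this
  have hpcd : p c ≠ p d := gen_ne hp hcd
  have hK : {x | lenMap B c d x = lenMap B c d p} =
      {q : Cfg α | q c = p c ∧ q d = p d ∧ Eqv B q p} := by
    ext q
    exact lenMap_eq_iff hB
  have hcomp : IsCompact {x | lenMap B c d x = lenMap B c d p} := by
    rw [hK]
    exact compact_fibre hB hs hcard (by omega) p c d
  have hfX : ∀ x, fderiv ℝ (lenMap B c d) x (X x) = 0 := by
    intro q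
    rw [lenMap_fderiv hB, (hX2 q).1, (hX2 q).2]
    refine Prod.ext rfl (Prod.ext rfl (funext fun e => ?_))
    show 4 * ip (row q e.1) (X q) = 0
    rw [hX3 q e.1 e.2, mul_zero]
  obtain ⟨γ, hγ0, hγ1, hγ2⟩ := flow_exists hX1
    ((lenMap_contDiff B c d).differentiable one_ne_zero) hfX hcomp
  have hrow : ∀ q, lenMap B c d q = lenMap B c d p → RowInd B q := by
    intro q hq
    obtain ⟨-, -, h3⟩ := (lenMap_eq_iff hB).1 hq
    exact rows_of_eqv hB hs hp fun u v huv => (h3 u v huv).symm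
  have hne : ∀ q, lenMap B c d q = lenMap B c d p → q c ≠ q d := by
    intro q hq
    obtain ⟨h1, h2, -⟩ := (lenMap_eq_iff hB).1 hq
    rw [h1, h2]
    exact hpcd
  have hX0 : ∀ q, lenMap B c d q = lenMap B c d p → X q ≠ 0 := fun q hq =>
    hX4 q (hne q hq) (hrow q hq)
  have hker : ∀ q, lenMap B c d q = lenMap B c d p → ∀ v, fderiv ℝ (lenMap B c d) q v = 0 →
      ∃ r : ℝ, v = r • X q := by
    intro q hq v hv
    rw [lenMap_fderiv hB] at hv
    simp only [Prod.mk_eq_zero] at hv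
    obtain ⟨h1, h2, h3⟩ := hv
    refine ker_line hB hcard (hrow q hq) (hne q hq) hmem (fun e he => ?_) h1 h2
      (hX3 q) (hX2 q).1 (hX2 q).2 (hX0 q hq)
    have h4 := congrFun h3 ⟨e, he⟩
    simp only [Pi.zero_apply] at h4
    linarith
  have hper := per_curve hX1 (lenMap_contDiff B c d) hfX hcomp hX0 hker hγ1 hγ2
  refine ⟨X, γ, hX1, hγ0, hγ1, fun t => ?_, fun t => ?_, fun t => hrow _ (hγ2 t),
    fun t e he => hX3 _ e he, hper, hX0 p rfl, hX2 p, hX5, hX6⟩
  · obtain ⟨h1, h2, -⟩ := (lenMap_eq_iff hB).1 (hγ2 t)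
    exact ⟨h1, h2⟩
  · obtain ⟨-, -, h3⟩ := (lenMap_eq_iff hB).1 (hγ2 t)
    exact fun u v huv => (h3 u v huv).symm

end Pool.Agent.GRB
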