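import Pool.Agent.GRB.Per0
import Pool.Agent.GRB.Flow

/-!
# GRB/Per: one-dimensional compact level sets are closed orbits

PROOF of `per_curve`. By compactness there are `t_k → ∞` with `γ t_k → z`, `f z = f p`. Let `ζ` be an integral curve of
`X` with `ζ 0 = z` on `(-ε, ε)` (Picard-Lindelöf). Let `ℓ` be a linear functional with `ℓ (X z) = 1` and
`Ψ x = (f x, ℓ (x - z))`. `Ψ` is `C¹` and its derivative at `z` is injective (`fderiv f z v = 0` gives `v = r • X z`,
`ℓ v = r`), so `Ψ` is injective on a neighbourhood `N` of `z` (compose with a continuous linear left inverse of the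
derivative and use the inverse function theorem). `ζ s ∈ N` for small `|s|`; `f (ζ s) = f z` (the derivative of
`f ∘ ζ` is zero), and `s ↦ ℓ (ζ s - z)` has derivative 1 at 0, so it takes all values in some `(-η, η)` for `|s| < ε'`
(intermediate value). So every `x ∈ N` with `f x = f p` and `|ℓ (x - z)| < η` is `ζ s` for some `|s| < ε'`. For large
`k`: `γ t_k = ζ s_k`, `|s_k| < ε'`. By uniqueness of integral curves `γ (t_k - s_k) = ζ 0 = z` (the curves
`u ↦ γ (t_k + u)` and `u ↦ ζ (s_k + u)` agree at `u = 0`). Choose `k, l` with `t_l - s_l > t_k - s_k`. Then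
`γ (t_k - s_k) = γ (t_l - s_l)`, and by uniqueness (translate) `γ T = γ 0` with `T = (t_l - s_l) - (t_k - s_k) > 0`.
-/

namespace Pool.Agent.GRB

private theorem per_local {g : ℝ → ℝ} {m : ℝ} (hg : HasDerivAt g m 0) (hm : 0 < m) :
    ∃ δ > 0, (∀ t, 0 < t → t < δ → g 0 < g t) ∧ (∀ t, -δ < t → t < 0 → g t < g 0) := by
  rw [hasDerivAt_iff_tendsto_slope] at hg
  have h1 : ∀ᶠ t in nhdsWithin (0 : ℝ) {0}ᶜ, 0 < slope g 0 t := hg.eventually (lt_mem_nhds hm)
  rw [eventually_nhdsWithin_iff, Metric.eventually_nhds_iff] at h1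
  obtain ⟨δ, hδ, h2⟩ := h1
  refine ⟨δ, hδ, fun t ht ht' => ?_, fun t ht ht' => ?_⟩
  · have h3 := h2 (y := t) (by rw [Real.dist_eq, sub_zero, abs_of_pos ht]; exact ht')
      (by simp [ht.ne'])
    rw [slope_def_field, sub_zero] at h3
    have h4 := (div_pos_iff_of_pos_right ht).1 h3
    linarith
  · have h3 := h2 (y := t) (by rw [Real.dist_eq, sub_zero, abs_of_neg ht']; linarith)
      (by simp [ht'.ne])
    rw [slope_def_field, sub_zero] at h3
    have h4 : g t - g 0 < 0 := by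
      by_contra hcon
      push Not at hcon
      exact absurd h3 (not_lt.2 (div_nonpos_of_nonneg_of_nonpos hcon ht'.le))
    linarith

private theorem per_shift {V : Type} [NormedAddCommGroup V] [NormedSpace ℝ V]
    {X : V → V} {γ : ℝ → V} (hγ : ∀ t, HasDerivAt γ (X (γ t)) t) (a : ℝ) :
    ∀ t, HasDerivAt (fun t => γ (t + a)) (X (γ (t + a))) t := by
  intro t
  exact (hγ (t + a)).comp_add_const t a

/-- `x ↦ (f x, ℓ (x - z))` is injective near `z` -/
private theorem per_inj {V F : Type} [NormedAddCommGroup V] [NormedSpace ℝ V]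
    [FiniteDimensional ℝ V] [NormedAddCommGroup F] [NormedSpace ℝ F] [FiniteDimensional ℝ F]
    {f : V → F} (hf : ContDiff ℝ 1 f) {z : V} {ℓ : V →L[ℝ] ℝ}
    (hinj : ∀ v, fderiv ℝ f z v = 0 → ℓ v = 0 → v = 0) :
    ∃ N : Set V, IsOpen N ∧ z ∈ N ∧ ∀ x ∈ N, ∀ y ∈ N, f x = f y → ℓ (x - z) = ℓ (y - z) →
      x = y := by
  haveI : CompleteSpace V := FiniteDimensional.complete ℝ V
  let Ψ' : V →L[ℝ] F × ℝ := (fderiv ℝ f z).prod ℓ
  have hker : LinearMap.ker Ψ'.toLinearMap = ⊥ := by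
    rw [LinearMap.ker_eq_bot']
    intro v hv
    have h1 : (fderiv ℝ f z v, ℓ v) = (0 : F × ℝ) := hv
    exact hinj v (congrArg Prod.fst h1) (congrArg Prod.snd h1)
  obtain ⟨A, hA⟩ := Ψ'.toLinearMap.exists_leftInverse_of_injective hker
  let A' : F × ℝ →L[ℝ] V := A.toContinuousLinearMap
  have hAΨ : A'.comp Ψ' = ((ContinuousLinearEquiv.refl ℝ V : V ≃L[ℝ] V) : V →L[ℝ] V) := by
    ext v
    exact LinearMap.congr_fun hA v
  have hΨ : HasStrictFDerivAt (fun x => (f x, ℓ (x - z))) Ψ' z := by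
    refine HasStrictFDerivAt.prodMk (hf.contDiffAt.hasStrictFDerivAt one_ne_zero) ?_
    have h1 : HasStrictFDerivAt (fun x : V => ℓ x - ℓ z) ℓ z :=
      ℓ.hasStrictFDerivAt.sub_const (ℓ z)
    have h2 : (fun x : V => ℓ (x - z)) = fun x => ℓ x - ℓ z := by
      funext x
      rw [map_sub]
    rw [h2]
    exact h1
  have hcomp : HasStrictFDerivAt (fun x => A' (f x, ℓ (x - z)))
      ((ContinuousLinearEquiv.refl ℝ V : V ≃L[ℝ] V) : V →L[ℝ] V) z := by
    rw [← hAΨ]
    exact A'.hasStrictFDerivAt.comp z hΨ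
  refine ⟨(hcomp.toOpenPartialHomeomorph _).source,
    (hcomp.toOpenPartialHomeomorph _).open_source, hcomp.mem_toOpenPartialHomeomorph_source, ?_⟩
  intro x hx y hy hfxy hℓxy
  apply (hcomp.toOpenPartialHomeomorph _).injOn hx hy
  rw [hcomp.toOpenPartialHomeomorph_coe]
  show A' (f x, ℓ (x - z)) = A' (f y, ℓ (y - z))
  rw [hfxy, hℓxy]

theorem per_curve {V F : Type} [NormedAddCommGroup V] [NormedSpace ℝ V] [FiniteDimensional ℝ V]
    [NormedAddCommGroup F] [NormedSpace ℝ F] [FiniteDimensional ℝ F] {X : V → V}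
    (hX : ContDiff ℝ 1 X) {f : V → F} (hf : ContDiff ℝ 1 f)
    (hfX : ∀ x, fderiv ℝ f x (X x) = 0) {p : V} (hK : IsCompact {x | f x = f p})
    (hX0 : ∀ x, f x = f p → X x ≠ 0)
    (hker : ∀ x, f x = f p → ∀ v, fderiv ℝ f x v = 0 → ∃ r : ℝ, v = r • X x) {γ : ℝ → V}
    (hγ : ∀ t, HasDerivAt γ (X (γ t)) t) (hγp : ∀ t, f (γ t) = f p) :
    ∃ T > 0, γ T = γ 0 := by
  have hγc : Continuous γ := continuous_iff_continuousAt.2 fun t => (hγ t).continuousAt
  -- an accumulation point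
  obtain ⟨z, hz, φ, hφ, hφz⟩ := hK.tendsto_subseq (x := fun n : ℕ => γ n) (fun n => hγp n)
  have hfz : f z = f p := hz
  have hXz : X z ≠ 0 := hX0 z hfz
  obtain ⟨ℓ, hℓ⟩ := SeparatingDual.exists_eq_one (R := ℝ) hXz
  -- the integral curve through `z`
  have hKz : IsCompact {x | f x = f z} := by rw [hfz]; exact hK
  obtain ⟨ζ, hζ0, hζ, hζf⟩ := flow_exists hX (hf.differentiable one_ne_zero) hfX hKz
  have hζc : Continuous ζ := continuous_iff_continuousAt.2 fun t => (hζ t).continuousAt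
  obtain ⟨N, hN, hzN, hNinj⟩ := per_inj hf (z := z) (ℓ := ℓ) (by
    intro v hv hv'
    obtain ⟨r, rfl⟩ := hker z hfz v hv
    rw [map_smul, hℓ, smul_eq_mul, mul_one] at hv'
    rw [hv', zero_smul])
  -- small times
  have hθ : HasDerivAt (fun t => ℓ (ζ t - z)) 1 0 := by
    have h1 : HasDerivAt (fun t => ℓ (ζ t)) (ℓ (X (ζ 0))) 0 :=
      ℓ.hasFDerivAt.comp_hasDerivAt 0 (hζ 0)
    rw [hζ0, hℓ] at h1
    have h2 : (fun t => ℓ (ζ t - z)) = fun t => ℓ (ζ t) - ℓ z := by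
      funext t
      rw [map_sub]
    rw [h2]
    exact h1.sub_const _
  obtain ⟨δ, hδ, hpos, hneg⟩ := per_local hθ one_pos
  have hθ0 : ℓ (ζ 0 - z) = 0 := by rw [hζ0, sub_self, map_zero]
  rw [hθ0] at hpos hneg
  have hN0 : ζ ⁻¹' N ∈ nhds (0 : ℝ) :=
    hζc.continuousAt.preimage_mem_nhds (by rw [hζ0]; exact hN.mem_nhds hzN)
  obtain ⟨δ', hδ', hball⟩ := Metric.mem_nhds_iff.1 hN0
  set ε : ℝ := min (min δ δ') 1 / 3 with hε
  have hmpos : 0 < min (min δ δ') 1 := lt_min (lt_min hδ hδ') one_pos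
  have hεpos : 0 < ε := by positivity
  have hε1 : ε < δ := by
    have h1 := min_le_left (min δ δ') 1
    have h2 := min_le_left δ δ'
    rw [hε]
    linarith
  have hε2 : ε < δ' := by
    have h1 := min_le_left (min δ δ') 1
    have h2 := min_le_right δ δ'
    rw [hε]
    linarith
  have hε3 : ε ≤ 1 / 3 := by
    have h1 := min_le_right (min δ δ') 1
    rw [hε]
    linarith
  have hηp : 0 < ℓ (ζ ε - z) := hpos ε hεpos hε1
  have hηn : ℓ (ζ (-ε) - z) < 0 := hneg (-ε) (by linarith) (by linarith)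
  -- the points of the level near `z` are on the curve
  have hnear : ∀ x ∈ N, f x = f p → ℓ (ζ (-ε) - z) < ℓ (x - z) → ℓ (x - z) < ℓ (ζ ε - z) →
      ∃ s : ℝ, |s| ≤ 1 / 3 ∧ ζ s = x := by
    intro x hx hfx h1 h2
    have hcont : ContinuousOn (fun t => ℓ (ζ t - z)) (Set.Icc (-ε) ε) :=
      (ℓ.continuous.comp (hζc.sub continuous_const)).continuousOn
    obtain ⟨s, hs, hse⟩ := intermediate_value_Icc (by linarith : -ε ≤ ε) hcont ⟨h1.le, h2.le⟩
    have hse' : ℓ (ζ s - z) = ℓ (x - z) := hse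
    have hsabs : |s| ≤ ε := abs_le.2 hs
    refine ⟨s, hsabs.trans hε3, ?_⟩
    refine hNinj _ (hball ?_) _ hx ?_ hse'
    · rw [Metric.mem_ball, Real.dist_eq, sub_zero]
      linarith
    · rw [hζf s, hfx, hfz]
  -- the neighbourhood
  have hnb : {x | x ∈ N ∧ ℓ (ζ (-ε) - z) < ℓ (x - z) ∧ ℓ (x - z) < ℓ (ζ ε - z)} ∈ nhds z := by
    have hc : Continuous (fun x : V => ℓ (x - z)) :=
      ℓ.continuous.comp (continuous_id.sub continuous_const)
    refine Filter.inter_mem (hN.mem_nhds hzN) (Filter.inter_mem ?_ ?_)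
    · refine (isOpen_lt continuous_const hc).mem_nhds ?_
      show ℓ (ζ (-ε) - z) < ℓ (z - z)
      rw [sub_self, map_zero]
      exact hηn
    · refine (isOpen_lt hc continuous_const).mem_nhds ?_
      show ℓ (z - z) < ℓ (ζ ε - z)
      rw [sub_self, map_zero]
      exact hηp
  have hev := hφz.eventually hnb
  obtain ⟨k, hk⟩ := Filter.eventually_atTop.1 hev
  have hk1 := hk k le_rfl
  have hk2 := hk (k + 1) (Nat.le_succ k)
  obtain ⟨s, hs, hsγ⟩ := hnear _ hk1.1 (hγp _) hk1.2.1 hk1.2.2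
  obtain ⟨s', hs', hsγ'⟩ := hnear _ hk2.1 (hγp _) hk2.2.1 hk2.2.2
  have hsγ1 : ζ s = γ (φ k) := hsγ
  have hsγ1' : ζ s' = γ (φ (k + 1)) := hsγ'
  have hlt : (φ k : ℝ) + 1 ≤ φ (k + 1) := by
    have h1 : φ k + 1 ≤ φ (k + 1) := hφ (Nat.lt_succ_self k)
    exact_mod_cast h1
  have hA : ∀ (a b : ℝ), ζ b = γ a → γ (a - b) = z := by
    intro a b hab
    have h1 : (fun t => γ (t + a)) = fun t => ζ (t + b) :=
      curve_unique hX (per_shift hγ a) (per_shift hζ b) (t0 := 0) (by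
        show γ (0 + a) = ζ (0 + b)
        rw [zero_add, zero_add, hab])
    have h2 := congrFun h1 (-b)
    simp only [neg_add_cancel] at h2
    rw [← hζ0, ← h2]
    congr 1
    ring
  have hz1 := hA _ _ hsγ1
  have hz2 := hA _ _ hsγ1'
  have hs2 := abs_le.1 hs
  have hs3 := abs_le.1 hs'
  refine ⟨((φ (k + 1) : ℝ) - s') - ((φ k : ℝ) - s), by linarith [hs2.1, hs3.2], ?_⟩
  have h1 : (fun t => γ (t + ((φ (k + 1) : ℝ) - s'))) = fun t => γ (t + ((φ k : ℝ) - s)) :=
    curve_unique hX (per_shift hγ _) (per_shift hγ _) (t0 := 0) (by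
      show γ (0 + ((φ (k + 1) : ℝ) - s')) = γ (0 + ((φ k : ℝ) - s))
      rw [zero_add, zero_add, hz1, hz2])
  have h2 := congrFun h1 (-((φ k : ℝ) - s))
  simp only [neg_add_cancel] at h2
  rw [← h2]
  congr 1
  ring

end Pool.Agent.GRB
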