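import Mathlib

/-!
# GRB/Per0: uniqueness of integral curves

PROOF of `curve_unique`: two integral curves on `ℝ` of a `C¹` field that agree at one point are equal (Mathlib has this
for locally Lipschitz fields / integral curves; Gronwall and a connectedness argument).
-/

namespace Pool.Agent.GRB

theorem curve_unique {V : Type} [NormedAddCommGroup V] [NormedSpace ℝ V]
    [FiniteDimensional ℝ V] {X : V → V} (hX : ContDiff ℝ 1 X) {γ ζ : ℝ → V}
    (hγ : ∀ t, HasDerivAt γ (X (γ t)) t) (hζ : ∀ t, HasDerivAt ζ (X (ζ t)) t) {t0 : ℝ}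
    (h0 : γ t0 = ζ t0) : γ = ζ := by
  have hγc : Continuous γ := continuous_iff_continuousAt.2 fun t => (hγ t).continuousAt
  have hζc : Continuous ζ := continuous_iff_continuousAt.2 fun t => (hζ t).continuousAt
  have hcl : IsClosed {t | γ t = ζ t} := isClosed_eq hγc hζc
  have hop : IsOpen {t | γ t = ζ t} := by
    rw [isOpen_iff_mem_nhds]
    intro t1 ht1
    have ht1' : γ t1 = ζ t1 := ht1
    obtain ⟨K, s, hs, hK⟩ := (hX.contDiffAt (x := γ t1)).exists_lipschitzOnWith
    have h1 : ∀ᶠ t in nhds t1, γ t ∈ s := hγc.continuousAt.eventually_mem hs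
    have h2 : ∀ᶠ t in nhds t1, ζ t ∈ s :=
      hζc.continuousAt.eventually_mem (by rw [← ht1']; exact hs)
    exact ODE_solution_unique_of_eventually (v := fun _ => X) (s := fun _ => s) (K := K)
      (Filter.Eventually.of_forall fun _ => hK) (h1.mono fun t ht => ⟨hγ t, ht⟩)
      (h2.mono fun t ht => ⟨hζ t, ht⟩) ht1'
  have huniv : {t | γ t = ζ t} = Set.univ := IsClopen.eq_univ ⟨hcl, hop⟩ ⟨t0, h0⟩
  funext t
  have ht : t ∈ {t | γ t = ζ t} := by rw [huniv]; exact Set.mem_univ t
  exact ht

end Pool.Agent.GRB
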