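import Pool.Agent.GRB.Defs

/-!
# GRB/Rem0: M-connected sets and canonical families

PROOF of `mcon_congr`: `MCon K U` depends only on the members of `K` inside `U`.
PROOF of `mcon_sub_member`: `Sys F H`, `MCon F Y`, `2 ≤ |Y|`. If no member of `H` contains `Y`, the traces `X ∩ Y`
(`X ∈ H`) with at least two elements are proper subsets of `Y` and cover the members of `F` inside `Y`, so
`2|Y| - 2 ≤ Σ_X wp (X ∩ Y) ≤ w Y` (`Indep.sum_wp_le`), contradiction.
-/

namespace Pool.Agent.GRB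

open Finset Pool.Agent.GRA

variable {α : Type} [DecidableEq α] [Fintype α]

theorem mcon_congr {K K' : Finset (Finset α)} {U : Finset α} (h : MCon K U)
    (hK : ∀ B ∈ K, B ⊆ U → B ∈ K') : MCon K' U := by
  intro X hX hc
  exact h X hX (fun B hB hBU => hc B (hK B hB hBU) hBU)

private theorem rem0_sum_image {s : Finset (Finset α)} {f : Finset α → Finset α}
    (h : ∀ A ∈ s, 0 ≤ w (f A)) : ∑ T ∈ s.image f, w T ≤ ∑ A ∈ s, w (f A) := by
  induction s using Finset.induction_on with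
  | empty => simp
  | insert a s ha ih =>
    have ih' := ih (fun A hA => h A (mem_insert_of_mem hA))
    have h0 := h a (mem_insert_self _ _)
    rw [image_insert, sum_insert ha]
    by_cases hm : f a ∈ s.image f
    · rw [insert_eq_of_mem hm]
      linarith
    · rw [sum_insert hm]
      linarith

theorem mcon_sub_member {F H : Finset (Finset α)} (hF : IsG F) (hS : Sys F H) {Y : Finset α}
    (hY : MCon F Y) (h2 : 2 ≤ Y.card) : ∃ X ∈ H, Y ⊆ X := by
  by_contra hcon
  push Not at hcon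
  have h1 := hY ((H.filter (fun X => 2 ≤ (X ∩ Y).card)).image (fun X => X ∩ Y)) (by
    intro A hA
    obtain ⟨X, hX, rfl⟩ := mem_image.1 hA
    obtain ⟨hXH, hX2⟩ := mem_filter.1 hX
    refine ⟨hX2, inter_subset_right, fun h => hcon X hXH ?_⟩
    rw [← h]
    exact inter_subset_left) (by
    intro B hB hBY
    obtain ⟨X, hX, hBX⟩ := hS.cov B hB
    have h3 : B ⊆ X ∩ Y := subset_inter hBX hBY
    refine ⟨X ∩ Y, mem_image.2 ⟨X, mem_filter.2 ⟨hX, ?_⟩, rfl⟩, h3⟩
    rw [← hF B hB]
    exact card_le_card h3)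
  have h3 := rem0_sum_image (s := H.filter (fun X => 2 ≤ (X ∩ Y).card)) (f := fun X => X ∩ Y) (by
    intro A hA
    have := w_pos (mem_filter.1 hA).2
    linarith)
  have h4 : ∑ X ∈ H.filter (fun X => 2 ≤ (X ∩ Y).card), w (X ∩ Y) ≤ ∑ X ∈ H, wp (X ∩ Y) := by
    calc ∑ X ∈ H.filter (fun X => 2 ≤ (X ∩ Y).card), w (X ∩ Y)
        ≤ ∑ X ∈ H.filter (fun X => 2 ≤ (X ∩ Y).card), wp (X ∩ Y) :=
          sum_le_sum fun X _ => le_wp _
      _ ≤ _ := sum_le_sum_of_subset_of_nonneg (filter_subset _ _) fun X _ _ => wp_nonneg _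
  have h5 := hS.indep.sum_wp_le Y h2
  have h6 : w Y = 2 * (Y.card : ℤ) - 3 := rfl
  linarith

end Pool.Agent.GRB
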