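import Pool.Agent.GRB.Defs

/-!
# GRB/RowA: basic formulas for rows

`row_pair`, `ip_row`: for `e = {u, v}` (also for `u = v`, where the row is `0`):
`ip (row q {u,v}) w = ∑ i, (q u i - q v i) * (w u i - w v i)`.
`ip` is a symmetric bilinear positive definite form. `exists_dual`: in a space with a nondegenerate form every
linearly independent finite family has a dual family (extend to a basis, dual basis; or invert the Gram matrix).
-/

namespace Pool.Agent.GRB

open Finset Pool.Agent.GRA

variable {α : Type} [DecidableEq α] [Fintype α]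

theorem dsq_nonneg (x y : Fin 2 → ℝ) : 0 ≤ dsq x y := by
  unfold dsq; positivity

theorem dsq_comm (x y : Fin 2 → ℝ) : dsq x y = dsq y x := by
  unfold dsq; ring

theorem dsq_self (x : Fin 2 → ℝ) : dsq x x = 0 := by
  unfold dsq; ring

theorem dsq_eq_zero {x y : Fin 2 → ℝ} : dsq x y = 0 ↔ x = y := by
  constructor
  · intro h
    unfold dsq at h
    have h0 : (x 0 - y 0) ^ 2 = 0 := by nlinarith [sq_nonneg (x 0 - y 0), sq_nonneg (x 1 - y 1)]
    have h1 : (x 1 - y 1) ^ 2 = 0 := by nlinarith [sq_nonneg (x 0 - y 0), sq_nonneg (x 1 - y 1)]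
    have h2 := pow_eq_zero_iff (two_ne_zero) |>.1 h0
    have h3 := pow_eq_zero_iff (two_ne_zero) |>.1 h1
    funext i
    fin_cases i
    · exact sub_eq_zero.1 h2
    · exact sub_eq_zero.1 h3
  · rintro rfl
    exact dsq_self x

theorem ip_add_left (u v w : Cfg α) : ip (u + v) w = ip u w + ip v w := by
  unfold ip
  rw [← Finset.sum_add_distrib]
  refine Finset.sum_congr rfl fun x _ => ?_
  simp only [Pi.add_apply]
  ring

theorem ip_smul_left (r : ℝ) (u w : Cfg α) : ip (r • u) w = r * ip u w := by
  unfold ip
  rw [Finset.mul_sum]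
  refine Finset.sum_congr rfl fun x _ => ?_
  simp only [Pi.smul_apply, smul_eq_mul]
  ring

theorem ip_comm (u v : Cfg α) : ip u v = ip v u := by
  unfold ip
  refine Finset.sum_congr rfl fun x _ => ?_
  ring

theorem ip_add_right (u v w : Cfg α) : ip u (v + w) = ip u v + ip u w := by
  rw [ip_comm, ip_add_left, ip_comm v, ip_comm w]

theorem ip_smul_right (r : ℝ) (u w : Cfg α) : ip u (r • w) = r * ip u w := by
  rw [ip_comm, ip_smul_left, ip_comm]

/-- the form with a fixed second argument as a linear map -/
private def ipL (w : Cfg α) : Cfg α →ₗ[ℝ] ℝ where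
  toFun u := ip u w
  map_add' u v := ip_add_left u v w
  map_smul' r u := ip_smul_left r u w

theorem ip_sum_left {ι : Type*} (s : Finset ι) (f : ι → Cfg α) (w : Cfg α) :
    ip (∑ j ∈ s, f j) w = ∑ j ∈ s, ip (f j) w :=
  map_sum (ipL w) f s

theorem ip_self_eq_zero {u : Cfg α} : ip u u = 0 ↔ u = 0 := by
  constructor
  · intro h
    unfold ip at h
    rw [Finset.sum_eq_zero_iff_of_nonneg (fun x _ => by
      nlinarith [sq_nonneg (u x 0), sq_nonneg (u x 1)])] at h
    funext x i
    have hx := h x (Finset.mem_univ x)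
    have h0 : u x 0 = 0 := by
      have h1 : (u x 0) ^ 2 = 0 := by nlinarith [sq_nonneg (u x 0), sq_nonneg (u x 1)]
      exact pow_eq_zero_iff (two_ne_zero) |>.1 h1
    have h2 : u x 1 = 0 := by
      have h1 : (u x 1) ^ 2 = 0 := by nlinarith [sq_nonneg (u x 0), sq_nonneg (u x 1)]
      exact pow_eq_zero_iff (two_ne_zero) |>.1 h1
    fin_cases i
    · exact h0
    · exact h2
  · rintro rfl
    simp [ip]

private theorem exists_ip (φ : Cfg α →ₗ[ℝ] ℝ) : ∃ g : Cfg α, ∀ u, ip u g = φ u := by
  refine ⟨fun x i => φ (Pi.single x (Pi.single i 1)), fun u => ?_⟩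
  have h1 : u = ∑ x, (u x 0 • (Pi.single x (Pi.single 0 1) : Cfg α) +
      u x 1 • (Pi.single x (Pi.single 1 1) : Cfg α)) := by
    funext y i
    rw [Finset.sum_apply, Finset.sum_apply, Finset.sum_eq_single y]
    · fin_cases i <;> simp
    · intro x _ hx
      simp [Pi.single_eq_of_ne hx.symm]
    · intro h
      exact absurd (Finset.mem_univ y) h
  conv_rhs => rw [h1]
  rw [map_sum]
  unfold ip
  refine Finset.sum_congr rfl fun x _ => ?_
  rw [map_add, map_smul, map_smul, smul_eq_mul, smul_eq_mul]

/-- Linearly independent configurations have a dual family. -/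
theorem exists_dual {ι : Type} [Fintype ι] [DecidableEq ι] {f : ι → Cfg α}
    (hf : LinearIndependent ℝ f) : ∃ g : ι → Cfg α, ∀ i j, ip (f i) (g j) = if i = j then 1 else 0 := by
  have h1 : ∀ j, ∃ g : Cfg α, ∀ i, ip (f i) g = if i = j then 1 else 0 := by
    intro j
    obtain ⟨φ, hφ⟩ := LinearMap.exists_extend ((Module.Basis.span hf).coord j)
    obtain ⟨g, hg⟩ := exists_ip φ
    refine ⟨g, fun i => ?_⟩
    rw [hg]
    have h2 : φ (f i) = (Module.Basis.span hf).coord j (Module.Basis.span hf i) := by
      rw [← hφ, LinearMap.comp_apply]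
      congr 1
      rw [Module.Basis.span_apply hf i]
      rfl
    rw [h2, Module.Basis.coord_apply, Module.Basis.repr_self, Finsupp.single_apply]
  choose g hg using h1
  exact ⟨g, fun i j => hg j i⟩

/-- A family with a dual family is linearly independent. -/
theorem linInd_of_dual {ι : Type} [Fintype ι] [DecidableEq ι] {f g : ι → Cfg α}
    (h : ∀ i j, ip (f i) (g j) = if i = j then 1 else 0) : LinearIndependent ℝ f := by
  rw [Fintype.linearIndependent_iff]
  intro c hc j
  have h1 : ip (∑ i, c i • f i) (g j) = 0 := by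
    rw [hc]
    simp [ip]
  rw [ip_sum_left] at h1
  have h2 : ∀ i, ip (c i • f i) (g j) = if i = j then c i else 0 := by
    intro i
    rw [ip_smul_left, h]
    split_ifs <;> simp
  rw [Finset.sum_congr rfl (fun i _ => h2 i), Finset.sum_ite_eq' Finset.univ j c,
    if_pos (Finset.mem_univ j)] at h1
  exact h1

theorem row_pair (q : Cfg α) {u v : α} (h : u ≠ v) (x : α) (i : Fin 2) :
    row q {u, v} x i = (if x = u then q u i - q v i else 0) + (if x = v then q v i - q u i else 0) := by
  unfold row
  by_cases hu : x = u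
  · subst hu
    rw [if_pos (by simp), if_pos rfl, if_neg h, Finset.sum_pair h, sub_self, zero_add, add_zero]
  · by_cases hv : x = v
    · subst hv
      rw [if_pos (by simp), if_neg hu, if_pos rfl, Finset.sum_pair h, sub_self, zero_add, add_zero]
    · rw [if_neg (by simp [hu, hv]), if_neg hu, if_neg hv, add_zero]

theorem ip_row (q w : Cfg α) (u v : α) :
    ip (row q {u, v}) w = (q u 0 - q v 0) * (w u 0 - w v 0) + (q u 1 - q v 1) * (w u 1 - w v 1) := by
  by_cases h : u = v
  · subst h
    have h1 : row q {u, u} = 0 := by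
      funext x i
      unfold row
      by_cases hx : x ∈ ({u, u} : Finset α)
      · have hxu : x = u := by simpa using hx
        subst hxu
        rw [if_pos hx]
        simp
      · rw [if_neg hx]
        rfl
    rw [h1]
    simp [ip]
  · unfold ip
    have h1 : ∀ x, row q {u, v} x 0 * w x 0 + row q {u, v} x 1 * w x 1 =
        (if x = u then (q u 0 - q v 0) * w u 0 + (q u 1 - q v 1) * w u 1 else 0) +
        (if x = v then (q v 0 - q u 0) * w v 0 + (q v 1 - q u 1) * w v 1 else 0) := by
      intro x
      rw [row_pair q h, row_pair q h]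
      by_cases hu : x = u
      · subst hu
        rw [if_pos rfl, if_neg h, if_pos rfl, if_neg h, if_pos rfl, if_neg h]
        ring
      · by_cases hv : x = v
        · subst hv
          rw [if_neg hu, if_pos rfl, if_neg hu, if_pos rfl, if_neg hu, if_pos rfl]
          ring
        · rw [if_neg hu, if_neg hv, if_neg hu, if_neg hv, if_neg hu, if_neg hv]
          ring
    rw [Finset.sum_congr rfl (fun x _ => h1 x), Finset.sum_add_distrib,
      Finset.sum_ite_eq' Finset.univ u, Finset.sum_ite_eq' Finset.univ v,
      if_pos (Finset.mem_univ u), if_pos (Finset.mem_univ v)]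
    ring

theorem row_supp (q : Cfg α) {e : Finset α} {x : α} (h : x ∉ e) : row q e x = 0 := by
  funext i
  unfold row
  rw [if_neg h]
  rfl

/-- The row of `e` does not change if `q` changes outside `e`. -/
theorem row_congr {q q' : Cfg α} {e : Finset α} (h : ∀ x ∈ e, q x = q' x) : row q e = row q' e := by
  funext x i
  unfold row
  by_cases hx : x ∈ e
  · rw [if_pos hx, if_pos hx]
    refine Finset.sum_congr rfl fun y hy => ?_
    rw [h x hx, h y hy]
  · rw [if_neg hx, if_neg hx]

end Pool.Agent.GRB
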