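import Pool.Agent.GRB.RowA
import Pool.Agent.FibReg.DerExt

/-!
# GRB/RowB: derivations and derivatives of squared distances, generic configurations

`der_dsq`: a derivation `δ` of `ℝ` maps `dsq (q u) (q v)` to `2 * ip (row q {u,v}) (δ q)` (`Derivation.leibniz`, `ip_row`).
`hasDerivAt_dsq`, `hasFDerivAt_dsq`: coordinates and `ip_row`. `exists_der`: `FibReg.exists_dual_derivation`
(`k = ℚ`, `F = ℝ`) gives for every coordinate a derivation that is 1 there and 0 at the other ones; take a linear
combination `∑ (x,i), u x i • D (x,i)`.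
`gen_area`: `area` is a nonzero polynomial with rational coefficients in six of the coordinates (value 1 at
`a = (0,0), b = (1,0), c = (0,1)`), so it is not zero at algebraically independent numbers. `gen_ne`: injectivity of
the coordinate family.
-/

namespace Pool.Agent.GRB

open Finset Pool.Agent.GRA

variable {α : Type} [DecidableEq α] [Fintype α]

theorem der_dsq (δ : Derivation ℤ ℝ ℝ) (q : Cfg α) (u v : α) :
    δ (dsq (q u) (q v)) = 2 * ip (row q {u, v}) (fun x i => δ (q x i)) := by
  rw [ip_row]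
  unfold dsq
  rw [map_add, sq, sq, Derivation.leibniz, Derivation.leibniz, map_sub, map_sub]
  simp only [smul_eq_mul]
  ring

theorem hasDerivAt_dsq {γ : ℝ → Cfg α} {w : Cfg α} {t : ℝ} (h : HasDerivAt γ w t) (u v : α) :
    HasDerivAt (fun s => dsq (γ s u) (γ s v)) (2 * ip (row (γ t) {u, v}) w) t := by
  have hc : ∀ x i, HasDerivAt (fun s => γ s x i) (w x i) t := fun x i =>
    (hasDerivAt_pi.1 ((hasDerivAt_pi.1 h) x)) i
  rw [ip_row]
  unfold dsq
  have h1 := (((hc u 0).sub (hc v 0)).pow 2).add (((hc u 1).sub (hc v 1)).pow 2)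
  refine h1.congr_deriv ?_
  simp only [Pi.sub_apply]
  push_cast
  ring

theorem hasFDerivAt_dsq (q : Cfg α) (u v : α) :
    ∃ L : Cfg α →L[ℝ] ℝ, (∀ w, L w = 2 * ip (row q {u, v}) w) ∧
      HasFDerivAt (fun q' : Cfg α => dsq (q' u) (q' v)) L q := by
  let c : α → Fin 2 → (Cfg α →L[ℝ] ℝ) := fun x i =>
    (ContinuousLinearMap.proj (R := ℝ) (φ := fun _ : Fin 2 => ℝ) i) ∘L
      (ContinuousLinearMap.proj (R := ℝ) (φ := fun _ : α => Fin 2 → ℝ) x)
  have hc : ∀ x i, HasFDerivAt (fun q' : Cfg α => q' x i) (c x i) q := fun x i =>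
    (c x i).hasFDerivAt
  have h1 := (((hc u 0).sub (hc v 0)).mul ((hc u 0).sub (hc v 0))).add
    (((hc u 1).sub (hc v 1)).mul ((hc u 1).sub (hc v 1)))
  refine ⟨_, fun w => ?_, h1.congr_of_eventuallyEq (Filter.Eventually.of_forall (fun q' => ?_))⟩
  · rw [ip_row]
    simp [c]
    ring
  · simp only [Pi.add_apply, Pi.mul_apply, Pi.sub_apply, dsq]
    ring

/-- Derivations with prescribed values on a generic configuration. -/
theorem exists_der {p : Cfg α} (hp : Gen p) (u : Cfg α) :
    ∃ δ : Derivation ℤ ℝ ℝ, ∀ x i, δ (p x i) = u x i := by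
  have h1 := fun s : α × Fin 2 => FibReg.exists_dual_derivation hp s
  choose D _ hD1 hD2 using h1
  refine ⟨∑ s : α × Fin 2, u s.1 s.2 • D s, fun x i => ?_⟩
  have h2 : (∑ s : α × Fin 2, u s.1 s.2 • D s) (p x i) =
      ∑ s : α × Fin 2, u s.1 s.2 * D s (p x i) := by
    have h3 : ∀ t : Finset (α × Fin 2), (∑ s ∈ t, u s.1 s.2 • D s) (p x i) =
        ∑ s ∈ t, u s.1 s.2 * D s (p x i) := by
      intro t
      induction t using Finset.induction_on with
      | empty => simp
      | insert a t ha ih =>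
        rw [Finset.sum_insert ha, Finset.sum_insert ha, Derivation.add_apply, ih]
        rfl
    exact h3 univ
  rw [h2, Finset.sum_eq_single (x, i)]
  · have := hD1 (x, i)
    simp only at this
    rw [this, mul_one]
  · intro s _ hs
    have := hD2 s (x, i) (Ne.symm hs)
    simp only at this
    rw [this, mul_zero]
  · intro h
    exact absurd (Finset.mem_univ _) h

/-- Three points of a generic configuration are not collinear. -/
theorem gen_area {p : Cfg α} (hp : Gen p) {a b c : α} (hab : a ≠ b) (hac : a ≠ c) (hbc : b ≠ c) :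
    area (p a) (p b) (p c) ≠ 0 := by
  intro h0
  obtain ⟨δ, hδ⟩ := exists_der hp (fun x i => if x = c ∧ i = 1 then 1 else 0)
  obtain ⟨ε, hε⟩ := exists_der hp (fun x i => if x = b ∧ i = 0 then 1 else 0)
  have h1 : p b 0 - p a 0 = 0 := by
    have h2 : δ (area (p a) (p b) (p c)) = 0 := by rw [h0, map_zero]
    unfold area at h2
    rw [map_sub, Derivation.leibniz, Derivation.leibniz, map_sub, map_sub, map_sub, map_sub,
      hδ, hδ, hδ, hδ, hδ, hδ] at h2
    simpa [hac, hbc, hab] using h2
  have h2 : ε (p b 0 - p a 0) = 0 := by rw [h1, map_zero]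
  rw [map_sub, hε, hε] at h2
  simp [hab] at h2

theorem gen_ne {p : Cfg α} (hp : Gen p) {a b : α} (hab : a ≠ b) : p a ≠ p b := by
  intro h0
  obtain ⟨ε, hε⟩ := exists_der hp (fun x i => if x = b ∧ i = 0 then 1 else 0)
  have h1 : ε (p a 0) = ε (p b 0) := by rw [h0]
  rw [hε, hε] at h1
  simp [hab] at h1

end Pool.Agent.GRB
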