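import Pool.Agent.GRB.Row
import Pool.Agent.GRB.Hen

/-!
# GRB/RowGen: rows of a sparse set are independent at generic configurations

PROOF of `rows_special` (some `p0` suffices). The rows at `p0` are linearly independent, so some square submatrix
(columns `J ⊆ α × Fin 2`, `|J| = |I|`) has nonzero determinant at `p0`. The entries of `row q e` are linear
polynomials in the coordinates of `q` with integer coefficients, so this determinant is the value at `q` of
a polynomial `P : MvPolynomial (α × Fin 2) ℚ`; `P ≠ 0` since its value at `p0` is not zero, so its value at the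
generic `p` is not zero (algebraic independence), and the rows at `p` are independent.
(Alternative: the Gram determinant `det (ip (row q e) (row q f))_{e,f ∈ I}` is a polynomial in `q` with rational
coefficients and is nonzero iff the rows are linearly independent, by `exists_dual`/positive definiteness. One square
matrix, no choice of columns.)

PROOF of `rows_generic`. Induction on `|I|`. `I = ∅`: trivial. Otherwise choose `v` by `sparse_low`,
`I' = I.filter (v ∉ ·)`, the rows of `I'` have zero `v`-block.
`deg v ≤ 2`, neighbours `a` (and `b`): the rows of `I'` are independent at `p` by induction; the `v`-blocks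
`p v - p a`, `p v - p b` are linearly independent (`gen_area`, `gen_ne`); so all rows of `I` are independent.
`deg v = 3`, neighbours `a, b, c`: rename by `sparse_inv` such that `{a,b} ∉ I` and `I'' = insert {a,b} I'` is sparse;
`|I''| = |I| - 2 < |I|`, so the rows of `I''` are independent at `p`. Let `p0 = p` except `p0 v = (p a + p b)/2`.
The rows of `I''` are the same at `p0` (`row_congr`). At `p0`:
`row {v,a} + row {v,b} = (1/2) row {a,b}`, and the `v`-blocks of `{v,a}`, `{v,b}`, `{v,c}` are
`(p b - p a)/2`, `(p a - p b)/2`, `p0 v - p c`. A linear relation between the rows of `I` at `p0` with coefficients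
`λ_e, λ_a, λ_b, λ_c` gives (the `v`-block; `a, b, c` not collinear) `λ_c = 0`, `λ_a = λ_b`, and then
`Σ_{I'} λ_e row e + (λ_a/2) row {a,b} = 0`, so all coefficients are zero. Then use `rows_special`.
-/

namespace Pool.Agent.GRB

open Finset Pool.Agent.GRA

variable {α : Type} [DecidableEq α] [Fintype α]

private theorem ip_zero_left (w : Cfg α) : ip (0 : Cfg α) w = 0 := by
  unfold ip
  simp

private noncomputable def gram (I : Finset (Finset α)) (q : Cfg α) :
    Matrix {e // e ∈ I} {e // e ∈ I} ℝ := Matrix.of (fun e f => ip (row q e.1) (row q f.1))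

private theorem gram_mulVec (I : Finset (Finset α)) (q : Cfg α) (c : {e // e ∈ I} → ℝ)
    (e : {e // e ∈ I}) : (gram I q).mulVec c e = ip (row q e.1) (∑ f, c f • row q f.1) := by
  rw [ip_comm, ip_sum_left]
  show ∑ f, ip (row q e.1) (row q f.1) * c f = _
  refine sum_congr rfl (fun f _ => ?_)
  rw [ip_smul_left, ip_comm, mul_comm]

private theorem rowInd_iff_gram (I : Finset (Finset α)) (q : Cfg α) :
    RowInd I q ↔ (gram I q).det ≠ 0 := by
  unfold RowInd
  rw [Fintype.linearIndependent_iff]
  constructor
  · intro h hdet
    obtain ⟨c, hc0, hc⟩ := Matrix.exists_mulVec_eq_zero_iff.2 hdet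
    apply hc0
    funext e
    refine h c ?_ e
    rw [← ip_self_eq_zero, ip_sum_left]
    refine sum_eq_zero (fun f _ => ?_)
    have h1 := congrFun hc f
    rw [gram_mulVec] at h1
    rw [ip_smul_left, h1]
    simp
  · intro hdet c hc e
    have h1 : (gram I q).mulVec c = 0 := by
      funext f
      rw [gram_mulVec, hc, ip_comm, ip_zero_left]
      rfl
    exact congrFun (Matrix.eq_zero_of_mulVec_eq_zero hdet h1) e

private noncomputable def prow (e : Finset α) (x : α) (i : Fin 2) :
    MvPolynomial (α × Fin 2) ℚ :=
  if x ∈ e then ∑ y ∈ e, (MvPolynomial.X (x, i) - MvPolynomial.X (y, i)) else 0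

private noncomputable def pgram (I : Finset (Finset α)) :
    Matrix {e // e ∈ I} {e // e ∈ I} (MvPolynomial (α × Fin 2) ℚ) :=
  Matrix.of (fun e f => ∑ x, (prow e.1 x 0 * prow f.1 x 0 + prow e.1 x 1 * prow f.1 x 1))

private theorem aeval_prow (q : Cfg α) (e : Finset α) (x : α) (i : Fin 2) :
    MvPolynomial.aeval (fun z : α × Fin 2 => q z.1 z.2) (prow e x i) = row q e x i := by
  unfold prow row
  split_ifs
  · rw [map_sum]
    refine sum_congr rfl (fun y _ => ?_)
    rw [map_sub, MvPolynomial.aeval_X, MvPolynomial.aeval_X]
  · rw [map_zero]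

private theorem aeval_det (I : Finset (Finset α)) (q : Cfg α) :
    MvPolynomial.aeval (fun z : α × Fin 2 => q z.1 z.2) (pgram I).det = (gram I q).det := by
  rw [AlgHom.map_det]
  congr 1
  ext e f
  show MvPolynomial.aeval (fun z : α × Fin 2 => q z.1 z.2)
    (∑ x, (prow e.1 x 0 * prow f.1 x 0 + prow e.1 x 1 * prow f.1 x 1)) = ip (row q e.1) (row q f.1)
  rw [map_sum]
  unfold ip
  refine sum_congr rfl (fun x _ => ?_)
  rw [map_add, map_mul, map_mul, aeval_prow, aeval_prow, aeval_prow, aeval_prow]

theorem rows_special {I : Finset (Finset α)} {p p0 : Cfg α} (hp : Gen p) (h0 : RowInd I p0) :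
    RowInd I p := by
  rw [rowInd_iff_gram] at h0 ⊢
  intro h1
  apply h0
  rw [← aeval_det] at h1 ⊢
  have h2 : (pgram I).det = 0 := by
    by_contra hne
    exact hne (hp (by rw [h1, map_zero]))
  rw [h2, map_zero]

private theorem rowInd_iff (I : Finset (Finset α)) (q : Cfg α) :
    RowInd I q ↔ ∀ g : Finset α → ℝ, ∑ e ∈ I, g e • row q e = 0 → ∀ e ∈ I, g e = 0 := by
  unfold RowInd
  rw [Fintype.linearIndependent_iff]
  constructor
  · intro h g hg e he
    refine h (fun f => g f.1) ?_ ⟨e, he⟩
    rw [← hg]
    exact sum_coe_sort I (fun e => g e • row q e)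
  · intro h g hg e
    have h1 := h (fun f => if hf : f ∈ I then g ⟨f, hf⟩ else 0) ?_ e.1 e.2
    · simp only [e.2, dif_pos] at h1
      exact h1
    · rw [← sum_coe_sort I, ← hg]
      refine sum_congr rfl (fun f _ => ?_)
      simp only [f.2, dif_pos]

private theorem row_self {q : Cfg α} {v a : α} (h : v ≠ a) : row q {v, a} v = q v - q a := by
  funext i
  rw [row_pair q h]
  simp [h]

private theorem row_mid {p p0 : Cfg α} {v x y : α} (hvx : v ≠ x) (hvy : v ≠ y) (hxy : x ≠ y)
    (hv : ∀ i, p0 v i = (p x i + p y i) / 2) (hx : p0 x = p x) (hy : p0 y = p y) :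
    row p0 {v, x} + row p0 {v, y} = (1 / 2 : ℝ) • row p {x, y} := by
  funext z i
  show row p0 {v, x} z i + row p0 {v, y} z i = 1 / 2 * row p {x, y} z i
  rw [row_pair p0 hvx, row_pair p0 hvy, row_pair p hxy, hv, hx, hy]
  by_cases h1 : z = v
  · subst h1
    simp only [if_true, hvx, hvy, if_false]
    ring
  · by_cases h2 : z = x
    · subst h2
      simp only [if_true, h1, hxy, if_false]
      ring
    · by_cases h3 : z = y
      · subst h3
        simp only [if_true, h1, h2, if_false]
        ring
      · simp only [h1, h2, h3, if_false]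
        ring

private theorem indep2 {a0 a1 b0 b1 s t : ℝ} (h : a0 * b1 - a1 * b0 ≠ 0)
    (h0 : s * a0 + t * b0 = 0) (h1 : s * a1 + t * b1 = 0) : s = 0 ∧ t = 0 := by
  constructor
  · have : s * (a0 * b1 - a1 * b0) = 0 := by linear_combination b1 * h0 - b0 * h1
    exact (mul_eq_zero.1 this).resolve_right h
  · have : t * (a0 * b1 - a1 * b0) = 0 := by linear_combination a0 * h1 - a1 * h0
    exact (mul_eq_zero.1 this).resolve_right h

private theorem v_block {I : Finset (Finset α)} {q : Cfg α} {g : Finset α → ℝ} (v : α)
    (h : ∑ e ∈ I, g e • row q e = 0) (i : Fin 2) :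
    ∑ e ∈ I.filter (v ∈ ·), g e * row q e v i = 0 := by
  have h1 := congrFun (congrFun h v) i
  rw [Finset.sum_apply, Finset.sum_apply] at h1
  rw [← sum_filter_add_sum_filter_not I (v ∈ ·)] at h1
  have h2 : ∑ e ∈ I.filter (fun e => ¬ v ∈ e), (g e • row q e) v i = 0 := by
    refine sum_eq_zero (fun e he => ?_)
    show g e * row q e v i = 0
    rw [row_supp q (mem_filter.1 he).2]
    simp
  rw [h2, add_zero] at h1
  exact h1

private theorem mem_star {I : Finset (Finset α)} (hI : IsG I) {v : α} {e : Finset α}
    (he : e ∈ I.filter (v ∈ ·)) : ∃ a, v ≠ a ∧ e = {v, a} := by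
  obtain ⟨heI, hve⟩ := mem_filter.1 he
  obtain ⟨x, y, hxy, rfl⟩ := card_eq_two.1 (hI e heI)
  simp only [mem_insert, mem_singleton] at hve
  rcases hve with rfl | rfl
  · exact ⟨y, hxy, rfl⟩
  · exact ⟨x, hxy.symm, pair_comm _ _⟩

theorem rows_generic {I : Finset (Finset α)} (hI : IsG I) (hs : Sparse I) {p : Cfg α}
    (hp : Gen p) : RowInd I p := by
  induction hn : I.card using Nat.strong_induction_on generalizing I with
  | _ n ih =>
    by_cases hne : I.Nonempty
    swap
    · rw [not_nonempty_iff_eq_empty] at hne
      subst hne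
      rw [rowInd_iff]
      intro g _ e he
      exact absurd he (notMem_empty e)
    obtain ⟨v, hv1, hv3⟩ := sparse_low hI hs hne
    have hIJ : I.filter (v ∉ ·) ⊆ I := filter_subset _ _
    have hJ : IsG (I.filter (v ∉ ·)) := fun e he => hI e (hIJ he)
    have hJs : Sparse (I.filter (v ∉ ·)) := sparse_mono hIJ hs
    have hcard : (I.filter (v ∈ ·)).card + (I.filter (v ∉ ·)).card = I.card :=
      card_filter_add_card_filter_not _
    have hlow : ∀ q : Cfg α, RowInd (I.filter (v ∉ ·)) q →
        (∀ g : Finset α → ℝ, (∀ i, ∑ e ∈ I.filter (v ∈ ·), g e * row q e v i = 0) →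
          ∀ e ∈ I.filter (v ∈ ·), g e = 0) → RowInd I q := by
      intro q h1 h2
      rw [rowInd_iff] at h1 ⊢
      intro g hg
      have h3 := h2 g (v_block v hg)
      have h4 : ∑ e ∈ I.filter (v ∉ ·), g e • row q e = 0 := by
        rw [← sum_filter_add_sum_filter_not I (v ∈ ·)] at hg
        have h5 : ∑ e ∈ I.filter (v ∈ ·), g e • row q e = 0 :=
          sum_eq_zero (fun e he => by rw [h3 e he, zero_smul])
        rw [h5, zero_add] at hg
        exact hg
      have h5 := h1 g h4
      intro e he
      by_cases hve : v ∈ e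
      · exact h3 e (mem_filter.2 ⟨he, hve⟩)
      · exact h5 e (mem_filter.2 ⟨he, hve⟩)
    have hcases : (I.filter (v ∈ ·)).card = 1 ∨ (I.filter (v ∈ ·)).card = 2 ∨
        (I.filter (v ∈ ·)).card = 3 := by omega
    rcases hcases with h1 | h1 | h1
    · -- degree one
      refine hlow p (ih _ (by omega) hJ hJs rfl) ?_
      obtain ⟨e, he⟩ := card_eq_one.1 h1
      obtain ⟨a, hva, rfl⟩ := mem_star hI (v := v) (e := e) (by rw [he]; simp)
      intro g hg f hf
      rw [he, mem_singleton] at hf
      subst hf
      by_contra hne0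
      apply gen_ne hp hva
      funext i
      have h2 := hg i
      rw [he, sum_singleton, row_self hva] at h2
      have h3 := (mul_eq_zero.1 h2).resolve_left hne0
      exact sub_eq_zero.1 h3
    · -- degree two
      refine hlow p (ih _ (by omega) hJ hJs rfl) ?_
      obtain ⟨e, f, hef, he⟩ := card_eq_two.1 h1
      obtain ⟨a, hva, rfl⟩ := mem_star hI (v := v) (e := e) (by rw [he]; simp)
      obtain ⟨b, hvb, rfl⟩ := mem_star hI (v := v) (e := f) (by rw [he]; simp)
      have hab : a ≠ b := by
        rintro rfl
        exact hef rfl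
      intro g hg
      have har := gen_area hp hva hvb hab
      have h2 := hg 0
      have h3 := hg 1
      rw [he, sum_pair hef, row_self hva, row_self hvb] at h2 h3
      simp only [Pi.sub_apply] at h2 h3
      obtain ⟨h4, h5⟩ := indep2 (a0 := p v 0 - p a 0) (a1 := p v 1 - p a 1) (b0 := p v 0 - p b 0)
        (b1 := p v 1 - p b 1) (s := g {v, a}) (t := g {v, b}) (by
          intro h
          apply har
          unfold area
          linear_combination h) h2 h3
      intro k hk
      rw [he, mem_insert, mem_singleton] at hk
      rcases hk with rfl | rfl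
      · exact h4
      · exact h5
    · -- degree three
      obtain ⟨e1, e2, e3, h12, h13, h23, he⟩ := card_eq_three.1 h1
      obtain ⟨a, hva, rfl⟩ := mem_star hI (v := v) (e := e1) (by rw [he]; simp)
      obtain ⟨b, hvb, rfl⟩ := mem_star hI (v := v) (e := e2) (by rw [he]; simp)
      obtain ⟨c, hvc, rfl⟩ := mem_star hI (v := v) (e := e3) (by rw [he]; simp)
      have hab : a ≠ b := by rintro rfl; exact h12 rfl
      have hac : a ≠ c := by rintro rfl; exact h13 rfl
      have hbc : b ≠ c := by rintro rfl; exact h23 rfl
      have hmem : ∀ y ∈ ({a, b, c} : Finset α), ({v, y} : Finset α) ∈ I ∧ v ≠ y := by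
        intro y hy
        simp only [mem_insert, mem_singleton] at hy
        rcases hy with rfl | rfl | rfl
        · exact ⟨(mem_filter.1 (he ▸ (by simp) : ({v, y} : Finset α) ∈ I.filter (v ∈ ·))).1, hva⟩
        · exact ⟨(mem_filter.1 (he ▸ (by simp) : ({v, y} : Finset α) ∈ I.filter (v ∈ ·))).1, hvb⟩
        · exact ⟨(mem_filter.1 (he ▸ (by simp) : ({v, y} : Finset α) ∈ I.filter (v ∈ ·))).1, hvc⟩
      obtain ⟨x, y, z, hxy, hxz, hyz, hset, hxyI, hsp⟩ := sparse_inv hI hs hab hac hbc
        (hmem a (by simp)).1 (hmem b (by simp)).1 (hmem c (by simp)).1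
      have hx := hmem x (by rw [← hset]; simp)
      have hy := hmem y (by rw [← hset]; simp)
      have hz := hmem z (by rw [← hset]; simp)
      have hD : I.filter (v ∈ ·) = {{v, x}, {v, y}, {v, z}} := by
        rw [he]
        have h2 : ({{v, a}, {v, b}, {v, c}} : Finset (Finset α)) =
            ({a, b, c} : Finset α).image (fun t => ({v, t} : Finset α)) := by
          simp [image_insert]
        have h3 : ({{v, x}, {v, y}, {v, z}} : Finset (Finset α)) =
            ({x, y, z} : Finset α).image (fun t => ({v, t} : Finset α)) := by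
          simp [image_insert]
        rw [h2, h3, hset]
      have hpair : ∀ s t : α, v ≠ s → s ≠ t → ({v, s} : Finset α) ≠ {v, t} := by
        intro s t hvs hst h
        have h2 : s ∈ ({v, t} : Finset α) := h ▸ (by simp)
        simp only [mem_insert, mem_singleton] at h2
        rcases h2 with h2 | h2
        · exact hvs h2.symm
        · exact hst h2
      have e12 := hpair x y hx.2 hxy
      have e13 := hpair x z hx.2 hxz
      have e23 := hpair y z hy.2 hyz
      have hvxy : v ∉ ({x, y} : Finset α) := by simp [hx.2, hy.2]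
      have hxyJ : ({x, y} : Finset α) ∉ I.filter (v ∉ ·) := fun h => hxyI (hIJ h)
      have hG : IsG (insert {x, y} (I.filter (v ∉ ·))) := by
        intro e he
        rcases mem_insert.1 he with rfl | he
        · exact card_pair hxy
        · exact hJ e he
      have hc : (insert ({x, y} : Finset α) (I.filter (v ∉ ·))).card =
          (I.filter (v ∉ ·)).card + 1 := card_insert_of_notMem hxyJ
      have hRI := ih _ (by omega) hG hsp rfl
      let p0 : Cfg α := Function.update p v (fun i => (p x i + p y i) / 2)
      have hp0v : ∀ i, p0 v i = (p x i + p y i) / 2 := fun i => by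
        show Function.update p v (fun i => (p x i + p y i) / 2) v i = _
        rw [Function.update_self]
      have hp0 : ∀ t, t ≠ v → p0 t = p t := fun t ht => Function.update_of_ne ht _ _
      apply rows_special (p0 := p0) hp
      rw [rowInd_iff] at hRI ⊢
      intro g hg
      have har := gen_area hp hxy hxz hyz
      have hb0 := v_block v hg 0
      have hb1 := v_block v hg 1
      rw [hD, sum_insert (by simp [e12, e13]), sum_pair e23, row_self hx.2, row_self hy.2,
        row_self hz.2] at hb0 hb1
      simp only [Pi.sub_apply, hp0v, hp0 x hx.2.symm, hp0 y hy.2.symm, hp0 z hz.2.symm] at hb0 hb1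
      obtain ⟨h4, h5⟩ := indep2 (a0 := p y 0 - p x 0) (a1 := p y 1 - p x 1)
        (b0 := (p x 0 + p y 0) / 2 - p z 0) (b1 := (p x 1 + p y 1) / 2 - p z 1)
        (s := (g {v, x} - g {v, y}) / 2) (t := g {v, z}) (by
          intro h
          apply har
          unfold area
          linear_combination -h) (by linear_combination hb0) (by linear_combination hb1)
      have hxy' : g {v, x} = g {v, y} := by linarith
      -- the relation for `insert {x, y} I'`
      have hrel : ∑ e ∈ insert ({x, y} : Finset α) (I.filter (v ∉ ·)),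
          (if e = {x, y} then g {v, x} / 2 else g e) • row p e = 0 := by
        rw [sum_insert hxyJ, if_pos rfl]
        have h6 : ∑ e ∈ I.filter (v ∉ ·), (if e = {x, y} then g {v, x} / 2 else g e) • row p e =
            ∑ e ∈ I.filter (v ∉ ·), g e • row p0 e := by
          refine sum_congr rfl (fun e he => ?_)
          rw [if_neg (fun h : e = {x, y} => hxyJ (h ▸ he))]
          congr 1
          refine row_congr (fun t ht => ?_)
          rw [hp0 t (fun h => (mem_filter.1 he).2 (h ▸ ht))]
        rw [h6]
        rw [← sum_filter_add_sum_filter_not I (v ∈ ·), hD, sum_insert (by simp [e12, e13]),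
          sum_pair e23, h5, zero_smul, add_zero, ← hxy', ← smul_add,
          row_mid hx.2 hy.2 hxy hp0v (hp0 x hx.2.symm) (hp0 y hy.2.symm), smul_smul] at hg
        rw [← hg]
        congr 2
        ring
      have h7 := hRI _ hrel
      have h8 : g {v, x} = 0 := by
        have := h7 {x, y} (mem_insert_self _ _)
        rw [if_pos rfl] at this
        linarith
      have h9 : g {v, y} = 0 := by rw [← hxy', h8]
      intro e he
      by_cases hve : v ∈ e
      · have h10 : e ∈ I.filter (v ∈ ·) := mem_filter.2 ⟨he, hve⟩
        rw [hD] at h10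
        simp only [mem_insert, mem_singleton] at h10
        rcases h10 with rfl | rfl | rfl
        · exact h8
        · exact h9
        · exact h5
      · have h10 : e ∈ I.filter (v ∉ ·) := mem_filter.2 ⟨he, hve⟩
        have := h7 e (mem_insert_of_mem h10)
        rw [if_neg (fun h : e = {x, y} => hxyJ (h ▸ h10))] at this
        exact this

end Pool.Agent.GRB
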