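import Pool.Agent.GRB.Defs

/-!
# GRB/Sepn0: 2-separations of an M-connected graph

`H` is M-connected on `W` (later `H = E.erase {a,b}`). `SepAt H W a b s t L`: `L ⊆ W` contains `a`, `s, t ∉ L` are the
only possible neighbours of `L`, `b ∈ W \ (L ∪ {s,t})`. Write `R = W \ (L ∪ {s,t})`.

PROOF of `sepAt_swap`: `R` is closed for `{s,t}` because an edge from `R` to `L` would contradict closedness of `L`.
PROOF of `cut_one`: no set `L ⊆ W`, `L` nonempty, closed for `H` in `W` and a set `S` with at most one element inside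
`W`, with a vertex of `W` outside `L ∪ S`: `GRA.mcon_sep` with `P = L ∪ (S ∩ W)`, `Q = W \ L`.
PROOF of `sep_adj`: `s` has a neighbour in `L` and a neighbour in `R` (and so has `t`): otherwise `{t}` is a cut
(`cut_one`).
-/

namespace Pool.Agent.GRB

open Finset Pool.Agent.GRA

variable {α : Type} [DecidableEq α] [Fintype α]

theorem sepAt_swap {H : Finset (Finset α)} {W : Finset α} {a b s t : α} {L : Finset α}
    (hS : SepAt H W a b s t L) (haW : a ∈ W) : SepAt H W b a s t (W \ (L ∪ {s, t})) := by
  refine ⟨hS.ne, sdiff_subset, ?_, haW, hS.sW, hS.tW, ?_, ?_, ?_, ?_, ?_, ?_, ?_⟩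
  · simp only [mem_sdiff, mem_union, mem_insert, mem_singleton, not_or]
    exact ⟨hS.bW, hS.bL, hS.bs, hS.bt⟩
  · simp
  · simp
  · simp only [mem_sdiff, mem_union, not_and, not_not]
    exact fun _ => Or.inl hS.aL
  · exact fun h => hS.sL (h ▸ hS.aL)
  · exact fun h => hS.tL (h ▸ hS.aL)
  · rw [disjoint_left]
    intro x hx hx'
    exact (mem_sdiff.1 hx).2 (mem_union_right _ hx')
  · intro x hx y hy hxy
    obtain ⟨hxW, hx'⟩ := mem_sdiff.1 hx
    rw [mem_union, not_or] at hx'
    have hyW : y ∈ W := (mem_filter.1 hxy).2 (by simp)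
    rw [mem_sdiff, mem_union, not_or]
    refine ⟨hyW, fun hyL => hx'.1 ?_, hy⟩
    exact hS.closed.2 y hyL x hx'.2 (by rw [pair_comm]; exact hxy)

theorem sepAt_symm {H : Finset (Finset α)} {W : Finset α} {a b s t : α} {L : Finset α}
    (hS : SepAt H W a b s t L) : SepAt H W a b t s L :=
  ⟨hS.ne.symm, hS.LW, hS.aL, hS.bW, hS.tW, hS.sW, hS.tL, hS.sL, hS.bL, hS.bt, hS.bs,
    by rw [pair_comm]; exact hS.closed⟩

theorem cut_one {H : Finset (Finset α)} (hH : IsG H) {W : Finset α} (hM : MCon H W)
    (h3 : 3 ≤ W.card) {S L : Finset α} (hL : Closed (H.filter (· ⊆ W)) S L) {x y : α}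
    (hx : x ∈ L) (hxW : x ∈ W) (hy : y ∈ W) (hyL : y ∉ L) (hyS : y ∉ S) :
    2 ≤ (S ∩ W).card := by
  have h1 : 2 ≤ (((L ∪ S) ∩ W) ∩ (W \ L)).card := by
    refine mcon_sep hM h3 ?_ ?_ ?_ ?_
    · ext z
      simp only [mem_union, mem_inter, mem_sdiff]
      constructor
      · intro hz
        by_cases hzL : z ∈ L
        · exact Or.inl ⟨Or.inl hzL, hz⟩
        · exact Or.inr ⟨hz, hzL⟩
      · rintro (h | h)
        · exact h.2
        · exact h.1
    · intro h
      have h2 : y ∈ (L ∪ S) ∩ W := by
        rw [h]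
        exact hy
      rw [mem_inter, mem_union] at h2
      rcases h2.1 with h3 | h3
      · exact hyL h3
      · exact hyS h3
    · intro h
      have h2 : x ∈ W \ L := by
        rw [h]
        exact hxW
      exact (mem_sdiff.1 h2).2 hx
    · intro e he heW
      by_cases hd : Disjoint e L
      · right
        intro z hz
        exact mem_sdiff.2 ⟨heW hz, fun hzL => disjoint_left.1 hd hz hzL⟩
      · left
        rw [not_disjoint_iff] at hd
        obtain ⟨u, hue, huL⟩ := hd
        obtain ⟨u1, u2, hne, heq⟩ := card_eq_two.1 (hH e he)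
        have hex : ∃ v, e = {u, v} := by
          rw [heq] at hue
          simp only [mem_insert, mem_singleton] at hue
          rcases hue with rfl | rfl
          · exact ⟨u2, heq⟩
          · exact ⟨u1, by rw [heq, pair_comm]⟩
        obtain ⟨v, rfl⟩ := hex
        intro z hz
        simp only [mem_inter, mem_union]
        refine ⟨?_, heW hz⟩
        simp only [mem_insert, mem_singleton] at hz
        rcases hz with rfl | rfl
        · exact Or.inl huL
        · by_cases hzS : z ∈ S
          · exact Or.inr hzS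
          · exact Or.inl (hL.2 u huL z hzS (mem_filter.2 ⟨he, heW⟩))
  refine le_trans h1 (card_le_card ?_)
  intro z hz
  simp only [mem_inter, mem_union, mem_sdiff] at hz
  rw [mem_inter]
  rcases hz.1.1 with h2 | h2
  · exact absurd h2 hz.2.2
  · exact ⟨h2, hz.2.1⟩

theorem sep_adj {H : Finset (Finset α)} (hH : IsG H) {W : Finset α} (hM : MCon H W)
    {a b s t : α} {L : Finset α} (hS : SepAt H W a b s t L) :
    (∃ x ∈ L, ({x, s} : Finset α) ∈ H) ∧
      ∃ x ∈ W, x ∉ L ∧ x ≠ s ∧ x ≠ t ∧ ({x, s} : Finset α) ∈ H := by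
  have haW : a ∈ W := hS.LW hS.aL
  have has : a ≠ s := fun h => hS.sL (h ▸ hS.aL)
  have hat : a ≠ t := fun h => hS.tL (h ▸ hS.aL)
  have h3 : 3 ≤ W.card := by
    have h1 : ({a, s, t} : Finset α).card = 3 := card_eq_three.2 ⟨a, s, t, has, hat, hS.ne, rfl⟩
    rw [← h1]
    refine card_le_card ?_
    intro z hz
    simp only [mem_insert, mem_singleton] at hz
    rcases hz with rfl | rfl | rfl
    · exact haW
    · exact hS.sW
    · exact hS.tW
  have h1c : ∀ S : Finset α, (({t} : Finset α) ∩ S).card ≤ 1 := fun S =>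
    le_trans (card_le_card inter_subset_left) (by simp)
  constructor
  · by_contra hcon
    push Not at hcon
    have hcl : Closed (H.filter (· ⊆ W)) {t} L := by
      refine ⟨?_, ?_⟩
      · rw [disjoint_singleton_right]
        exact hS.tL
      · intro x hx y hy hxy
        rw [mem_singleton] at hy
        by_cases hys : y = s
        · exact absurd (mem_filter.1 hxy).1 (hys ▸ hcon x hx)
        · exact hS.closed.2 x hx y (by simp [hys, hy]) hxy
    have h4 := cut_one hH hM h3 hcl hS.aL haW hS.bW hS.bL (by simpa using hS.bt)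
    have h5 := h1c W
    omega
  · by_contra hcon
    push Not at hcon
    have hsw := sepAt_swap hS haW
    have hcl : Closed (H.filter (· ⊆ W)) {t} (W \ (L ∪ {s, t})) := by
      refine ⟨?_, ?_⟩
      · rw [disjoint_singleton_right]
        exact hsw.tL
      · intro x hx y hy hxy
        rw [mem_singleton] at hy
        by_cases hys : y = s
        · exfalso
          obtain ⟨hxW, hx'⟩ := mem_sdiff.1 hx
          simp only [mem_union, mem_insert, mem_singleton, not_or] at hx'
          exact hcon x hxW hx'.1 hx'.2.1 hx'.2.2 (hys ▸ (mem_filter.1 hxy).1)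
        · exact hsw.closed.2 x hx y (by simp [hys, hy]) hxy
    have h4 := cut_one hH hM h3 hcl hsw.aL hS.bW haW hsw.bL (by simpa using hat)
    have h5 := h1c W
    omega

end Pool.Agent.GRB
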