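import Pool.Agent.GRB.Sepn0

/-!
# GRB/Sepn1: 2-separations of an M-connected graph

`H` is M-connected on `W` (later `H = E.erase {a,b}`). `SepAt H W a b s t L`: `L ⊆ W` contains `a`, `s, t ∉ L` are the
only possible neighbours of `L`, `b ∈ W \ (L ∪ {s,t})`. Write `R = W \ (L ∪ {s,t})`.

PROOF of `l3_st`. Suppose `T` (`|T| ≤ 2`) separates `s` from `t`: `s ∈ P`, `t ∉ P ∪ T`, `P` closed for `T`. Let
`Q = W \ (P ∪ T)`, so `t ∈ Q`, `P := P ∩ W`. `T ∩ L` and `T ∩ R` are nonempty: if `T ∩ L = ∅`: `L ∩ P` is closed for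
`H` in `W` and `{s}`-like sets ... (the neighbours of `L ∩ P` are in `(L ∪ {s,t}) ∩ (P ∪ T)`, i.e. in
`(L ∩ P) ∪ {s}`), so `L ∩ P = ∅` by `cut_one`, in the same way `L ∩ Q = ∅` (neighbours in `(L ∩ Q) ∪ {t}`), so `L = ∅`,
contradiction; the same for `R`. So `T = {s', t'}`, `s' ∈ L`, `t' ∈ R`. Then the four sets
`(P ∩ L) ∪ {s, s'}`, `(P ∩ R) ∪ {s, t'}`, `(Q ∩ L) ∪ {t, s'}`, `(Q ∩ R) ∪ {t, t'}` cover the members of `H` inside `W`
(`W = {s,t,s',t'} ∪ (P ∩ L) ∪ (P ∩ R) ∪ (Q ∩ L) ∪ (Q ∩ R)`), they are proper subsets of `W` with at least two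
elements, of total weight `2(|W| + 4) - 12 = 2|W| - 4`: contradiction with `MCon H W`.
-/

namespace Pool.Agent.GRB

open Finset Pool.Agent.GRA

variable {α : Type} [DecidableEq α] [Fintype α]

private theorem four_le {H : Finset (Finset α)} {W : Finset α}
    {a b s t : α} {L : Finset α} (hS : SepAt H W a b s t L) : 3 ≤ W.card := by
  have h : ({a, s, t} : Finset α) ⊆ W := by
    intro x hx
    simp only [mem_insert, mem_singleton] at hx
    rcases hx with rfl | rfl | rfl
    · exact hS.LW hS.aL
    · exact hS.sW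
    · exact hS.tW
  have has : a ≠ s := fun h => hS.sL (h ▸ hS.aL)
  have hat : a ≠ t := fun h => hS.tL (h ▸ hS.aL)
  have hc : ({a, s, t} : Finset α).card = 3 := by
    rw [card_insert_of_notMem (by simp [has, hat]), card_insert_of_notMem (by simp [hS.ne]),
      card_singleton]
  rw [← hc]
  exact card_le_card h

private theorem meet {H : Finset (Finset α)} (hH : IsG H) {W : Finset α} (hM : MCon H W)
    {a b s t : α} {L : Finset α} (hS : SepAt H W a b s t L) {T P : Finset α}
    (hP : Closed (H.filter (· ⊆ W)) T P) (hsP : s ∈ P) (htP : t ∉ P) (htT : t ∉ T) :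
    ∃ x ∈ T, x ∈ L := by
  by_contra hno
  push Not at hno
  have h3 := four_le hS
  have hcl := hS.closed
  -- first side
  have c1 : Closed (H.filter (· ⊆ W)) {s} (L ∩ P) := by
    refine ⟨?_, ?_⟩
    · rw [disjoint_singleton_right]
      intro h
      exact hS.sL (mem_inter.1 h).1
    · intro x hx y hy hxy
      rw [mem_inter] at hx
      have hyL : y ∈ L := by
        apply hcl.2 x hx.1 y _ hxy
        simp only [mem_insert, mem_singleton, not_or]
        refine ⟨by simpa using hy, ?_⟩
        rintro rfl
        exact htP (hP.2 x hx.2 y htT hxy)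
      exact mem_inter.2 ⟨hyL, hP.2 x hx.2 y (fun h => hno y h hyL) hxy⟩
  have c2 : Closed (H.filter (· ⊆ W)) {t} (L \ P) := by
    refine ⟨?_, ?_⟩
    · rw [disjoint_singleton_right]
      intro h
      exact hS.tL (mem_sdiff.1 h).1
    · intro x hx y hy hxy
      rw [mem_sdiff] at hx
      have hyx : ({y, x} : Finset α) ∈ H.filter (· ⊆ W) := by rwa [pair_comm]
      have hyP : y ∉ P := fun h => hx.2 (hP.2 y h x (fun h' => hno x h' hx.1) hyx)
      have hyL : y ∈ L := by
        apply hcl.2 x hx.1 y _ hxy
        simp only [mem_insert, mem_singleton, not_or]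
        refine ⟨?_, by simpa using hy⟩
        rintro rfl
        exact hyP hsP
      exact mem_sdiff.2 ⟨hyL, hyP⟩
  have hcard1 : ∀ z : α, ¬ 2 ≤ (({z} : Finset α) ∩ W).card := by
    intro z h
    have := card_le_card (inter_subset_left : ({z} : Finset α) ∩ W ⊆ {z})
    rw [card_singleton] at this
    omega
  by_cases haP : a ∈ P
  · exact hcard1 s (cut_one hH hM h3 c1 (mem_inter.2 ⟨hS.aL, haP⟩) (hS.LW hS.aL) hS.bW
      (fun h => hS.bL (mem_inter.1 h).1) (by simpa using hS.bs))
  · exact hcard1 t (cut_one hH hM h3 c2 (mem_sdiff.2 ⟨hS.aL, haP⟩) (hS.LW hS.aL) hS.bW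
      (fun h => hS.bL (mem_sdiff.1 h).1) (by simpa using hS.bt))

private theorem w_ins (X : Finset α) (x y : α) : w (insert x (insert y X)) ≤ 2 * (X.card : ℤ) + 1 := by
  unfold w
  have h1 := card_insert_le x (insert y X)
  have h2 := card_insert_le y X
  have : ((insert x (insert y X)).card : ℤ) ≤ X.card + 2 := by exact_mod_cast (by omega)
  linarith

private theorem sum_four (A1 A2 A3 A4 : Finset α) (h1 : 2 ≤ A1.card) (h2 : 2 ≤ A2.card)
    (h3 : 2 ≤ A3.card) :
    ∑ A ∈ ({A1, A2, A3, A4} : Finset (Finset α)), w A ≤ w A1 + (w A2 + (w A3 + w A4)) := by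
  have key : ∀ (A : Finset α) (S : Finset (Finset α)), 2 ≤ A.card →
      ∑ B ∈ insert A S, w B ≤ w A + ∑ B ∈ S, w B := by
    intro A S hA
    by_cases h : A ∈ S
    · rw [insert_eq_of_mem h]
      have : 0 ≤ w A := by
        unfold w
        have : (2 : ℤ) ≤ A.card := by exact_mod_cast hA
        linarith
      linarith
    · rw [sum_insert h]
  refine (key _ _ h1).trans ?_
  have := (key A2 {A3, A4} h2)
  have h' := key A3 {A4} h3
  rw [sum_singleton] at h'
  linarith

theorem l3_st {H : Finset (Finset α)} (hH : IsG H) {W : Finset α} (hM : MCon H W)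
    {a b s t : α} {L : Finset α} (hS : SepAt H W a b s t L) : L3 H W s t := by
  intro T hT hsT htT P hP hsP
  by_contra htP
  have h3 := four_le hS
  have hcl := hS.closed
  have hS' := sepAt_swap hS (hS.LW hS.aL)
  obtain ⟨s', hs'T, hs'L⟩ := meet hH hM hS hP hsP htP htT
  obtain ⟨t', ht'T, ht'R⟩ := meet hH hM hS' hP hsP htP htT
  set R := W \ (L ∪ {s, t}) with hR
  have hclR := hS'.closed
  have ht'R' := ht'R
  rw [hR, mem_sdiff, mem_union, not_or] at ht'R'
  obtain ⟨ht'W, ht'L, ht'st⟩ := ht'R'
  have hst' : s' ≠ t' := by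
    rintro rfl
    exact ht'L hs'L
  have hTeq : T = {s', t'} := by
    symm
    apply eq_of_subset_of_card_le
    · intro x hx
      simp only [mem_insert, mem_singleton] at hx
      rcases hx with rfl | rfl
      · exact hs'T
      · exact ht'T
    · rw [card_pair hst']; exact hT
  have hPT : ∀ x ∈ P, x ∉ T := fun x hx hxT => (disjoint_left.1 hP.1 hx) hxT
  have hs'P : s' ∉ P := fun h => hPT _ h hs'T
  have ht'P : t' ∉ P := fun h => hPT _ h ht'T
  set Q := W \ (P ∪ T) with hQ
  have hRW : R ⊆ W := sdiff_subset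
  have hQW : Q ⊆ W := sdiff_subset
  have htQ : t ∈ Q := by
    rw [hQ, mem_sdiff, mem_union, not_or]
    exact ⟨hS.tW, htP, htT⟩
  have hsQ : s ∉ Q := by
    rw [hQ, mem_sdiff, mem_union, not_and_or, not_not]
    exact Or.inr (Or.inl hsP)
  have hs'Q : s' ∉ Q := by
    rw [hQ, mem_sdiff, mem_union, not_and_or, not_not]
    exact Or.inr (Or.inr hs'T)
  have ht'Q : t' ∉ Q := by
    rw [hQ, mem_sdiff, mem_union, not_and_or, not_not]
    exact Or.inr (Or.inr ht'T)
  have hsL := hS.sL
  have htL := hS.tL
  have hsR : s ∉ R := hS'.sL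
  have htR : t ∉ R := hS'.tL
  have hst := hS.ne
  have hss' : s ≠ s' := fun h => hsT (h ▸ hs'T)
  have hst'' : s ≠ t' := fun h => hsT (h ▸ ht'T)
  have hts' : t ≠ s' := fun h => htT (h ▸ hs'T)
  have htt' : t ≠ t' := fun h => htT (h ▸ ht'T)
  have hs'R : s' ∉ R := by
    rw [hR, mem_sdiff, mem_union, not_and_or, not_not]
    exact Or.inr (Or.inl hs'L)
  set A1 := insert s (insert s' (P ∩ L)) with hA1
  set A2 := insert s (insert t' (P ∩ R)) with hA2
  set A3 := insert t (insert s' (Q ∩ L)) with hA3
  set A4 := insert t (insert t' (Q ∩ R)) with hA4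
  have c1 : 2 ≤ A1.card := by
    rw [← card_pair hss']
    apply card_le_card
    intro x hx
    simp only [mem_insert, mem_singleton] at hx
    rw [hA1]
    rcases hx with rfl | rfl <;> simp
  have c2 : 2 ≤ A2.card := by
    rw [← card_pair hst'']
    apply card_le_card
    intro x hx
    simp only [mem_insert, mem_singleton] at hx
    rw [hA2]
    rcases hx with rfl | rfl <;> simp
  have c3 : 2 ≤ A3.card := by
    rw [← card_pair hts']
    apply card_le_card
    intro x hx
    simp only [mem_insert, mem_singleton] at hx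
    rw [hA3]
    rcases hx with rfl | rfl <;> simp
  have c4 : 2 ≤ A4.card := by
    rw [← card_pair htt']
    apply card_le_card
    intro x hx
    simp only [mem_insert, mem_singleton] at hx
    rw [hA4]
    rcases hx with rfl | rfl <;> simp
  have hLW := hS.LW
  have hsW := hS.sW
  have htW := hS.tW
  have hs'W : s' ∈ W := hLW hs'L
  have w1 : A1 ⊆ W := by
    intro x hx
    simp only [hA1, mem_insert, mem_inter] at hx
    rcases hx with rfl | rfl | ⟨_, h⟩
    · exact hsW
    · exact hs'W
    · exact hLW h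
  have w2 : A2 ⊆ W := by
    intro x hx
    simp only [hA2, mem_insert, mem_inter] at hx
    rcases hx with rfl | rfl | ⟨_, h⟩
    · exact hsW
    · exact ht'W
    · exact hRW h
  have w3 : A3 ⊆ W := by
    intro x hx
    simp only [hA3, mem_insert, mem_inter] at hx
    rcases hx with rfl | rfl | ⟨_, h⟩
    · exact htW
    · exact hs'W
    · exact hLW h
  have w4 : A4 ⊆ W := by
    intro x hx
    simp only [hA4, mem_insert, mem_inter] at hx
    rcases hx with rfl | rfl | ⟨_, h⟩
    · exact htW
    · exact ht'W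
    · exact hRW h
  have n1 : A1 ≠ W := by
    intro h
    rw [← h] at htW
    simp only [hA1, mem_insert, mem_inter] at htW
    rcases htW with h | h | ⟨h, _⟩
    · exact hst h.symm
    · exact hts' h
    · exact htP h
  have n2 : A2 ≠ W := by
    intro h
    rw [← h] at htW
    simp only [hA2, mem_insert, mem_inter] at htW
    rcases htW with h | h | ⟨h, _⟩
    · exact hst h.symm
    · exact htt' h
    · exact htP h
  have n3 : A3 ≠ W := by
    intro h
    rw [← h] at hsW
    simp only [hA3, mem_insert, mem_inter] at hsW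
    rcases hsW with h | h | ⟨h, _⟩
    · exact hst h
    · exact hss' h
    · exact hsQ h
  have n4 : A4 ≠ W := by
    intro h
    rw [← h] at hsW
    simp only [hA4, mem_insert, mem_inter] at hsW
    rcases hsW with h | h | ⟨h, _⟩
    · exact hst h
    · exact hst'' h
    · exact hsQ h
  have hcov : ∀ B ∈ H, B ⊆ W → ∃ A ∈ ({A1, A2, A3, A4} : Finset (Finset α)), B ⊆ A := by
    intro B hB hBW
    obtain ⟨x, y, -, rfl⟩ := card_eq_two.1 (hH B hB)
    have hF : ({x, y} : Finset α) ∈ H.filter (· ⊆ W) := mem_filter.2 ⟨hB, hBW⟩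
    have hF' : ({y, x} : Finset α) ∈ H.filter (· ⊆ W) := by rwa [pair_comm]
    have hxW : x ∈ W := hBW (by simp)
    have hyW : y ∈ W := hBW (by simp)
    -- classes
    have cls : ∀ z ∈ W, z ∈ L ∨ z ∈ R ∨ z = s ∨ z = t := by
      intro z hz
      by_cases h : z ∈ L ∪ {s, t}
      · simp only [mem_union, mem_insert, mem_singleton] at h
        exact h.imp_right Or.inr
      · exact Or.inr (Or.inl (mem_sdiff.2 ⟨hz, h⟩))
    have cls2 : ∀ z ∈ W, z ∈ P ∨ z ∈ Q ∨ z = s' ∨ z = t' := by
      intro z hz
      by_cases h : z ∈ P ∪ T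
      · rw [hTeq] at h
        simp only [mem_union, mem_insert, mem_singleton] at h
        exact h.imp_right Or.inr
      · exact Or.inr (Or.inl (mem_sdiff.2 ⟨hz, h⟩))
    have hLL : ∀ u v, u ∈ L → ({u, v} : Finset α) ∈ H.filter (· ⊆ W) → v ∈ L ∨ v = s ∨ v = t := by
      intro u v hu huv
      by_cases h : v ∈ ({s, t} : Finset α)
      · simp only [mem_insert, mem_singleton] at h
        exact Or.inr h
      · exact Or.inl (hcl.2 u hu v h huv)
    have hRR : ∀ u v, u ∈ R → ({u, v} : Finset α) ∈ H.filter (· ⊆ W) → v ∈ R ∨ v = s ∨ v = t := by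
      intro u v hu huv
      by_cases h : v ∈ ({s, t} : Finset α)
      · simp only [mem_insert, mem_singleton] at h
        exact Or.inr h
      · exact Or.inl (hclR.2 u hu v h huv)
    have hPP : ∀ u v, u ∈ P → ({u, v} : Finset α) ∈ H.filter (· ⊆ W) → v ∈ P ∨ v = s' ∨ v = t' := by
      intro u v hu huv
      by_cases h : v ∈ T
      · rw [hTeq] at h
        simp only [mem_insert, mem_singleton] at h
        exact Or.inr h
      · exact Or.inl (hP.2 u hu v h huv)
    -- both ends on one side of each separation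
    have side1 : (∀ z ∈ ({x, y} : Finset α), z ∈ L ∨ z = s ∨ z = t) ∨
        (∀ z ∈ ({x, y} : Finset α), z ∈ R ∨ z = s ∨ z = t) := by
      have gx := cls x hxW
      have gy := cls y hyW
      by_cases hxL : x ∈ L
      · left
        intro z hz
        simp only [mem_insert, mem_singleton] at hz
        rcases hz with rfl | rfl
        · exact Or.inl hxL
        · exact hLL x z hxL hF
      · by_cases hyL : y ∈ L
        · left
          intro z hz
          simp only [mem_insert, mem_singleton] at hz
          rcases hz with rfl | rfl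
          · exact hLL y z hyL hF'
          · exact Or.inl hyL
        · right
          intro z hz
          simp only [mem_insert, mem_singleton] at hz
          rcases hz with rfl | rfl
          · exact gx.resolve_left hxL
          · exact gy.resolve_left hyL
    have side2 : (∀ z ∈ ({x, y} : Finset α), z ∈ P ∨ z = s' ∨ z = t') ∨
        (∀ z ∈ ({x, y} : Finset α), z ∈ Q ∨ z = s' ∨ z = t') := by
      have gx := cls2 x hxW
      have gy := cls2 y hyW
      by_cases hxL : x ∈ P
      · left
        intro z hz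
        simp only [mem_insert, mem_singleton] at hz
        rcases hz with rfl | rfl
        · exact Or.inl hxL
        · exact hPP x z hxL hF
      · by_cases hyL : y ∈ P
        · left
          intro z hz
          simp only [mem_insert, mem_singleton] at hz
          rcases hz with rfl | rfl
          · exact hPP y z hyL hF'
          · exact Or.inl hyL
        · right
          intro z hz
          simp only [mem_insert, mem_singleton] at hz
          rcases hz with rfl | rfl
          · exact gx.resolve_left hxL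
          · exact gy.resolve_left hyL
    have ht's : t' ≠ s := Ne.symm hst''
    rcases side1 with f1 | f1 <;> rcases side2 with f2 | f2
    · refine ⟨A1, by simp, ?_⟩
      intro z hz
      simp only [hA1, mem_insert, mem_inter]
      rcases f1 z hz with h | h | h <;> rcases f2 z hz with h' | h' | h'
      · exact Or.inr (Or.inr ⟨h', h⟩)
      · exact Or.inr (Or.inl h')
      · exact absurd (h' ▸ h) ht'L
      · exact Or.inl h
      · exact Or.inl h
      · exact Or.inl h
      · exact absurd (h ▸ h') htP
      · exact Or.inr (Or.inl h')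
      · exact absurd (h.symm.trans h') htt'
    · refine ⟨A3, by simp, ?_⟩
      intro z hz
      simp only [hA3, mem_insert, mem_inter]
      rcases f1 z hz with h | h | h <;> rcases f2 z hz with h' | h' | h'
      · exact Or.inr (Or.inr ⟨h', h⟩)
      · exact Or.inr (Or.inl h')
      · exact absurd (h' ▸ h) ht'L
      · exact absurd (h ▸ h') hsQ
      · exact Or.inr (Or.inl h')
      · exact absurd (h.symm.trans h') hst''
      · exact Or.inl h
      · exact Or.inl h
      · exact Or.inl h
    · refine ⟨A2, by simp, ?_⟩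
      intro z hz
      simp only [hA2, mem_insert, mem_inter]
      rcases f1 z hz with h | h | h <;> rcases f2 z hz with h' | h' | h'
      · exact Or.inr (Or.inr ⟨h', h⟩)
      · exact absurd (h' ▸ h) hs'R
      · exact Or.inr (Or.inl h')
      · exact Or.inl h
      · exact Or.inl h
      · exact Or.inl h
      · exact absurd (h ▸ h') htP
      · exact absurd (h.symm.trans h') hts'
      · exact Or.inr (Or.inl h')
    · refine ⟨A4, by simp, ?_⟩
      intro z hz
      simp only [hA4, mem_insert, mem_inter]
      rcases f1 z hz with h | h | h <;> rcases f2 z hz with h' | h' | h'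
      · exact Or.inr (Or.inr ⟨h', h⟩)
      · exact absurd (h' ▸ h) hs'R
      · exact Or.inr (Or.inl h')
      · exact absurd (h ▸ h') hsQ
      · exact absurd (h.symm.trans h') hss'
      · exact Or.inr (Or.inl h')
      · exact Or.inl h
      · exact Or.inl h
      · exact Or.inl h
  have hprop : ∀ A ∈ ({A1, A2, A3, A4} : Finset (Finset α)), 2 ≤ A.card ∧ A ⊆ W ∧ A ≠ W := by
    intro A hA
    simp only [mem_insert, mem_singleton] at hA
    rcases hA with h | h | h | h <;> rw [h]
    · exact ⟨c1, w1, n1⟩
    · exact ⟨c2, w2, n2⟩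
    · exact ⟨c3, w3, n3⟩
    · exact ⟨c4, w4, n4⟩
  have hge := hM _ hprop hcov
  have hle := sum_four A1 A2 A3 A4 c1 c2 c3
  have e1 : w A1 ≤ 2 * ((P ∩ L).card : ℤ) + 1 := w_ins _ _ _
  have e2 : w A2 ≤ 2 * ((P ∩ R).card : ℤ) + 1 := w_ins _ _ _
  have e3 : w A3 ≤ 2 * ((Q ∩ L).card : ℤ) + 1 := w_ins _ _ _
  have e4 : w A4 ≤ 2 * ((Q ∩ R).card : ℤ) + 1 := w_ins _ _ _
  have hPQ : ∀ x ∈ P, x ∉ Q := by
    intro x hx hxQ
    rw [hQ, mem_sdiff, mem_union, not_or] at hxQ
    exact hxQ.2.1 hx
  have k1 : (P ∩ L).card + (Q ∩ L).card + 1 ≤ L.card := by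
    have hd : Disjoint (P ∩ L) (Q ∩ L) := by
      rw [disjoint_left]
      intro x hx hx'
      exact hPQ x (mem_inter.1 hx).1 (mem_inter.1 hx').1
    rw [← card_union_of_disjoint hd]
    have hsub : (P ∩ L) ∪ (Q ∩ L) ⊆ L.erase s' := by
      intro x hx
      rw [mem_erase]
      rcases mem_union.1 hx with h | h
      · rw [mem_inter] at h
        exact ⟨fun h' => hs'P (h' ▸ h.1), h.2⟩
      · rw [mem_inter] at h
        exact ⟨fun h' => hs'Q (h' ▸ h.1), h.2⟩
    have := card_le_card hsub
    rw [card_erase_of_mem hs'L] at this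
    have hpos : 0 < L.card := card_pos.2 ⟨_, hs'L⟩
    omega
  have k2 : (P ∩ R).card + (Q ∩ R).card + 1 ≤ R.card := by
    have hd : Disjoint (P ∩ R) (Q ∩ R) := by
      rw [disjoint_left]
      intro x hx hx'
      exact hPQ x (mem_inter.1 hx).1 (mem_inter.1 hx').1
    rw [← card_union_of_disjoint hd]
    have hsub : (P ∩ R) ∪ (Q ∩ R) ⊆ R.erase t' := by
      intro x hx
      rw [mem_erase]
      rcases mem_union.1 hx with h | h
      · rw [mem_inter] at h
        exact ⟨fun h' => ht'P (h' ▸ h.1), h.2⟩
      · rw [mem_inter] at h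
        exact ⟨fun h' => ht'Q (h' ▸ h.1), h.2⟩
    have := card_le_card hsub
    rw [card_erase_of_mem ht'R] at this
    have hpos : 0 < R.card := card_pos.2 ⟨_, ht'R⟩
    omega
  have k3 : L.card + R.card + 2 ≤ W.card := by
    have hu : (L ∪ {s, t}).card = L.card + 2 := by
      rw [card_union_of_disjoint, card_pair hst]
      rw [disjoint_right]
      intro x hx
      simp only [mem_insert, mem_singleton] at hx
      rcases hx with rfl | rfl
      · exact hsL
      · exact htL
    have hsub : L ∪ {s, t} ⊆ W := by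
      intro x hx
      simp only [mem_union, mem_insert, mem_singleton] at hx
      rcases hx with h | rfl | rfl
      · exact hLW h
      · exact hS.sW
      · exact hS.tW
    have := card_sdiff_add_card_eq_card hsub
    rw [hu, ← hR] at this
    omega
  have : ((P ∩ L).card : ℤ) + (Q ∩ L).card + 1 ≤ L.card := by exact_mod_cast k1
  have : ((P ∩ R).card : ℤ) + (Q ∩ R).card + 1 ≤ R.card := by exact_mod_cast k2
  have : (L.card : ℤ) + R.card + 2 ≤ W.card := by exact_mod_cast k3
  linarith

end Pool.Agent.GRB
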