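import Pool.Agent.GRB.GL

/-!
# GRB/Suf: 3-connected M-connected graphs are globally rigid at every generic configuration
-/

namespace Pool.Agent.GRB

open Finset Pool.Agent.GRA

variable {α : Type} [DecidableEq α] [Fintype α]

theorem suf {E : Finset (Finset α)} (hE : IsG E) (hM : MC E) (hC : Conn E 2) {p q : Cfg α}
    (hp : Gen p) (hq : Eqv E p q) (u v : α) : dsq (p u) (p v) = dsq (q u) (q v) := by
  have hEu : E.filter (· ⊆ (univ : Finset α)) = E := filter_true_of_mem fun e _ => subset_univ e
  refine global_link hp _ univ rfl _ E rfl hE (MC_iff.1 hM) q (by rwa [hEu]) u (mem_univ _) v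
    (mem_univ _) ?_
  intro S hS hu hv
  rw [hEu]
  exact hC S hS u v hu hv

end Pool.Agent.GRB
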