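import Pool.Agent.GRB.Row

/-!
# GRB/Tan0: moving a configuration by an isometry

PROOF. Identify the plane with `ℂ`: let `z = (p d - p c) / (q d - q c)` (`q c ≠ q d` because `dsq (q c) (q d) = dsq (p c) (p d) ≠ 0`),
`|z| = 1`, and `q' x = p c + z (q x - q c)`. In coordinates `z = (z0, z1)` with `z0² + z1² = 1`.
-/

namespace Pool.Agent.GRB

open Finset Pool.Agent.GRA

variable {α : Type} [DecidableEq α] [Fintype α]

/-- Move a configuration by an isometry such that two given vertices are at given places. -/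
theorem exists_pinned {p q : Cfg α} {c d : α} (hcd : p c ≠ p d)
    (h : dsq (p c) (p d) = dsq (q c) (q d)) :
    ∃ q' : Cfg α, (∀ u v, dsq (q' u) (q' v) = dsq (q u) (q v)) ∧ q' c = p c ∧ q' d = p d := by
  obtain ⟨a0, ha0⟩ : ∃ a0, a0 = p d 0 - p c 0 := ⟨_, rfl⟩
  obtain ⟨a1, ha1⟩ : ∃ a1, a1 = p d 1 - p c 1 := ⟨_, rfl⟩
  obtain ⟨b0, hb0⟩ : ∃ b0, b0 = q d 0 - q c 0 := ⟨_, rfl⟩
  obtain ⟨b1, hb1⟩ : ∃ b1, b1 = q d 1 - q c 1 := ⟨_, rfl⟩
  have hN : b0 ^ 2 + b1 ^ 2 = a0 ^ 2 + a1 ^ 2 := by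
    unfold dsq at h
    rw [ha0, ha1, hb0, hb1]
    linear_combination -h
  have hpos : 0 < b0 ^ 2 + b1 ^ 2 := by
    rw [hN]
    by_contra hcon
    have h0 : a0 = 0 := by nlinarith [sq_nonneg a0, sq_nonneg a1]
    have h1 : a1 = 0 := by nlinarith [sq_nonneg a0, sq_nonneg a1]
    apply hcd
    funext i
    fin_cases i
    · show p c 0 = p d 0
      linarith
    · show p c 1 = p d 1
      linarith
  have hne : b0 ^ 2 + b1 ^ 2 ≠ 0 := hpos.ne'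
  obtain ⟨z0, hz0⟩ : ∃ z0, z0 = (a0 * b0 + a1 * b1) / (b0 ^ 2 + b1 ^ 2) := ⟨_, rfl⟩
  obtain ⟨z1, hz1⟩ : ∃ z1, z1 = (a1 * b0 - a0 * b1) / (b0 ^ 2 + b1 ^ 2) := ⟨_, rfl⟩
  have hz : z0 ^ 2 + z1 ^ 2 = 1 := by
    rw [hz0, hz1, div_pow, div_pow, ← add_div, div_eq_one_iff_eq (pow_ne_zero 2 hne)]
    have : (a0 * b0 + a1 * b1) ^ 2 + (a1 * b0 - a0 * b1) ^ 2 =
        (a0 ^ 2 + a1 ^ 2) * (b0 ^ 2 + b1 ^ 2) := by ring
    rw [this, ← hN]
    ring
  have e0 : z0 * b0 - z1 * b1 = a0 := by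
    rw [hz0, hz1]
    field_simp
    ring
  have e1 : z0 * b1 + z1 * b0 = a1 := by
    rw [hz0, hz1]
    field_simp
    ring
  refine ⟨fun x => ![p c 0 + (z0 * (q x 0 - q c 0) - z1 * (q x 1 - q c 1)),
    p c 1 + (z0 * (q x 1 - q c 1) + z1 * (q x 0 - q c 0))], ?_, ?_, ?_⟩
  · intro u v
    unfold dsq
    simp only [Matrix.cons_val_zero, Matrix.cons_val_one]
    have : ∀ X Y : ℝ, (z0 * X - z1 * Y) ^ 2 + (z0 * Y + z1 * X) ^ 2 = X ^ 2 + Y ^ 2 := by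
      intro X Y
      linear_combination (X ^ 2 + Y ^ 2) * hz
    have h2 := this (q u 0 - q v 0) (q u 1 - q v 1)
    linear_combination h2
  · funext i
    fin_cases i
    · simp
    · simp
  · funext i
    fin_cases i
    · show p c 0 + (z0 * (q d 0 - q c 0) - z1 * (q d 1 - q c 1)) = p d 0
      rw [← hb0, ← hb1, e0, ha0]
      ring
    · show p c 1 + (z0 * (q d 1 - q c 1) + z1 * (q d 0 - q c 0)) = p d 1
      rw [← hb0, ← hb1, e1, ha1]
      ring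

end Pool.Agent.GRB
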