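import Pool.Agent.GRB.RowEq
import Pool.Agent.GRB.Ker
import Pool.Agent.GRB.Tan0

/-!
# GRB/Tan: a vertex joined to three vertices of a rigid part

PROOF of `tan_step`. First make `q` pinned: choose `{c0, d0} ∈ I` (`I` is nonempty: `|W| ≥ 3`). Since
`dsq (p c0) (p d0) = dsq (q c0) (q d0)`, there is an isometry of the plane mapping `q c0` to `p c0` and `q d0` to
`p d0`; replacing `q` by its image changes no squared distance of `q`. So we may assume `q c0 = p c0`,
`q d0 = p d0` (`exists_pinned`).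
Rows of `I` at `q` are independent (`rows_of_eqv`).
Let `δ` be a derivation of `ℝ` with `δ (p x i) = 0` for all `x ∈ W`. For `e = {u,v} ∈ I`:
`0 = δ (dsq (p u) (p v)) = δ (dsq (q u) (q v)) = 2 ip (row q e) (δ q)`, and `δ q` vanishes at `c0, d0`, so by
`ker_pinned` `δ (q x i) = 0` for `x ∈ W`.
Let `δ_0, δ_1` be derivations with `δ_i (p v j) = if i = j then 1 else 0` and `δ_i (p x j) = 0` for `x ≠ v`
(`exists_der`). Put `X = p v`, `Y = q v` and `J i k = δ_i (Y k)`. Applying `δ_i` to `dsq X (p u) = dsq Y (q u)` for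
`u = a, b, c`: `X i - p u i = Σ_k J i k (Y k - q u k)` (*). Differences: `p b i - p a i = Σ_k J i k (q b k - q a k)`,
`p c i - p a i = Σ_k J i k (q c k - q a k)`. Since `area (p a) (p b) (p c) ≠ 0`, the matrix `J` is invertible and
`area (q a) (q b) (q c) ≠ 0`; by Cramer the entries of `J` are rational expressions in the coordinates of
`p a, p b, p c, q a, q b, q c`, so `δ_i` kills them (or: apply `δ_l` to the two difference equations:
`0 = Σ_k δ_l (J i k) (q b k - q a k)` and the same for `c`, so `δ_l (J i k) = 0`).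
Put `Z k = Y k - q a k`, so `Σ_i (Σ_k J i k Z k)² = Σ_k Z k²` by (*) and `dsq X (p a) = dsq Y (q a)`. Apply `δ_l`
(`δ_l (Z k) = J l k`): `Σ_i (Σ_k J i k Z k)(Σ_k J i k J l k) = Σ_k Z k J l k`, for `l = 0, 1`. Apply `δ_m` again:
`Σ_i (Σ_k J i k J m k)(Σ_k J i k J l k) = Σ_k J m k J l k`: with `G = J Jᵀ`: `G G = G`, `G` invertible, so `G = 1`
and `J` is orthogonal. So `dsq (p a) (p b) = |J (q b - q a)|² = dsq (q a) (q b)`.
-/

namespace Pool.Agent.GRB

open Finset Pool.Agent.GRA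

variable {α : Type} [DecidableEq α] [Fintype α]

private theorem orth {J : Fin 2 → Fin 2 → ℝ}
    (hG : ∀ l i, J i 0 * J l 0 + J i 1 * J l 1 = if l = i then 1 else 0) (w0 w1 : ℝ) :
    (w0 * J 0 0 + w1 * J 0 1) ^ 2 + (w0 * J 1 0 + w1 * J 1 1) ^ 2 = w0 ^ 2 + w1 ^ 2 := by
  have h1 := hG 0 0
  have h2 := hG 1 1
  have h3 := hG 1 0
  rw [if_pos rfl] at h1 h2
  rw [if_neg (by decide)] at h3
  have e1 : J 0 0 ^ 2 = J 1 1 ^ 2 := by
    linear_combination (J 0 0 * J 1 0 - J 0 1 * J 1 1) * h3 - J 0 0 ^ 2 * h2 + J 1 1 ^ 2 * h1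
  have e2 : J 0 1 ^ 2 = J 1 0 ^ 2 := by linear_combination h1 - h2 - e1
  have e3 : (J 0 0 * J 0 1 + J 1 0 * J 1 1) = 0 := by
    linear_combination (-(J 0 0 * J 0 1 + J 1 0 * J 1 1)) * h2 +
      (J 0 1 * J 1 0 + J 0 0 * J 1 1) * h3 - J 1 0 * J 1 1 * e1 - J 1 0 * J 1 1 * e2
  linear_combination w0 ^ 2 * (e1 + h2) + w1 ^ 2 * (e2 + h2) + 2 * w0 * w1 * e3

private theorem det_zero {x y a b c d : ℝ} (h : a * d - b * c ≠ 0) (h1 : 0 = a * x + b * y)
    (h2 : 0 = c * x + d * y) : x = 0 ∧ y = 0 := by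
  constructor
  · have : (a * d - b * c) * x = 0 := by linear_combination b * h2 - d * h1
    rcases mul_eq_zero.1 this with h' | h'
    · exact absurd h' h
    · exact h'
  · have : (a * d - b * c) * y = 0 := by linear_combination c * h1 - a * h2
    rcases mul_eq_zero.1 this with h' | h'
    · exact absurd h' h
    · exact h'

private theorem tan_core {W : Finset α} {p q : Cfg α} {v a b c : α} {D : Fin 2 → Derivation ℤ ℝ ℝ}
    (hD1 : ∀ i j, D i (p v j) = if i = j then 1 else 0)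
    (hD0 : ∀ i, ∀ x ∈ W, ∀ j, D i (p x j) = 0) (hDq : ∀ i, ∀ x ∈ W, ∀ j, D i (q x j) = 0)
    (harea : area (p a) (p b) (p c) ≠ 0) (ha : a ∈ W) (hb : b ∈ W) (hc : c ∈ W)
    (hva : dsq (p v) (p a) = dsq (q v) (q a)) (hvb : dsq (p v) (p b) = dsq (q v) (q b))
    (hvc : dsq (p v) (p c) = dsq (q v) (q c)) :
    dsq (p a) (p b) = dsq (q a) (q b) := by
  have star : ∀ i, ∀ u ∈ W, dsq (p v) (p u) = dsq (q v) (q u) →
      p v i - p u i = (q v 0 - q u 0) * D i (q v 0) + (q v 1 - q u 1) * D i (q v 1) := by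
    intro i u hu h
    have h1 := congrArg (D i) h
    rw [der_dsq, der_dsq, ip_row, ip_row, hD1, hD1, hD0 i u hu, hD0 i u hu, hDq i u hu,
      hDq i u hu] at h1
    fin_cases i
    · simp at h1 ⊢
      linarith
    · simp at h1 ⊢
      linarith
  have dif : ∀ i, ∀ u ∈ W, dsq (p v) (p u) = dsq (q v) (q u) →
      p u i - p a i = (q u 0 - q a 0) * D i (q v 0) + (q u 1 - q a 1) * D i (q v 1) := by
    intro i u hu h
    linear_combination star i a ha hva - star i u hu h
  have hdet : area (p a) (p b) (p c) =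
      (D 0 (q v 0) * D 1 (q v 1) - D 0 (q v 1) * D 1 (q v 0)) * area (q a) (q b) (q c) := by
    unfold area
    rw [dif 0 b hb hvb, dif 1 b hb hvb, dif 0 c hc hvc, dif 1 c hc hvc]
    ring
  have hq0 : area (q a) (q b) (q c) ≠ 0 := by
    intro h
    rw [h, mul_zero] at hdet
    exact harea hdet
  have ddif : ∀ l i, ∀ u ∈ W, dsq (p v) (p u) = dsq (q v) (q u) →
      0 = (q u 0 - q a 0) * D l (D i (q v 0)) + (q u 1 - q a 1) * D l (D i (q v 1)) := by
    intro l i u hu h
    have h1 := congrArg (D l) (dif i u hu h)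
    rw [map_sub, map_add, Derivation.leibniz, Derivation.leibniz, map_sub, map_sub, hD0 l u hu,
      hD0 l a ha, hDq l u hu, hDq l a ha, hDq l u hu, hDq l a ha] at h1
    simp only [smul_eq_mul, sub_self, mul_zero, add_zero] at h1
    exact h1
  have dJ : ∀ l i, D l (D i (q v 0)) = 0 ∧ D l (D i (q v 1)) = 0 := by
    intro l i
    refine det_zero ?_ (ddif l i b hb hvb) (ddif l i c hc hvc)
    intro h
    apply hq0
    unfold area
    linarith
  have hG : ∀ l i, D i (q v 0) * D l (q v 0) + D i (q v 1) * D l (q v 1) =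
      if l = i then 1 else 0 := by
    intro l i
    have h1 := congrArg (D l) (star i a ha hva)
    rw [map_sub, map_add, Derivation.leibniz, Derivation.leibniz, map_sub, map_sub, hD0 l a ha,
      hDq l a ha, hDq l a ha, hD1, (dJ l i).1, (dJ l i).2] at h1
    simp only [smul_eq_mul, sub_zero, mul_zero, zero_add] at h1
    exact h1.symm
  have h1 := orth (J := fun i k => D i (q v k)) hG (q b 0 - q a 0) (q b 1 - q a 1)
  have h2 := dif 0 b hb hvb
  have h3 := dif 1 b hb hvb
  rw [← h2, ← h3] at h1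
  unfold dsq
  linarith

theorem tan_step {I : Finset (Finset α)} (hI : IsG I) (hs : Sparse I) {W : Finset α}
    (hIW : ∀ e ∈ I, e ⊆ W) (hcard : I.card + 3 = 2 * W.card) {p q : Cfg α} (hp : Gen p)
    (hq : Eqv I p q) {v a b c : α} (hv : v ∉ W) (ha : a ∈ W) (hb : b ∈ W) (hc : c ∈ W)
    (hab : a ≠ b) (hac : a ≠ c) (hbc : b ≠ c)
    (hva : dsq (p v) (p a) = dsq (q v) (q a)) (hvb : dsq (p v) (p b) = dsq (q v) (q b))
    (hvc : dsq (p v) (p c) = dsq (q v) (q c)) :
    dsq (p a) (p b) = dsq (q a) (q b) := by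
  have hW3 : 3 ≤ W.card := by
    have h1 : ({a, b, c} : Finset α).card = 3 := Finset.card_eq_three.2 ⟨a, b, c, hab, hac, hbc, rfl⟩
    rw [← h1]
    refine Finset.card_le_card ?_
    intro x hx
    simp only [Finset.mem_insert, Finset.mem_singleton] at hx
    rcases hx with rfl | rfl | rfl
    · exact ha
    · exact hb
    · exact hc
  have hI0 : 0 < I.card := by omega
  obtain ⟨e0, he0⟩ := Finset.card_pos.1 hI0
  obtain ⟨c0, d0, hcd0, rfl⟩ := Finset.card_eq_two.1 (hI e0 he0)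
  have hc0 : c0 ∈ W := hIW _ he0 (by simp)
  have hd0 : d0 ∈ W := hIW _ he0 (by simp)
  have hpcd : p c0 ≠ p d0 := gen_ne hp hcd0
  obtain ⟨q', hq', hqc, hqd⟩ := exists_pinned (q := q) hpcd (hq c0 d0 he0)
  have hq1 : Eqv I p q' := fun u w huw => by rw [hq u w huw, hq']
  have hrow := rows_of_eqv hI hs hp hq1
  have key : ∀ δ : Derivation ℤ ℝ ℝ, (∀ x ∈ W, ∀ j, δ (p x j) = 0) →
      ∀ x ∈ W, ∀ j, δ (q' x j) = 0 := by
    intro δ hδ x hx j
    have h1 := ker_pinned hI hIW hcard hrow (u := fun x i => δ (q' x i)) ?_ hc0 hd0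
      (by rw [hqc, hqd]; exact hpcd) ?_ ?_ x hx
    · exact congrFun h1 j
    · intro e he
      obtain ⟨u, w, huw, rfl⟩ := Finset.card_eq_two.1 (hI e he)
      have hu : u ∈ W := hIW _ he (by simp)
      have hw : w ∈ W := hIW _ he (by simp)
      have h2 := congrArg δ (hq1 u w he)
      rw [der_dsq, der_dsq, ip_row p, hδ u hu, hδ u hu, hδ w hw, hδ w hw] at h2
      simp only [sub_self, mul_zero, add_zero] at h2
      linarith
    · funext i
      show δ (q' c0 i) = 0
      rw [hqc]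
      exact hδ c0 hc0 i
    · funext i
      show δ (q' d0 i) = 0
      rw [hqd]
      exact hδ d0 hd0 i
  have hD : ∀ i : Fin 2, ∃ δ : Derivation ℤ ℝ ℝ,
      ∀ x j, δ (p x j) = if x = v then (if i = j then 1 else 0) else 0 :=
    fun i => exists_der hp (fun x j => if x = v then (if i = j then 1 else 0) else 0)
  choose D hD using hD
  have hvW : ∀ x ∈ W, x ≠ v := by
    rintro x hx rfl
    exact hv hx
  have hD0 : ∀ i, ∀ x ∈ W, ∀ j, D i (p x j) = 0 := by
    intro i x hx j
    rw [hD, if_neg (hvW x hx)]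
  have h := tan_core (D := D) (q := q') (fun i j => by rw [hD, if_pos rfl]) hD0
    (fun i => key (D i) (hD0 i)) (gen_area hp hab hac hbc) ha hb hc
    (by rw [hq']; exact hva) (by rw [hq']; exact hvb) (by rw [hq']; exact hvc)
  rw [h, hq']

end Pool.Agent.GRB
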